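import Mathlib

set_option autoImplicit false

/-!
Modules over Artinian chain rings are distributive over their endomorphism rings.
Left modules over a ring `B`.
-/

namespace Pool.Agent.H86.EndoDist

universe u v

/-- elementwise form of distributivity over the endomorphism ring -/
def D (B : Type u) (M : Type v) [Ring B] [AddCommGroup M] [Module B M] : Prop :=
  ∀ y z : M, ∃ f g h k : M →ₗ[B] M,
    f (y + z) = g y ∧ h (y + z) = k z ∧ f (y + z) + h (y + z) = y + z

/-- the lattice form: the lattice of `End_B(M)`-submodules of `M` is distributive -/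
def Endo (B : Type u) (M : Type v) [Ring B] [AddCommGroup M] [Module B M] : Prop :=
  ∀ U V W : Submodule (Module.End B M) M, U ⊓ (V ⊔ W) = (U ⊓ V) ⊔ (U ⊓ W)

theorem D.endo {B : Type u} {M : Type v} [Ring B] [AddCommGroup M] [Module B M] (h : D B M) :
    Endo B M := by
  intro U V W
  apply le_antisymm
  · rintro x ⟨hxU, hx⟩
    obtain ⟨y, hy, z, hz, rfl⟩ := Submodule.mem_sup.mp hx
    obtain ⟨f, g, h', k, h1, h2, h3⟩ := h y z
    rw [← h3]
    apply Submodule.add_mem_sup
    · refine ⟨?_, ?_⟩
      · exact U.smul_mem (f : Module.End B M) hxU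
      · rw [h1]
        exact V.smul_mem (g : Module.End B M) hy
    · refine ⟨?_, ?_⟩
      · exact U.smul_mem (h' : Module.End B M) hxU
      · rw [h2]
        exact W.smul_mem (k : Module.End B M) hz
  · exact le_inf (sup_le inf_le_left inf_le_left)
      (sup_le (inf_le_right.trans le_sup_left) (inf_le_right.trans le_sup_right))

/-- structure of an Artinian chain ring, elementwise -/
structure ChainData (B : Type u) [Ring B] (p : B) (n : ℕ) : Prop where
  pow_eq : p ^ n = 0
  left : ∀ x : B, ∃ k : ℕ, ∃ w : Bˣ, x = w * p ^ k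
  right : ∀ x : B, ∃ k : ℕ, ∃ w : Bˣ, x = p ^ k * w
  swap : ∀ x : B, ∃ y : B, p * x = y * p
  swap' : ∀ x : B, ∃ y : B, x * p = p * y

lemma ChainData.right_dvd {B : Type u} [Ring B] {p : B} {n : ℕ} (hB : ChainData B p n) (x y : B) :
    ∃ c : B, x = y * c ∨ y = x * c := by
  obtain ⟨k, w, hx⟩ := hB.right x
  obtain ⟨l, w', hy⟩ := hB.right y
  rcases le_total k l with h | h
  · obtain ⟨j, rfl⟩ := Nat.exists_eq_add_of_le h
    refine ⟨(w⁻¹ : Bˣ) * (p ^ j * w'), Or.inr ?_⟩
    rw [hx, hy, mul_assoc, ← mul_assoc (w : B), Units.mul_inv, one_mul, ← mul_assoc, ← pow_add]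
  · obtain ⟨j, rfl⟩ := Nat.exists_eq_add_of_le h
    refine ⟨(w'⁻¹ : Bˣ) * (p ^ j * w), Or.inl ?_⟩
    rw [hx, hy, mul_assoc, ← mul_assoc (w' : B), Units.mul_inv, one_mul, ← mul_assoc, ← pow_add]

/-- annihilator computation -/
lemma ChainData.ann {B : Type u} [Ring B] {p : B} {n : ℕ} (hB : ChainData B p (n + 1))
    (hn : p ^ n ≠ 0) (k : ℕ) (hk : k ≤ n) (t : B) (ht : p ^ (n + 1 - k) * t = 0) :
    ∃ s, t = p ^ k * s := by
  obtain ⟨j, w, rfl⟩ := hB.right t
  by_cases hj : k ≤ j
  · obtain ⟨i, rfl⟩ := Nat.exists_eq_add_of_le hj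
    exact ⟨p ^ i * w, by rw [pow_add, mul_assoc]⟩
  · exfalso
    push Not at hj
    rw [← mul_assoc, ← pow_add, Units.mul_left_eq_zero] at ht
    apply hn
    obtain ⟨i, hi⟩ := Nat.exists_eq_add_of_le (show n + 1 - k + j ≤ n by omega)
    rw [hi, pow_add, ht, zero_mul]

/-- free modules over a chain ring satisfy Baer's criterion -/
lemma ChainData.baer {B : Type u} [Ring B] {p : B} {n : ℕ} (hB : ChainData B p (n + 1))
    (hn : p ^ n ≠ 0) (ι : Type v) : Module.Baer B (ι →₀ B) := by
  classical
  intro I g
  -- `I` is generated by a power of `p`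
  have hI : ∃ k, k ≤ n + 1 ∧ p ^ k ∈ I ∧ ∀ x ∈ I, ∃ c, x = c * p ^ k := by
    have hex : ∃ k, p ^ k ∈ I := ⟨n + 1, by rw [hB.pow_eq]; exact I.zero_mem⟩
    refine ⟨Nat.find hex, ?_, Nat.find_spec hex, ?_⟩
    · apply Nat.find_min'
      rw [hB.pow_eq]; exact I.zero_mem
    · intro x hx
      obtain ⟨j, w, rfl⟩ := hB.left x
      have hj : p ^ j ∈ I := by
        have := I.mul_mem_left ((w⁻¹ : Bˣ) : B) hx
        rwa [← mul_assoc, Units.inv_mul, one_mul] at this
      have hkj : Nat.find hex ≤ j := Nat.find_min' hex hj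
      obtain ⟨i, hi⟩ := Nat.exists_eq_add_of_le hkj
      refine ⟨w * p ^ i, ?_⟩
      rw [mul_assoc, ← pow_add, add_comm i, ← hi]
  obtain ⟨k, hk, hpk, hgen⟩ := hI
  rcases Nat.lt_or_ge n k with hk' | hk'
  · -- `I = 0`
    refine ⟨0, ?_⟩
    intro x hx
    obtain ⟨c, rfl⟩ := hgen x hx
    have hk2 : k = n + 1 := by omega
    have h0 : (⟨c * p ^ k, hx⟩ : I) = 0 := by
      ext
      simp [hk2, hB.pow_eq]
    rw [h0, map_zero, LinearMap.zero_apply]
  · set q := g ⟨p ^ k, hpk⟩ with hq
    have hann : ∀ i, p ^ (n + 1 - k) * q i = 0 := by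
      intro i
      have h1 : p ^ (n + 1 - k) • q = 0 := by
        rw [hq, ← map_smul]
        have h0 : (p ^ (n + 1 - k) • (⟨p ^ k, hpk⟩ : I)) = 0 := by
          ext
          simp only [Submodule.coe_smul, smul_eq_mul, Submodule.coe_zero]
          rw [← pow_add, Nat.sub_add_cancel (by omega), hB.pow_eq]
        rw [h0, map_zero]
      have h2 := congrArg (fun f : ι →₀ B => f i) h1
      simpa using h2
    choose s hs using fun i => hB.ann hn k hk' (q i) (hann i)
    set t : ι →₀ B := Finsupp.onFinset q.support (fun i => if q i = 0 then 0 else s i) (by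
      intro i hi
      rw [Finsupp.mem_support_iff]
      intro h
      simp [h] at hi) with ht
    have hpt : p ^ k • t = q := by
      ext i
      simp only [ht, Finsupp.smul_apply, Finsupp.onFinset_apply, smul_eq_mul]
      split_ifs with h
      · rw [mul_zero, h]
      · exact (hs i).symm
    refine ⟨LinearMap.toSpanSingleton B _ t, ?_⟩
    intro x hx
    obtain ⟨c, rfl⟩ := hgen x hx
    rw [LinearMap.toSpanSingleton_apply, mul_smul, hpt, hq, ← map_smul]
    rfl

lemma ChainData.swap_pow {B : Type u} [Ring B] {p : B} {n : ℕ} (hB : ChainData B p n)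
    (k : ℕ) (x : B) : ∃ y : B, p ^ k * x = y * p ^ k := by
  induction k generalizing x with
  | zero => exact ⟨x, by simp⟩
  | succ k ih =>
    obtain ⟨y, hy⟩ := hB.swap x
    obtain ⟨z, hz⟩ := ih y
    refine ⟨z, ?_⟩
    rw [pow_succ, mul_assoc, hy, ← mul_assoc, hz, mul_assoc]

lemma ChainData.mem_span {B : Type u} [Ring B] {p : B} {n : ℕ} (x : B)
    (hx : x ∈ Ideal.span {p ^ n}) : ∃ c, x = c * p ^ n := by
  rw [Ideal.mem_span_singleton'] at hx
  obtain ⟨c, hc⟩ := hx
  exact ⟨c, hc.symm⟩

lemma ChainData.twoSided {B : Type u} [Ring B] {p : B} {n : ℕ} (hB : ChainData B p (n + 1)) :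
    (Ideal.span {p ^ n} : Ideal B).IsTwoSided := by
  constructor
  intro a b ha
  obtain ⟨c, rfl⟩ := ChainData.mem_span a ha
  obtain ⟨y, hy⟩ := hB.swap_pow n b
  rw [mul_assoc, hy, ← mul_assoc]
  exact Ideal.mul_mem_left _ _ (Ideal.mem_span_singleton_self _)

lemma ChainData.quot {B : Type u} [Ring B] {p : B} {n : ℕ} (hB : ChainData B p (n + 1))
    [(Ideal.span {p ^ n} : Ideal B).IsTwoSided] :
    ChainData (B ⧸ (Ideal.span {p ^ n} : Ideal B))
      (Ideal.Quotient.mk (Ideal.span {p ^ n} : Ideal B) p) n where
  pow_eq := by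
    rw [← map_pow, Ideal.Quotient.eq_zero_iff_mem]
    exact Ideal.mem_span_singleton_self _
  left := by
    intro x
    obtain ⟨x, rfl⟩ := Ideal.Quotient.mk_surjective x
    obtain ⟨k, w, rfl⟩ := hB.left x
    refine ⟨k, Units.map (Ideal.Quotient.mk (Ideal.span {p ^ n} : Ideal B)).toMonoidHom w, ?_⟩
    simp
  right := by
    intro x
    obtain ⟨x, rfl⟩ := Ideal.Quotient.mk_surjective x
    obtain ⟨k, w, rfl⟩ := hB.right x
    refine ⟨k, Units.map (Ideal.Quotient.mk (Ideal.span {p ^ n} : Ideal B)).toMonoidHom w, ?_⟩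
    simp
  swap := by
    intro x
    obtain ⟨x, rfl⟩ := Ideal.Quotient.mk_surjective x
    obtain ⟨y, hy⟩ := hB.swap x
    refine ⟨Ideal.Quotient.mk _ y, ?_⟩
    rw [← map_mul, hy, map_mul]
  swap' := by
    intro x
    obtain ⟨x, rfl⟩ := Ideal.Quotient.mk_surjective x
    obtain ⟨y, hy⟩ := hB.swap' x
    refine ⟨Ideal.Quotient.mk _ y, ?_⟩
    rw [← map_mul, hy, map_mul]

/-- coordinatewise statement in `B` -/
lemma ChainData.coord {B : Type u} [Ring B] {p : B} {n : ℕ} (hB : ChainData B p n) (y z : B) :
    ∃ (a b c d : B), (y + z) * a = y * b ∧ (y + z) * c = z * d ∧ (y + z) * a + (y + z) * c = y + z := by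
  obtain ⟨c, h | h⟩ := hB.right_dvd y z
  · -- `y = z * c`
    exact ⟨0, 0, 1, c + 1, by simp, by rw [mul_one, mul_add, mul_one, ← h], by simp⟩
  · exact ⟨1, 1 + c, 0, 0, by rw [mul_one, mul_add, mul_one, ← h], by simp, by simp⟩

theorem D_of_chain : ∀ (n : ℕ) (B : Type u) [Ring B] (p : B), ChainData B p n →
    ∀ (M : Type v) [AddCommGroup M] [Module B M], D B M := by
  intro n
  induction n with
  | zero =>
    intro B _ p hB M _ _ y z
    have h1 : (1 : B) = 0 := by simpa using hB.pow_eq
    have h2 : ∀ m : M, m = 0 := fun m => by rw [← one_smul B m, h1, zero_smul]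
    exact ⟨0, 0, 0, 0, by simp, by simp, by rw [h2 (y + z)]; simp⟩
  | succ n ih =>
    intro B _ p hB M _ _
    by_cases hn : p ^ n = 0
    · exact ih B p ⟨hn, hB.left, hB.right, hB.swap, hB.swap'⟩ M
    · classical
      obtain ⟨s, hs, hmax⟩ := exists_maximal_linearIndepOn B (id : M → M)
      set L : (s →₀ B) →ₗ[B] M := Finsupp.linearCombination B (fun x : s => (x : M)) with hL
      have hinj : Function.Injective L := by
        have : LinearIndependent B (fun x : s => (x : M)) := hs
        exact this
      obtain ⟨h, hh⟩ := (hB.baer hn s).extension_property L hinj LinearMap.id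
      have hhL : ∀ q, h (L q) = q := fun q => by
        have := congrArg (fun f => f q) hh
        simpa using this
      -- `p ^ n` kills the kernel of `h`
      have hker : ∀ m : M, h m = 0 → p ^ n • m = 0 := by
        intro m hm
        have hms : m ∉ s := by
          intro hms
          have h1 : L (Finsupp.single ⟨m, hms⟩ 1) = m := by simp [hL]
          have h2 := hhL (Finsupp.single ⟨m, hms⟩ 1)
          rw [h1, hm] at h2
          have h3 : (1 : B) = 0 := by
            have := congrArg (fun f : s →₀ B => f ⟨m, hms⟩) h2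
            simpa using this.symm
          exact hn (by rw [← mul_one (p ^ n), h3, mul_zero])
        obtain ⟨a, ha, ham⟩ := hmax m hms
        have h4 : a • m ∈ LinearMap.range L := by
          rw [hL, Finsupp.range_linearCombination]
          simpa using ham
        obtain ⟨q, hq⟩ := h4
        have h5 : q = 0 := by
          rw [← hhL q, hq, map_smul, hm, smul_zero]
        rw [h5, map_zero] at hq
        obtain ⟨k, w, rfl⟩ := hB.left a
        have h6 : p ^ k • m = 0 := by
          have : ((w⁻¹ : Bˣ) : B) • (((w : B) * p ^ k) • m) = 0 := by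
            rw [← hq, smul_zero]
          rwa [← mul_smul, ← mul_assoc, Units.inv_mul, one_mul] at this
        have hk : k ≤ n := by
          by_contra hcon
          push Not at hcon
          obtain ⟨i, rfl⟩ := Nat.exists_eq_add_of_le (Nat.succ_le_of_lt hcon)
          apply ha
          rw [Nat.succ_eq_add_one, pow_add, hB.pow_eq, zero_mul, mul_zero]
        obtain ⟨i, rfl⟩ := Nat.exists_eq_add_of_le hk
        rw [add_comm, pow_add, mul_smul, h6, smul_zero]
      -- the complement
      set K := LinearMap.ker h with hK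
      have := hB.twoSided
      set I : Ideal B := Ideal.span {p ^ n} with hI
      have htors : Module.IsTorsionBySet B K (I : Set B) := by
        intro x a
        obtain ⟨c, hc⟩ := ChainData.mem_span (a : B) a.2
        have h1 : p ^ n • (x : M) = 0 := hker x.1 x.2
        ext
        change (a : B) • (x : M) = 0
        rw [hc, mul_smul, h1, smul_zero]
      let _ := htors.module
      have hIH : D (B ⧸ I) K := ih (B ⧸ I) _ hB.quot K
      -- transfer linear maps
      let tr : (K →ₗ[B ⧸ I] K) → (K →ₗ[B] K) := fun f =>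
        { toFun := f
          map_add' := f.map_add
          map_smul' := fun b x => by
            have h1 : b • x = Ideal.Quotient.mk I b • x := rfl
            rw [h1, f.map_smul]
            rfl }
      have htr : ∀ f x, tr f x = f x := fun f x => rfl
      -- projection on `K`
      let P : M →ₗ[B] K := LinearMap.codRestrict K (LinearMap.id - L ∘ₗ h) (by
        intro m
        simp [hK, hhL])
      have hP : ∀ m, ((P m : K) : M) = m - L (h m) := fun m => rfl
      intro y z
      obtain ⟨f, g, f', k, e1, e2, e3⟩ := hIH (P y) (P z)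
      choose a b c d c1 c2 c3 using fun i : s => hB.coord (h y i) (h z i)
      -- diagonal maps
      let Rm : (s → B) → ((s →₀ B) →ₗ[B] (s →₀ B)) := fun t =>
        { toFun := fun q => Finsupp.onFinset q.support (fun i => q i * t i) (by
            intro i hi
            rw [Finsupp.mem_support_iff]
            intro h0
            simp [h0] at hi)
          map_add' := fun q q' => by ext i; simp [add_mul]
          map_smul' := fun r q => by ext i; simp [mul_assoc] }
      have hRm : ∀ t q i, Rm t q i = q i * t i := fun t q i => rfl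
      refine ⟨K.subtype ∘ₗ tr f ∘ₗ P + L ∘ₗ Rm a ∘ₗ h, K.subtype ∘ₗ tr g ∘ₗ P + L ∘ₗ Rm b ∘ₗ h,
        K.subtype ∘ₗ tr f' ∘ₗ P + L ∘ₗ Rm c ∘ₗ h, K.subtype ∘ₗ tr k ∘ₗ P + L ∘ₗ Rm d ∘ₗ h, ?_, ?_, ?_⟩
      · have h1 : Rm a (h (y + z)) = Rm b (h y) := by
          ext i
          rw [hRm, hRm, map_add, Finsupp.add_apply]
          exact c1 i
        simp only [LinearMap.add_apply, LinearMap.comp_apply, htr, map_add P, e1]
        rw [h1]
      · have h1 : Rm c (h (y + z)) = Rm d (h z) := by
          ext i
          rw [hRm, hRm, map_add, Finsupp.add_apply]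
          exact c2 i
        simp only [LinearMap.add_apply, LinearMap.comp_apply, htr, map_add P, e2]
        rw [h1]
      · have h1 : Rm a (h (y + z)) + Rm c (h (y + z)) = h (y + z) := by
          ext i
          rw [Finsupp.add_apply, hRm, hRm, map_add, Finsupp.add_apply]
          exact c3 i
        have h2 : f (P (y + z)) + f' (P (y + z)) = P (y + z) := by
          rw [map_add P, e3]
        have h3 : ((P (y + z) : K) : M) = y + z - L (h (y + z)) := hP _
        have h4 : ((f (P (y + z)) : K) : M) + ((f' (P (y + z)) : K) : M) = y + z - L (h (y + z)) := by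
          have h2' := congrArg (fun x : K => (x : M)) h2
          simp only [Submodule.coe_add] at h2'
          rw [h2', h3]
        have h5 : L (Rm a (h (y + z))) + L (Rm c (h (y + z))) = L (h (y + z)) := by
          rw [← map_add, h1]
        simp only [LinearMap.add_apply, LinearMap.comp_apply, htr, Submodule.subtype_apply]
        calc _ = (((f (P (y + z)) : K) : M) + ((f' (P (y + z)) : K) : M)) +
              (L (Rm a (h (y + z))) + L (Rm c (h (y + z)))) := by abel
          _ = y + z := by rw [h4, h5]; abel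

/-- chain data pass to the opposite ring -/
lemma ChainData.op {B : Type u} [Ring B] {p : B} {n : ℕ} (hB : ChainData B p n) :
    ChainData Bᵐᵒᵖ (MulOpposite.op p) n where
  pow_eq := by rw [← MulOpposite.op_pow, hB.pow_eq, MulOpposite.op_zero]
  left := by
    intro x
    obtain ⟨k, w, hw⟩ := hB.right x.unop
    refine ⟨k, Units.opEquiv.symm (MulOpposite.op w), ?_⟩
    apply MulOpposite.unop_injective
    rw [hw]
    simp
  right := by
    intro x
    obtain ⟨k, w, hw⟩ := hB.left x.unop
    refine ⟨k, Units.opEquiv.symm (MulOpposite.op w), ?_⟩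
    apply MulOpposite.unop_injective
    rw [hw]
    simp
  swap := by
    intro x
    obtain ⟨y, hy⟩ := hB.swap' x.unop
    refine ⟨MulOpposite.op y, ?_⟩
    apply MulOpposite.unop_injective
    simpa using hy
  swap' := by
    intro x
    obtain ⟨y, hy⟩ := hB.swap x.unop
    refine ⟨MulOpposite.op y, ?_⟩
    apply MulOpposite.unop_injective
    simpa using hy

/-- finite products -/
theorem D_of_pi {ι : Type} [Fintype ι] [DecidableEq ι] {B : Type u} [Ring B] (R : ι → Type u)
    [∀ i, Ring (R i)] (e : B ≃+* (∀ i, R i)) (p : ∀ i, R i) (n : ι → ℕ)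
    (hR : ∀ i, ChainData (R i) (p i) (n i)) (M : Type v) [AddCommGroup M] [Module B M] :
    D B M := by
  classical
  set ε : ι → B := fun i => e.symm (Pi.single i 1) with hε
  have hcomm : ∀ i (b : B), ε i * b = b * ε i := by
    intro i b
    apply e.injective
    ext j
    simp only [hε, map_mul, RingEquiv.apply_symm_apply, Pi.mul_apply]
    by_cases hij : j = i
    · subst hij; simp
    · simp [Pi.single_eq_of_ne hij]
  have hidem : ∀ i, ε i * ε i = ε i := by
    intro i
    apply e.injective
    ext j
    simp only [hε, map_mul, RingEquiv.apply_symm_apply, Pi.mul_apply]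
    by_cases hij : j = i
    · subst hij; simp
    · simp [Pi.single_eq_of_ne hij]
  have hsum : ∑ i, ε i = 1 := by
    apply e.injective
    rw [map_sum, map_one]
    simp only [hε, RingEquiv.apply_symm_apply]
    exact Finset.univ_sum_single (1 : ∀ i, R i)
  -- the components
  let K : ι → Submodule B M := fun i =>
    { carrier := {m | ε i • m = m}
      add_mem' := fun {a b} ha hb => by
        simp only [Set.mem_ofPred_eq] at *
        rw [smul_add, ha, hb]
      zero_mem' := by simp
      smul_mem' := fun c x hx => by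
        simp only [Set.mem_ofPred_eq] at *
        rw [← mul_smul, hcomm, mul_smul, hx] }
  have hK : ∀ i (m : M), m ∈ K i ↔ ε i • m = m := fun i m => Iff.rfl
  let φ : ∀ i, B →+* R i := fun i => (Pi.evalRingHom R i).comp e.toRingHom
  have hφ : ∀ i, Function.Surjective (φ i) := by
    intro i r
    refine ⟨e.symm (Pi.single i r), ?_⟩
    simp [φ]
  have key : ∀ i, D B (K i) := by
    intro i
    let _ : SMul (R i) (K i) := ⟨fun r x => e.symm (Pi.single i r) • x⟩
    have hsm : ∀ (b : B) (x : K i), (φ i b) • x = b • x := by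
      intro b x
      change e.symm (Pi.single i (φ i b)) • x = b • x
      have h1 : e.symm (Pi.single i (φ i b)) = b * ε i := by
        apply e.injective
        ext j
        simp only [hε, map_mul, RingEquiv.apply_symm_apply, Pi.mul_apply]
        by_cases hij : j = i
        · subst hij; simp [φ]
        · simp [Pi.single_eq_of_ne hij]
      rw [h1, mul_smul]
      congr 1
      exact Subtype.ext ((hK i _).mp x.2)
    let _ : Module (R i) (K i) := Function.Surjective.moduleLeft (φ i) (hφ i) hsm
    have hD : D (R i) (K i) := D_of_chain (n i) (R i) (p i) (hR i) (K i)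
    intro y z
    obtain ⟨f, g, h, k, h1, h2, h3⟩ := hD y z
    let tr : ((K i) →ₗ[R i] (K i)) → ((K i) →ₗ[B] (K i)) := fun f =>
      { toFun := f
        map_add' := f.map_add
        map_smul' := fun b x => by
          rw [← hsm b x, f.map_smul, hsm]
          rfl }
    exact ⟨tr f, tr g, tr h, tr k, h1, h2, h3⟩
  intro y z
  let P : ∀ i, M →ₗ[B] (K i) := fun i =>
    { toFun := fun m => ⟨ε i • m, by rw [hK, ← mul_smul, hidem]⟩
      map_add' := fun a b => by ext; simp
      map_smul' := fun c x => by
        ext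
        simp only [RingHom.id_apply, Submodule.coe_smul]
        rw [← mul_smul, hcomm, mul_smul] }
  have hP : ∀ i m, ((P i m : K i) : M) = ε i • m := fun i m => rfl
  choose f g h k h1 h2 h3 using fun i => key i (P i y) (P i z)
  let T : (∀ i, (K i) →ₗ[B] (K i)) → (M →ₗ[B] M) := fun f =>
    ∑ i, (K i).subtype ∘ₗ f i ∘ₗ P i
  have hT : ∀ f m, T f m = ∑ i, ((f i (P i m) : K i) : M) := by
    intro f m
    simp only [T, LinearMap.sum_apply, LinearMap.comp_apply, Submodule.subtype_apply]
  refine ⟨T f, T g, T h, T k, ?_, ?_, ?_⟩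
  · rw [hT, hT]
    apply Finset.sum_congr rfl
    intro i _
    rw [map_add, h1]
  · rw [hT, hT]
    apply Finset.sum_congr rfl
    intro i _
    rw [map_add, h2]
  · rw [hT, hT, ← Finset.sum_add_distrib]
    have h4 : ∀ i, ((f i (P i (y + z)) : K i) : M) + ((h i (P i (y + z)) : K i) : M) = ε i • (y + z) := by
      intro i
      have := congrArg (fun x : K i => (x : M)) (h3 i)
      simp only [Submodule.coe_add] at this
      rw [map_add (P i), this, hP, hP, smul_add]
    simp_rw [h4]
    rw [← Finset.sum_smul, hsum, one_smul]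

end Pool.Agent.H86.EndoDist
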