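import Mathlib
import Pool.Agent.H86.EndoDist.Chain

set_option autoImplicit false

namespace Pool.Agent.H86.EndoDist

universe u v

/-- `R` is a (two-sided) Artinian chain ring: local, left Artinian, with any two elements
comparable for left and for right divisibility (that is, the left ideals and the right ideals of
`R` are totally ordered by inclusion). -/
structure IsArtinianChainRing (R : Type u) [Ring R] : Prop where
  isLocal : IsLocalRing R
  isArtinian : IsArtinianRing R
  left_chain : ∀ x y : R, ∃ c : R, x = c * y ∨ y = c * x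
  right_chain : ∀ x y : R, ∃ c : R, x = y * c ∨ y = x * c

section

variable {R : Type u} [Ring R]

lemma isUnit_of_mul_eq_one_loc (hl : IsLocalRing R) {x y : R} (h : y * x = 1) :
    IsUnit x ∧ IsUnit y := by
  have h1 : x * y = 1 := by
    rcases hl.isUnit_or_isUnit_of_add_one (a := x * y) (b := 1 - x * y) (by abel) with hu | hu
    · obtain ⟨w, hw⟩ := hu
      have h2 : (w : R) * w = w := by
        rw [hw]
        calc x * y * (x * y) = x * (y * x) * y := by noncomm_ring
          _ = x * y := by rw [h, mul_one]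
      have h3 : (w : R) = 1 := by
        have := congrArg (fun t => ((w⁻¹ : Rˣ) : R) * t) h2
        simpa [← mul_assoc] using this
      rw [← hw, h3]
    · obtain ⟨w, hw⟩ := hu
      have h2 : (w : R) * w = w := by
        rw [hw]
        have : x * y * (x * y) = x * y := by
          calc x * y * (x * y) = x * (y * x) * y := by noncomm_ring
            _ = x * y := by rw [h, mul_one]
        calc (1 - x * y) * (1 - x * y) = 1 - x * y - x * y + x * y * (x * y) := by noncomm_ring
          _ = 1 - x * y := by rw [this]; abel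
      have h3 : (w : R) = 1 := by
        have := congrArg (fun t => ((w⁻¹ : Rˣ) : R) * t) h2
        simpa [← mul_assoc] using this
      rw [h3] at hw
      have h4 : x * y = 0 := by
        have := hw
        have h5 : (1 : R) - (1 - x * y) = 0 := by rw [← hw]; abel
        simpa using h5
      exfalso
      have h6 : (1 : R) = 0 := by
        calc (1 : R) = (y * x) * (y * x) := by rw [h, mul_one]
          _ = y * (x * y) * x := by noncomm_ring
          _ = 0 := by rw [h4]; simp
      exact hl.toNontrivial.exists_pair_ne.elim (fun a ⟨b, hab⟩ => hab (by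
        rw [← mul_one a, ← mul_one b, h6, mul_zero, mul_zero]))
  exact ⟨⟨⟨x, y, h1, h⟩, rfl⟩, ⟨⟨y, x, h, h1⟩, rfl⟩⟩

lemma isUnit_of_mul_isUnit (hl : IsLocalRing R) {x y : R} (h : IsUnit (y * x)) :
    IsUnit x ∧ IsUnit y := by
  obtain ⟨w, hw⟩ := h
  constructor
  · apply (isUnit_of_mul_eq_one_loc hl (x := x) (y := ((w⁻¹ : Rˣ) : R) * y) ?_).1
    rw [mul_assoc, ← hw, Units.inv_mul]
  · apply (isUnit_of_mul_eq_one_loc hl (x := x * ((w⁻¹ : Rˣ) : R)) (y := y) ?_).2
    rw [← mul_assoc, ← hw, Units.mul_inv]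

theorem IsArtinianChainRing.chainData (h : IsArtinianChainRing R) :
    ∃ (p : R) (n : ℕ), ChainData R p n := by
  have hl := h.isLocal
  have := h.isArtinian
  have hnoeth : IsNoetherianRing R := inferInstance
  -- a generator of the maximal ideal
  obtain ⟨p, hp, hmax⟩ : ∃ p : R, ¬ IsUnit p ∧ ∀ x : R, ¬ IsUnit x → ∃ c, x = c * p := by
    obtain ⟨I, ⟨p, hp, rfl⟩, hI⟩ := set_has_maximal_iff_noetherian.mpr hnoeth
      {I : Submodule R R | ∃ p : R, ¬ IsUnit p ∧ I = Ideal.span {p}} ⟨_, 0, by
        have := hl.toNontrivial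
        exact not_isUnit_zero, rfl⟩
    refine ⟨p, hp, ?_⟩
    intro x hx
    obtain ⟨c, hc | hc⟩ := h.left_chain x p
    · exact ⟨c, hc⟩
    · have h1 : ¬ (Ideal.span {p} : Ideal R) < Ideal.span {x} := hI _ ⟨x, hx, rfl⟩
      have h2 : (Ideal.span {p} : Ideal R) ≤ Ideal.span {x} := by
        rw [Ideal.span_singleton_le_iff_mem, Ideal.mem_span_singleton']
        exact ⟨c, hc.symm⟩
      have h3 : (Ideal.span {p} : Ideal R) = Ideal.span {x} := by
        by_contra hne
        exact h1 (lt_of_le_of_ne h2 hne)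
      have h4 : x ∈ (Ideal.span {p} : Ideal R) := by
        rw [h3]; exact Ideal.mem_span_singleton_self _
      rw [Ideal.mem_span_singleton'] at h4
      obtain ⟨d, hd⟩ := h4
      exact ⟨d, hd.symm⟩
  have hone : ∀ x : R, ¬ IsUnit x → IsUnit (1 - x) := fun x hx =>
    (hl.isUnit_or_isUnit_of_add_one (a := x) (b := 1 - x) (by abel)).resolve_left hx
  have hmul : ∀ c x : R, ¬ IsUnit x → ¬ IsUnit (c * x) := fun c x hx hcx =>
    hx (isUnit_of_mul_isUnit hl hcx).1
  have hmul' : ∀ c x : R, ¬ IsUnit x → ¬ IsUnit (x * c) := fun c x hx hcx =>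
    hx (isUnit_of_mul_isUnit hl hcx).2
  have hright : ∀ x : R, ¬ IsUnit x → ∃ c, x = p * c := by
    intro x hx
    obtain ⟨c, hc | hc⟩ := h.right_chain x p
    · exact ⟨c, hc⟩
    · by_cases hcu : IsUnit c
      · obtain ⟨w, rfl⟩ := hcu
        refine ⟨((w⁻¹ : Rˣ) : R), ?_⟩
        rw [hc, mul_assoc, Units.mul_inv, mul_one]
      · obtain ⟨c', rfl⟩ := hmax c hcu
        obtain ⟨c'', rfl⟩ := hmax x hx
        have h1 : (1 - c'' * p * c') * p = 0 := by
          have : (1 - c'' * p * c') * p = p - c'' * p * (c' * p) := by noncomm_ring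
          rw [this, ← hc, sub_self]
        have h2 : IsUnit (1 - c'' * p * c') := hone _ (hmul' _ _ (hmul _ _ hp))
        have h3 : p = 0 := by
          obtain ⟨w, hw⟩ := h2
          rw [← hw] at h1
          have := congrArg (fun t => ((w⁻¹ : Rˣ) : R) * t) h1
          simpa [← mul_assoc] using this
        exact ⟨0, by rw [h3]; simp⟩
  -- nilpotency
  obtain ⟨n, hn⟩ : ∃ n, p ^ n = 0 := by
    have hmono : ∀ k, (Ideal.span {p ^ (k + 1)} : Ideal R) ≤ Ideal.span {p ^ k} := by
      intro k
      rw [Ideal.span_singleton_le_iff_mem, Ideal.mem_span_singleton']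
      exact ⟨p, (pow_succ' p k).symm⟩
    obtain ⟨k, hk⟩ := IsArtinian.monotone_stabilizes (R := R) (M := R)
      ⟨fun k => OrderDual.toDual (Ideal.span {p ^ k} : Ideal R), monotone_nat_of_le_succ (fun k => hmono k)⟩
    have h1 := hk (k + 1) (by omega)
    have h2 : (Ideal.span {p ^ k} : Ideal R) = Ideal.span {p ^ (k + 1)} := h1
    have h3 : p ^ k ∈ (Ideal.span {p ^ (k + 1)} : Ideal R) := by
      rw [← h2]; exact Ideal.mem_span_singleton_self _
    rw [Ideal.mem_span_singleton'] at h3
    obtain ⟨c, hc⟩ := h3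
    refine ⟨k, ?_⟩
    have h4 : (1 - c * p) * p ^ k = 0 := by
      rw [sub_mul, one_mul, mul_assoc, ← pow_succ', hc, sub_self]
    obtain ⟨w, hw⟩ := hone _ (hmul c p hp)
    rw [← hw] at h4
    have := congrArg (fun t => ((w⁻¹ : Rˣ) : R) * t) h4
    simpa [← mul_assoc] using this
  refine ⟨p, n, hn, ?_, ?_, ?_, ?_⟩
  · intro x
    by_contra hcon
    push Not at hcon
    have key : ∀ k, ∃ c, x = c * p ^ k := by
      intro k
      induction k with
      | zero => exact ⟨x, by simp⟩
      | succ k ih =>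
        obtain ⟨c, hc⟩ := ih
        have hcu : ¬ IsUnit c := by
          rintro ⟨w, rfl⟩
          exact hcon k w hc
        obtain ⟨d, rfl⟩ := hmax c hcu
        exact ⟨d, by rw [hc, mul_assoc, ← pow_succ']⟩
    obtain ⟨c, hc⟩ := key n
    apply hcon n 1
    rw [hc, hn]; simp
  · intro x
    by_contra hcon
    push Not at hcon
    have key : ∀ k, ∃ c, x = p ^ k * c := by
      intro k
      induction k with
      | zero => exact ⟨x, by simp⟩
      | succ k ih =>
        obtain ⟨c, hc⟩ := ih
        have hcu : ¬ IsUnit c := by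
          rintro ⟨w, rfl⟩
          exact hcon k w hc
        obtain ⟨d, rfl⟩ := hright c hcu
        exact ⟨d, by rw [hc, ← mul_assoc, ← pow_succ]⟩
    obtain ⟨c, hc⟩ := key n
    apply hcon n 1
    rw [hc, hn]; simp
  · intro x
    exact hmax _ (hmul' x p hp)
  · intro x
    exact hright _ (hmul x p hp)

end

/-- Every right module over a finite product of Artinian chain rings is distributive over its
endomorphism ring. -/
theorem endo_of_pi {ι : Type} [Fintype ι] {A : Type u} [Ring A] (R : ι → Type u)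
    [∀ i, Ring (R i)] (e : A ≃+* (∀ i, R i)) (hR : ∀ i, IsArtinianChainRing (R i))
    (M : Type v) [AddCommGroup M] [Module Aᵐᵒᵖ M] :
    ∀ U V W : Submodule (Module.End Aᵐᵒᵖ M) M, U ⊓ (V ⊔ W) = (U ⊓ V) ⊔ (U ⊓ W) := by
  classical
  choose p n h using fun i => (hR i).chainData
  have e' : Aᵐᵒᵖ ≃+* (∀ i, (R i)ᵐᵒᵖ) :=
    (RingEquiv.op e).trans (RingEquiv.piMulOpposite R)
  exact (D_of_pi (fun i => (R i)ᵐᵒᵖ) e' (fun i => MulOpposite.op (p i)) n
    (fun i => (h i).op) M).endo

end Pool.Agent.H86.EndoDist
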