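import Mathlib
import Pool.Agent.H86.EndoDist.Chain

set_option autoImplicit false

/-!
Functorial `End_B(M)`-submodules and the three-direction lemma.
-/

namespace Pool.Agent.H86.EndoDist

universe u v w

section

variable {B : Type u} [Ring B] {M : Type v} [AddCommGroup M] [Module B M]

/-- the `End`-submodule `{x | b x = 0}` -/
def annE (M : Type v) [AddCommGroup M] [Module B M] (b : B) : Submodule (Module.End B M) M where
  carrier := {x | b • x = 0}
  add_mem' := by
    intro x y hx hy
    simp only [Set.mem_setOf_eq] at *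
    rw [smul_add, hx, hy, add_zero]
  zero_mem' := smul_zero b
  smul_mem' := by
    intro f x hx
    simp only [Set.mem_setOf_eq] at *
    rw [Module.End.smul_def, ← map_smul, hx, map_zero]

/-- the `End`-submodule `b M` -/
def imgE (M : Type v) [AddCommGroup M] [Module B M] (b : B) : Submodule (Module.End B M) M where
  carrier := {x | ∃ y : M, b • y = x}
  add_mem' := by
    rintro x y ⟨x', rfl⟩ ⟨y', rfl⟩
    exact ⟨x' + y', smul_add b x' y'⟩
  zero_mem' := ⟨0, smul_zero b⟩
  smul_mem' := by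
    rintro f x ⟨x', rfl⟩
    exact ⟨f x', by rw [Module.End.smul_def, map_smul]⟩

@[simp] lemma mem_annE (b : B) (x : M) : x ∈ annE M b ↔ b • x = 0 := Iff.rfl

@[simp] lemma mem_imgE (b : B) (x : M) : x ∈ imgE M b ↔ ∃ y : M, b • y = x := Iff.rfl

/-- elements lying in almost all `G n`, `n ∈ S` -/
def aeE {Λ : Type w} (G : Λ → Submodule (Module.End B M) M) (S : Set Λ) :
    Submodule (Module.End B M) M where
  carrier := {x | {n | n ∈ S ∧ x ∉ G n}.Finite}
  add_mem' := by
    intro x y hx hy
    simp only [Set.mem_setOf_eq] at *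
    refine (hx.union hy).subset ?_
    rintro n ⟨hn, hxy⟩
    by_contra hcon
    simp only [Set.mem_union, Set.mem_setOf_eq, not_or, not_and, not_not] at hcon
    exact hxy ((G n).add_mem (hcon.1 hn) (hcon.2 hn))
  zero_mem' := by
    simp
  smul_mem' := by
    intro f x hx
    simp only [Set.mem_setOf_eq] at *
    refine hx.subset ?_
    rintro n ⟨hn, hxy⟩
    exact ⟨hn, fun h => hxy ((G n).smul_mem f h)⟩

lemma mem_aeE {Λ : Type w} (G : Λ → Submodule (Module.End B M) M) (S : Set Λ) (x : M) :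
    x ∈ aeE G S ↔ {n | n ∈ S ∧ x ∉ G n}.Finite := Iff.rfl

/-- The three-direction lemma. -/
theorem three_dir (hM : Endo B M) {Λ : Type w} (S : Λ → Fin 3)
    (G : Λ → Submodule (Module.End B M) M) (a b : M)
    (h0 : ∀ n, S n = 0 → b ∈ G n) (h1 : ∀ n, S n = 1 → a ∈ G n)
    (h2 : ∀ n, S n = 2 → a - b ∈ G n) :
    ∃ p : M, {n | S n = 0 ∧ p ∉ G n}.Finite ∧ {n | S n = 1 ∧ p ∉ G n}.Finite ∧
      {n | S n = 2 ∧ a - p ∉ G n}.Finite := by
  have hb : b ∈ aeE G {n | S n = 0} := by
    rw [mem_aeE]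
    convert Set.finite_empty
    ext n
    simp only [Set.mem_setOf_eq, Set.mem_empty_iff_false, iff_false, not_and, not_not]
    exact h0 n
  have ha : a ∈ aeE G {n | S n = 1} := by
    rw [mem_aeE]
    convert Set.finite_empty
    ext n
    simp only [Set.mem_setOf_eq, Set.mem_empty_iff_false, iff_false, not_and, not_not]
    exact h1 n
  have hab : a - b ∈ aeE G {n | S n = 2} := by
    rw [mem_aeE]
    convert Set.finite_empty
    ext n
    simp only [Set.mem_setOf_eq, Set.mem_empty_iff_false, iff_false, not_and, not_not]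
    exact h2 n
  have h := hM (aeE G {n | S n = 1}) (aeE G {n | S n = 0}) (aeE G {n | S n = 2})
  have hmem : a ∈ aeE G {n | S n = 1} ⊓ (aeE G {n | S n = 0} ⊔ aeE G {n | S n = 2}) := by
    refine ⟨ha, ?_⟩
    have : a = b + (a - b) := by abel
    rw [this]
    exact Submodule.add_mem_sup hb hab
  rw [h] at hmem
  obtain ⟨p, hp, q, hq, hpq⟩ := Submodule.mem_sup.mp hmem
  refine ⟨p, hp.2, hp.1, ?_⟩
  have hq' : a - p = q := by rw [← hpq]; abel
  rw [hq']
  exact hq.2

lemma mem_sup_ann_img (b c : B) (x : M) :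
    x ∈ annE M b ⊔ imgE M c ↔ ∃ y z : M, b • y = 0 ∧ x = y + c • z := by
  rw [Submodule.mem_sup]
  constructor
  · rintro ⟨y, hy, z, ⟨z', rfl⟩, rfl⟩
    exact ⟨y, z', hy, rfl⟩
  · rintro ⟨y, z, hy, rfl⟩
    exact ⟨y, hy, c • z, ⟨z, rfl⟩, rfl⟩

end

/-- `B` is admissible: every left `B`-module is distributive over its endomorphism ring. -/
def Adm (B : Type u) [Ring B] : Prop :=
  ∀ (M : Type u) [AddCommGroup M] [Module B M], Endo B M

end Pool.Agent.H86.EndoDist
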