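import Mathlib
import Pool.Agent.H86.EndoDist.Basic

set_option autoImplicit false

/-!
Admissible rings are distributive on both sides; idempotents are central and maximal left ideals
are two-sided.
-/

namespace Pool.Agent.H86.EndoDist

universe u v w

/-- left distributivity, elementwise -/
def LD (B : Type u) [Ring B] : Prop :=
  ∀ x y : B, ∃ r c d : B, r * (x + y) = c * x ∧ (1 - r) * (x + y) = d * y

/-- right distributivity, elementwise -/
def RD (B : Type u) [Ring B] : Prop :=
  ∀ x y : B, ∃ r c d : B, (x + y) * r = x * c ∧ (x + y) * (1 - r) = y * d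

section

variable {B : Type u} [Ring B]

/-- the right ideal `x B` as an `End`-submodule of the regular left module -/
def rspanE (x : B) : Submodule (Module.End B B) B where
  carrier := {t | ∃ c, t = x * c}
  add_mem' := by
    rintro _ _ ⟨c, rfl⟩ ⟨d, rfl⟩
    exact ⟨c + d, (mul_add x c d).symm⟩
  zero_mem' := ⟨0, (mul_zero x).symm⟩
  smul_mem' := by
    rintro f _ ⟨c, rfl⟩
    refine ⟨c * f 1, ?_⟩
    rw [Module.End.smul_def]
    have h : f ((x * c) • (1 : B)) = (x * c) • f 1 := map_smul f _ _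
    rw [smul_eq_mul, mul_one, smul_eq_mul] at h
    rw [h, mul_assoc]

lemma mem_rspanE (x t : B) : t ∈ rspanE x ↔ ∃ c, t = x * c := Iff.rfl

theorem RD_of_endo (h : Endo B B) : RD B := by
  intro x y
  have hmem : x + y ∈ rspanE (x + y) ⊓ (rspanE x ⊔ rspanE y) := by
    refine ⟨⟨1, (mul_one _).symm⟩, ?_⟩
    exact Submodule.add_mem_sup ⟨1, (mul_one _).symm⟩ ⟨1, (mul_one _).symm⟩
  rw [h] at hmem
  obtain ⟨p, ⟨⟨r, hr⟩, c, hc⟩, q, ⟨_, d, hd⟩, hpq⟩ := Submodule.mem_sup.mp hmem
  refine ⟨r, c, d, ?_, ?_⟩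
  · rw [← hr, hc]
  · rw [mul_sub, mul_one, ← hr, ← hd, ← hpq]; abel

/-- characters of the additive group of `B`, a left `B`-module by `(b f)(x) = f (x b)` -/
def Chr (B : Type u) [Ring B] : Type u := B →+ AddCircle (1 : ℚ)

noncomputable instance : AddCommGroup (Chr B) := inferInstanceAs (AddCommGroup (B →+ _))

namespace Chr

/-- evaluation -/
def ev (f : Chr B) : B →+ AddCircle (1 : ℚ) := f

lemma ev_add (f g : Chr B) (x : B) : (f + g).ev x = f.ev x + g.ev x := rfl

lemma ev_zero (x : B) : (0 : Chr B).ev x = 0 := rfl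

lemma ev_map_add (f : Chr B) (x y : B) : f.ev (x + y) = f.ev x + f.ev y :=
  map_add f.ev x y

lemma ext' {f g : Chr B} (h : ∀ x, f.ev x = g.ev x) : f = g :=
  AddMonoidHom.ext (f := f.ev) (g := g.ev) h

noncomputable instance : Module B (Chr B) where
  smul b f := (AddMonoidHom.comp f (AddMonoidHom.mulRight b) : B →+ _)
  one_smul f := by
    apply ext'
    intro x
    show f.ev (x * 1) = f.ev x
    rw [mul_one]
  mul_smul b c f := by
    apply ext'
    intro x
    show f.ev (x * (b * c)) = f.ev (x * b * c)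
    rw [mul_assoc]
  smul_zero b := by
    apply ext'
    intro x
    rfl
  smul_add b f g := by
    apply ext'
    intro x
    rfl
  add_smul b c f := by
    apply ext'
    intro x
    show f.ev (x * (b + c)) = f.ev (x * b) + f.ev (x * c)
    rw [mul_add, ev_map_add]
  zero_smul f := by
    apply ext'
    intro x
    show f.ev (x * 0) = 0
    rw [mul_zero]
    exact map_zero f.ev

lemma smul_ev (b : B) (f : Chr B) (x : B) : (b • f).ev x = f.ev (x * b) := rfl

/-- characters vanishing on a left ideal -/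
noncomputable def polar (P : Ideal B) : Submodule (Module.End B (Chr B)) (Chr B) where
  carrier := {f | ∀ x ∈ P, f.ev x = 0}
  add_mem' := by
    intro f g hf hg x hx
    rw [ev_add, hf x hx, hg x hx, add_zero]
  zero_mem' := fun x _ => rfl
  smul_mem' := by
    intro φ f hf x hx
    rw [Module.End.smul_def]
    have h1 : (φ f).ev x = (x • φ f).ev 1 := by rw [smul_ev, one_mul]
    have h2 : x • f = 0 := by
      apply ext'
      intro y
      rw [smul_ev, ev_zero]
      exact hf _ (P.mul_mem_left y hx)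
    rw [h1, ← map_smul, h2, map_zero, ev_zero]

lemma mem_polar (P : Ideal B) (f : Chr B) : f ∈ polar P ↔ ∀ x ∈ P, f.ev x = 0 := Iff.rfl

/-- extension of characters along an injective map -/
lemma exists_ext {N : Type*} [AddCommGroup N] (j : B →+ N) (f : Chr B)
    (h : ∀ x, j x = 0 → f.ev x = 0) : ∃ g : N →+ AddCircle (1 : ℚ), ∀ x, g (j x) = f.ev x := by
  let K := j.ker
  let j' : B ⧸ K →+ N := QuotientAddGroup.kerLift j
  let f' : B ⧸ K →+ AddCircle (1 : ℚ) := QuotientAddGroup.lift K (f : B →+ _) (by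
    intro x hx
    exact h x hx)
  obtain ⟨g, hg⟩ := (Module.Baer.of_divisible (AddCircle (1 : ℚ))).extension_property_addMonoidHom
    j' (QuotientAddGroup.kerLift_injective j) f'
  refine ⟨g, fun x => ?_⟩
  have h1 := congrArg (fun F : B ⧸ K →+ AddCircle (1 : ℚ) => F (x : B ⧸ K)) hg
  exact h1

lemma polar_sup (P Q : Ideal B) : polar (P ⊓ Q) ≤ polar P ⊔ polar Q := by
  intro f hf
  let j : B →+ (B ⧸ P.toAddSubgroup) × (B ⧸ Q.toAddSubgroup) :=
    AddMonoidHom.prod (QuotientAddGroup.mk' _) (QuotientAddGroup.mk' _)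
  obtain ⟨g, hg⟩ := exists_ext j f (by
    intro x hx
    apply hf
    have h1 : (x : B ⧸ P.toAddSubgroup) = 0 := congrArg Prod.fst hx
    have h2 : (x : B ⧸ Q.toAddSubgroup) = 0 := congrArg Prod.snd hx
    rw [QuotientAddGroup.eq_zero_iff] at h1 h2
    exact ⟨h1, h2⟩)
  let f1 : Chr B := (g.comp (AddMonoidHom.inl _ _)).comp (QuotientAddGroup.mk' P.toAddSubgroup)
  let f2 : Chr B := (g.comp (AddMonoidHom.inr _ _)).comp (QuotientAddGroup.mk' Q.toAddSubgroup)
  have h1 : f1 ∈ polar P := by
    intro x hx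
    show g (((x : B ⧸ P.toAddSubgroup), 0)) = 0
    have : (x : B ⧸ P.toAddSubgroup) = 0 := (QuotientAddGroup.eq_zero_iff x).mpr hx
    rw [this]
    exact map_zero g
  have h2 : f2 ∈ polar Q := by
    intro x hx
    show g ((0, (x : B ⧸ Q.toAddSubgroup))) = 0
    have : (x : B ⧸ Q.toAddSubgroup) = 0 := (QuotientAddGroup.eq_zero_iff x).mpr hx
    rw [this]
    exact map_zero g
  have h3 : f = f1 + f2 := by
    apply ext'
    intro x
    rw [ev_add]
    show f.ev x = g (((x : B ⧸ P.toAddSubgroup), 0)) + g ((0, (x : B ⧸ Q.toAddSubgroup)))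
    rw [← map_add, ← hg]
    congr 1
    simp [j]
  rw [h3]
  exact Submodule.add_mem_sup h1 h2

lemma exists_ne_zero (P : Ideal B) (x : B) (hx : x ∉ P) : ∃ f ∈ polar P, f.ev x ≠ 0 := by
  have h1 : (x : B ⧸ P.toAddSubgroup) ≠ 0 := by
    rw [Ne, QuotientAddGroup.eq_zero_iff]
    exact hx
  obtain ⟨c, hc⟩ := CharacterModule.exists_character_apply_ne_zero_of_ne_zero h1
  let c' : (B ⧸ P.toAddSubgroup) →+ AddCircle (1 : ℚ) := c
  let f : Chr B := c'.comp (QuotientAddGroup.mk' P.toAddSubgroup)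
  refine ⟨f, ?_, hc⟩
  intro y hy
  show c' (y : B ⧸ P.toAddSubgroup) = 0
  have : (y : B ⧸ P.toAddSubgroup) = 0 := (QuotientAddGroup.eq_zero_iff y).mpr hy
  rw [this]
  exact map_zero c'

end Chr

open Chr in
theorem LD_of_endo (h : Endo B (Chr B)) : LD B := by
  intro x y
  set W : Ideal B := Ideal.span {x + y}
  set X : Ideal B := Ideal.span {x}
  set Y : Ideal B := Ideal.span {y}
  have hxy : x + y ∈ (W ⊓ X) ⊔ (W ⊓ Y) := by
    by_contra hcon
    obtain ⟨f, hf, hfx⟩ := exists_ne_zero _ _ hcon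
    have h1 : f ∈ polar W ⊔ polar X := polar_sup _ _ (by
      intro z hz
      exact hf z (Submodule.mem_sup_left hz))
    have h2 : f ∈ polar W ⊔ polar Y := polar_sup _ _ (by
      intro z hz
      exact hf z (Submodule.mem_sup_right hz))
    have h3 : f ∈ polar W ⊔ (polar X ⊓ polar Y) := by
      have h4 : f ∈ (polar W ⊔ polar X) ⊓ (polar W ⊔ polar Y) := ⟨h1, h2⟩
      rw [h] at h4
      refine (sup_le ?_ ?_ : _ ≤ polar W ⊔ (polar X ⊓ polar Y)) h4
      · exact inf_le_right.trans le_sup_left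
      · rw [inf_comm, h]
        refine sup_le ?_ ?_
        · exact inf_le_right.trans le_sup_left
        · rw [inf_comm]
          exact le_sup_right
    obtain ⟨g, hg, k, hk, hgk⟩ := Submodule.mem_sup.mp h3
    apply hfx
    rw [← hgk, ev_add, hg _ (Ideal.mem_span_singleton_self _), zero_add, ev_map_add,
      hk.1 _ (Ideal.mem_span_singleton_self _), hk.2 _ (Ideal.mem_span_singleton_self _), add_zero]
  obtain ⟨p, ⟨hp1, hp2⟩, q, ⟨_, hq2⟩, hpq⟩ := Submodule.mem_sup.mp hxy
  rw [SetLike.mem_coe, Ideal.mem_span_singleton'] at hp1 hp2 hq2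
  obtain ⟨r, hr⟩ := hp1
  obtain ⟨c, hc⟩ := hp2
  obtain ⟨d, hd⟩ := hq2
  refine ⟨r, c, d, ?_, ?_⟩
  · rw [hr, hc]
  · rw [sub_mul, one_mul, hr, hd, ← hpq]; abel

theorem Adm.rd (h : Adm B) : RD B := RD_of_endo (h B)

theorem Adm.ld (h : Adm B) : LD B := LD_of_endo (h (Chr B))

/-- idempotents of a left distributive ring are central -/
theorem LD.central (h : LD B) {e : B} (he : e * e = e) (b : B) : e * b = b * e := by
  have key : ∀ e : B, e * e = e → ∀ b : B, e * b * (1 - e) = 0 := by
    intro e he b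
    have hf : e * (1 - e) = 0 := by rw [mul_sub, mul_one, he, sub_self]
    have hf' : (1 - e) * e = 0 := by rw [sub_mul, one_mul, he, sub_self]
    have hff : (1 - e) * (1 - e) = 1 - e := by rw [mul_sub, mul_one, hf', sub_zero]
    set u := e * b * (1 - e) with hu
    have huf : u * (1 - e) = u := by rw [hu, mul_assoc, hff]
    have hue : u * e = 0 := by rw [hu, mul_assoc, hf', mul_zero]
    have heu : e * u = u := by rw [hu, ← mul_assoc, ← mul_assoc, he]
    obtain ⟨r, c, d, h1, h2⟩ := h e u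
    have h3 : r * u = 0 := by
      have : r * (e + u) * (1 - e) = c * e * (1 - e) := by rw [h1]
      rw [mul_assoc, add_mul, hf, zero_add, huf, mul_assoc, hf, mul_zero] at this
      exact this
    have h4 : (1 - r) * e = 0 := by
      have : (1 - r) * (e + u) * e = d * u * e := by rw [h2]
      rw [mul_assoc, add_mul, he, hue, add_zero, mul_assoc, hue, mul_zero] at this
      exact this
    have h5 : e = r * e := by
      rw [sub_mul, one_mul, sub_eq_zero] at h4
      exact h4
    calc u = e * u := heu.symm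
      _ = r * e * u := by rw [← h5]
      _ = r * u := by rw [mul_assoc, heu]
      _ = 0 := h3
  have h1 := key e he b
  have he' : (1 - e) * (1 - e) = 1 - e := by
    rw [mul_sub, mul_one, sub_mul, one_mul, he, sub_self, sub_zero]
  have h2 := key (1 - e) he' b
  rw [sub_sub_cancel] at h2
  have h3 : e * b = e * b * e := by
    rw [mul_sub, mul_one, sub_eq_zero] at h1
    exact h1
  have h4 : b * e = e * b * e := by
    rw [sub_mul, one_mul, sub_mul, sub_eq_zero] at h2
    exact h2
  rw [h3, h4]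

/-- distributivity for left ideals -/
theorem LD.decomp (h : LD B) {W P Q : Ideal B} {z : B} (hW : z ∈ W) (hz : z ∈ P ⊔ Q) :
    ∃ z1 z2, z1 ∈ W ∧ z1 ∈ P ∧ z2 ∈ W ∧ z2 ∈ Q ∧ z = z1 + z2 := by
  obtain ⟨x, hx, y, hy, rfl⟩ := Submodule.mem_sup.mp hz
  obtain ⟨r, c, d, h1, h2⟩ := h x y
  refine ⟨r * (x + y), (1 - r) * (x + y), W.mul_mem_left _ hW, ?_, W.mul_mem_left _ hW, ?_, ?_⟩
  · rw [h1]; exact P.mul_mem_left _ hx
  · rw [h2]; exact Q.mul_mem_left _ hy
  · rw [← add_mul]; simp

/-- maximal left ideals of a left distributive ring are two-sided -/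
theorem LD.twoSided (h : LD B) {m : Ideal B} (hm : m.IsMaximal) {x : B} (hx : x ∈ m) (b : B) :
    x * b ∈ m := by
  by_contra hxb
  -- `m' = (m : b)`, `W = (m : 1 - b)`
  let colon : B → Ideal B := fun t =>
    { carrier := {z | z * t ∈ m}
      add_mem' := by
        intro z z' hz hz'
        simp only [Set.mem_setOf_eq] at *
        rw [add_mul]; exact m.add_mem hz hz'
      zero_mem' := by simp
      smul_mem' := by
        intro c z hz
        simp only [Set.mem_setOf_eq, smul_eq_mul] at *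
        rw [mul_assoc]; exact m.mul_mem_left _ hz }
  have hcol : ∀ t z, z ∈ colon t ↔ z * t ∈ m := fun _ _ => Iff.rfl
  have hmax : ∀ z, z ∉ m → ∀ t, ∃ y, t - y * z ∈ m := by
    intro z hz t
    have h1 : m ⊔ Ideal.span {z} = ⊤ := by
      apply hm.out.2
      refine lt_of_le_of_ne le_sup_left ?_
      intro he
      apply hz
      rw [he]
      exact Submodule.mem_sup_right (Ideal.mem_span_singleton_self z)
    have h2 : t ∈ m ⊔ Ideal.span {z} := by rw [h1]; trivial
    obtain ⟨p, hp, q, hq, hpq⟩ := Submodule.mem_sup.mp h2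
    obtain ⟨y, rfl⟩ := Ideal.mem_span_singleton'.mp hq
    refine ⟨y, ?_⟩
    rw [← hpq]
    simpa using hp
  have hsup : m ⊔ colon b = ⊤ := by
    rw [Ideal.eq_top_iff_one]
    obtain ⟨y, hy⟩ := hmax _ hxb b
    have h1 : y * x ∈ m := m.mul_mem_left _ hx
    have h2 : 1 - y * x ∈ colon b := by
      rw [hcol, sub_mul, one_mul, mul_assoc]
      exact hy
    have : (1 : B) = y * x + (1 - y * x) := by abel
    rw [this]
    exact Submodule.add_mem_sup h1 h2
  have hW : ∀ z ∈ colon (1 - b), z ∈ m := by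
    intro z hz
    obtain ⟨z1, z2, h1, h2, h3, h4, rfl⟩ := h.decomp (P := m) (Q := colon b) hz
      (by rw [hsup]; trivial)
    refine m.add_mem h2 ?_
    rw [hcol] at h3 h4
    have : z2 = z2 * (1 - b) + z2 * b := by rw [mul_sub, mul_one]; abel
    rw [this]
    exact m.add_mem h3 h4
  have hx1 : x * (1 - b) ∉ m := by
    intro hc
    apply hxb
    have : x * b = x - x * (1 - b) := by rw [mul_sub, mul_one]; abel
    rw [this]
    exact m.sub_mem hx hc
  obtain ⟨y, hy⟩ := hmax _ hx1 (1 - b)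
  have h1 : 1 - y * x ∈ m := by
    apply hW
    rw [hcol, sub_mul, one_mul, mul_assoc]
    exact hy
  apply hm.ne_top
  rw [Ideal.eq_top_iff_one]
  have : (1 : B) = (1 - y * x) + y * x := by abel
  rw [this]
  exact m.add_mem h1 (m.mul_mem_left _ hx)

/-- elements outside a maximal left ideal are invertible modulo it -/
theorem exists_inv_mod {m : Ideal B} (hm : m.IsMaximal) {c : B} (hc : c ∉ m) :
    ∃ d, d * c - 1 ∈ m := by
  have h1 : m ⊔ Ideal.span {c} = ⊤ := by
    apply hm.out.2
    refine lt_of_le_of_ne le_sup_left ?_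
    intro he
    apply hc
    rw [he]
    exact Submodule.mem_sup_right (Ideal.mem_span_singleton_self c)
  have h2 : (1 : B) ∈ m ⊔ Ideal.span {c} := by rw [h1]; trivial
  obtain ⟨p, hp, q, hq, hpq⟩ := Submodule.mem_sup.mp h2
  obtain ⟨y, rfl⟩ := Ideal.mem_span_singleton'.mp hq
  refine ⟨y, ?_⟩
  rw [← hpq]
  simpa using hp

/-- complete primeness -/
theorem LD.prime (h : LD B) {m : Ideal B} (hm : m.IsMaximal) {x y : B} (hxy : x * y ∈ m) :
    x ∈ m ∨ y ∈ m := by
  by_contra hcon
  push Not at hcon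
  obtain ⟨d, hd⟩ := exists_inv_mod hm hcon.1
  apply hcon.2
  have h1 : (d * x - 1) * y ∈ m := h.twoSided hm hd y
  have h2 : y = d * (x * y) - (d * x - 1) * y := by
    rw [sub_mul, one_mul, mul_assoc]; abel
  rw [h2]
  exact m.sub_mem (m.mul_mem_left _ hxy) h1

theorem LD.inv_mod (h : LD B) {m : Ideal B} (hm : m.IsMaximal) {c : B} (hc : c ∉ m) :
    ∃ d, d * c - 1 ∈ m ∧ c * d - 1 ∈ m := by
  obtain ⟨d, hd⟩ := exists_inv_mod hm hc
  refine ⟨d, hd, ?_⟩
  -- `d (c d - 1) = (d c - 1) d ∈ m`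
  have h1 : d * (c * d - 1) ∈ m := by
    have : d * (c * d - 1) = (d * c - 1) * d := by
      rw [mul_sub, sub_mul, mul_one, one_mul, mul_assoc]
    rw [this]
    exact h.twoSided hm hd d
  rcases h.prime hm h1 with h2 | h2
  · exfalso
    apply hm.ne_top
    rw [Ideal.eq_top_iff_one]
    have : (1 : B) = d * c - (d * c - 1) := by abel
    rw [this]
    exact m.sub_mem (h.twoSided hm h2 c) hd
  · exact h2

end

end Pool.Agent.H86.EndoDist
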