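import Mathlib
import Pool.Agent.H86.EndoDist.Basic

set_option autoImplicit false

namespace Pool.Agent.H86.EndoDist

universe u

section

variable {B : Type u} [Ring B]

/-- the cyclic module `B / P` -/
def QM (P : Ideal B) : Type u := @HasQuotient.Quotient B (Submodule B B) Submodule.hasQuotient P

instance (P : Ideal B) : AddCommGroup (QM P) :=
  inferInstanceAs (AddCommGroup (@HasQuotient.Quotient B (Submodule B B) Submodule.hasQuotient P))

instance (P : Ideal B) : Module B (QM P) :=
  inferInstanceAs (Module B (@HasQuotient.Quotient B (Submodule B B) Submodule.hasQuotient P))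

/-- the projection `B → B / P` -/
def qmk (P : Ideal B) : B →ₗ[B] QM P := Submodule.mkQ P

lemma qmk_surj (P : Ideal B) (x : QM P) : ∃ t, x = qmk P t := by
  obtain ⟨t, ht⟩ := Submodule.mkQ_surjective P x
  exact ⟨t, ht.symm⟩

lemma qmk_eq_zero {P : Ideal B} {t : B} : qmk P t = 0 ↔ t ∈ P := Submodule.Quotient.mk_eq_zero P

lemma smul_qmk (P : Ideal B) (r t : B) : r • qmk P t = qmk P (r * t) := by
  rw [← map_smul, smul_eq_mul]

lemma qmk_eq {P : Ideal B} {t t' : B} : qmk P t = qmk P t' ↔ t - t' ∈ P := by
  rw [← sub_eq_zero, ← map_sub, qmk_eq_zero]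

end

end Pool.Agent.H86.EndoDist
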