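import Mathlib
import Pool.Agent.H86.EndoDist.Dist
import Pool.Agent.H86.EndoDist.QM

set_option autoImplicit false

/-!
In an admissible ring, every normal element `s` satisfies `s ^ m ∈ s ^ (m + 1) B` for some `m`.
-/

namespace Pool.Agent.H86.EndoDist

universe u v w

/-- `s B = B s` -/
structure IsNormalElt {B : Type u} [Ring B] (s : B) : Prop where
  left : ∀ x : B, ∃ y, x * s = s * y
  right : ∀ x : B, ∃ y, s * x = y * s

namespace IsNormalElt

variable {B : Type u} [Ring B] {s : B} (hs : IsNormalElt s)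

include hs

lemma left_pow (j : ℕ) (x : B) : ∃ y, x * s ^ j = s ^ j * y := by
  induction j with
  | zero => exact ⟨x, by simp⟩
  | succ j ih =>
    obtain ⟨y, hy⟩ := ih
    obtain ⟨z, hz⟩ := hs.left y
    refine ⟨z, ?_⟩
    rw [pow_succ, ← mul_assoc, hy, mul_assoc, hz, mul_assoc]

lemma right_pow (j : ℕ) (x : B) : ∃ y, s ^ j * x = y * s ^ j := by
  induction j with
  | zero => exact ⟨x, by simp⟩
  | succ j ih =>
    obtain ⟨y, hy⟩ := ih
    obtain ⟨z, hz⟩ := hs.right y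
    refine ⟨z, ?_⟩
    rw [pow_succ', mul_assoc, hy, ← mul_assoc, hz, mul_assoc]

/-- the two-sided ideal `s ^ j B` -/
def pw (j : ℕ) : Ideal B where
  carrier := {t | ∃ c, t = s ^ j * c}
  add_mem' := by
    rintro _ _ ⟨c, rfl⟩ ⟨d, rfl⟩
    exact ⟨c + d, (mul_add _ c d).symm⟩
  zero_mem' := ⟨0, (mul_zero _).symm⟩
  smul_mem' := by
    rintro x _ ⟨c, rfl⟩
    obtain ⟨y, hy⟩ := hs.left_pow j x
    exact ⟨y * c, by rw [smul_eq_mul, ← mul_assoc, hy, mul_assoc]⟩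

lemma mem_pw (j : ℕ) (t : B) : t ∈ hs.pw j ↔ ∃ c, t = s ^ j * c := Iff.rfl

lemma pow_mul_mem {j k : ℕ} (h : j ≤ k) (c : B) : s ^ k * c ∈ hs.pw j := by
  obtain ⟨i, rfl⟩ := Nat.exists_eq_add_of_le h
  exact ⟨s ^ i * c, by rw [pow_add, mul_assoc]⟩

lemma pw_le {j k : ℕ} (h : j ≤ k) {t : B} (ht : t ∈ hs.pw k) : t ∈ hs.pw j := by
  obtain ⟨c, rfl⟩ := ht
  exact hs.pow_mul_mem h c

lemma pow_mul_mul_mem {j : ℕ} {t : B} (ht : t ∈ hs.pw j) (a b : ℕ) :
    s ^ a * t * s ^ b ∈ hs.pw (a + j + b) := by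
  obtain ⟨c, rfl⟩ := ht
  obtain ⟨d, hd⟩ := hs.left_pow b c
  refine ⟨d, ?_⟩
  rw [mul_assoc, mul_assoc, hd, ← mul_assoc, ← mul_assoc, ← pow_add, ← pow_add]

end IsNormalElt

section

variable {B : Type u} [Ring B] {s : B} (hs : IsNormalElt s)

/-- the coordinate modules -/
abbrev NQ (n : ℕ) : Type u := QM (hs.pw ((n + 1) ^ 2))

/-- the class of `t` in the `n`-th coordinate module -/
def nmk (n : ℕ) (t : B) : NQ hs n := qmk _ t

lemma smul_nmk (n : ℕ) (r t : B) : r • nmk hs n t = nmk hs n (r * t) := smul_qmk _ _ _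

lemma nmk_add (n : ℕ) (r t : B) : nmk hs n (r + t) = nmk hs n r + nmk hs n t := map_add _ _ _

lemma nmk_sub (n : ℕ) (r t : B) : nmk hs n (r - t) = nmk hs n r - nmk hs n t := map_sub _ _ _

lemma nmk_zero (n : ℕ) : nmk hs n 0 = 0 := map_zero _

lemma nmk_eq_zero {n : ℕ} {t : B} : nmk hs n t = 0 ↔ t ∈ hs.pw ((n + 1) ^ 2) :=
  qmk_eq_zero

/-- the vector `(s ^ n e_n)` -/
def nvec (e : ℕ → B) : ∀ n, NQ hs n := fun n => nmk hs n (s ^ n * e n)

/-- the purification of `B a + B b` -/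
def nmod (a b : ∀ n, NQ hs n) : Submodule B (∀ n, NQ hs n) where
  carrier := {x | ∃ (k c : ℕ) (α β : B), s ^ (c + k) • x = (s ^ c * α) • a + (s ^ c * β) • b}
  add_mem' := by
    rintro x x' ⟨k, c, α, β, h⟩ ⟨k', c', α', β', h'⟩
    refine ⟨k + k', c + c', s ^ k' * α + s ^ k * α', s ^ k' * β + s ^ k * β', ?_⟩
    have e1 : s ^ (c + c' + (k + k')) • x = (s ^ (c + c') * (s ^ k' * α)) • a
        + (s ^ (c + c') * (s ^ k' * β)) • b := by
      have : s ^ (c + c' + (k + k')) = s ^ (c' + k') * s ^ (c + k) := by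
        rw [← pow_add]; congr 1; omega
      rw [this, mul_smul, h, smul_add, smul_smul, smul_smul]
      have e : ∀ t, s ^ (c' + k') * (s ^ c * t) = s ^ (c + c') * (s ^ k' * t) := by
        intro t
        rw [← mul_assoc, ← mul_assoc, ← pow_add, ← pow_add]
        congr 2; omega
      rw [e, e]
    have e2 : s ^ (c + c' + (k + k')) • x' = (s ^ (c + c') * (s ^ k * α')) • a
        + (s ^ (c + c') * (s ^ k * β')) • b := by
      have : s ^ (c + c' + (k + k')) = s ^ (c + k) * s ^ (c' + k') := by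
        rw [← pow_add]; congr 1; omega
      rw [this, mul_smul, h', smul_add, smul_smul, smul_smul]
      have e : ∀ t, s ^ (c + k) * (s ^ c' * t) = s ^ (c + c') * (s ^ k * t) := by
        intro t
        rw [← mul_assoc, ← mul_assoc, ← pow_add, ← pow_add]
        congr 2; omega
      rw [e, e]
    rw [smul_add, e1, e2, mul_add, mul_add, add_smul, add_smul]
    abel
  zero_mem' := ⟨0, 0, 0, 0, by simp⟩
  smul_mem' := by
    rintro t x ⟨k, c, α, β, h⟩
    obtain ⟨t', ht'⟩ := hs.right_pow (c + k) t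
    obtain ⟨t'', ht''⟩ := hs.left_pow c t'
    refine ⟨k, c, t'' * α, t'' * β, ?_⟩
    rw [smul_smul, ht', mul_smul, h, smul_add, smul_smul, smul_smul, ← mul_assoc, ← mul_assoc,
      ← mul_assoc, ← mul_assoc, ht'']

lemma mem_nmod (a b : ∀ n, NQ hs n) (x : ∀ n, NQ hs n) : x ∈ nmod hs a b ↔
    ∃ (k c : ℕ) (α β : B), s ^ (c + k) • x = (s ^ c * α) • a + (s ^ c * β) • b := Iff.rfl

/-- the detecting submodules -/
def nG (a b : ∀ n, NQ hs n) (n : ℕ) :
    Submodule (Module.End B (nmod hs a b)) (nmod hs a b) :=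
  annE (nmod hs a b) (s ^ (n ^ 2)) ⊔ imgE (nmod hs a b) (s ^ (n + 1))

lemma nvec_mem_nG (a b : ∀ n, NQ hs n) (e : ℕ → B) (he : nvec hs e ∈ nmod hs a b) (n : ℕ)
    (hn : e n = 0) : (⟨nvec hs e, he⟩ : nmod hs a b) ∈ nG hs a b n := by
  classical
  obtain ⟨k, c, α, β, h⟩ := he
  let y : ∀ j, NQ hs j := fun j => if j < n then nmk hs j (s ^ j * e j) else 0
  let z : ∀ j, NQ hs j := fun j => if n < j then nmk hs j (s ^ (j - (n + 1)) * e j) else 0
  have hy0 : s ^ (n ^ 2) • y = 0 := by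
    funext j
    simp only [y, Pi.smul_apply, Pi.zero_apply]
    split_ifs with hj
    · rw [smul_nmk, nmk_eq_zero, ← mul_assoc, ← pow_add]
      apply hs.pow_mul_mem
      nlinarith
    · exact smul_zero _
  have hz : nvec hs e = y + s ^ (n + 1) • z := by
    funext j
    simp only [y, z, nvec, Pi.smul_apply, Pi.add_apply]
    rcases lt_trichotomy j n with hj | hj | hj
    · rw [if_pos hj, if_neg (by omega), smul_zero, add_zero]
    · subst hj
      rw [if_neg (by omega), if_neg (by omega), hn, mul_zero, nmk_zero, smul_zero, add_zero]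
    · rw [if_neg (by omega), if_pos hj, smul_nmk, ← mul_assoc, ← pow_add, zero_add]
      congr 3
      omega
  have hyM : y ∈ nmod hs a b := by
    refine ⟨0, n ^ 2, 0, 0, ?_⟩
    rw [add_zero, hy0]
    simp
  have hzM : z ∈ nmod hs a b := by
    refine ⟨k + (n + 1), n ^ 2 + c, α, β, ?_⟩
    have e1 : s ^ (n ^ 2 + c + (k + (n + 1))) • z = s ^ (n ^ 2 + c + k) • (s ^ (n + 1) • z) := by
      rw [smul_smul, ← pow_add]
      congr 2
      omega
    have e2 : s ^ (n + 1) • z = nvec hs e - y := by rw [hz]; abel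
    have e3 : s ^ (n ^ 2 + c + k) • y = 0 := by
      have : s ^ (n ^ 2 + c + k) = s ^ (c + k) * s ^ (n ^ 2) := by
        rw [← pow_add]; congr 1; omega
      rw [this, mul_smul, hy0, smul_zero]
    have e4 : s ^ (n ^ 2 + c + k) • nvec hs e = (s ^ (n ^ 2 + c) * α) • a
        + (s ^ (n ^ 2 + c) * β) • b := by
      rw [add_assoc, pow_add, mul_smul, h, smul_add, smul_smul, smul_smul, ← mul_assoc,
        ← mul_assoc, ← pow_add]
    rw [e1, e2, smul_sub, e3, sub_zero, e4]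
  rw [nG, mem_sup_ann_img]
  refine ⟨⟨y, hyM⟩, ⟨z, hzM⟩, ?_, ?_⟩
  · ext1; exact hy0
  · ext1; exact hz

lemma nG_coord (a b : ∀ n, NQ hs n) (x : nmod hs a b) (n : ℕ) (hx : x ∈ nG hs a b n) :
    ∃ ζ : B, s ^ (n ^ 2) • x.1 n = nmk hs n (s ^ (n ^ 2 + (n + 1)) * ζ) := by
  rw [nG, mem_sup_ann_img] at hx
  obtain ⟨y, z, hy, rfl⟩ := hx
  obtain ⟨ζ, hζ⟩ := qmk_surj _ (z.1 n)
  refine ⟨ζ, ?_⟩
  have h1 : (s ^ (n ^ 2) • y).1 n = 0 := by rw [hy]; rfl
  have h2 : s ^ (n ^ 2) • y.1 n = 0 := h1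
  have h3 : (y + s ^ (n + 1) • z).1 n = y.1 n + s ^ (n + 1) • z.1 n := rfl
  rw [h3, smul_add, h2, zero_add, hζ, smul_smul, ← pow_add]
  exact smul_qmk _ _ _

end

/-- normal elements of admissible rings are strongly pi-regular -/
theorem Adm.normal {B : Type u} [Ring B] (hB : Adm B) {s : B} (hs : IsNormalElt s) :
    ∃ (m : ℕ) (c : B), s ^ m = s ^ (m + 1) * c := by
  classical
  let S : ℕ → Fin 3 := fun n => ⟨n % 3, Nat.mod_lt _ (by norm_num)⟩
  let ea : ℕ → B := fun n => if S n = 1 then 0 else 1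
  let eb : ℕ → B := fun n => if S n = 0 then 0 else 1
  let a := nvec hs ea
  let b := nvec hs eb
  have ha : a ∈ nmod hs a b := ⟨0, 0, 1, 0, by simp⟩
  have hb : b ∈ nmod hs a b := ⟨0, 0, 0, 1, by simp⟩
  have hab : nvec hs (fun n => ea n - eb n) = a - b := by
    funext n
    simp only [a, b, nvec, Pi.sub_apply]
    rw [mul_sub, nmk_sub]
  have hab' : nvec hs (fun n => ea n - eb n) ∈ nmod hs a b := by
    rw [hab]; exact Submodule.sub_mem _ ha hb
  obtain ⟨p, hp0, hp1, hp2⟩ := three_dir (hB (nmod hs a b)) S (nG hs a b) ⟨a, ha⟩ ⟨b, hb⟩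
    (by
      intro n hn
      exact nvec_mem_nG hs a b eb hb n (by simp [eb, hn]))
    (by
      intro n hn
      exact nvec_mem_nG hs a b ea ha n (by simp [ea, hn]))
    (by
      intro n hn
      have := nvec_mem_nG hs a b _ hab' n (by simp [ea, eb, hn])
      have e : (⟨nvec hs (fun n => ea n - eb n), hab'⟩ : nmod hs a b) = ⟨a, ha⟩ - ⟨b, hb⟩ := by
        ext1; exact hab
      rw [← e]; exact this)
  obtain ⟨k, c, α, β, hp⟩ := p.2
  have hlarge : ∀ (i : Fin 3) (F : Set ℕ), F.Finite → ∃ n, S n = i ∧ n ∉ F ∧ c ≤ n ∧ k ≤ n := by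
    intro i F hF
    obtain ⟨N, hN⟩ := hF.bddAbove
    refine ⟨3 * (N + 1 + c + k) + i, ?_, ?_, ?_, ?_⟩
    · ext
      simp only [S]
      omega
    · intro hmem
      have := hN hmem
      omega
    · omega
    · omega
  -- the key consequence at a coordinate
  have key : ∀ (n : ℕ) (γ : B) (x : nmod hs a b), c ≤ n → k ≤ n → x ∈ nG hs a b n →
      s ^ (c + k) • x.1 n = nmk hs n (s ^ c * γ * s ^ n) →
      s ^ (n ^ 2) * γ * s ^ n ∈ hs.pw (n ^ 2 + n + (k + 1)) := by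
    intro n γ x hc hk hx h
    obtain ⟨ζ, hζ⟩ := nG_coord hs a b x n hx
    have hcn : c ≤ n ^ 2 := hc.trans (Nat.le_self_pow (by norm_num) n)
    obtain ⟨i, hi⟩ := Nat.exists_eq_add_of_le hcn
    have e1 : s ^ (n ^ 2 + k) • x.1 n = nmk hs n (s ^ (n ^ 2) * γ * s ^ n) := by
      have : s ^ (n ^ 2 + k) = s ^ i * s ^ (c + k) := by
        rw [← pow_add]; congr 1; omega
      rw [this, mul_smul, h, smul_nmk, ← mul_assoc, ← mul_assoc, ← pow_add]
      congr 4
      omega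
    have e2 : s ^ (n ^ 2 + k) • x.1 n = nmk hs n (s ^ (n ^ 2 + n + (k + 1)) * ζ) := by
      have : s ^ (n ^ 2 + k) = s ^ k * s ^ (n ^ 2) := by
        rw [← pow_add]; congr 1; omega
      rw [this, mul_smul, hζ, smul_nmk, ← mul_assoc, ← pow_add]
      congr 3
      omega
    rw [e1, ← sub_eq_zero, ← nmk_sub, nmk_eq_zero] at e2
    have e3 := hs.pw_le (j := n ^ 2 + n + (k + 1)) (by nlinarith) e2
    have e4 : s ^ (n ^ 2) * γ * s ^ n = (s ^ (n ^ 2) * γ * s ^ n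
        - s ^ (n ^ 2 + n + (k + 1)) * ζ) + s ^ (n ^ 2 + n + (k + 1)) * ζ := by abel
    rw [e4]
    exact Ideal.add_mem _ e3 ⟨ζ, rfl⟩
  have hpn : ∀ n, s ^ (c + k) • p.1 n = nmk hs n (s ^ c * (α * (s ^ n * ea n)
      + β * (s ^ n * eb n))) := by
    intro n
    have := congrFun hp n
    rw [Pi.smul_apply, Pi.add_apply, Pi.smul_apply, Pi.smul_apply] at this
    rw [this, mul_add, nmk_add]
    simp only [a, b, nvec, smul_nmk, mul_assoc]
  obtain ⟨n0, hn0, hn0', hn0c, hn0k⟩ := hlarge 0 _ hp0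
  obtain ⟨n1, hn1, hn1', hn1c, hn1k⟩ := hlarge 1 _ hp1
  obtain ⟨n2, hn2, hn2', hn2c, hn2k⟩ := hlarge 2 _ hp2
  have m0 : p ∈ nG hs a b n0 := by
    by_contra hcon; exact hn0' ⟨hn0, hcon⟩
  have m1 : p ∈ nG hs a b n1 := by
    by_contra hcon; exact hn1' ⟨hn1, hcon⟩
  have m2 : (⟨a, ha⟩ - p : nmod hs a b) ∈ nG hs a b n2 := by
    by_contra hcon; exact hn2' ⟨hn2, hcon⟩
  have k0 := key n0 α p hn0c hn0k m0 (by
    rw [hpn]
    simp only [ea, eb, hn0]
    simp [mul_assoc])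
  have k1 := key n1 β p hn1c hn1k m1 (by
    rw [hpn]
    simp only [ea, eb, hn1]
    simp [mul_assoc])
  have k2 := key n2 (s ^ k - α - β) (⟨a, ha⟩ - p) hn2c hn2k m2 (by
    have e1 : (⟨a, ha⟩ - p : nmod hs a b).1 n2 = a n2 - p.1 n2 := rfl
    rw [e1, smul_sub, hpn]
    simp only [a, nvec, smul_nmk, ea, eb, hn2, ← nmk_sub]
    congr 1
    have e2 : ((2 : Fin 3) = 1) = False := by decide
    have e3 : ((2 : Fin 3) = 0) = False := by decide
    simp only [e2, e3, if_false, mul_one]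
    rw [pow_add]
    noncomm_ring)
  have mono : ∀ (n N : ℕ) (γ : B) (e : ℕ), n ≤ N → s ^ (n ^ 2) * γ * s ^ n ∈ hs.pw (n ^ 2 + n + e) →
      s ^ (N ^ 2) * γ * s ^ N ∈ hs.pw (N ^ 2 + N + e) := by
    intro n N γ e hnN h
    obtain ⟨i, hi⟩ := Nat.exists_eq_add_of_le (Nat.pow_le_pow_left hnN 2)
    obtain ⟨j, hj⟩ := Nat.exists_eq_add_of_le hnN
    have h1 := hs.pow_mul_mul_mem h i j
    have h2 : s ^ i * (s ^ (n ^ 2) * γ * s ^ n) * s ^ j = s ^ (N ^ 2) * γ * s ^ N := by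
      rw [hi, hj, ← mul_assoc, ← mul_assoc, ← pow_add, mul_assoc _ (s ^ n), ← pow_add,
        add_comm i]
    rw [h2] at h1
    have h3 : i + (n ^ 2 + n + e) + j = N ^ 2 + N + e := by omega
    rwa [h3] at h1
  set N := n0 + n1 + n2 with hN
  have l0 := mono n0 N α (k + 1) (by omega) k0
  have l1 := mono n1 N β (k + 1) (by omega) k1
  have l2 := mono n2 N (s ^ k - α - β) (k + 1) (by omega) k2
  have l3 := Ideal.add_mem _ (Ideal.add_mem _ l0 l1) l2
  obtain ⟨d, hd⟩ := l3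
  refine ⟨N ^ 2 + N + k, d, ?_⟩
  have e5 : s ^ (N ^ 2) * α * s ^ N + s ^ (N ^ 2) * β * s ^ N
      + s ^ (N ^ 2) * (s ^ k - α - β) * s ^ N = s ^ (N ^ 2 + N + k) := by
    have : s ^ (N ^ 2 + N + k) = s ^ (N ^ 2) * s ^ k * s ^ N := by
      rw [← pow_add, ← pow_add]; congr 1; omega
    rw [this]
    noncomm_ring
  rw [e5] at hd
  exact hd

end Pool.Agent.H86.EndoDist
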