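import Mathlib
import Pool.Agent.H86.EndoDist.Normal
import Pool.Agent.H86.EndoDist.Data

set_option autoImplicit false

/-!
Local admissible rings with nil radical are Artinian chain rings.
-/

namespace Pool.Agent.H86.EndoDist

universe u v w

section

variable {B : Type u} [Ring B]

lemma isUnit_mul_loc (hl : IsLocalRing B) {x y : B} (h : IsUnit (x * y)) : IsUnit x ∧ IsUnit y := by
  obtain ⟨w, hw⟩ := h
  have h1 : x * (y * (w⁻¹ : Bˣ)) = 1 := by
    rw [← mul_assoc, ← hw, Units.mul_inv]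
  have h2 : ((w⁻¹ : Bˣ) * x) * y = 1 := by
    rw [mul_assoc, ← hw, Units.inv_mul]
  exact ⟨(isUnit_of_mul_eq_one_loc hl h1).2, (isUnit_of_mul_eq_one_loc hl h2).1⟩

lemma not_isUnit_add_loc (hl : IsLocalRing B) {x y : B} (hx : ¬ IsUnit x) (hy : ¬ IsUnit y) :
    ¬ IsUnit (x + y) := by
  intro h
  obtain ⟨w, hw⟩ := h
  have h1 : (w⁻¹ : Bˣ) * x + (w⁻¹ : Bˣ) * y = 1 := by
    rw [← mul_add, ← hw, Units.inv_mul]
  rcases hl.isUnit_or_isUnit_of_add_one h1 with h | h
  · exact hx (isUnit_mul_loc hl h).2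
  · exact hy (isUnit_mul_loc hl h).2

lemma LD.chain (h : LD B) (hl : IsLocalRing B) (x y : B) : ∃ c, x = c * y ∨ y = c * x := by
  obtain ⟨r, c, d, h1, h2⟩ := h x y
  rcases hl.isUnit_or_isUnit_of_add_one (a := r) (b := 1 - r) (by abel) with hr | hr
  · obtain ⟨w, rfl⟩ := hr
    refine ⟨(w⁻¹ : Bˣ) * c - 1, Or.inr ?_⟩
    have h3 : x + y = (w⁻¹ : Bˣ) * c * x := by
      rw [mul_assoc, ← h1, ← mul_assoc, Units.inv_mul, one_mul]
    rw [sub_mul, one_mul, ← h3]; abel
  · obtain ⟨w, hw⟩ := hr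
    refine ⟨(w⁻¹ : Bˣ) * d - 1, Or.inl ?_⟩
    have h3 : x + y = (w⁻¹ : Bˣ) * d * y := by
      rw [mul_assoc, ← h2, ← mul_assoc, ← hw, Units.inv_mul, one_mul]
    rw [sub_mul, one_mul, ← h3]; abel

lemma RD.chain (h : RD B) (hl : IsLocalRing B) (x y : B) : ∃ c, x = y * c ∨ y = x * c := by
  obtain ⟨r, c, d, h1, h2⟩ := h x y
  rcases hl.isUnit_or_isUnit_of_add_one (a := r) (b := 1 - r) (by abel) with hr | hr
  · obtain ⟨w, rfl⟩ := hr
    refine ⟨c * (w⁻¹ : Bˣ) - 1, Or.inr ?_⟩
    have h3 : x + y = x * (c * (w⁻¹ : Bˣ)) := by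
      rw [← mul_assoc, ← h1, mul_assoc, Units.mul_inv, mul_one]
    rw [mul_sub, mul_one, ← h3]; abel
  · obtain ⟨w, hw⟩ := hr
    refine ⟨d * (w⁻¹ : Bˣ) - 1, Or.inl ?_⟩
    have h3 : x + y = y * (d * (w⁻¹ : Bˣ)) := by
      rw [← mul_assoc, ← h2, mul_assoc, ← hw, Units.mul_inv, mul_one]
    rw [mul_sub, mul_one, ← h3]; abel

/-- hypotheses of the local nil case -/
structure LocNil (B : Type u) [Ring B] : Prop where
  isLocal : IsLocalRing B
  left_chain : ∀ x y : B, ∃ c, x = c * y ∨ y = c * x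
  right_chain : ∀ x y : B, ∃ c, x = y * c ∨ y = x * c
  nil : ∀ x : B, ¬ IsUnit x → IsNilpotent x

namespace LocNil

variable (hB : LocNil B)

include hB

lemma normal (x : B) : IsNormalElt x := by
  constructor
  · intro r
    obtain ⟨b, hb | hb⟩ := hB.right_chain (r * x) x
    · exact ⟨b, hb⟩
    · by_cases hu : IsUnit b
      · obtain ⟨w, rfl⟩ := hu
        refine ⟨(w⁻¹ : Bˣ), ?_⟩
        calc r * x = r * x * w * (w⁻¹ : Bˣ) := by rw [mul_assoc _ (w : B), Units.mul_inv, mul_one]
          _ = x * (w⁻¹ : Bˣ) := by rw [← hb]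
      · obtain ⟨n, hn⟩ := hB.nil b hu
        have h1 : ∀ k, x = r ^ k * x * b ^ k := by
          intro k
          induction k with
          | zero => simp
          | succ k ih =>
            calc x = r ^ k * x * b ^ k := ih
              _ = r ^ k * (r * x * b) * b ^ k := by rw [← hb]
              _ = r ^ (k + 1) * x * b ^ (k + 1) := by
                rw [pow_succ r k, pow_succ' b k]
                simp only [mul_assoc]
        have h2 : x = 0 := by
          have := h1 n
          rw [hn, mul_zero] at this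
          exact this
        exact ⟨0, by rw [h2]; simp⟩
  · intro r
    obtain ⟨b, hb | hb⟩ := hB.left_chain (x * r) x
    · exact ⟨b, hb⟩
    · by_cases hu : IsUnit b
      · obtain ⟨w, rfl⟩ := hu
        refine ⟨(w⁻¹ : Bˣ), ?_⟩
        calc x * r = (w⁻¹ : Bˣ) * (w * (x * r)) := by rw [← mul_assoc, Units.inv_mul, one_mul]
          _ = (w⁻¹ : Bˣ) * x := by rw [← hb]
      · obtain ⟨n, hn⟩ := hB.nil b hu
        have h1 : ∀ k, x = b ^ k * x * r ^ k := by
          intro k
          induction k with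
          | zero => simp
          | succ k ih =>
            calc x = b ^ k * x * r ^ k := ih
              _ = b ^ k * (b * (x * r)) * r ^ k := by rw [← hb]
              _ = b ^ (k + 1) * x * r ^ (k + 1) := by
                rw [pow_succ b k, pow_succ' r k]
                simp only [mul_assoc]
        have h2 : x = 0 := by
          have := h1 n
          rw [hn, zero_mul, zero_mul] at this
          exact this
        exact ⟨0, by rw [h2]; simp⟩

/-- `x j = y x`, `j` a unit, `x ≠ 0` implies `y` a unit -/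
lemma unit_of_swap {x y j : B} (hx : x ≠ 0) (h : y * x = x * j) (hj : IsUnit j) : IsUnit y := by
  by_contra hy
  obtain ⟨n, hn⟩ := hB.nil y hy
  obtain ⟨w, rfl⟩ := hj
  have h1 : ∀ k, y ^ k * x = x * (w : B) ^ k := by
    intro k
    induction k with
    | zero => simp
    | succ k ih => rw [pow_succ, mul_assoc, h, ← mul_assoc, ih, mul_assoc, ← pow_succ]
  have h2 := h1 n
  rw [hn, zero_mul] at h2
  apply hx
  have h3 : x * ((w ^ n : Bˣ) : B) = 0 := by rw [Units.val_pow_eq_pow_val]; exact h2.symm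
  exact (Units.mul_left_eq_zero _).mp h3

lemma unit_of_swap' {x y j : B} (hx : x ≠ 0) (h : y * x = x * j) (hj : IsUnit y) : IsUnit j := by
  by_contra hy
  obtain ⟨n, hn⟩ := hB.nil j hy
  obtain ⟨w, rfl⟩ := hj
  have h1 : ∀ k, (w : B) ^ k * x = x * j ^ k := by
    intro k
    induction k with
    | zero => simp
    | succ k ih => rw [pow_succ, mul_assoc, h, ← mul_assoc, ih, mul_assoc, ← pow_succ]
  have h2 := h1 n
  rw [hn, mul_zero] at h2
  apply hx
  have h3 : ((w ^ n : Bˣ) : B) * x = 0 := by rw [Units.val_pow_eq_pow_val]; exact h2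
  exact (Units.mul_right_eq_zero _).mp h3

/-- the principal case -/
lemma artinian_of_principal (p : B) (hp : ¬ IsUnit p) (h : ∀ x, ¬ IsUnit x → ∃ c, x = c * p) :
    IsArtinianRing B := by
  classical
  obtain ⟨n, hn⟩ := hB.nil p hp
  have hform : ∀ x : B, ∃ k ≤ n, ∃ w : Bˣ, x = w * p ^ k ∨ x = 0 := by
    intro x
    by_cases hx0 : x = 0
    · exact ⟨0, Nat.zero_le _, 1, Or.inr hx0⟩
    by_contra hcon
    push Not at hcon
    have key : ∀ k ≤ n, ∃ c, x = c * p ^ k := by
      intro k
      induction k with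
      | zero => exact fun _ => ⟨x, by simp⟩
      | succ k ih =>
        intro hk
        obtain ⟨c, hc⟩ := ih (by omega)
        have hcu : ¬ IsUnit c := by
          rintro ⟨w, rfl⟩
          exact (hcon k (by omega) w).1 hc
        obtain ⟨d, rfl⟩ := h c hcu
        exact ⟨d, by rw [hc, mul_assoc, ← pow_succ']⟩
    obtain ⟨c, hc⟩ := key n le_rfl
    rw [hn, mul_zero] at hc
    exact hx0 hc
  have hsurj : Function.Surjective (fun k : Fin (n + 1) => (Ideal.span {p ^ (k : ℕ)} : Ideal B)) := by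
    intro I
    have hex : ∃ k, p ^ k ∈ I := ⟨n, by rw [hn]; exact I.zero_mem⟩
    have hle : Nat.find hex ≤ n := Nat.find_min' hex (by rw [hn]; exact I.zero_mem)
    refine ⟨⟨Nat.find hex, by omega⟩, ?_⟩
    apply le_antisymm
    · rw [Ideal.span_singleton_le_iff_mem]
      exact Nat.find_spec hex
    · intro x hx
      obtain ⟨k, _, w, hw | hw⟩ := hform x
      · have hk : p ^ k ∈ I := by
          have := I.mul_mem_left ((w⁻¹ : Bˣ) : B) hx
          rwa [hw, ← mul_assoc, Units.inv_mul, one_mul] at this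
        have hkk := Nat.find_min' hex hk
        obtain ⟨i, hi⟩ := Nat.exists_eq_add_of_le hkk
        rw [hw, Ideal.mem_span_singleton']
        refine ⟨w * p ^ i, ?_⟩
        simp only
        rw [mul_assoc, ← pow_add]
        congr 2
        omega
      · rw [hw]; exact Ideal.zero_mem _
  have hfin : Finite (Ideal B) := Finite.of_surjective _ hsurj
  have : WellFoundedLT (Submodule B B) := by
    have : Finite (Submodule B B) := hfin
    infer_instance
  exact this

end LocNil

end

section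

variable {B : Type u} [Ring B] (hB : LocNil B) (t : ℕ → B)

include hB in
/-- the two-sided ideal `B t²` as a left ideal -/
abbrev LQ (_ : LocNil B) (t : ℕ → B) (n : ℕ) : Type u := QM (Ideal.span {t n * t n} : Ideal B)

include hB in
/-- sums -/
def lmod (_ : LocNil B) (t : ℕ → B) (a b : ∀ n, QM (Ideal.span {t n * t n} : Ideal B)) :
    Submodule B (∀ n, QM (Ideal.span {t n * t n} : Ideal B)) where
  carrier := {x | ∃ α β : B, {n | x n ≠ α • a n + β • b n}.Finite}
  add_mem' := by
    rintro x x' ⟨α, β, h⟩ ⟨α', β', h'⟩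
    refine ⟨α + α', β + β', (h.union h').subset ?_⟩
    intro n hn
    by_contra hcon
    simp only [Set.mem_union, Set.mem_setOf_eq, not_or, not_not] at hcon
    apply hn
    rw [Pi.add_apply, hcon.1, hcon.2, add_smul, add_smul]
    abel
  zero_mem' := ⟨0, 0, by simp⟩
  smul_mem' := by
    rintro s x ⟨α, β, h⟩
    refine ⟨s * α, s * β, h.subset ?_⟩
    intro n hn
    by_contra hcon
    simp only [Set.mem_setOf_eq, not_not] at hcon
    apply hn
    rw [Pi.smul_apply, hcon, smul_add, smul_smul, smul_smul]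

end

/-- The idempotent radical is impossible. -/
theorem no_descending {B : Type u} [Ring B] (hA : Adm B) (hB : LocNil B) (t c : ℕ → B)
    (hc : ∀ n, ¬ IsUnit (c n)) (htc : ∀ n, t n = c n * t (n + 1)) (h0 : t 0 * t 0 ≠ 0) : False := by
  classical
  -- divisibility
  have hdvd : ∀ i j, i ≤ j → ∃ d, t i = d * t j := by
    intro i j hij
    induction j, hij using Nat.le_induction with
    | base => exact ⟨1, (one_mul _).symm⟩
    | succ j _ ih =>
      obtain ⟨d, hd⟩ := ih
      exact ⟨d * c j, by rw [hd, mul_assoc]; congr 1; exact htc j⟩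
  have hvne : ∀ i j, t i * t j ≠ 0 := by
    intro i j h
    apply h0
    obtain ⟨d, hd⟩ := hdvd 0 i (Nat.zero_le _)
    obtain ⟨d', hd'⟩ := hdvd 0 j (Nat.zero_le _)
    obtain ⟨d'', hd''⟩ := (hB.normal (t i)).right d'
    calc t 0 * t 0 = (d * t i) * (d' * t j) := by rw [← hd, ← hd']
      _ = d * (t i * d') * t j := by simp only [mul_assoc]
      _ = d * d'' * (t i * t j) := by rw [hd'']; simp only [mul_assoc]
      _ = 0 := by rw [h, mul_zero]
  have htne : ∀ i, t i ≠ 0 := by
    intro i h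
    apply hvne i i
    rw [h, mul_zero]
  let P : ℕ → Ideal B := fun n => Ideal.span {t n * t n}
  have hP : ∀ n x, x ∈ P n ↔ ∃ d, x = d * (t n * t n) := by
    intro n x
    simp only [P]
    rw [Ideal.mem_span_singleton']
    exact ⟨fun ⟨d, hd⟩ => ⟨d, hd.symm⟩, fun ⟨d, hd⟩ => ⟨d, hd.symm⟩⟩
  let S : ℕ → Fin 3 := fun n => ⟨n % 3, Nat.mod_lt _ (by norm_num)⟩
  let ea : ℕ → B := fun n => if S n = 1 then 0 else 1
  let eb : ℕ → B := fun n => if S n = 0 then 0 else 1
  let vec : (ℕ → B) → ∀ n, QM (P n) := fun e n => qmk (P n) (t n * e n)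
  let a := vec ea
  let b := vec eb
  let N := lmod hB t a b
  have hN : ∀ x : (∀ n, QM (P n)), x ∈ N ↔ ∃ α β : B, {n | x n ≠ α • a n + β • b n}.Finite :=
    fun _ => Iff.rfl
  let G : ℕ → Submodule (Module.End B N) N := fun n => annE N (t (n + 1)) ⊔ imgE N (t (n - 1))
  have hvec : ∀ (e : ℕ → B) (he : vec e ∈ N) (n : ℕ), e n = 0 → (⟨vec e, he⟩ : N) ∈ G n := by
    intro e he n hn
    have hdiv : ∀ j, j < n → ∃ d, t j = t (n - 1) * d := by
      intro j hj
      obtain ⟨d, hd⟩ := hdvd j (n - 1) (by omega)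
      obtain ⟨d', hd'⟩ := (hB.normal (t (n - 1))).left d
      exact ⟨d', by rw [hd, hd']⟩
    choose! δ hδ using hdiv
    let y : ∀ j, QM (P j) := fun j => if n < j then vec e j else 0
    let z : ∀ j, QM (P j) := fun j => if j < n then qmk (P j) (δ j * e j) else 0
    have hy0 : t (n + 1) • y = 0 := by
      funext j
      simp only [y, Pi.smul_apply, Pi.zero_apply]
      split_ifs with hj
      · simp only [vec]
        rw [smul_qmk, qmk_eq_zero, hP]
        obtain ⟨d, hd⟩ := hdvd (n + 1) j (by omega)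
        obtain ⟨f, hf⟩ := (hB.normal (t j * t j)).right (e j)
        refine ⟨d * f, ?_⟩
        rw [hd]
        calc d * t j * (t j * e j) = d * (t j * t j * e j) := by simp only [mul_assoc]
          _ = d * f * (t j * t j) := by rw [hf, mul_assoc]
      · exact smul_zero _
    have hz : vec e = y + t (n - 1) • z := by
      funext j
      simp only [y, z, Pi.smul_apply, Pi.add_apply]
      rcases lt_trichotomy j n with hj | hj | hj
      · rw [if_neg (by omega), if_pos hj, zero_add, smul_qmk, ← mul_assoc, ← hδ j hj]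
      · subst hj
        rw [if_neg (by omega), if_neg (by omega), smul_zero, add_zero]
        simp only [vec]
        rw [hn, mul_zero, map_zero]
      · rw [if_pos hj, if_neg (by omega), smul_zero, add_zero]
    have hzM : z ∈ N := by
      rw [hN]
      refine ⟨0, 0, (Set.finite_lt_nat n).subset ?_⟩
      intro j hj
      by_contra hcon
      apply hj
      simp only [Set.mem_setOf_eq] at hcon
      simp only [z]
      rw [if_neg hcon, zero_smul, zero_smul, add_zero]
    have hyM : y ∈ N := by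
      have : y = vec e - t (n - 1) • z := by rw [hz]; abel
      rw [this]
      exact N.sub_mem he (N.smul_mem _ hzM)
    have : (⟨vec e, he⟩ : N) ∈ annE N (t (n + 1)) ⊔ imgE N (t (n - 1)) := by
      rw [mem_sup_ann_img]
      refine ⟨⟨y, hyM⟩, ⟨z, hzM⟩, ?_, ?_⟩
      · ext1; exact hy0
      · ext1; exact hz
    exact this
  have hcoord : ∀ (x : N) (n : ℕ), x ∈ G n →
      ∃ ζ : B, t (n + 1) • x.1 n = qmk (P n) (t (n + 1) * (t (n - 1) * ζ)) := by
    intro x n hx
    have hx' : x ∈ annE N (t (n + 1)) ⊔ imgE N (t (n - 1)) := hx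
    rw [mem_sup_ann_img] at hx'
    obtain ⟨y, z, hy, rfl⟩ := hx'
    obtain ⟨ζ, hζ⟩ := qmk_surj (P n) (z.1 n)
    refine ⟨ζ, ?_⟩
    have h1 : t (n + 1) • y.1 n = 0 := by
      have : (t (n + 1) • y).1 n = 0 := by rw [hy]; rfl
      exact this
    have h3 : (y + t (n - 1) • z).1 n = y.1 n + t (n - 1) • z.1 n := rfl
    rw [h3, smul_add, h1, zero_add, hζ, smul_qmk, smul_qmk]
  have ha : a ∈ N := ⟨1, 0, by simp⟩
  have hb : b ∈ N := ⟨0, 1, by simp⟩
  have hab : vec (fun n => ea n - eb n) = a - b := by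
    funext n
    simp only [a, b, vec, Pi.sub_apply]
    rw [mul_sub, map_sub]
  have hab' : vec (fun n => ea n - eb n) ∈ N := by
    rw [hab]; exact Submodule.sub_mem _ ha hb
  obtain ⟨p, hp0, hp1, hp2⟩ := three_dir (hA N) S G ⟨a, ha⟩ ⟨b, hb⟩
    (by
      intro n hn
      exact hvec eb hb n (by simp [eb, hn]))
    (by
      intro n hn
      exact hvec ea ha n (by simp [ea, hn]))
    (by
      intro n hn
      have := hvec _ hab' n (by simp [ea, eb, hn])
      have e : (⟨vec (fun n => ea n - eb n), hab'⟩ : N) = ⟨a, ha⟩ - ⟨b, hb⟩ := by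
        ext1; exact hab
      rw [← e]; exact this)
  obtain ⟨α, β, hp⟩ := p.2
  have hlarge : ∀ (i : Fin 3) (F : Set ℕ), F.Finite →
      ∃ n, S n = i ∧ n ∉ F ∧ 1 ≤ n ∧ p.1 n = α • a n + β • b n := by
    intro i F hF
    obtain ⟨N, hN⟩ := (hF.union hp).bddAbove
    refine ⟨3 * (N + 1) + i, ?_, ?_, ?_, ?_⟩
    · ext
      simp only [S]
      omega
    · intro hmem
      have := hN (Set.mem_union_left _ hmem)
      omega
    · omega
    · by_contra hcon
      have := hN (Set.mem_union_right _ hcon)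
      omega
  -- key: the coefficient is a non-unit
  have key : ∀ (n : ℕ) (γ : B) (x : N), 1 ≤ n → x ∈ G n → x.1 n = qmk (P n) (γ * t n) →
      ¬ IsUnit γ := by
    intro n γ x hn1 hx h hγ
    obtain ⟨ζ, hζ⟩ := hcoord x n hx
    rw [h, smul_qmk, qmk_eq, hP] at hζ
    obtain ⟨d, hd⟩ := hζ
    obtain ⟨m, rfl⟩ : ∃ m, n = m + 1 := ⟨n - 1, by omega⟩
    rw [Nat.add_sub_cancel] at hd
    set v := t (m + 1 + 1) * t (m + 1) with hv
    have hv0 : v ≠ 0 := hvne _ _
    -- `γ t_n = t_n γ'`
    obtain ⟨γ', hγ'⟩ := (hB.normal (t (m + 1))).left γ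
    have hγ'u : IsUnit γ' := hB.unit_of_swap' (htne _) hγ' hγ
    -- `t_{n-1} = c t_n = t_n c'`
    obtain ⟨c', hc'⟩ := (hB.normal (t (m + 1))).left (c m)
    have hc'u : ¬ IsUnit c' := fun hu => hc m (hB.unit_of_swap (htne _) hc' hu)
    -- `t_n = t_{n+1} e`
    obtain ⟨e, he⟩ := (hB.normal (t (m + 1 + 1))).left (c (m + 1))
    have heu : ¬ IsUnit e := fun hu => hc (m + 1) (hB.unit_of_swap (htne _) he hu)
    obtain ⟨e', he'⟩ := (hB.normal (t (m + 1))).left e
    have he'u : ¬ IsUnit e' := fun hu => heu (hB.unit_of_swap (htne _) he' hu)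
    obtain ⟨d', hd'⟩ := (hB.normal v).left d
    have e1 : t (m + 1 + 1) * (γ * t (m + 1)) = v * γ' := by
      rw [hγ', ← mul_assoc]
    have e2 : t (m + 1 + 1) * (t m * ζ) = v * (c' * ζ) := by
      have : t m = t (m + 1) * c' := by rw [← hc']; exact htc m
      rw [this, hv]; simp only [mul_assoc]
    have e3 : t (m + 1) * t (m + 1) = v * e' := by
      calc t (m + 1) * t (m + 1) = (c (m + 1) * t (m + 1 + 1)) * t (m + 1) := by
            rw [← htc (m + 1)]
        _ = t (m + 1 + 1) * (e * t (m + 1)) := by rw [he, mul_assoc]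
        _ = v * e' := by rw [he', hv, mul_assoc]
    rw [e1, e2, e3, ← mul_assoc d, hd'] at hd
    have e4 : v * (γ' - (c' * ζ + d' * e')) = 0 := by
      rw [mul_sub, mul_add, ← mul_assoc v d', ← sub_sub, hd, sub_self]
    have e5 : ¬ IsUnit (c' * ζ + d' * e') :=
      not_isUnit_add_loc hB.isLocal (fun hu => hc'u (isUnit_mul_loc hB.isLocal hu).1)
        (fun hu => he'u (isUnit_mul_loc hB.isLocal hu).2)
    have e6 : IsUnit (γ' - (c' * ζ + d' * e')) := by
      by_contra hcon
      have := not_isUnit_add_loc hB.isLocal hcon e5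
      rw [sub_add_cancel] at this
      exact this hγ'u
    obtain ⟨w, hw⟩ := e6
    rw [← hw] at e4
    apply hv0
    have := congrArg (fun s => s * ((w⁻¹ : Bˣ) : B)) e4
    simpa [mul_assoc] using this
  obtain ⟨n0, hn0, hn0', hn01, hpn0⟩ := hlarge 0 _ hp0
  obtain ⟨n1, hn1, hn1', hn11, hpn1⟩ := hlarge 1 _ hp1
  obtain ⟨n2, hn2, hn2', hn21, hpn2⟩ := hlarge 2 _ hp2
  have m0 : p ∈ G n0 := by
    by_contra hcon; exact hn0' ⟨hn0, hcon⟩
  have m1 : p ∈ G n1 := by
    by_contra hcon; exact hn1' ⟨hn1, hcon⟩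
  have m2 : (⟨a, ha⟩ - p : N) ∈ G n2 := by
    by_contra hcon; exact hn2' ⟨hn2, hcon⟩
  have f2 : ((2 : Fin 3) = 1) = False := by decide
  have f3 : ((2 : Fin 3) = 0) = False := by decide
  have k0 := key n0 α p hn01 m0 (by
    rw [hpn0]
    simp only [a, b, vec, ea, eb, hn0, smul_qmk]
    simp)
  have k1 := key n1 β p hn11 m1 (by
    rw [hpn1]
    simp only [a, b, vec, ea, eb, hn1, smul_qmk]
    simp)
  have k2 := key n2 (1 - α - β) (⟨a, ha⟩ - p) hn21 m2 (by
    have e1 : (⟨a, ha⟩ - p : N).1 n2 = a n2 - p.1 n2 := rfl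
    rw [e1, hpn2]
    simp only [a, b, vec, ea, eb, hn2, f2, f3, if_false, mul_one, smul_qmk]
    rw [← map_add, ← map_sub]
    congr 1
    noncomm_ring)
  have k3 := not_isUnit_add_loc hB.isLocal (not_isUnit_add_loc hB.isLocal k0 k1) k2
  apply k3
  have : α + β + (1 - α - β) = 1 := by abel
  rw [this]
  exact isUnit_one

/-- Local admissible rings with nil radical are Artinian chain rings. -/
theorem Adm.local_nil {B : Type u} [Ring B] (hA : Adm B) (hl : IsLocalRing B)
    (hnil : ∀ x : B, ¬ IsUnit x → IsNilpotent x) : IsArtinianChainRing B := by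
  classical
  have hB : LocNil B := ⟨hl, hA.ld.chain hl, hA.rd.chain hl, hnil⟩
  by_cases hp : ∃ p : B, ¬ IsUnit p ∧ ∀ x, ¬ IsUnit x → ∃ c, x = c * p
  · obtain ⟨p, hp, h⟩ := hp
    exact ⟨hl, hB.artinian_of_principal p hp h, hB.left_chain, hB.right_chain⟩
  · exfalso
    push Not at hp
    have hstep : ∀ t : B, ¬ IsUnit t → ∃ c x, ¬ IsUnit c ∧ ¬ IsUnit x ∧ t = c * x := by
      intro t ht
      obtain ⟨x, hx, hxt⟩ := hp t ht
      obtain ⟨c, hc | hc⟩ := hB.left_chain x t
      · exact absurd hc (hxt c)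
      · refine ⟨c, x, ?_, hx, hc⟩
        rintro ⟨w, rfl⟩
        apply hxt (w⁻¹ : Bˣ)
        rw [hc, ← mul_assoc, Units.inv_mul, one_mul]
    -- an element of square non-zero
    have h1 : ∃ t0 : B, ¬ IsUnit t0 ∧ t0 * t0 ≠ 0 := by
      by_contra hcon
      push Not at hcon
      obtain ⟨t, ht, ht0⟩ := hp 0 (by
        have := hl.toNontrivial
        exact not_isUnit_zero)
      have ht1 : t ≠ 0 := by
        intro h
        apply ht0 0
        rw [h, mul_zero]
      obtain ⟨c, x, hc, hx, htx⟩ := hstep t ht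
      apply ht1
      obtain ⟨d, hd | hd⟩ := hB.left_chain c x
      · rw [htx, hd, mul_assoc, hcon x hx, mul_zero]
      · obtain ⟨d', hd'⟩ := (hB.normal c).right d
        rw [htx, hd, ← mul_assoc, hd', mul_assoc, hcon c hc, mul_zero]
    obtain ⟨t0, ht0, ht00⟩ := h1
    choose! c x hc hx hcx using hstep
    let t : ℕ → B := fun n => x^[n] t0
    have ht : ∀ n, ¬ IsUnit (t n) := by
      intro n
      induction n with
      | zero => exact ht0
      | succ n ih =>
        simp only [t, Function.iterate_succ_apply']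
        exact hx _ ih
    refine no_descending hA hB t (fun n => c (t n)) (fun n => hc _ (ht n)) ?_ ht00
    intro n
    have := hcx (t n) (ht n)
    simp only [t, Function.iterate_succ_apply'] at this ⊢
    exact this

end Pool.Agent.H86.EndoDist
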