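import Mathlib
import Pool.Agent.H86.EndoDist.Dist
import Pool.Agent.H86.EndoDist.QM

set_option autoImplicit false

/-!
An admissible ring has only finitely many maximal left ideals.
-/

namespace Pool.Agent.H86.EndoDist

universe u v w

/-- vectors that agree with a combination of `a` and `b` almost everywhere -/
def fmod {B : Type u} [Ring B] {Λ : Type v} (P : Λ → Ideal B) (a b : ∀ n, QM (P n)) :
    Submodule B (∀ n, QM (P n)) where
  carrier := {x | ∃ α β : B, {n | x n ≠ α • a n + β • b n}.Finite}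
  add_mem' := by
    rintro x x' ⟨α, β, h⟩ ⟨α', β', h'⟩
    refine ⟨α + α', β + β', (h.union h').subset ?_⟩
    intro n hn
    by_contra hcon
    simp only [Set.mem_union, Set.mem_setOf_eq, not_or, not_not] at hcon
    apply hn
    rw [Pi.add_apply, hcon.1, hcon.2, add_smul, add_smul]
    abel
  zero_mem' := ⟨0, 0, by simp⟩
  smul_mem' := by
    rintro s x ⟨α, β, h⟩
    refine ⟨s * α, s * β, h.subset ?_⟩
    intro n hn
    by_contra hcon
    simp only [Set.mem_setOf_eq, not_not] at hcon
    apply hn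
    rw [Pi.smul_apply, hcon, smul_add, smul_smul, smul_smul]

/-- a sequence of maximal ideals with separating elements -/
structure SepSeq (B : Type u) [Ring B] where
  m : ℕ → Ideal B
  s : ℕ → B
  max : ∀ n, (m n).IsMaximal
  mem : ∀ n, s n ∈ m n
  nmem : ∀ n i, n < i → s n ∉ m i

theorem exists_sepSeq {B : Type u} [Ring B] (X : Set (Ideal B)) (hX : X.Infinite)
    (hmax : ∀ m ∈ X, m.IsMaximal) : Nonempty (SepSeq B) := by
  classical
  have hstep : ∀ Y : {Y : Set (Ideal B) // Y.Infinite ∧ ∀ m ∈ Y, m.IsMaximal},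
      ∃ (m : Ideal B) (s : B) (Z : {Y : Set (Ideal B) // Y.Infinite ∧ ∀ m ∈ Y, m.IsMaximal}),
        m ∈ Y.1 ∧ s ∈ m ∧ Z.1 ⊆ Y.1 ∧ ∀ m' ∈ Z.1, s ∉ m' := by
    rintro ⟨Y, hY, hYm⟩
    by_contra hcon
    push Not at hcon
    have hbad : ∀ m ∈ Y, ∀ s ∈ m, {m' ∈ Y | s ∉ m'}.Finite := by
      intro m hm s hs
      by_contra hinf
      obtain ⟨m', hm', hs'⟩ := hcon m s ⟨{m' ∈ Y | s ∉ m'}, hinf, fun m' hm' => hYm m' hm'.1⟩ hm hs
        (fun m' hm' => hm'.1)
      exact hm'.2 hs'
    obtain ⟨m, hm⟩ := hY.nonempty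
    obtain ⟨m', hm', hne⟩ := (hY.diff (Set.finite_singleton m)).nonempty
    have hne' : m' ≠ m := hne
    have hsup : m ⊔ m' = ⊤ := by
      apply (hYm m hm).out.2
      refine lt_of_le_of_ne le_sup_left ?_
      intro h
      apply hne'
      have h1 : m' ≤ m := by rw [h]; exact le_sup_right
      exact (hYm m' hm').eq_of_le (hYm m hm).ne_top h1
    have h1 : (1 : B) ∈ m ⊔ m' := by rw [hsup]; trivial
    obtain ⟨s, hs, s', hs', hss⟩ := Submodule.mem_sup.mp h1
    apply hY
    refine ((hbad m hm s hs).union (hbad m' hm' s' hs')).subset ?_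
    intro k hk
    by_contra hc
    simp only [Set.mem_union, Set.mem_setOf_eq, not_or, not_and, not_not] at hc
    apply (hYm k hk).ne_top
    rw [Ideal.eq_top_iff_one, ← hss]
    exact k.add_mem (hc.1 hk) (hc.2 hk)
  choose mm ss ZZ h1 h2 h3 h4 using hstep
  let Y : ℕ → {Y : Set (Ideal B) // Y.Infinite ∧ ∀ m ∈ Y, m.IsMaximal} :=
    fun n => ZZ^[n] ⟨X, hX, hmax⟩
  have hY : ∀ n, Y (n + 1) = ZZ (Y n) := by
    intro n
    simp only [Y, Function.iterate_succ_apply']
  have hsub : ∀ n i, n ≤ i → (Y i).1 ⊆ (Y n).1 := by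
    intro n i hni
    induction i, hni using Nat.le_induction with
    | base => exact subset_rfl
    | succ i _ ih => exact (by rw [hY]; exact h3 (Y i) : (Y (i + 1)).1 ⊆ (Y i).1).trans ih
  refine ⟨⟨fun n => mm (Y n), fun n => ss (Y n), fun n => (Y n).2.2 _ (h1 (Y n)),
    fun n => h2 (Y n), ?_⟩⟩
  intro n i hni
  have h5 : mm (Y i) ∈ (ZZ (Y n)).1 := by
    rw [← hY]
    exact hsub (n + 1) i hni (h1 (Y i))
  exact h4 (Y n) _ h5

namespace SepSeq

variable {B : Type u} [Ring B] (Q : SepSeq B)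

/-- partial products -/
def h : ℕ → B
  | 0 => 1
  | n + 1 => h n * Q.s n

lemma h_succ (n : ℕ) : Q.h (n + 1) = Q.h n * Q.s n := rfl

variable (hD : LD B)

include hD

lemma h_mem {n i : ℕ} (hi : i < n) : Q.h n ∈ Q.m i := by
  induction n, hi using Nat.le_induction with
  | base => exact (Q.m i).mul_mem_left _ (Q.mem i)
  | succ n _ ih => exact hD.twoSided (Q.max i) ih _

lemma h_nmem {n i : ℕ} (hi : n ≤ i) : Q.h n ∉ Q.m i := by
  induction n with
  | zero =>
    intro hmem
    exact (Q.max i).ne_top ((Ideal.eq_top_iff_one _).mpr hmem)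
  | succ n ih =>
    intro hmem
    rcases hD.prime (Q.max i) hmem with h1 | h1
    · exact ih (by omega) h1
    · exact Q.nmem n i (by omega) h1

lemma exists_U : ∃ U : ℕ → ℕ → B, (∀ i, U 0 i = 1) ∧
    (∀ k i, k < i → Q.s k * U (k + 1) i - U k i ∈ Q.m i) ∧
    (∀ k i, k ≤ i → Q.h k * U k i - 1 ∈ Q.m i) := by
  classical
  have hinv : ∀ k i, ∃ d, k < i → Q.s k * d - 1 ∈ Q.m i := by
    intro k i
    by_cases hki : k < i
    · obtain ⟨d, _, hd⟩ := hD.inv_mod (Q.max i) (Q.nmem k i hki)
      exact ⟨d, fun _ => hd⟩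
    · exact ⟨0, fun h => absurd h hki⟩
  choose d hd using hinv
  let U : ℕ → ℕ → B := fun k => Nat.rec (fun _ => 1) (fun k V i => d k i * V i) k
  have hU0 : ∀ i, U 0 i = 1 := fun _ => rfl
  have hU1 : ∀ k i, U (k + 1) i = d k i * U k i := fun _ _ => rfl
  have hs : ∀ k i, k < i → Q.s k * U (k + 1) i - U k i ∈ Q.m i := by
    intro k i hki
    have h1 : Q.s k * U (k + 1) i - U k i = (Q.s k * d k i - 1) * U k i := by
      rw [hU1, sub_mul, one_mul, mul_assoc]
    rw [h1]
    exact hD.twoSided (Q.max i) (hd k i hki) _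
  refine ⟨U, hU0, hs, ?_⟩
  intro k
  induction k with
  | zero =>
    intro i _
    rw [hU0]
    simp [SepSeq.h]
  | succ k ih =>
    intro i hki
    have h1 : Q.h (k + 1) * U (k + 1) i - 1
        = Q.h k * (Q.s k * U (k + 1) i - U k i) + (Q.h k * U k i - 1) := by
      rw [h_succ, mul_sub, mul_assoc]; abel
    rw [h1]
    exact (Q.m i).add_mem ((Q.m i).mul_mem_left _ (hs k i (by omega))) (ih i (by omega))

/-- Level zero. -/
theorem level_zero (hA : Adm B) (S : ℕ → Fin 3) : ∃ (K : ℕ) (α β γ : B),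
    Q.h K = α + β + γ ∧ {n | S n = 0 ∧ α ∉ Q.m n}.Finite ∧ {n | S n = 1 ∧ β ∉ Q.m n}.Finite ∧
      {n | S n = 2 ∧ γ ∉ Q.m n}.Finite := by
  classical
  obtain ⟨U, hU0, hUs, hUh⟩ := Q.exists_U hD
  let ea : ℕ → B := fun n => if S n = 1 then 0 else 1
  let eb : ℕ → B := fun n => if S n = 0 then 0 else 1
  let vec : (ℕ → B) → ℕ → ∀ i, QM (Q.m i) := fun e K i => qmk (Q.m i) (U K i * e i)
  have hvs : ∀ e K i, K < i → Q.s K • vec e (K + 1) i = vec e K i := by
    intro e K i hKi
    simp only [vec]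
    rw [smul_qmk, qmk_eq, ← mul_assoc, ← sub_mul]
    exact hD.twoSided (Q.max i) (hUs K i hKi) _
  have hvh : ∀ e K i, K ≤ i → Q.h K • vec e K i = qmk (Q.m i) (e i) := by
    intro e K i hKi
    simp only [vec]
    rw [smul_qmk, qmk_eq, ← mul_assoc]
    have h1 : Q.h K * U K i * e i - e i = (Q.h K * U K i - 1) * e i := by rw [sub_mul, one_mul]
    rw [h1]
    exact hD.twoSided (Q.max i) (hUh K i hKi) _
  let N : Submodule B (∀ i, QM (Q.m i)) :=
    { carrier := {x | ∃ (K : ℕ) (α β : B), {i | x i ≠ α • vec ea K i + β • vec eb K i}.Finite}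
      add_mem' := by
        have hraise : ∀ (x : ∀ i, QM (Q.m i)) (K : ℕ) (α β : B),
            {i | x i ≠ α • vec ea K i + β • vec eb K i}.Finite → ∀ L, K ≤ L →
            ∃ α' β' : B, {i | x i ≠ α' • vec ea L i + β' • vec eb L i}.Finite := by
          intro x K α β h L hL
          induction L, hL using Nat.le_induction with
          | base => exact ⟨α, β, h⟩
          | succ L _ ih =>
            obtain ⟨α', β', h'⟩ := ih
            refine ⟨α' * Q.s L, β' * Q.s L, (h'.union (Set.finite_le_nat L)).subset ?_⟩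
            intro i hi
            by_contra hc
            simp only [Set.mem_union, Set.mem_setOf_eq, not_or, not_not, not_le] at hc
            apply hi
            rw [mul_smul, mul_smul, hvs ea L i hc.2, hvs eb L i hc.2]
            exact hc.1
        rintro x x' ⟨K, α, β, h⟩ ⟨K', α', β', h'⟩
        obtain ⟨γ, δ, h1⟩ := hraise x K α β h (K + K') (Nat.le_add_right _ _)
        obtain ⟨γ', δ', h1'⟩ := hraise x' K' α' β' h' (K + K') (Nat.le_add_left _ _)
        refine ⟨K + K', γ + γ', δ + δ', (h1.union h1').subset ?_⟩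
        intro i hi
        by_contra hc
        simp only [Set.mem_union, Set.mem_setOf_eq, not_or, not_not] at hc
        apply hi
        rw [Pi.add_apply, hc.1, hc.2, add_smul, add_smul]
        abel
      zero_mem' := ⟨0, 0, 0, by simp⟩
      smul_mem' := by
        rintro c x ⟨K, α, β, h⟩
        refine ⟨K, c * α, c * β, h.subset ?_⟩
        intro i hi
        by_contra hc
        simp only [Set.mem_setOf_eq, not_not] at hc
        apply hi
        rw [Pi.smul_apply, hc, smul_add, smul_smul, smul_smul] }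
  have hN : ∀ x : (∀ i, QM (Q.m i)), x ∈ N ↔
      ∃ (K : ℕ) (α β : B), {i | x i ≠ α • vec ea K i + β • vec eb K i}.Finite := fun _ => Iff.rfl
  have hae : ∀ x x' : (∀ i, QM (Q.m i)), x ∈ N → {i | x' i ≠ x i}.Finite → x' ∈ N := by
    intro x x' hx hf
    rw [hN] at hx ⊢
    obtain ⟨K, α, β, h⟩ := hx
    refine ⟨K, α, β, (h.union hf).subset ?_⟩
    intro i hi
    by_contra hc
    simp only [Set.mem_union, Set.mem_setOf_eq, not_or, not_not] at hc
    apply hi
    rw [hc.2, hc.1]
  let G : ℕ → Submodule (Module.End B N) N := fun n => annE N (Q.h n) ⊔ imgE N (Q.h (n + 1))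
  have hvec : ∀ (e : ℕ → B) (he : ∀ K, vec e K ∈ N) (n : ℕ), e n = 0 →
      (⟨vec e 0, he 0⟩ : N) ∈ G n := by
    intro e he n hn
    let y : ∀ i, QM (Q.m i) := fun i => if i < n then vec e 0 i else 0
    let z : ∀ i, QM (Q.m i) := fun i => if n < i then vec e (n + 1) i else 0
    have hy0 : Q.h n • y = 0 := by
      funext i
      simp only [y, Pi.smul_apply, Pi.zero_apply]
      split_ifs with hi
      · simp only [vec]
        rw [smul_qmk, qmk_eq_zero]
        exact hD.twoSided (Q.max i) (Q.h_mem hD hi) _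
      · exact smul_zero _
    have hv0 : ∀ i, vec e 0 i = qmk (Q.m i) (e i) := by
      intro i
      simp only [vec]
      rw [hU0, one_mul]
    have hz : vec e 0 = y + Q.h (n + 1) • z := by
      funext i
      simp only [y, z, Pi.smul_apply, Pi.add_apply]
      rcases lt_trichotomy i n with hi | hi | hi
      · rw [if_pos hi, if_neg (by omega), smul_zero, add_zero]
      · subst hi
        rw [if_neg (by omega), if_neg (by omega), smul_zero, add_zero, hv0, hn, map_zero]
      · rw [if_neg (by omega), if_pos hi, zero_add, hvh e (n + 1) i hi, hv0]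
    have hyM : y ∈ N := by
      apply hae 0 y N.zero_mem
      refine (Set.finite_lt_nat n).subset ?_
      intro i hi
      by_contra hc
      simp only [Set.mem_setOf_eq] at hc
      apply hi
      simp only [y]
      rw [if_neg hc]; rfl
    have hzM : z ∈ N := by
      apply hae _ z (he (n + 1))
      refine (Set.finite_le_nat n).subset ?_
      intro i hi
      by_contra hc
      simp only [Set.mem_setOf_eq, not_le] at hc
      apply hi
      simp only [z]
      rw [if_pos hc]
    have : (⟨vec e 0, he 0⟩ : N) ∈ annE N (Q.h n) ⊔ imgE N (Q.h (n + 1)) := by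
      rw [mem_sup_ann_img]
      refine ⟨⟨y, hyM⟩, ⟨z, hzM⟩, ?_, ?_⟩
      · ext1; exact hy0
      · ext1; exact hz
    exact this
  have hcoord : ∀ (x : N) (n : ℕ), x ∈ G n → x.1 n = 0 := by
    intro x n hx
    have hx' : x ∈ annE N (Q.h n) ⊔ imgE N (Q.h (n + 1)) := hx
    rw [mem_sup_ann_img] at hx'
    obtain ⟨y, z, hy, rfl⟩ := hx'
    have h1 : Q.h n • y.1 n = 0 := by
      have : (Q.h n • y).1 n = 0 := by rw [hy]; rfl
      exact this
    obtain ⟨t, ht⟩ := qmk_surj (Q.m n) (y.1 n)
    obtain ⟨t', ht'⟩ := qmk_surj (Q.m n) (z.1 n)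
    have h2 : y.1 n = 0 := by
      rw [ht, smul_qmk, qmk_eq_zero] at h1
      rw [ht, qmk_eq_zero]
      exact (hD.prime (Q.max n) h1).resolve_left (Q.h_nmem hD le_rfl)
    have h3 : Q.h (n + 1) • z.1 n = 0 := by
      rw [ht', smul_qmk, qmk_eq_zero]
      exact hD.twoSided (Q.max n) (Q.h_mem hD (Nat.lt_succ_self n)) _
    have h4 : (y + Q.h (n + 1) • z).1 n = y.1 n + Q.h (n + 1) • z.1 n := rfl
    rw [h4, h2, h3, add_zero]
  have ha : ∀ K, vec ea K ∈ N := fun K => ⟨K, 1, 0, by simp⟩
  have hb : ∀ K, vec eb K ∈ N := fun K => ⟨K, 0, 1, by simp⟩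
  have hab : ∀ K, vec (fun n => ea n - eb n) K = vec ea K - vec eb K := by
    intro K
    funext n
    simp only [vec, Pi.sub_apply]
    rw [mul_sub, map_sub]
  have hab' : ∀ K, vec (fun n => ea n - eb n) K ∈ N := by
    intro K
    rw [hab]; exact Submodule.sub_mem _ (ha K) (hb K)
  obtain ⟨p, hp0, hp1, hp2⟩ := three_dir (hA N) S G ⟨vec ea 0, ha 0⟩ ⟨vec eb 0, hb 0⟩
    (by
      intro n hn
      exact hvec eb hb n (by simp [eb, hn]))
    (by
      intro n hn
      exact hvec ea ha n (by simp [ea, hn]))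
    (by
      intro n hn
      have := hvec _ hab' n (by simp [ea, eb, hn])
      have e : (⟨vec (fun n => ea n - eb n) 0, hab' 0⟩ : N)
          = ⟨vec ea 0, ha 0⟩ - ⟨vec eb 0, hb 0⟩ := by
        ext1; exact hab 0
      rw [← e]; exact this)
  obtain ⟨K, α, β, hp⟩ := p.2
  have f2 : ((2 : Fin 3) = 1) = False := by decide
  have f3 : ((2 : Fin 3) = 0) = False := by decide
  have hUn : ∀ n, K ≤ n → ∀ c, c * U K n ∈ Q.m n → c ∈ Q.m n := by
    intro n hn c hc
    refine (hD.prime (Q.max n) hc).resolve_right ?_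
    intro hmem
    apply (Q.max n).ne_top
    rw [Ideal.eq_top_iff_one]
    have : (1 : B) = Q.h K * U K n - (Q.h K * U K n - 1) := by abel
    rw [this]
    exact (Q.m n).sub_mem ((Q.m n).mul_mem_left _ hmem) (hUh K n hn)
  refine ⟨K, α, β, Q.h K - α - β, by abel, ?_, ?_, ?_⟩
  · refine ((hp0.union hp).union (Set.finite_lt_nat K)).subset ?_
    rintro n ⟨hn, hα⟩
    by_contra hc
    simp only [Set.mem_union, Set.mem_setOf_eq, not_or, not_and, not_not, not_lt] at hc
    obtain ⟨⟨h1, h2⟩, h3⟩ := hc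
    apply hα
    apply hUn n h3
    have h4 := hcoord p n (h1 hn)
    rw [h2] at h4
    simp only [vec, ea, eb, hn, smul_qmk] at h4
    rw [← map_add, qmk_eq_zero] at h4
    simpa using h4
  · refine ((hp1.union hp).union (Set.finite_lt_nat K)).subset ?_
    rintro n ⟨hn, hα⟩
    by_contra hc
    simp only [Set.mem_union, Set.mem_setOf_eq, not_or, not_and, not_not, not_lt] at hc
    obtain ⟨⟨h1, h2⟩, h3⟩ := hc
    apply hα
    apply hUn n h3
    have h4 := hcoord p n (h1 hn)
    rw [h2] at h4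
    simp only [vec, ea, eb, hn, smul_qmk] at h4
    rw [← map_add, qmk_eq_zero] at h4
    simpa using h4
  · refine ((hp2.union hp).union (Set.finite_lt_nat K)).subset ?_
    rintro n ⟨hn, hα⟩
    by_contra hc
    simp only [Set.mem_union, Set.mem_setOf_eq, not_or, not_and, not_not, not_lt] at hc
    obtain ⟨⟨h1, h2⟩, h3⟩ := hc
    apply hα
    apply hUn n h3
    have h4 := hcoord _ n (h1 hn)
    have h5 : (⟨vec ea 0, ha 0⟩ - p : N).1 n = vec ea 0 n - p.1 n := rfl
    rw [h5, h2] at h4
    simp only [vec, ea, eb, hn, smul_qmk, f2, f3, if_false, mul_one, hU0] at h4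
    rw [← map_add, ← map_sub, qmk_eq_zero] at h4
    have h6 : (Q.h K - α - β) * U K n
        = (Q.h K * U K n - 1) + (1 - (α * U K n + β * U K n)) := by
      rw [sub_mul, sub_mul]; abel
    rw [h6]
    exact (Q.m n).add_mem (hUh K n h3) h4

end SepSeq

/-- an almost disjoint family -/
noncomputable def adf (η : ℕ → Bool) : ℕ → ℕ := fun n => Encodable.encode (List.ofFn fun i : Fin n => η i)

lemma adf_inj {η η' : ℕ → Bool} {n n' : ℕ} (h : adf η n = adf η' n') :
    n = n' ∧ ∀ i < n, η i = η' i := by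
  have h1 := Encodable.encode_injective h
  have h2 : n = n' := by
    have := congrArg List.length h1
    simpa using this
  subst h2
  refine ⟨rfl, ?_⟩
  intro i hi
  have := List.ofFn_injective h1
  exact congrFun this ⟨i, hi⟩

lemma adf_injective (η : ℕ → Bool) : Function.Injective (adf η) := fun _ _ h => (adf_inj h).1

lemma adf_ad {η η' : ℕ → Bool} (h : η ≠ η') :
    (Set.range (adf η) ∩ Set.range (adf η')).Finite := by
  obtain ⟨k, hk⟩ : ∃ k, η k ≠ η' k := by
    by_contra hc
    push Not at hc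
    exact h (funext hc)
  refine ((Set.finite_le_nat k).image (adf η)).subset ?_
  rintro _ ⟨⟨n, rfl⟩, ⟨n', hn'⟩⟩
  refine ⟨n, ?_, rfl⟩
  obtain ⟨_, h2⟩ := adf_inj hn'.symm
  by_contra hc
  simp only [Set.mem_setOf_eq, not_le] at hc
  exact hk (h2 k hc)

/-- the family of separated almost disjoint sets -/
theorem SepSeq.family {B : Type u} [Ring B] (Q : SepSeq B) (hD : LD B) (hA : Adm B) :
    ∃ (X : (ℕ → Bool) → Set ℕ) (α : (ℕ → Bool) → B), (∀ η, (X η).Infinite) ∧
      (∀ η, ∀ i ∈ X η, α η ∉ Q.m i) ∧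
      ∀ η η', η ≠ η' → {i | i ∈ X η' ∧ α η ∉ Q.m i}.Finite := by
  classical
  by_cases hcase : ∀ η : ℕ → Bool, ∃ α : B, {i | i ∈ Set.range (adf η) ∧ α ∉ Q.m i}.Infinite ∧
      {i | i ∉ Set.range (adf η) ∧ α ∉ Q.m i}.Finite
  · choose α h1 h2 using hcase
    refine ⟨fun η => {i | i ∈ Set.range (adf η) ∧ α η ∉ Q.m i}, α, h1, fun η i hi => hi.2, ?_⟩
    intro η η' hne
    refine ((adf_ad hne).union (h2 η)).subset ?_
    rintro i ⟨⟨hi, _⟩, hα⟩
    by_cases hi' : i ∈ Set.range (adf η)
    · exact Or.inl ⟨hi', hi⟩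
    · exact Or.inr ⟨hi', hα⟩
  · push Not at hcase
    obtain ⟨η, hη⟩ := hcase
    -- every subset of the branch is separated from its complement in the branch
    have hsep : ∀ T : Set ℕ, T ⊆ Set.range (adf η) → ∃ α : B,
        {i | i ∈ T ∧ α ∈ Q.m i}.Finite ∧ {i | i ∈ Set.range (adf η) ∧ i ∉ T ∧ α ∉ Q.m i}.Finite := by
      intro T hT
      let S : ℕ → Fin 3 := fun i => if i ∈ T then 0 else if i ∈ Set.range (adf η) then 1 else 2
      have hS0 : ∀ i, S i = 0 ↔ i ∈ T := by
        intro i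
        simp only [S]
        split_ifs <;> simp_all
      have hS1 : ∀ i, S i = 1 ↔ i ∉ T ∧ i ∈ Set.range (adf η) := by
        intro i
        simp only [S]
        split_ifs <;> simp_all
      have hS2 : ∀ i, S i = 2 ↔ i ∉ Set.range (adf η) := by
        intro i
        simp only [S]
        split_ifs with h1 h2
        · simp only [Fin.reduceEq, false_iff, not_not]
          exact hT h1
        · simp_all
        · simp_all
      obtain ⟨K, a1, a2, a3, hsum, h1, h2, h3⟩ := Q.level_zero hD hA S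
      -- on the branch `a3` is almost everywhere zero
      have h4 : {i | i ∈ Set.range (adf η) ∧ a3 ∉ Q.m i}.Finite := by
        by_contra hinf
        apply hη a3 hinf
        refine h3.subset ?_
        rintro i ⟨hi, hα⟩
        exact ⟨(hS2 i).mpr hi, hα⟩
      refine ⟨a2, ?_, ?_⟩
      · refine ((h1.union h4).union (Set.finite_lt_nat K)).subset ?_
        rintro i ⟨hi, ha2⟩
        by_contra hc
        simp only [Set.mem_union, Set.mem_setOf_eq, not_or, not_and, not_not, not_lt] at hc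
        obtain ⟨⟨hc1, hc2⟩, hc3⟩ := hc
        apply Q.h_nmem hD hc3
        rw [hsum]
        exact (Q.m i).add_mem ((Q.m i).add_mem (hc1 ((hS0 i).mpr hi)) ha2) (hc2 (hT hi))
      · refine h2.subset ?_
        rintro i ⟨hi, hiT, hα⟩
        exact ⟨(hS1 i).mpr ⟨hiT, hi⟩, hα⟩
    have hT : ∀ ζ : ℕ → Bool, adf η '' Set.range (adf ζ) ⊆ Set.range (adf η) := by
      rintro ζ _ ⟨x, _, rfl⟩
      exact ⟨x, rfl⟩
    choose α h1 h2 using fun ζ => hsep (adf η '' Set.range (adf ζ)) (hT ζ)
    refine ⟨fun ζ => {i | i ∈ adf η '' Set.range (adf ζ) ∧ α ζ ∉ Q.m i}, α, ?_,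
      fun ζ i hi => hi.2, ?_⟩
    · intro ζ hfin
      have hinf : (adf η '' Set.range (adf ζ)).Infinite :=
        (Set.infinite_range_of_injective (adf_injective ζ)).image (adf_injective η).injOn
      apply hinf
      refine (hfin.union (h1 ζ)).subset ?_
      intro i hi
      by_cases hα : α ζ ∈ Q.m i
      · exact Or.inr ⟨hi, hα⟩
      · exact Or.inl ⟨hi, hα⟩
    · intro ζ ζ' hne
      refine (((adf_ad hne).image (adf η)).union (h2 ζ)).subset ?_
      rintro i ⟨⟨⟨x, hx, rfl⟩, _⟩, hα⟩
      by_cases hx' : x ∈ Set.range (adf ζ)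
      · exact Or.inl ⟨x, ⟨hx', hx⟩, rfl⟩
      · refine Or.inr ⟨⟨x, rfl⟩, ?_, hα⟩
        rintro ⟨x', hx1, hx2⟩
        rw [adf_injective η hx2] at hx1
        exact hx' hx1

/-- an injection of `(triples of subsets) × ℕ` into binary sequences -/
noncomputable def trip (d : (Set ℕ × Set ℕ × Set ℕ) × ℕ) : ℕ → Bool := by
  classical
  exact fun k => if k % 4 = 0 then decide (k / 4 ∈ d.1.1) else
    if k % 4 = 1 then decide (k / 4 ∈ d.1.2.1) else
      if k % 4 = 2 then decide (k / 4 ∈ d.1.2.2) else decide (k / 4 = d.2)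

lemma trip_injective : Function.Injective trip := by
  classical
  rintro ⟨⟨D1, D2, D3⟩, n⟩ ⟨⟨D1', D2', D3'⟩, n'⟩ h
  have h0 : ∀ k, k ∈ D1 ↔ k ∈ D1' := by
    intro k
    have := congrFun h (4 * k)
    have e1 : 4 * k % 4 = 0 := by omega
    have e2 : 4 * k / 4 = k := by omega
    simp only [trip, e1, e2, if_true] at this
    simpa using this
  have h1 : ∀ k, k ∈ D2 ↔ k ∈ D2' := by
    intro k
    have := congrFun h (4 * k + 1)
    have e1 : (4 * k + 1) % 4 = 1 := by omega
    have e2 : (4 * k + 1) / 4 = k := by omega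
    simp only [trip, e1, e2] at this
    simpa using this
  have h2 : ∀ k, k ∈ D3 ↔ k ∈ D3' := by
    intro k
    have := congrFun h (4 * k + 2)
    have e1 : (4 * k + 2) % 4 = 2 := by omega
    have e2 : (4 * k + 2) / 4 = k := by omega
    simp only [trip, e1, e2] at this
    simpa using this
  have h3 : n = n' := by
    have := congrFun h (4 * n + 3)
    have e1 : (4 * n + 3) % 4 = 3 := by omega
    have e2 : (4 * n + 3) / 4 = n := by omega
    simp only [trip, e1, e2] at this
    simpa using this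
  rw [Set.ext h0, Set.ext h1, Set.ext h2, h3]

/-- Level one: contradiction. -/
theorem SepSeq.false {B : Type u} [Ring B] (Q : SepSeq B) (hD : LD B) (hA : Adm B) : False := by
  classical
  obtain ⟨X, θ, hX, hθ, hθ'⟩ := Q.family hD hA
  let H := (Set ℕ × Set ℕ × Set ℕ) × ℕ
  let Y : H → Set ℕ := fun h => X (trip h)
  let τ : H → B := fun h => θ (trip h)
  let I : H → Ideal B := fun h =>
    { carrier := {c | {i | i ∈ Y h ∧ c ∉ Q.m i}.Finite}
      add_mem' := by
        intro c d hc hd
        refine (hc.union hd).subset ?_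
        rintro i ⟨hi, hcd⟩
        by_contra hcon
        simp only [Set.mem_union, Set.mem_setOf_eq, not_or, not_and, not_not] at hcon
        exact hcd ((Q.m i).add_mem (hcon.1 hi) (hcon.2 hi))
      zero_mem' := by simp
      smul_mem' := by
        intro r c hc
        refine Set.Finite.subset hc ?_
        rintro i ⟨hi, hcd⟩
        exact ⟨hi, fun hmem => hcd ((Q.m i).mul_mem_left r hmem)⟩ }
  have hI : ∀ h c, c ∈ I h ↔ {i | i ∈ Y h ∧ c ∉ Q.m i}.Finite := fun _ _ => Iff.rfl
  have hI2 : ∀ h c d, c ∈ I h → c * d ∈ I h := by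
    intro h c d hc
    rw [hI] at hc ⊢
    refine hc.subset ?_
    rintro i ⟨hi, hcd⟩
    exact ⟨hi, fun hmem => hcd (hD.twoSided (Q.max i) hmem d)⟩
  have hτ : ∀ h c, τ h * c ∈ I h → c ∈ I h := by
    intro h c hc
    rw [hI] at hc ⊢
    refine hc.subset ?_
    rintro i ⟨hi, hci⟩
    refine ⟨hi, fun hmem => ?_⟩
    rcases hD.prime (Q.max i) hmem with h1 | h1
    · exact hθ _ i hi h1
    · exact hci h1
  have hτ' : ∀ h h', h ≠ h' → τ h ∈ I h' := by
    intro h h' hne
    rw [hI]
    exact hθ' _ _ (fun he => hne (trip_injective he))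
  -- the partition
  let S : H → Fin 3 := fun h =>
    if (Y h ∩ h.1.1).Infinite then 0 else if (Y h ∩ h.1.2.1).Infinite then 1 else 2
  let ea : H → B := fun n => if S n = 1 then 0 else 1
  let eb : H → B := fun n => if S n = 0 then 0 else 1
  let vec : (H → B) → ∀ i, QM (I i) := fun e i => qmk (I i) (e i)
  let N := fmod I (vec ea) (vec eb)
  let G : H → Submodule (Module.End B N) N := fun n => annE N (τ n)
  have hvec : ∀ (e : H → B) (he : vec e ∈ N) (n : H), e n = 0 → (⟨vec e, he⟩ : N) ∈ G n := by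
    intro e he n hn
    have : (⟨vec e, he⟩ : N) ∈ annE N (τ n) := by
      rw [mem_annE]
      ext1
      funext h
      show τ n • vec e h = 0
      simp only [vec]
      rw [smul_qmk, qmk_eq_zero]
      by_cases hh : n = h
      · subst hh
        rw [hn, mul_zero]; exact (I n).zero_mem
      · exact hI2 h _ _ (hτ' n h hh)
    exact this
  have hcoord : ∀ (x : N) (n : H), x ∈ G n → x.1 n = 0 := by
    intro x n hx
    have hx' : x ∈ annE N (τ n) := hx
    rw [mem_annE] at hx'
    have h1 : τ n • x.1 n = 0 := by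
      have : (τ n • x).1 n = 0 := by rw [hx']; rfl
      exact this
    obtain ⟨t, ht⟩ := qmk_surj (I n) (x.1 n)
    rw [ht, smul_qmk, qmk_eq_zero] at h1
    rw [ht, qmk_eq_zero]
    exact hτ n t h1
  have ha : vec ea ∈ N := ⟨1, 0, by simp⟩
  have hb : vec eb ∈ N := ⟨0, 1, by simp⟩
  have hab : vec (fun n => ea n - eb n) = vec ea - vec eb := by
    funext n
    simp only [vec, Pi.sub_apply]
    rw [map_sub]
  have hab' : vec (fun n => ea n - eb n) ∈ N := by
    rw [hab]; exact Submodule.sub_mem _ ha hb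
  obtain ⟨p, hp0, hp1, hp2⟩ := three_dir (hA N) S G ⟨vec ea, ha⟩ ⟨vec eb, hb⟩
    (by
      intro n hn
      exact hvec eb hb n (by simp [eb, hn]))
    (by
      intro n hn
      exact hvec ea ha n (by simp [ea, hn]))
    (by
      intro n hn
      have := hvec _ hab' n (by simp [ea, eb, hn])
      have e : (⟨vec (fun n => ea n - eb n), hab'⟩ : N) = ⟨vec ea, ha⟩ - ⟨vec eb, hb⟩ := by
        ext1; exact hab
      rw [← e]; exact this)
  obtain ⟨α, β, hp⟩ := p.2
  have f2 : ((2 : Fin 3) = 1) = False := by decide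
  have f3 : ((2 : Fin 3) = 0) = False := by decide
  set γ := 1 - α - β with hγ
  have q0 : {h | S h = 0 ∧ α ∉ I h}.Finite := by
    refine (hp0.union hp).subset ?_
    rintro n ⟨hn, hα⟩
    by_contra hc
    simp only [Set.mem_union, Set.mem_setOf_eq, not_or, not_and, not_not] at hc
    apply hα
    have h4 := hcoord p n (hc.1 hn)
    rw [hc.2] at h4
    simp only [vec, ea, eb, hn, smul_qmk] at h4
    rw [← map_add, qmk_eq_zero] at h4
    simpa using h4
  have q1 : {h | S h = 1 ∧ β ∉ I h}.Finite := by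
    refine (hp1.union hp).subset ?_
    rintro n ⟨hn, hα⟩
    by_contra hc
    simp only [Set.mem_union, Set.mem_setOf_eq, not_or, not_and, not_not] at hc
    apply hα
    have h4 := hcoord p n (hc.1 hn)
    rw [hc.2] at h4
    simp only [vec, ea, eb, hn, smul_qmk] at h4
    rw [← map_add, qmk_eq_zero] at h4
    simpa using h4
  have q2 : {h | S h = 2 ∧ γ ∉ I h}.Finite := by
    refine (hp2.union hp).subset ?_
    rintro n ⟨hn, hα⟩
    by_contra hc
    simp only [Set.mem_union, Set.mem_setOf_eq, not_or, not_and, not_not] at hc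
    apply hα
    have h4 := hcoord _ n (hc.1 hn)
    have h5 : (⟨vec ea, ha⟩ - p : N).1 n = vec ea n - p.1 n := rfl
    rw [h5, hc.2] at h4
    simp only [vec, ea, eb, hn, smul_qmk, f2, f3, if_false, mul_one] at h4
    rw [← map_add, ← map_sub, qmk_eq_zero] at h4
    have h6 : γ = 1 - (α + β) := by rw [hγ]; abel
    rw [h6]
    exact h4
  -- the diagonal argument
  let D1 : Set ℕ := {i | α ∉ Q.m i}
  let D2 : Set ℕ := {i | β ∉ Q.m i}
  let D3 : Set ℕ := {i | γ ∉ Q.m i}
  have hcov : ∀ i, i ∈ D1 ∨ i ∈ D2 ∨ i ∈ D3 := by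
    intro i
    by_contra hc
    simp only [D1, D2, D3, Set.mem_setOf_eq, not_or, not_not] at hc
    apply (Q.max i).ne_top
    rw [Ideal.eq_top_iff_one]
    have : (1 : B) = α + β + γ := by rw [hγ]; abel
    rw [this]
    exact (Q.m i).add_mem ((Q.m i).add_mem hc.1 hc.2.1) hc.2.2
  have hinj : Function.Injective (fun n : ℕ => (((D1, D2, D3), n) : H)) := by
    intro n n' h
    exact congrArg Prod.snd h
  have hrange : (Set.range (fun n : ℕ => (((D1, D2, D3), n) : H))).Infinite :=
    Set.infinite_range_of_injective hinj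
  apply hrange
  refine ((q0.union q1).union q2).subset ?_
  rintro _ ⟨n, rfl⟩
  set h : H := ((D1, D2, D3), n) with hh
  have hYinf : (Y h).Infinite := hX _
  by_cases c1 : (Y h ∩ D1).Infinite
  · left; left
    refine ⟨?_, ?_⟩
    · show (if (Y h ∩ D1).Infinite then (0 : Fin 3) else if (Y h ∩ D2).Infinite then 1 else 2) = 0
      rw [if_pos c1]
    · rw [hI]
      exact c1
  · by_cases c2 : (Y h ∩ D2).Infinite
    · left; right
      refine ⟨?_, ?_⟩
      · show (if (Y h ∩ D1).Infinite then (0 : Fin 3) else if (Y h ∩ D2).Infinite then 1 else 2) = 1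
        rw [if_neg c1, if_pos c2]
      · rw [hI]
        exact c2
    · right
      refine ⟨?_, ?_⟩
      · show (if (Y h ∩ D1).Infinite then (0 : Fin 3) else if (Y h ∩ D2).Infinite then 1 else 2) = 2
        rw [if_neg c1, if_neg c2]
      · rw [hI]
        intro c3
        rw [Set.not_infinite] at c1 c2
        apply hYinf
        refine ((c1.union c2).union c3).subset ?_
        intro i hi
        rcases hcov i with h1 | h1 | h1
        · exact Or.inl (Or.inl ⟨hi, h1⟩)
        · exact Or.inl (Or.inr ⟨hi, h1⟩)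
        · exact Or.inr ⟨hi, h1⟩

/-- An admissible ring has finitely many maximal left ideals. -/
theorem Adm.finite_max {B : Type u} [Ring B] (hA : Adm B) : {m : Ideal B | m.IsMaximal}.Finite := by
  by_contra hinf
  obtain ⟨Q⟩ := exists_sepSeq _ hinf (fun m hm => hm)
  exact Q.false hA.ld hA

end Pool.Agent.H86.EndoDist
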