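import Mathlib
import Pool.Agent.H86.EndoDist.MaxIdeals
import Pool.Agent.H86.EndoDist.LocalNil

set_option autoImplicit false

/-!
Structure of admissible rings with nil Jacobson radical.
-/

namespace Pool.Agent.H86.EndoDist

universe u v w

section

variable {B : Type u} [Ring B]

lemma isUnit_of_forall (hD : LD B) {x : B} (h : ∀ m : Ideal B, m.IsMaximal → x ∉ m) :
    IsUnit x := by
  have key : ∀ x : B, (∀ m : Ideal B, m.IsMaximal → x ∉ m) → ∃ y, y * x = 1 := by
    intro x h
    by_contra hcon
    have hne : (Ideal.span {x} : Ideal B) ≠ ⊤ := by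
      intro ht
      apply hcon
      have : (1 : B) ∈ (Ideal.span {x} : Ideal B) := by rw [ht]; trivial
      exact Ideal.mem_span_singleton'.mp this
    obtain ⟨m, hm, hxm⟩ := Ideal.exists_le_maximal _ hne
    exact h m hm (hxm (Ideal.mem_span_singleton_self x))
  obtain ⟨y, hy⟩ := key x h
  obtain ⟨z, hz⟩ := key y (by
    intro m hm hmem
    apply hm.ne_top
    rw [Ideal.eq_top_iff_one, ← hy]
    exact hD.twoSided hm hmem x)
  have hzx : z = x := by
    calc z = z * (y * x) := by rw [hy, mul_one]
      _ = x := by rw [← mul_assoc, hz, one_mul]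
  rw [hzx] at hz
  exact ⟨⟨x, y, hz, hy⟩, rfl⟩

/-- distributivity passes to quotient rings -/
theorem Endo.of_surjective {R : Type v} [Ring R] (φ : B →+* R) (hφ : Function.Surjective φ)
    (M : Type w) [AddCommGroup M] [Module R M]
    (h : @Endo B M _ _ (Module.compHom M φ)) : Endo R M := by
  letI inst : Module B M := Module.compHom M φ
  have hsm : ∀ (b : B) (x : M), b • x = φ b • x := fun _ _ => rfl
  let conv : (Module.End B M) → (Module.End R M) := fun f =>
    { toFun := f
      map_add' := map_add f
      map_smul' := by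
        intro r x
        obtain ⟨b, rfl⟩ := hφ r
        have := map_smul f b x
        rw [hsm, hsm] at this
        exact this }
  let F : Submodule (Module.End R M) M → Submodule (Module.End B M) M := fun U =>
    { carrier := U
      add_mem' := fun hx hy => U.add_mem hx hy
      zero_mem' := U.zero_mem
      smul_mem' := fun f x hx => U.smul_mem (conv f) hx }
  have hF : ∀ U x, x ∈ F U ↔ x ∈ U := fun _ _ => Iff.rfl
  intro U V W
  have h1 := h (F U) (F V) (F W)
  ext x
  constructor
  · intro hx
    have h2 : x ∈ F U ⊓ (F V ⊔ F W) := by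
      refine ⟨hx.1, ?_⟩
      obtain ⟨y, hy, z, hz, rfl⟩ := Submodule.mem_sup.mp hx.2
      exact Submodule.add_mem_sup ((hF V y).mpr hy) ((hF W z).mpr hz)
    rw [h1] at h2
    obtain ⟨y, hy, z, hz, rfl⟩ := Submodule.mem_sup.mp h2
    exact Submodule.add_mem_sup ⟨hy.1, hy.2⟩ ⟨hz.1, hz.2⟩
  · intro hx
    have h3 : (U ⊓ V) ⊔ (U ⊓ W) ≤ U ⊓ (V ⊔ W) :=
      le_inf (sup_le inf_le_left inf_le_left)
        (sup_le (inf_le_right.trans le_sup_left) (inf_le_right.trans le_sup_right))
    exact h3 hx

theorem Adm.of_surjective {R : Type u} [Ring R] (hA : Adm B) (φ : B →+* R)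
    (hφ : Function.Surjective φ) : Adm R := by
  intro M _ _
  exact Endo.of_surjective φ hφ M (@hA M _ (Module.compHom M φ))

/-- normal elements of the radical are nilpotent -/
theorem Adm.nil_of_normal (hA : Adm B) {x : B} (hx : ∀ m : Ideal B, m.IsMaximal → x ∈ m)
    (hn : IsNormalElt x) : IsNilpotent x := by
  obtain ⟨m, c, h⟩ := hA.normal hn
  have hu : IsUnit (1 - x * c) := by
    apply isUnit_of_forall hA.ld
    intro M hM hmem
    apply hM.ne_top
    rw [Ideal.eq_top_iff_one]
    have : (1 : B) = (1 - x * c) + x * c := by abel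
    rw [this]
    exact M.add_mem hmem (hA.ld.twoSided hM (hx M hM) c)
  refine ⟨m, ?_⟩
  have h1 : x ^ m * (1 - x * c) = 0 := by
    rw [mul_sub, mul_one, ← mul_assoc, ← pow_succ, ← h, sub_self]
  obtain ⟨w, hw⟩ := hu
  rw [← hw] at h1
  exact (Units.mul_left_eq_zero w).mp h1

/-- Admissible rings with nil radical are finite products of Artinian chain rings. -/
theorem Adm.product (hA : Adm B)
    (hnil : ∀ x : B, (∀ m : Ideal B, m.IsMaximal → x ∈ m) → IsNilpotent x) :
    ∃ (n : ℕ) (R : Fin n → Type u) (_ : ∀ i, Ring (R i)),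
      Nonempty (B ≃+* ∀ i, R i) ∧ ∀ i, IsArtinianChainRing (R i) := by
  classical
  have hD := hA.ld
  have hfin : Finite {m : Ideal B // m.IsMaximal} := hA.finite_max
  obtain ⟨n, ⟨e⟩⟩ := Finite.exists_equiv_fin {m : Ideal B // m.IsMaximal}
  let mm : Fin n → Ideal B := fun i => (e.symm i).1
  have hmm : ∀ i, (mm i).IsMaximal := fun i => (e.symm i).2
  have hinj : ∀ i j, i ≠ j → mm i ≠ mm j := by
    intro i j hij h
    exact hij (e.symm.injective (Subtype.ext h))
  have hall : ∀ m : Ideal B, m.IsMaximal → ∃ i, m = mm i := by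
    intro m hm
    refine ⟨e ⟨m, hm⟩, ?_⟩
    simp only [mm, Equiv.symm_apply_apply]
  -- separating elements
  have hx : ∀ i, ∃ x : B, 1 - x ∈ mm i ∧ ∀ j, j ≠ i → x ∈ mm j := by
    intro i
    have key : ∀ s : Finset (Fin n), ∃ x : B, 1 - x ∈ mm i ∧ ∀ j ∈ s, j ≠ i → x ∈ mm j := by
      intro s
      induction s using Finset.induction_on with
      | empty => exact ⟨1, by simp, by simp⟩
      | insert j s _ ih =>
        obtain ⟨y, hy1, hy2⟩ := ih
        by_cases hji : j = i
        · refine ⟨y, hy1, ?_⟩
          intro k hk hki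
          rcases Finset.mem_insert.mp hk with rfl | hk
          · exact absurd hji hki
          · exact hy2 k hk hki
        · have hsup : mm i ⊔ mm j = ⊤ := by
            apply (hmm i).out.2
            refine lt_of_le_of_ne le_sup_left ?_
            intro h
            have h1 : mm j ≤ mm i := by rw [h]; exact le_sup_right
            exact hinj j i hji ((hmm j).eq_of_le (hmm i).ne_top h1)
          have h1 : (1 : B) ∈ mm i ⊔ mm j := by rw [hsup]; trivial
          obtain ⟨a, ha, b, hb, hab⟩ := Submodule.mem_sup.mp h1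
          refine ⟨y * b, ?_, ?_⟩
          · have : 1 - y * b = (1 - y) + y * a := by
              have hb' : b = 1 - a := by rw [← hab]; abel
              rw [hb', mul_sub, mul_one]; abel
            rw [this]
            exact (mm i).add_mem hy1 ((mm i).mul_mem_left _ ha)
          · intro k hk hki
            rcases Finset.mem_insert.mp hk with rfl | hk
            · exact (mm k).mul_mem_left _ hb
            · exact hD.twoSided (hmm k) (hy2 k hk hki) _
    obtain ⟨x, hx1, hx2⟩ := key Finset.univ
    exact ⟨x, hx1, fun j hj => hx2 j (Finset.mem_univ _) hj⟩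
  choose x hx1 hx2 using hx
  -- the radical
  let J : Ideal B := ⨅ i, mm i
  have hJ : ∀ y, y ∈ J ↔ ∀ i, y ∈ mm i := by
    intro y
    simp only [J, Submodule.mem_iInf]
  have hJ2 : J.IsTwoSided := ⟨fun {a} b ha => by
    rw [hJ] at ha ⊢
    exact fun i => hD.twoSided (hmm i) (ha i) b⟩
  have hker : ∀ y ∈ RingHom.ker (Ideal.Quotient.mk J), IsNilpotent y := by
    intro y hy
    rw [RingHom.mem_ker, Ideal.Quotient.eq_zero_iff_mem, hJ] at hy
    apply hnil
    intro m hm
    obtain ⟨i, rfl⟩ := hall m hm
    exact hy i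
  have hxy : ∀ y y' : B, (∀ i, y - y' ∈ mm i) → Ideal.Quotient.mk J y = Ideal.Quotient.mk J y' := by
    intro y y' h
    rw [Ideal.Quotient.mk_eq_mk_iff_sub_mem, hJ]
    exact h
  have hcomp : CompleteOrthogonalIdempotents (fun i => Ideal.Quotient.mk J (x i)) := by
    rw [CompleteOrthogonalIdempotents.iff_ortho_complete]
    constructor
    · intro i j hij
      show Ideal.Quotient.mk J (x i) * Ideal.Quotient.mk J (x j) = 0
      rw [← map_mul, ← map_zero (Ideal.Quotient.mk J)]
      apply hxy
      intro k
      rw [sub_zero]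
      by_cases hk : k = i
      · subst hk
        exact (mm k).mul_mem_left _ (hx2 j k hij)
      · exact hD.twoSided (hmm k) (hx2 i k hk) _
    · rw [← map_sum, ← map_one (Ideal.Quotient.mk J)]
      apply hxy
      intro k
      rw [← Finset.add_sum_erase _ _ (Finset.mem_univ k)]
      have h1 : x k + ∑ j ∈ Finset.univ.erase k, x j - 1
          = ∑ j ∈ Finset.univ.erase k, x j - (1 - x k) := by abel
      rw [h1]
      refine (mm k).sub_mem ((mm k).sum_mem ?_) (hx1 k)
      intro j hj
      exact hx2 j k (Finset.ne_of_mem_erase hj).symm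
  obtain ⟨ε, hε, hεx⟩ := CompleteOrthogonalIdempotents.lift_of_isNilpotent_ker
    (Ideal.Quotient.mk J) hker hcomp (fun i => ⟨x i, rfl⟩)
  have hεx' : ∀ i k, ε i - x i ∈ mm k := by
    intro i k
    have := congrFun hεx i
    simp only [Function.comp_apply] at this
    rw [Ideal.Quotient.mk_eq_mk_iff_sub_mem, hJ] at this
    exact this k
  have hε1 : ∀ i, 1 - ε i ∈ mm i := by
    intro i
    have : 1 - ε i = (1 - x i) - (ε i - x i) := by abel
    rw [this]
    exact (mm i).sub_mem (hx1 i) (hεx' i i)
  have hε2 : ∀ i j, j ≠ i → ε i ∈ mm j := by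
    intro i j hj
    have : ε i = (ε i - x i) + x i := by abel
    rw [this]
    exact (mm j).add_mem (hεx' i j) (hx2 i j hj)
  have hcent : ∀ i b, ε i * b = b * ε i := fun i b => hD.central (hε.idem i) b
  have hc : ∀ i, IsMulCentral (ε i) := by
    intro i
    have : ε i ∈ Set.center B := Semigroup.mem_center_iff.mpr (fun b => (hcent i b).symm)
    exact this
  let E := hε.ringEquivOfIsMulCentral hc
  refine ⟨n, fun i => (hε.idem i).Corner, fun i => inferInstance, ⟨E⟩, ?_⟩
  intro i
  let φ : B →+* (hε.idem i).Corner :=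
    (Pi.evalRingHom (fun i => (hε.idem i).Corner) i).comp (E : B →+* ∀ i, (hε.idem i).Corner)
  have hφs : Function.Surjective φ := by
    intro y
    obtain ⟨b, hb⟩ := E.surjective (Pi.single i y)
    refine ⟨b, ?_⟩
    show (E b) i = y
    rw [hb]
    simp
  have hφv : ∀ b, (φ b).1 = ε i * b * ε i := fun b => rfl
  have hφε : φ (ε i) = 1 := by
    apply Subtype.ext
    rw [hφv]
    show ε i * ε i * ε i = ε i
    rw [(hε.idem i).eq, (hε.idem i).eq]
  have hφ0 : ∀ b, φ b = 0 → b * ε i = 0 := by
    intro b hb
    have h1 := congrArg Subtype.val hb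
    rw [hφv] at h1
    have h2 : ε i * b * ε i = b * ε i := by
      rw [hcent, mul_assoc, (hε.idem i).eq]
    rw [h2] at h1
    exact h1
  have hAi : Adm (hε.idem i).Corner := hA.of_surjective φ hφs
  -- units
  have hunit : ∀ b, b ∉ mm i → IsUnit (φ b) := by
    intro b hb
    have h1 : φ b = φ (b * ε i + (1 - ε i)) := by
      rw [map_add, map_mul, map_sub, map_one, hφε, mul_one, sub_self, add_zero]
    rw [h1]
    apply IsUnit.map
    apply isUnit_of_forall hD
    intro m hm hmem
    obtain ⟨j, rfl⟩ := hall m hm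
    by_cases hj : j = i
    · subst hj
      apply hb
      have : b = (b * ε j + (1 - ε j)) + (b * (1 - ε j) - (1 - ε j)) := by
        rw [mul_sub, mul_one]; abel
      rw [this]
      exact (mm j).add_mem hmem ((mm j).sub_mem ((mm j).mul_mem_left _ (hε1 j)) (hε1 j))
    · apply (hmm j).ne_top
      rw [Ideal.eq_top_iff_one]
      have : (1 : B) = (b * ε i + (1 - ε i)) - (b * ε i - ε i) := by abel
      rw [this]
      exact (mm j).sub_mem hmem ((mm j).sub_mem ((mm j).mul_mem_left _ (hε2 i j hj)) (hε2 i j hj))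
  have hnilp : ∀ b, b ∈ mm i → IsNilpotent (φ b) := by
    intro b hb
    have h1 : φ b = φ (b * ε i) := by
      rw [map_mul, hφε, mul_one]
    rw [h1]
    apply IsNilpotent.map
    apply hnil
    intro m hm
    obtain ⟨j, rfl⟩ := hall m hm
    by_cases hj : j = i
    · subst hj
      exact hD.twoSided (hmm j) hb _
    · exact (mm j).mul_mem_left _ (hε2 i j hj)
  have hnt : Nontrivial (hε.idem i).Corner := by
    refine ⟨⟨0, 1, ?_⟩⟩
    intro h01
    have h1 : φ 1 = 0 := by rw [map_one]; exact h01.symm
    have h2 := hφ0 1 h1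
    rw [one_mul] at h2
    apply (hmm i).ne_top
    rw [Ideal.eq_top_iff_one]
    have := hε1 i
    rwa [h2, sub_zero] at this
  have hloc : IsLocalRing (hε.idem i).Corner := by
    refine { isUnit_or_isUnit_of_add_one := ?_ }
    intro a b hab
    obtain ⟨y, rfl⟩ := hφs a
    by_cases hy : y ∈ mm i
    · right
      have h1 : b = φ (1 - y) := by
        rw [map_sub, map_one, ← hab]; abel
      rw [h1]
      apply hunit
      intro hmem
      apply (hmm i).ne_top
      rw [Ideal.eq_top_iff_one]
      have : (1 : B) = (1 - y) + y := by abel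
      rw [this]
      exact (mm i).add_mem hmem hy
    · left
      exact hunit y hy
  apply hAi.local_nil hloc
  intro y hy
  obtain ⟨b, rfl⟩ := hφs y
  apply hnilp
  by_contra hb
  exact hy (hunit b hb)

end

end Pool.Agent.H86.EndoDist
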