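import Mathlib
import Pool.Agent.H86.EndoDist.Main

set_option autoImplicit false

/-!
In an admissible ring, one-sided normal elements of the radical are nilpotent.
-/

namespace Pool.Agent.H86.EndoDist

universe u v w

section

variable {B : Type u} [Ring B]

/-- the shifted vector `(s ^ (n - k) e_n)` -/
def shv (s : B) (P : ℕ → Ideal B) (e : ℕ → B) (k : ℕ) : ∀ n, QM (P n) :=
  fun n => qmk (P n) (s ^ (n - k) * e n)

lemma shv_shift (s : B) (P : ℕ → Ideal B) (e : ℕ → B) (k i n : ℕ) (h : k + i ≤ n) :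
    shv s P e k n = s ^ i • shv s P e (k + i) n := by
  simp only [shv]
  rw [smul_qmk, ← mul_assoc, ← pow_add]
  congr 3
  omega

/-- the module generated by all shifts and all finitely supported vectors -/
def shmod (s : B) (P : ℕ → Ideal B) (ea eb : ℕ → B) : Submodule B (∀ n, QM (P n)) where
  carrier := {x | ∃ (k : ℕ) (α β : B),
    {n | x n ≠ α • shv s P ea k n + β • shv s P eb k n}.Finite}
  add_mem' := by
    rintro x x' ⟨k, α, β, h⟩ ⟨k', α', β', h'⟩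
    refine ⟨k + k', α * s ^ k' + α' * s ^ k, β * s ^ k' + β' * s ^ k,
      ((h.union h').union (Set.finite_lt_nat (k + k'))).subset ?_⟩
    intro n hn
    by_contra hcon
    simp only [Set.mem_union, Set.mem_setOf_eq, not_or, not_not, not_lt] at hcon
    apply hn
    obtain ⟨⟨h1, h2⟩, h3⟩ := hcon
    rw [Pi.add_apply, h1, h2, shv_shift s P ea k k' n h3, shv_shift s P eb k k' n h3,
      shv_shift s P ea k' k n (by omega), shv_shift s P eb k' k n (by omega), add_comm k' k,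
      smul_smul, smul_smul, smul_smul, smul_smul, add_smul, add_smul]
    abel
  zero_mem' := ⟨0, 0, 0, by simp⟩
  smul_mem' := by
    rintro t x ⟨k, α, β, h⟩
    refine ⟨k, t * α, t * β, h.subset ?_⟩
    intro n hn
    by_contra hcon
    simp only [Set.mem_setOf_eq, not_not] at hcon
    apply hn
    rw [Pi.smul_apply, hcon, smul_add, smul_smul, smul_smul]

lemma mem_shmod (s : B) (P : ℕ → Ideal B) (ea eb : ℕ → B) (x : ∀ n, QM (P n)) :
    x ∈ shmod s P ea eb ↔ ∃ (k : ℕ) (α β : B),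
    {n | x n ≠ α • shv s P ea k n + β • shv s P eb k n}.Finite := Iff.rfl

/-- Consequence of the three-direction lemma for a power sequence. -/
theorem Adm.powers (hB : Adm B) (s : B) (P : ℕ → Ideal B)
    (hP : ∀ j k, (j + 1) ^ 2 ≤ k → s ^ k ∈ P j) :
    ∃ (k : ℕ) (α β : B),
      (∃ n, k ≤ n ∧ ∃ ζ, s ^ (n ^ 2) * (α * s ^ (n - k)) - s ^ (n ^ 2 + (n + 1)) * ζ ∈ P n) ∧
      (∃ n, k ≤ n ∧ ∃ ζ, s ^ (n ^ 2) * (β * s ^ (n - k)) - s ^ (n ^ 2 + (n + 1)) * ζ ∈ P n) ∧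
      (∃ n, k ≤ n ∧ ∃ ζ, s ^ (n ^ 2) * ((s ^ k - α - β) * s ^ (n - k))
        - s ^ (n ^ 2 + (n + 1)) * ζ ∈ P n) := by
  classical
  let S : ℕ → Fin 3 := fun n => ⟨n % 3, Nat.mod_lt _ (by norm_num)⟩
  let ea : ℕ → B := fun n => if S n = 1 then 0 else 1
  let eb : ℕ → B := fun n => if S n = 0 then 0 else 1
  let N := shmod s P ea eb
  let G : ℕ → Submodule (Module.End B N) N := fun n => annE N (s ^ (n ^ 2)) ⊔ imgE N (s ^ (n + 1))
  have hak : ∀ k, shv s P ea k ∈ N := fun k => ⟨k, 1, 0, by simp⟩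
  have hbk : ∀ k, shv s P eb k ∈ N := fun k => ⟨k, 0, 1, by simp⟩
  have hab : ∀ k, shv s P (fun n => ea n - eb n) k = shv s P ea k - shv s P eb k := by
    intro k
    funext n
    simp only [shv, Pi.sub_apply]
    rw [mul_sub, map_sub]
  have habk : ∀ k, shv s P (fun n => ea n - eb n) k ∈ N := by
    intro k
    rw [hab]
    exact N.sub_mem (hak k) (hbk k)
  have hfin : ∀ (x : ∀ n, QM (P n)) (m : ℕ), (∀ n, m ≤ n → x n = 0) → x ∈ N := by
    intro x m h
    refine ⟨0, 0, 0, (Set.finite_lt_nat m).subset ?_⟩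
    intro j hj
    by_contra hcon
    apply hj
    simp only [Set.mem_setOf_eq, not_lt] at hcon
    rw [h j hcon]
    simp
  have hvec : ∀ (e : ℕ → B) (he : ∀ k, shv s P e k ∈ N) (n : ℕ), (∀ j, e j * s = s * e j) →
      e n = 0 → (⟨shv s P e 0, he 0⟩ : N) ∈ G n := by
    intro e he n hcom hn
    have hcom' : ∀ j k, s ^ k * e j = e j * s ^ k := by
      intro j k
      exact ((Commute.pow_right (hcom j) k).eq).symm
    let y : ∀ j, QM (P j) := fun j => if j < n then shv s P e 0 j else 0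
    let z : ∀ j, QM (P j) := fun j => if n < j then shv s P e (n + 1) j else 0
    have hy0 : s ^ (n ^ 2) • y = 0 := by
      funext j
      simp only [y, Pi.smul_apply, Pi.zero_apply]
      split_ifs with hj
      · simp only [shv]
        rw [smul_qmk, qmk_eq_zero, ← mul_assoc, ← pow_add, hcom']
        apply (P j).mul_mem_left
        apply hP
        nlinarith [Nat.zero_le (j - 0)]
      · exact smul_zero _
    have hz : shv s P e 0 = y + s ^ (n + 1) • z := by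
      funext j
      simp only [y, z, Pi.smul_apply, Pi.add_apply]
      rcases lt_trichotomy j n with hj | hj | hj
      · rw [if_pos hj, if_neg (by omega), smul_zero, add_zero]
      · subst hj
        rw [if_neg (by omega), if_neg (by omega), smul_zero, add_zero]
        simp only [shv]
        rw [hn, mul_zero, map_zero]
      · rw [if_neg (by omega), if_pos hj, zero_add, shv_shift s P e 0 (n + 1) j (by omega),
          zero_add]
    have hyM : y ∈ N := by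
      apply hfin y n
      intro j hj
      simp only [y]
      rw [if_neg (by omega)]
    have hzM : z ∈ N := by
      have h1 : z - shv s P e (n + 1) ∈ N := by
        apply hfin _ (n + 1)
        intro j hj
        simp only [z, Pi.sub_apply]
        rw [if_pos (by omega), sub_self]
      have h2 : z = (z - shv s P e (n + 1)) + shv s P e (n + 1) := by abel
      rw [h2]
      exact N.add_mem h1 (he _)
    have : (⟨shv s P e 0, he 0⟩ : N) ∈ annE N (s ^ (n ^ 2)) ⊔ imgE N (s ^ (n + 1)) := by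
      rw [mem_sup_ann_img]
      refine ⟨⟨y, hyM⟩, ⟨z, hzM⟩, ?_, ?_⟩
      · ext1; exact hy0
      · ext1; exact hz
    exact this
  have hcoord : ∀ (x : N) (n : ℕ), x ∈ G n →
      ∃ ζ : B, s ^ (n ^ 2) • x.1 n = qmk (P n) (s ^ (n ^ 2 + (n + 1)) * ζ) := by
    intro x n hx
    have hx' : x ∈ annE N (s ^ (n ^ 2)) ⊔ imgE N (s ^ (n + 1)) := hx
    rw [mem_sup_ann_img] at hx'
    obtain ⟨y, z, hy, rfl⟩ := hx'
    obtain ⟨ζ, hζ⟩ := qmk_surj (P n) (z.1 n)
    refine ⟨ζ, ?_⟩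
    have h1 : s ^ (n ^ 2) • y.1 n = 0 := by
      have : (s ^ (n ^ 2) • y).1 n = 0 := by rw [hy]; rfl
      exact this
    have h3 : (y + s ^ (n + 1) • z).1 n = y.1 n + s ^ (n + 1) • z.1 n := rfl
    rw [h3, smul_add, h1, zero_add, hζ, smul_qmk, smul_qmk, ← mul_assoc, ← pow_add]
  have hcea : ∀ j, ea j * s = s * ea j := by
    intro j
    simp only [ea]
    split_ifs <;> simp
  have hceb : ∀ j, eb j * s = s * eb j := by
    intro j
    simp only [eb]
    split_ifs <;> simp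
  obtain ⟨p, hp0, hp1, hp2⟩ := three_dir (hB N) S G ⟨_, hak 0⟩ ⟨_, hbk 0⟩
    (by
      intro n hn
      exact hvec eb hbk n hceb (by simp [eb, hn]))
    (by
      intro n hn
      exact hvec ea hak n hcea (by simp [ea, hn]))
    (by
      intro n hn
      have := hvec _ habk n (by
        intro j
        show (ea j - eb j) * s = s * (ea j - eb j)
        rw [sub_mul, mul_sub, hcea, hceb]) (by simp [ea, eb, hn])
      have e : (⟨_, habk 0⟩ : N) = ⟨_, hak 0⟩ - ⟨_, hbk 0⟩ := by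
        ext1; exact hab 0
      rw [← e]; exact this)
  obtain ⟨k, α, β, hp⟩ := p.2
  have hlarge : ∀ (i : Fin 3) (F : Set ℕ), F.Finite →
      ∃ n, S n = i ∧ n ∉ F ∧ k ≤ n ∧ p.1 n = α • shv s P ea k n + β • shv s P eb k n := by
    intro i F hF
    obtain ⟨N, hN⟩ := (hF.union hp).bddAbove
    refine ⟨3 * (N + 1 + k) + i, ?_, ?_, ?_, ?_⟩
    · ext
      simp only [S]
      omega
    · intro hmem
      have := hN (Set.mem_union_left _ hmem)
      omega
    · omega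
    · by_contra hcon
      have := hN (Set.mem_union_right _ hcon)
      omega
  have key : ∀ (n : ℕ) (γ : B) (x : N), x ∈ G n → x.1 n = qmk (P n) (γ * s ^ (n - k)) →
      ∃ ζ, s ^ (n ^ 2) * (γ * s ^ (n - k)) - s ^ (n ^ 2 + (n + 1)) * ζ ∈ P n := by
    intro n γ x hx h
    obtain ⟨ζ, hζ⟩ := hcoord x n hx
    refine ⟨ζ, ?_⟩
    rw [h, smul_qmk, qmk_eq] at hζ
    exact hζ
  obtain ⟨n0, hn0, hn0', hn0k, hpn0⟩ := hlarge 0 _ hp0
  obtain ⟨n1, hn1, hn1', hn1k, hpn1⟩ := hlarge 1 _ hp1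
  obtain ⟨n2, hn2, hn2', hn2k, hpn2⟩ := hlarge 2 _ hp2
  have m0 : p ∈ G n0 := by
    by_contra hcon; exact hn0' ⟨hn0, hcon⟩
  have m1 : p ∈ G n1 := by
    by_contra hcon; exact hn1' ⟨hn1, hcon⟩
  have m2 : (⟨_, hak 0⟩ - p : N) ∈ G n2 := by
    by_contra hcon; exact hn2' ⟨hn2, hcon⟩
  have f2 : ((2 : Fin 3) = 1) = False := by decide
  have f3 : ((2 : Fin 3) = 0) = False := by decide
  refine ⟨k, α, β, ⟨n0, hn0k, key n0 α p m0 ?_⟩, ⟨n1, hn1k, key n1 β p m1 ?_⟩,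
    ⟨n2, hn2k, key n2 (s ^ k - α - β) _ m2 ?_⟩⟩
  · rw [hpn0]
    simp only [shv, ea, eb, hn0, smul_qmk]
    simp
  · rw [hpn1]
    simp only [shv, ea, eb, hn1, smul_qmk]
    simp
  · have e1 : ((⟨_, hak 0⟩ : N) - p : N).1 n2 = shv s P ea 0 n2 - p.1 n2 := rfl
    rw [e1, hpn2, shv_shift s P ea 0 k n2 (by omega), zero_add]
    simp only [shv, ea, eb, hn2, f2, f3, if_false, mul_one, smul_qmk]
    rw [← map_add, ← map_sub]
    congr 1
    noncomm_ring

/-- the two-sided ideal `s ^ j B` for `s` with `B s ⊆ s B` -/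
def lpw (s : B) (hs : ∀ x, ∃ y, x * s = s * y) (j : ℕ) : Ideal B where
  carrier := {t | ∃ c, t = s ^ j * c}
  add_mem' := by
    rintro _ _ ⟨c, rfl⟩ ⟨d, rfl⟩
    exact ⟨c + d, (mul_add _ c d).symm⟩
  zero_mem' := ⟨0, (mul_zero _).symm⟩
  smul_mem' := by
    rintro x _ ⟨c, rfl⟩
    have : ∃ y, x * s ^ j = s ^ j * y := by
      induction j with
      | zero => exact ⟨x, by simp⟩
      | succ j ih =>
        obtain ⟨y, hy⟩ := ih
        obtain ⟨z, hz⟩ := hs y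
        refine ⟨z, ?_⟩
        rw [pow_succ, ← mul_assoc, hy, mul_assoc, hz, mul_assoc]
    obtain ⟨y, hy⟩ := this
    exact ⟨y * c, by rw [smul_eq_mul, ← mul_assoc, hy, mul_assoc]⟩

/-- In an admissible ring every element `s` with `B s ⊆ s B` satisfies `s ^ m ∈ s ^ (m + 1) B`. -/
theorem Adm.left_half (hB : Adm B) {s : B} (hs : ∀ x, ∃ y, x * s = s * y) :
    ∃ (m : ℕ) (c : B), s ^ m = s ^ (m + 1) * c := by
  have hsp : ∀ (j : ℕ) (x : B), ∃ y, x * s ^ j = s ^ j * y := by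
    intro j x
    induction j with
    | zero => exact ⟨x, by simp⟩
    | succ j ih =>
      obtain ⟨y, hy⟩ := ih
      obtain ⟨z, hz⟩ := hs y
      refine ⟨z, ?_⟩
      rw [pow_succ, ← mul_assoc, hy, mul_assoc, hz, mul_assoc]
  have hmem : ∀ j t, t ∈ lpw s hs j ↔ ∃ c, t = s ^ j * c := fun _ _ => Iff.rfl
  have hle : ∀ {j k t}, j ≤ k → t ∈ lpw s hs k → t ∈ lpw s hs j := by
    rintro j k t h ⟨c, rfl⟩
    obtain ⟨i, rfl⟩ := Nat.exists_eq_add_of_le h
    exact ⟨s ^ i * c, by rw [pow_add, mul_assoc]⟩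
  obtain ⟨k, α, β, ⟨n0, hk0, ζ0, h0⟩, ⟨n1, hk1, ζ1, h1⟩, ⟨n2, hk2, ζ2, h2⟩⟩ :=
    hB.powers s (fun j => lpw s hs ((j + 1) ^ 2)) (by
      intro j i hji
      exact hle hji ⟨1, by rw [mul_one]⟩)
  have clean : ∀ (n : ℕ) (γ ζ : B), s ^ (n ^ 2) * (γ * s ^ (n - k)) - s ^ (n ^ 2 + (n + 1)) * ζ
      ∈ lpw s hs ((n + 1) ^ 2) → s ^ (n ^ 2) * (γ * s ^ (n - k)) ∈ lpw s hs (n ^ 2 + (n + 1)) := by
    intro n γ ζ h
    have e : s ^ (n ^ 2) * (γ * s ^ (n - k)) = (s ^ (n ^ 2) * (γ * s ^ (n - k))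
      - s ^ (n ^ 2 + (n + 1)) * ζ) + s ^ (n ^ 2 + (n + 1)) * ζ := by abel
    rw [e]
    exact Ideal.add_mem _ (hle (by nlinarith) h) ⟨ζ, rfl⟩
  have mono : ∀ (n N : ℕ) (γ : B), k ≤ n → n ≤ N →
      s ^ (n ^ 2) * (γ * s ^ (n - k)) ∈ lpw s hs (n ^ 2 + (n + 1)) →
      s ^ (N ^ 2) * (γ * s ^ (N - k)) ∈ lpw s hs (N ^ 2 + (N + 1)) := by
    intro n N γ hkn hnN h
    obtain ⟨i, hi⟩ := Nat.exists_eq_add_of_le (Nat.pow_le_pow_left hnN 2)
    obtain ⟨j, hj⟩ := Nat.exists_eq_add_of_le hnN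
    obtain ⟨c, hc⟩ := h
    obtain ⟨d, hd⟩ := hsp j c
    refine ⟨d, ?_⟩
    have e1 : s ^ (N ^ 2) * (γ * s ^ (N - k)) = s ^ i * (s ^ (n ^ 2) * (γ * s ^ (n - k))) * s ^ j := by
      have : N - k = (n - k) + j := by omega
      rw [this, hi, add_comm (n ^ 2) i, pow_add, pow_add]
      simp only [mul_assoc]
    rw [e1, hc]
    have e2 : N ^ 2 + (N + 1) = i + (n ^ 2 + (n + 1)) + j := by omega
    rw [e2]
    generalize n ^ 2 + (n + 1) = q
    rw [pow_add, pow_add]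
    simp only [mul_assoc]
    rw [hd]
  set N := n0 + n1 + n2 with hN
  have l0 := mono n0 N α hk0 (by omega) (clean _ _ _ h0)
  have l1 := mono n1 N β hk1 (by omega) (clean _ _ _ h1)
  have l2 := mono n2 N (s ^ k - α - β) hk2 (by omega) (clean _ _ _ h2)
  obtain ⟨d, hd⟩ := Ideal.add_mem _ (Ideal.add_mem _ l0 l1) l2
  refine ⟨N ^ 2 + N, d, ?_⟩
  have e5 : s ^ (N ^ 2) * (α * s ^ (N - k)) + s ^ (N ^ 2) * (β * s ^ (N - k))
      + s ^ (N ^ 2) * ((s ^ k - α - β) * s ^ (N - k)) = s ^ (N ^ 2 + N) := by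
    have : N ^ 2 + N = N ^ 2 + (k + (N - k)) := by omega
    rw [this, pow_add, pow_add]
    noncomm_ring
  rw [e5] at hd
  exact hd

/-- In an admissible ring every element `s` with `s B ⊆ B s` satisfies `s ^ m ∈ B s ^ (m + 1)`. -/
theorem Adm.right_half (hB : Adm B) {s : B} (hs : ∀ x, ∃ y, s * x = y * s) :
    ∃ (m : ℕ) (c : B), s ^ m = c * s ^ (m + 1) := by
  have hsp : ∀ (j : ℕ) (x : B), ∃ y, s ^ j * x = y * s ^ j := by
    intro j x
    induction j with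
    | zero => exact ⟨x, by simp⟩
    | succ j ih =>
      obtain ⟨y, hy⟩ := ih
      obtain ⟨z, hz⟩ := hs y
      refine ⟨z, ?_⟩
      rw [pow_succ', mul_assoc, hy, ← mul_assoc, hz, mul_assoc]
  let P : ℕ → Ideal B := fun j => Ideal.span {s ^ j}
  have hmem : ∀ j t, t ∈ P j ↔ ∃ c, t = c * s ^ j := by
    intro j t
    simp only [P]
    rw [Ideal.mem_span_singleton']
    exact ⟨fun ⟨d, hd⟩ => ⟨d, hd.symm⟩, fun ⟨d, hd⟩ => ⟨d, hd.symm⟩⟩
  have hle : ∀ {j k t}, j ≤ k → t ∈ P k → t ∈ P j := by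
    intro j k t h ht
    rw [hmem] at ht ⊢
    obtain ⟨c, rfl⟩ := ht
    obtain ⟨i, rfl⟩ := Nat.exists_eq_add_of_le h
    exact ⟨c * s ^ i, by rw [add_comm, pow_add, mul_assoc]⟩
  obtain ⟨k, α, β, ⟨n0, hk0, ζ0, h0⟩, ⟨n1, hk1, ζ1, h1⟩, ⟨n2, hk2, ζ2, h2⟩⟩ :=
    hB.powers s (fun j => P ((j + 1) ^ 2)) (by
      intro j i hji
      exact hle hji ((hmem _ _).mpr ⟨1, by rw [one_mul]⟩))
  have clean : ∀ (n : ℕ) (γ ζ : B), s ^ (n ^ 2) * (γ * s ^ (n - k)) - s ^ (n ^ 2 + (n + 1)) * ζ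
      ∈ P ((n + 1) ^ 2) → s ^ (n ^ 2) * (γ * s ^ (n - k)) ∈ P (n ^ 2 + (n + 1)) := by
    intro n γ ζ h
    have e : s ^ (n ^ 2) * (γ * s ^ (n - k)) = (s ^ (n ^ 2) * (γ * s ^ (n - k))
      - s ^ (n ^ 2 + (n + 1)) * ζ) + s ^ (n ^ 2 + (n + 1)) * ζ := by abel
    rw [e]
    exact Ideal.add_mem _ (hle (by nlinarith) h) ((hmem _ _).mpr (hsp _ _))
  have mono : ∀ (n N : ℕ) (γ : B), k ≤ n → n ≤ N →
      s ^ (n ^ 2) * (γ * s ^ (n - k)) ∈ P (n ^ 2 + (n + 1)) →
      s ^ (N ^ 2) * (γ * s ^ (N - k)) ∈ P (N ^ 2 + (N + 1)) := by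
    intro n N γ hkn hnN h
    obtain ⟨i, hi⟩ := Nat.exists_eq_add_of_le (Nat.pow_le_pow_left hnN 2)
    obtain ⟨j, hj⟩ := Nat.exists_eq_add_of_le hnN
    rw [hmem] at h ⊢
    obtain ⟨c, hc⟩ := h
    obtain ⟨d, hd⟩ := hsp i c
    refine ⟨d, ?_⟩
    have e1 : s ^ (N ^ 2) * (γ * s ^ (N - k)) = s ^ i * (s ^ (n ^ 2) * (γ * s ^ (n - k))) * s ^ j := by
      have : N - k = (n - k) + j := by omega
      rw [this, hi, add_comm (n ^ 2) i, pow_add, pow_add]
      simp only [mul_assoc]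
    rw [e1, hc]
    have e2 : N ^ 2 + (N + 1) = i + (n ^ 2 + (n + 1)) + j := by omega
    rw [e2]
    generalize n ^ 2 + (n + 1) = q
    rw [pow_add, pow_add, ← mul_assoc (s ^ i) c, hd]
    simp only [mul_assoc]
  set N := n0 + n1 + n2 with hN
  have l0 := mono n0 N α hk0 (by omega) (clean _ _ _ h0)
  have l1 := mono n1 N β hk1 (by omega) (clean _ _ _ h1)
  have l2 := mono n2 N (s ^ k - α - β) hk2 (by omega) (clean _ _ _ h2)
  have l3 := Ideal.add_mem _ (Ideal.add_mem _ l0 l1) l2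
  rw [hmem] at l3
  obtain ⟨d, hd⟩ := l3
  refine ⟨N ^ 2 + N, d, ?_⟩
  have e5 : s ^ (N ^ 2) * (α * s ^ (N - k)) + s ^ (N ^ 2) * (β * s ^ (N - k))
      + s ^ (N ^ 2) * ((s ^ k - α - β) * s ^ (N - k)) = s ^ (N ^ 2 + N) := by
    have : N ^ 2 + N = N ^ 2 + (k + (N - k)) := by omega
    rw [this, pow_add, pow_add]
    noncomm_ring
  rw [e5] at hd
  exact hd

/-- half-normal elements of the radical are nilpotent -/
theorem Adm.nil_of_left_half (hA : Adm B) {x : B} (hx : ∀ m : Ideal B, m.IsMaximal → x ∈ m)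
    (hn : ∀ y, ∃ z, y * x = x * z) : IsNilpotent x := by
  obtain ⟨m, c, h⟩ := hA.left_half hn
  have hu : IsUnit (1 - x * c) := by
    apply isUnit_of_forall hA.ld
    intro M hM hmem
    apply hM.ne_top
    rw [Ideal.eq_top_iff_one]
    have : (1 : B) = (1 - x * c) + x * c := by abel
    rw [this]
    exact M.add_mem hmem (hA.ld.twoSided hM (hx M hM) c)
  refine ⟨m, ?_⟩
  have h1 : x ^ m * (1 - x * c) = 0 := by
    rw [mul_sub, mul_one, ← mul_assoc, ← pow_succ, ← h, sub_self]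
  obtain ⟨w, hw⟩ := hu
  rw [← hw] at h1
  exact (Units.mul_left_eq_zero w).mp h1

theorem Adm.nil_of_right_half (hA : Adm B) {x : B} (hx : ∀ m : Ideal B, m.IsMaximal → x ∈ m)
    (hn : ∀ y, ∃ z, x * y = z * x) : IsNilpotent x := by
  obtain ⟨m, c, h⟩ := hA.right_half hn
  have hu : IsUnit (1 - c * x) := by
    apply isUnit_of_forall hA.ld
    intro M hM hmem
    apply hM.ne_top
    rw [Ideal.eq_top_iff_one]
    have : (1 : B) = (1 - c * x) + c * x := by abel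
    rw [this]
    exact M.add_mem hmem (M.mul_mem_left _ (hx M hM))
  refine ⟨m, ?_⟩
  have h1 : (1 - c * x) * x ^ m = 0 := by
    rw [sub_mul, one_mul, mul_assoc, ← pow_succ', ← h, sub_self]
  obtain ⟨w, hw⟩ := hu
  rw [← hw] at h1
  exact (Units.mul_right_eq_zero w).mp h1

end

end Pool.Agent.H86.EndoDist
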