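import Mathlib
import Pool.Agent.H86.EndoDist.HalfNormal

set_option autoImplicit false

/-!
Admissibility passes to the targets of ring epimorphisms.
-/

namespace Pool.Agent.H86.EndoDist

universe u v w

/-- `φ` is an epimorphism in the category of rings (in universe `u`). -/
def IsRingEpi {A R : Type u} [Ring A] [Ring R] (φ : A →+* R) : Prop :=
  ∀ (T : Type u) [Ring T] (g h : R →+* T), g.comp φ = h.comp φ → g = h

section

variable {A B R S : Type u} [Ring A] [Ring B] [Ring R] [Ring S]

lemma IsRingEpi.of_surjective {φ : A →+* R} (h : Function.Surjective φ) : IsRingEpi φ := by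
  intro T _ g h' hgh
  ext r
  obtain ⟨a, rfl⟩ := h r
  exact congrArg (fun f : A →+* T => f a) hgh

lemma IsRingEpi.comp {ψ : R →+* S} {φ : A →+* R} (hψ : IsRingEpi ψ) (hφ : IsRingEpi φ) :
    IsRingEpi (ψ.comp φ) := by
  intro T _ g h hgh
  apply hψ
  apply hφ
  exact hgh

lemma IsRingEpi.id : IsRingEpi (RingHom.id A) := IsRingEpi.of_surjective Function.surjective_id

/-- every element of `R` is a left fraction: then `φ` is an epimorphism -/
lemma IsRingEpi.of_fractions {φ : A →+* R}
    (h : ∀ r : R, ∃ s a : A, IsUnit (φ s) ∧ φ s * r = φ a) : IsRingEpi φ := by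
  intro T _ g g' hgg
  ext r
  obtain ⟨s, a, hs, hr⟩ := h r
  have e : ∀ a, g (φ a) = g' (φ a) := fun a => congrArg (fun f : A →+* T => f a) hgg
  obtain ⟨w, hw⟩ := hs
  have h1 : g (φ s) * g r = g (φ s) * g' r := by
    rw [← map_mul, hr, e, ← hr, map_mul, e]
  have h2 : g ((w⁻¹ : Rˣ) : R) * g (φ s) = 1 := by
    rw [← map_mul, ← hw, Units.inv_mul, map_one]
  have h3 := congrArg (fun t => g ((w⁻¹ : Rˣ) : R) * t) h1
  simp only [← mul_assoc] at h3
  rw [h2, one_mul, one_mul] at h3
  exact h3

/-- linear maps over `A` are linear over `R` -/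
lemma IsRingEpi.linear {φ : A →+* R} (hφ : IsRingEpi φ) (M : Type u) [AddCommGroup M] [Module R M]
    (f : M →+ M) (hf : ∀ (a : A) (x : M), f (φ a • x) = φ a • f x) (r : R) (x : M) :
    f (r • x) = r • f x := by
  let g : R →+* AddMonoid.End (M × M) := Module.toAddMonoidEnd R (M × M)
  let up : AddMonoid.End (M × M) :=
    { toFun := fun p => (p.1, p.2 + f p.1)
      map_zero' := by simp
      map_add' := by
        intro p q
        simp only [Prod.fst_add, Prod.snd_add, map_add, Prod.mk_add_mk, Prod.mk.injEq, true_and]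
        abel }
  let um : AddMonoid.End (M × M) :=
    { toFun := fun p => (p.1, p.2 - f p.1)
      map_zero' := by simp
      map_add' := by
        intro p q
        simp only [Prod.fst_add, Prod.snd_add, map_add, Prod.mk_add_mk, Prod.mk.injEq, true_and]
        abel }
  have hup : ∀ p, up p = (p.1, p.2 + f p.1) := fun _ => rfl
  have hum : ∀ p, um p = (p.1, p.2 - f p.1) := fun _ => rfl
  have hg : ∀ r p, g r p = (r • p.1, r • p.2) := fun _ _ => rfl
  have hmu : um * up = 1 := by
    apply AddMonoidHom.ext
    intro p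
    show um (up p) = p
    rw [hup, hum]
    simp
  have hum' : up * um = 1 := by
    apply AddMonoidHom.ext
    intro p
    show up (um p) = p
    rw [hup, hum]
    simp
  let h : R →+* AddMonoid.End (M × M) :=
    { toFun := fun r => up * g r * um
      map_one' := by rw [map_one, mul_one, hum']
      map_mul' := by
        intro r s
        rw [map_mul]
        calc up * (g r * g s) * um = up * g r * 1 * g s * um := by simp only [mul_one, mul_assoc]
          _ = up * g r * (um * up) * g s * um := by rw [hmu]
          _ = up * g r * um * (up * g s * um) := by simp only [mul_assoc]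
      map_zero' := by rw [map_zero, mul_zero, zero_mul]
      map_add' := by intro r s; rw [map_add, mul_add, add_mul] }
  have hh : ∀ r p, h r p = up (g r (um p)) := fun _ _ => rfl
  have key : g = h := by
    apply hφ
    apply RingHom.ext
    intro a
    apply AddMonoidHom.ext
    intro p
    show g (φ a) p = h (φ a) p
    rw [hh, hum, hg, hg, hup]
    ext1
    · rfl
    · simp only [hf, smul_sub]
      abel
  have h1 := congrArg (fun F : R →+* AddMonoid.End (M × M) => F r (x, 0)) key
  simp only [hh, hum, hg, hup] at h1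
  have h2 := congrArg Prod.snd h1
  simp only [smul_zero, zero_sub, smul_neg] at h2
  rw [eq_comm, neg_add_eq_zero] at h2
  exact h2.symm

/-- distributivity passes to targets of ring epimorphisms -/
theorem Adm.of_epi (hA : Adm B) {φ : B →+* R} (hφ : IsRingEpi φ) : Adm R := by
  intro M _ _
  let inst : Module B M := Module.compHom M φ
  have h : @Endo B M _ _ inst := @hA M _ inst
  have hsm : ∀ (b : B) (x : M), b • x = φ b • x := fun _ _ => rfl
  let conv : (Module.End B M) → (Module.End R M) := fun f =>
    { toFun := f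
      map_add' := map_add f
      map_smul' := by
        intro r x
        exact hφ.linear M (f : M →+ M) (by
          intro a x
          exact map_smul f a x) r x }
  let F : Submodule (Module.End R M) M → Submodule (Module.End B M) M := fun U =>
    { carrier := U
      add_mem' := fun hx hy => U.add_mem hx hy
      zero_mem' := U.zero_mem
      smul_mem' := fun f x hx => U.smul_mem (conv f) hx }
  have hF : ∀ U x, x ∈ F U ↔ x ∈ U := fun _ _ => Iff.rfl
  intro U V W
  have h1 := h (F U) (F V) (F W)
  ext x
  constructor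
  · intro hx
    have h2 : x ∈ F U ⊓ (F V ⊔ F W) := by
      refine ⟨hx.1, ?_⟩
      obtain ⟨y, hy, z, hz, rfl⟩ := Submodule.mem_sup.mp hx.2
      exact Submodule.add_mem_sup ((hF V y).mpr hy) ((hF W z).mpr hz)
    rw [h1] at h2
    obtain ⟨y, hy, z, hz, rfl⟩ := Submodule.mem_sup.mp h2
    exact Submodule.add_mem_sup ⟨hy.1, hy.2⟩ ⟨hz.1, hz.2⟩
  · intro hx
    have h3 : (U ⊓ V) ⊔ (U ⊓ W) ≤ U ⊓ (V ⊔ W) :=
      le_inf (sup_le inf_le_left inf_le_left)
        (sup_le (inf_le_right.trans le_sup_left) (inf_le_right.trans le_sup_right))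
    exact h3 hx

/-- a ring epimorphism that preserves countability -/
structure GEpi (φ : A →+* R) : Prop where
  epi : IsRingEpi φ
  count : Countable A → Countable R

lemma GEpi.of_surjective {φ : A →+* R} (h : Function.Surjective φ) : GEpi φ :=
  ⟨IsRingEpi.of_surjective h, fun _ => h.countable⟩

lemma GEpi.comp {ψ : R →+* S} {φ : A →+* R} (hψ : GEpi ψ) (hφ : GEpi φ) :
    GEpi (ψ.comp φ) :=
  ⟨hψ.epi.comp hφ.epi, fun h => hψ.count (hφ.count h)⟩

lemma GEpi.id : GEpi (RingHom.id A) := GEpi.of_surjective Function.surjective_id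

lemma GEpi.of_fractions {φ : A →+* R}
    (h : ∀ r : R, ∃ s a : A, IsUnit (φ s) ∧ φ s * r = φ a) : GEpi φ := by
  refine ⟨IsRingEpi.of_fractions h, ?_⟩
  intro _
  choose s a hs ha using h
  have hinj : Function.Injective (fun r => (s r, a r)) := by
    intro r r' hrr
    simp only [Prod.mk.injEq] at hrr
    obtain ⟨w, hw⟩ := hs r
    have h1 := ha r
    have h2 := ha r'
    rw [← hrr.1, ← hrr.2, ← h1, ← hw] at h2
    exact ((Units.mul_right_inj w).mp h2).symm
  exact hinj.countable

end

end Pool.Agent.H86.EndoDist
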