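import Mathlib
import Pool.Agent.H86.EndoDist.Epi

set_option autoImplicit false

/-!
Localisation at the complement of a completely prime ideal.
-/

namespace Pool.Agent.H86.EndoDist

universe u

open OreLocalization in
/-- Ore localisation at a set of regular elements -/
theorem exists_localization {T : Type u} [Ring T] (S : Submonoid T)
    (hl : ∀ s ∈ S, ∀ a, s * a = 0 → a = 0) (hr : ∀ s ∈ S, ∀ a, a * s = 0 → a = 0)
    (hore : ∀ (a : T), ∀ s ∈ S, ∃ a' s', s' ∈ S ∧ s' * a = a' * s) :
    ∃ (L : Type u) (_ : Ring L) (φ : T →+* L), Function.Injective φ ∧ (∀ s ∈ S, IsUnit (φ s)) ∧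
      ∀ r : L, ∃ s ∈ S, ∃ a, φ s * r = φ a := by
  classical
  have h1 : Nonempty (OreSet S) := by
    rw [nonempty_oreSet_iff]
    constructor
    · intro r₁ r₂ s h
      refine ⟨s, ?_⟩
      have : (r₁ - r₂) * s = 0 := by rw [sub_mul, h, sub_self]
      have := hr s s.2 _ this
      rw [sub_eq_zero] at this
      rw [this]
    · intro r s
      obtain ⟨a', s', hs', h⟩ := hore r s s.2
      exact ⟨a', ⟨s', hs'⟩, h⟩
  obtain ⟨inst⟩ := h1
  let φ : T →+* OreLocalization S T :=
    { toFun := fun r => r /ₒ 1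
      map_one' := (OreLocalization.one_def).symm
      map_mul' := fun _ _ => mul_div_one.symm
      map_zero' := (OreLocalization.zero_def).symm
      map_add' := fun _ _ => add_oreDiv.symm }
  have hφ : ∀ r, φ r = r /ₒ 1 := fun _ => rfl
  refine ⟨OreLocalization S T, inferInstance, φ, ?_, ?_, ?_⟩
  · intro a b hab
    exact numeratorHom_inj (R := T) (S := S) (by
      intro s hs a ha
      exact hl s hs a ha) hab
  · intro s hs
    exact numerator_isUnit (⟨s, hs⟩ : S)
  · intro r
    induction r with | _ a s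
    refine ⟨s, s.2, a, ?_⟩
    rw [hφ, hφ]
    exact OreLocalization.mul_cancel

/-- a completely prime two-sided ideal -/
structure CPrime {T : Type u} [Ring T] (Q : Ideal T) : Prop where
  ne_top : (1 : T) ∉ Q
  right : ∀ x ∈ Q, ∀ r, x * r ∈ Q
  prime : ∀ x y, x * y ∈ Q → x ∈ Q ∨ y ∈ Q

namespace CPrime

variable {T : Type u} [Ring T] {Q : Ideal T} (hQ : CPrime Q)

include hQ in
lemma pow_mem {x : T} {k : ℕ} (h : x ^ k ∈ Q) : x ∈ Q := by
  induction k with
  | zero => rw [pow_zero] at h; exact absurd h hQ.ne_top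
  | succ k ih =>
    rw [pow_succ] at h
    rcases hQ.prime _ _ h with h | h
    · exact ih h
    · exact h

/-- the complement of a completely prime ideal -/
def compl : Submonoid T where
  carrier := {s | s ∉ Q}
  one_mem' := hQ.ne_top
  mul_mem' := by
    intro a b ha hb hab
    rcases hQ.prime a b hab with h | h
    · exact ha h
    · exact hb h

lemma mem_compl (s : T) : s ∈ hQ.compl ↔ s ∉ Q := Iff.rfl

end CPrime

/-- the left Ore condition holds at completely prime ideals of left distributive rings -/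
lemma LD.ore {T : Type u} [Ring T] (hD : LD T) {Q : Ideal T} (hQ : CPrime Q) (a s : T)
    (hs : s ∉ Q) : ∃ a' s', s' ∉ Q ∧ s' * a = a' * s := by
  obtain ⟨r, c, d, h1, h2⟩ := hD a s
  -- `r s = (c - r) a`, `(1 - r) a = (d - (1 - r)) s`
  by_cases hr : (1 - r) ∈ Q
  · refine ⟨r, c - r, ?_, ?_⟩
    · intro hc
      have h3 : r * s ∈ Q := by
        have : r * s = (c - r) * a := by
          rw [sub_mul, ← h1]; noncomm_ring
        rw [this]
        exact hQ.right _ hc _
      rcases hQ.prime _ _ h3 with h | h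
      · apply hQ.ne_top
        have : (1 : T) = (1 - r) + r := by abel
        rw [this]
        exact Q.add_mem hr h
      · exact hs h
    · rw [sub_mul, ← h1]; noncomm_ring
  · refine ⟨d - (1 - r), 1 - r, hr, ?_⟩
    have h3 : (d - (1 - r)) * s = (1 - r) * a := by
      rw [sub_mul, ← h2]; noncomm_ring
    exact h3.symm

/-- a localisation at a completely prime ideal -/
structure IsLocAt {T L : Type u} [Ring T] [Ring L] (Q : Ideal T) (φ : T →+* L) : Prop where
  inj : Function.Injective φ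
  unit : ∀ s, s ∉ Q → IsUnit (φ s)
  frac : ∀ r : L, ∃ s, s ∉ Q ∧ ∃ a, φ s * r = φ a
  nonunit : ∀ t ∈ Q, ¬ IsUnit (φ t)

theorem exists_loc {T : Type u} [Ring T] (hD : LD T) {Q : Ideal T} (hQ : CPrime Q)
    (hl : ∀ s, s ∉ Q → ∀ a, s * a = 0 → a = 0) (hr : ∀ s, s ∉ Q → ∀ a, a * s = 0 → a = 0) :
    ∃ (L : Type u) (_ : Ring L) (φ : T →+* L), IsLocAt Q φ := by
  obtain ⟨L, _, φ, h1, h2, h3⟩ := exists_localization hQ.compl (fun s hs => hl s hs)
    (fun s hs => hr s hs) (fun a s hs => hD.ore hQ a s hs)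
  refine ⟨L, inferInstance, φ, h1, fun s hs => h2 s hs, ?_, ?_⟩
  · intro r
    obtain ⟨s, hs, a, h⟩ := h3 r
    exact ⟨s, hs, a, h⟩
  · rintro t ht ⟨w, hw⟩
    obtain ⟨s, hs, a, h⟩ := h3 ((w⁻¹ : Lˣ) : L)
    -- `s w⁻¹ = a`, so `s = a t`
    have h4 : φ s = φ (a * t) := by
      rw [map_mul, ← h, mul_assoc, ← hw, Units.inv_mul, mul_one]
    have h5 := h1 h4
    apply hs
    rw [h5]
    exact Q.mul_mem_left _ ht

namespace IsLocAt

variable {T L : Type u} [Ring T] [Ring L] {Q : Ideal T} {φ : T →+* L} (h : IsLocAt Q φ)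
  (hQ : CPrime Q)

include h

lemma isRingEpi : GEpi φ := by
  apply GEpi.of_fractions
  intro r
  obtain ⟨s, hs, a, ha⟩ := h.frac r
  exact ⟨s, a, h.unit s hs, ha⟩

lemma unit_iff {r : L} {s a : T} (hs : s ∉ Q) (hr : φ s * r = φ a) : IsUnit r ↔ a ∉ Q := by
  obtain ⟨w, hw⟩ := h.unit s hs
  have h1 : r = (w⁻¹ : Lˣ) * φ a := by
    rw [← hr, ← hw, Units.inv_mul_cancel_left]
  constructor
  · rintro hu ha
    apply h.nonunit a ha
    rw [← hr, ← hw]
    exact w.isUnit.mul hu
  · intro ha
    rw [h1]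
    exact (w⁻¹).isUnit.mul (h.unit a ha)

include hQ in
lemma isLocal : IsLocalRing L := by
  have hnt : Nontrivial L := by
    refine ⟨⟨0, 1, ?_⟩⟩
    intro h01
    have : φ 0 = φ 1 := by rw [map_zero, map_one]; exact h01
    have := h.inj this
    apply hQ.ne_top
    rw [← this]
    exact Q.zero_mem
  refine { isUnit_or_isUnit_of_add_one := ?_ }
  intro a b hab
  obtain ⟨s, hs, t, ht⟩ := h.frac a
  by_cases htQ : t ∈ Q
  · right
    have hb : φ s * b = φ (s - t) := by
      have : b = 1 - a := by rw [← hab]; abel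
      rw [this, mul_sub, mul_one, ht, map_sub]
    rw [h.unit_iff hs hb]
    intro hst
    apply hs
    have : s = (s - t) + t := by abel
    rw [this]
    exact Q.add_mem hst htQ
  · left
    rw [h.unit_iff hs ht]
    exact htQ

end IsLocAt

end Pool.Agent.H86.EndoDist
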