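import Mathlib
import Pool.Agent.H86.EndoDist.Loc

set_option autoImplicit false

/-!
Reduction of the local case.
-/

namespace Pool.Agent.H86.EndoDist

universe u

/-- two-sided -/
def TS {R : Type u} [Ring R] (I : Ideal R) : Prop := ∀ y ∈ I, ∀ r, y * r ∈ I

/-- a prime two-sided ideal, elementwise -/
def PrimeTS {R : Type u} [Ring R] (P : Ideal R) : Prop :=
  ∀ a b : R, (∀ r, a * r * b ∈ P) → a ∈ P ∨ b ∈ P

/-- a prime ring, elementwise -/
def PrimeRing (R : Type u) [Ring R] : Prop :=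
  ∀ a b : R, (∀ r, a * r * b = 0) → a = 0 ∨ b = 0

/-- a two-sided ideal maximal with respect to avoiding the powers of `x` is prime -/
theorem exists_avoid {R : Type u} [Ring R] (I : Ideal R) (hI : TS I) (x : R)
    (hx : ∀ k, x ^ k ∉ I) :
    ∃ P : Ideal R, TS P ∧ I ≤ P ∧ (∀ k, x ^ k ∉ P) ∧
      (∀ I' : Ideal R, TS I' → P ≤ I' → I' ≠ P → ∃ k, x ^ k ∈ I') ∧ PrimeTS P := by
  classical
  obtain ⟨P, hIP, hP⟩ := zorn_le_nonempty₀ {P : Ideal R | TS P ∧ I ≤ P ∧ ∀ k, x ^ k ∉ P} (by
    intro c hc hchain y hy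
    refine ⟨sSup c, ?_, fun z hz => le_sSup hz⟩
    have hdir : DirectedOn (· ≤ ·) c := hchain.directedOn
    have hmem : ∀ z, z ∈ sSup c ↔ ∃ P ∈ c, z ∈ P := by
      intro z
      exact Submodule.mem_sSup_of_directed ⟨y, hy⟩ hdir
    refine ⟨?_, ?_, ?_⟩
    · intro z hz r
      rw [hmem] at hz ⊢
      obtain ⟨P, hP, hz⟩ := hz
      exact ⟨P, hP, (hc hP).1 z hz r⟩
    · exact (hc hy).2.1.trans (le_sSup hy)
    · intro k hk
      rw [hmem] at hk
      obtain ⟨P, hP, hk⟩ := hk
      exact (hc hP).2.2 k hk) I ⟨hI, le_rfl, hx⟩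
  obtain ⟨⟨hPT, hPI, hPx⟩, hmax⟩ := hP
  have hmax' : ∀ I' : Ideal R, TS I' → P ≤ I' → I' ≠ P → ∃ k, x ^ k ∈ I' := by
    intro I' hI' hPI' hne
    by_contra hcon
    push Not at hcon
    exact hne (le_antisymm (hmax ⟨hI', hPI.trans hPI', hcon⟩ hPI') hPI')
  refine ⟨P, hPT, hPI, hPx, hmax', ?_⟩
  intro a b hab
  by_contra hcon
  push Not at hcon
  obtain ⟨ha, hb⟩ := hcon
  -- right colon
  let B' : Ideal R :=
    { carrier := {y | ∀ r, a * r * y ∈ P}
      add_mem' := by
        intro y z hy hz r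
        rw [mul_add]
        exact P.add_mem (hy r) (hz r)
      zero_mem' := by intro r; rw [mul_zero]; exact P.zero_mem
      smul_mem' := by
        intro c y hy r
        have : a * r * (c • y) = a * (r * c) * y := by rw [smul_eq_mul]; simp only [mul_assoc]
        rw [this]
        exact hy _ }
  have hB' : ∀ y, y ∈ B' ↔ ∀ r, a * r * y ∈ P := fun _ => Iff.rfl
  obtain ⟨l, hl⟩ := hmax' B' (by
    intro y hy r
    rw [hB'] at hy ⊢
    intro s
    rw [← mul_assoc]
    exact hPT _ (hy s) r) (by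
    intro y hy
    rw [hB']
    intro r
    exact P.mul_mem_left _ hy) (by
    intro he
    apply hb
    rw [← he]
    exact hab)
  let A' : Ideal R :=
    { carrier := {y | ∀ r, y * r * x ^ l ∈ P}
      add_mem' := by
        intro y z hy hz r
        rw [add_mul, add_mul]
        exact P.add_mem (hy r) (hz r)
      zero_mem' := by intro r; rw [zero_mul, zero_mul]; exact P.zero_mem
      smul_mem' := by
        intro c y hy r
        have : (c • y) * r * x ^ l = c * (y * r * x ^ l) := by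
          rw [smul_eq_mul]; simp only [mul_assoc]
        rw [this]
        exact P.mul_mem_left _ (hy _) }
  have hA' : ∀ y, y ∈ A' ↔ ∀ r, y * r * x ^ l ∈ P := fun _ => Iff.rfl
  obtain ⟨k, hk⟩ := hmax' A' (by
    intro y hy r
    rw [hA'] at hy ⊢
    intro s
    rw [mul_assoc y]
    exact hy _) (by
    intro y hy
    rw [hA']
    intro r
    rw [mul_assoc]
    exact hPT _ hy _) (by
    intro he
    apply ha
    rw [← he]
    exact hl)
  rw [hA'] at hk
  apply hPx (k + l)
  have := hk 1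
  rwa [mul_one, ← pow_add] at this

section

variable {R : Type u} [Ring R]

/-- the ideal of non-units of a local ring -/
def nonU (hl : IsLocalRing R) : Ideal R where
  carrier := {x | ¬ IsUnit x}
  add_mem' := fun hx hy => not_isUnit_add_loc hl hx hy
  zero_mem' := by
    have := hl.toNontrivial
    exact not_isUnit_zero
  smul_mem' := fun _ _ hx h => hx (isUnit_mul_loc hl h).2

lemma mem_nonU (hl : IsLocalRing R) (x : R) : x ∈ nonU hl ↔ ¬ IsUnit x := Iff.rfl

lemma nonU_cprime (hl : IsLocalRing R) : CPrime (nonU hl) where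
  ne_top := fun h => h isUnit_one
  right := fun _ hx _ h => hx (isUnit_mul_loc hl h).1
  prime := by
    intro x y h
    by_contra hcon
    rw [not_or, mem_nonU, mem_nonU, not_not, not_not] at hcon
    exact h (hcon.1.mul hcon.2)

lemma isLocal_quot (hl : IsLocalRing R) (P : Ideal R) [P.IsTwoSided] (h1 : (1 : R) ∉ P) :
    IsLocalRing (R ⧸ P) := by
  have hnt : Nontrivial (R ⧸ P) := by
    refine ⟨⟨0, 1, ?_⟩⟩
    intro h
    apply h1
    rw [← Ideal.Quotient.eq_zero_iff_mem]
    rw [map_one]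
    exact h.symm
  refine { isUnit_or_isUnit_of_add_one := ?_ }
  intro a b hab
  obtain ⟨x, rfl⟩ := Ideal.Quotient.mk_surjective a
  rcases hl.isUnit_or_isUnit_of_add_one (a := x) (b := 1 - x) (by abel) with h | h
  · exact Or.inl (h.map _)
  · right
    have : b = Ideal.Quotient.mk P (1 - x) := by
      rw [map_sub, map_one, ← hab]; abel
    rw [this]
    exact h.map _

lemma not_isUnit_quot (hl : IsLocalRing R) (P : Ideal R) [P.IsTwoSided] (h1 : (1 : R) ∉ P)
    {x : R} (hx : ¬ IsUnit x) : ¬ IsUnit (Ideal.Quotient.mk P x) := by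
  rintro ⟨w, hw⟩
  obtain ⟨y, hy⟩ := Ideal.Quotient.mk_surjective ((w⁻¹ : (R ⧸ P)ˣ) : R ⧸ P)
  have h2 : Ideal.Quotient.mk P (y * x) = Ideal.Quotient.mk P 1 := by
    rw [map_mul, hy, ← hw, Units.inv_mul, map_one]
  rw [Ideal.Quotient.mk_eq_mk_iff_sub_mem] at h2
  have h3 : y * x - 1 ∈ nonU hl := by
    rw [mem_nonU]
    intro hu
    apply h1
    obtain ⟨v, hv⟩ := hu
    have := P.mul_mem_left ((v⁻¹ : Rˣ) : R) h2
    rwa [← hv, Units.inv_mul] at this
  have h4 : y * x ∈ nonU hl := (nonU hl).mul_mem_left _ hx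
  apply (nonU_cprime hl).ne_top
  have : (1 : R) = y * x - (y * x - 1) := by abel
  rw [this]
  exact (nonU hl).sub_mem h4 h3

/-- the situation after the first reduction -/
structure PW (R : Type u) [Ring R] (x : R) : Prop where
  adm : Adm R
  loc : IsLocalRing R
  prime : PrimeRing R
  nonunit : ¬ IsUnit x
  pw_ne : ∀ k, x ^ k ≠ 0
  pw : ∀ I : Ideal R, TS I → I ≠ ⊥ → ∃ k, x ^ k ∈ I

lemma primeRing_quot (P : Ideal R) [P.IsTwoSided] (h : PrimeTS P) : PrimeRing (R ⧸ P) := by
  intro a b hab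
  obtain ⟨x, rfl⟩ := Ideal.Quotient.mk_surjective a
  obtain ⟨y, rfl⟩ := Ideal.Quotient.mk_surjective b
  rw [Ideal.Quotient.eq_zero_iff_mem, Ideal.Quotient.eq_zero_iff_mem]
  apply h
  intro r
  rw [← Ideal.Quotient.eq_zero_iff_mem, map_mul, map_mul]
  exact hab _

/-- preimage of an ideal, two-sidedness -/
lemma TS.comap {S : Type u} [Ring S] {I : Ideal S} (hI : TS I) (φ : R →+* S) :
    TS (Ideal.comap φ I) := by
  intro y hy r
  rw [Ideal.mem_comap] at hy ⊢
  rw [map_mul]
  exact hI _ hy _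

theorem PW.exists (hA : Adm R) (hl : IsLocalRing R) (x : R) (hx : ¬ IsUnit x)
    (hxn : ¬ IsNilpotent x) :
    ∃ (S : Type u) (_ : Ring S) (φ : R →+* S), GEpi φ ∧ PW S (φ x) := by
  obtain ⟨P, hPT, -, hPx, hmax, hprime⟩ := exists_avoid (⊥ : Ideal R) (by
    intro y hy r
    rw [Ideal.mem_bot] at hy ⊢
    rw [hy, zero_mul]) x (by
    intro k hk
    exact hxn ⟨k, hk⟩)
  have inst : P.IsTwoSided := ⟨fun {a} b ha => hPT a ha b⟩
  have h1 : (1 : R) ∉ P := by
    have := hPx 0
    rwa [pow_zero] at this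
  refine ⟨R ⧸ P, inferInstance, Ideal.Quotient.mk P,
    GEpi.of_surjective Ideal.Quotient.mk_surjective, ?_⟩
  refine ⟨hA.of_surjective _ Ideal.Quotient.mk_surjective, isLocal_quot hl P h1,
    primeRing_quot P hprime, not_isUnit_quot hl P h1 hx, ?_, ?_⟩
  · intro k hk
    apply hPx k
    rw [← Ideal.Quotient.eq_zero_iff_mem, map_pow]
    exact hk
  · intro I hI hne
    obtain ⟨k, hk⟩ := hmax (Ideal.comap (Ideal.Quotient.mk P) I) (hI.comap _) (by
      intro y hy
      rw [Ideal.mem_comap, Ideal.Quotient.eq_zero_iff_mem.mpr hy]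
      exact I.zero_mem) (by
      intro he
      apply hne
      rw [eq_bot_iff]
      intro y hy
      obtain ⟨z, rfl⟩ := Ideal.Quotient.mk_surjective y
      have : z ∈ Ideal.comap (Ideal.Quotient.mk P) I := hy
      rw [he] at this
      rw [Ideal.mem_bot]
      exact Ideal.Quotient.eq_zero_iff_mem.mpr this)
    refine ⟨k, ?_⟩
    rw [Ideal.mem_comap, map_pow] at hk
    exact hk

/-- in local rings with comparable elements, a left ideal not containing `z` lies below `z` -/
lemma below {I : Ideal R} (lc : ∀ x y : R, ∃ c, x = c * y ∨ y = c * x) {z : R} (hz : z ∉ I)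
    {i : R} (hi : i ∈ I) : ∃ c, i = c * z := by
  obtain ⟨c, hc | hc⟩ := lc i z
  · exact ⟨c, hc⟩
  · exact absurd (by rw [hc]; exact I.mul_mem_left _ hi) hz

lemma below' {I : Ideal R} (hI : TS I) (rc : ∀ x y : R, ∃ c, x = y * c ∨ y = x * c) {z : R}
    (hz : z ∉ I) {i : R} (hi : i ∈ I) : ∃ c, i = z * c := by
  obtain ⟨c, hc | hc⟩ := rc i z
  · exact ⟨c, hc⟩
  · exact absurd (by rw [hc]; exact hI _ hi _) hz

/-- second reduction: localise at the smallest completely prime ideal containing `x` -/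
theorem PW.localise {x : R} (h : PW R x) :
    ∃ (L : Type u) (_ : Ring L) (φ : R →+* L), GEpi φ ∧ PW L (φ x) ∧
      ∀ Q : Ideal L, CPrime Q → φ x ∈ Q → ∀ y : L, ¬ IsUnit y → y ∈ Q := by
  have hl := h.loc
  have lc := h.adm.ld.chain hl
  have rc := h.adm.rd.chain hl
  let Q : Ideal R := sInf {Q | CPrime Q ∧ x ∈ Q}
  have hQmem : ∀ y, y ∈ Q ↔ ∀ Q', CPrime Q' → x ∈ Q' → y ∈ Q' := by
    intro y
    simp only [Q, Submodule.mem_sInf, Set.mem_setOf_eq, and_imp]
  have hQ : CPrime Q := by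
    refine ⟨?_, ?_, ?_⟩
    · intro h1
      exact (nonU_cprime hl).ne_top ((hQmem 1).mp h1 _ (nonU_cprime hl) h.nonunit)
    · intro y hy r
      rw [hQmem] at hy ⊢
      exact fun Q' h1 h2 => h1.right _ (hy Q' h1 h2) r
    · intro a b hab
      by_contra hcon
      rw [not_or, hQmem, hQmem] at hcon
      push Not at hcon
      obtain ⟨⟨Q1, h1, h1x, h1a⟩, Q2, h2, h2x, h2b⟩ := hcon
      rw [hQmem] at hab
      rcases h1.prime _ _ (hab Q1 h1 h1x) with h3 | h3
      · exact h1a h3
      rcases h2.prime _ _ (hab Q2 h2 h2x) with h4 | h4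
      · -- `b ∈ Q1 ∖ Q2`, `a ∈ Q2 ∖ Q1`
        obtain ⟨c, hc⟩ := below lc h2b h4
        apply h1a
        rw [hc]
        exact Q1.mul_mem_left _ h3
      · exact h2b h4
  have hxQ : x ∈ Q := by rw [hQmem]; exact fun _ _ h => h
  have hx0 : x ≠ 0 := by
    have := h.pw_ne 1
    rwa [pow_one] at this
  have hQT : TS Q := fun y hy r => hQ.right y hy r
  obtain ⟨L, _, φ, hφ⟩ := exists_loc h.adm.ld hQ (by
    intro s hs a hsa
    -- `Q a = 0`
    have h1 : ∀ b ∈ Q, b * a = 0 := by
      intro b hb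
      obtain ⟨c, hc⟩ := below lc hs hb
      rw [hc, mul_assoc, hsa, mul_zero]
    rcases h.prime x a (fun r => h1 _ (hQ.right _ hxQ r)) with h2 | h2
    · exact absurd h2 hx0
    · exact h2) (by
    intro s hs a hsa
    have h1 : ∀ b ∈ Q, a * b = 0 := by
      intro b hb
      obtain ⟨c, hc⟩ := below' hQT rc hs hb
      rw [hc, ← mul_assoc, hsa, zero_mul]
    rcases h.prime a x (fun r => by rw [mul_assoc]; exact h1 _ (Q.mul_mem_left _ hxQ))
      with h2 | h2
    · exact h2
    · exact absurd h2 hx0)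
  have hepi := hφ.isRingEpi
  refine ⟨L, inferInstance, φ, hepi, ⟨h.adm.of_epi hepi.epi, hφ.isLocal hQ, ?_,
    hφ.nonunit x hxQ, ?_, ?_⟩, ?_⟩
  · -- prime
    intro a b hab
    obtain ⟨s, hs, t, ht⟩ := hφ.frac a
    obtain ⟨s', hs', t', ht'⟩ := hφ.frac b
    have hzero : ∀ (s : R), s ∉ Q → ∀ r : L, φ s * r = 0 → r = 0 := by
      intro s hs r hr
      obtain ⟨w, hw⟩ := hφ.unit s hs
      rw [← hw] at hr
      exact (Units.mul_right_eq_zero w).mp hr
    have h1 : ∀ r, t * r * t' = 0 := by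
      intro r
      apply hφ.inj
      rw [map_mul, map_mul, ← ht, ← ht', map_zero]
      calc φ s * a * φ r * (φ s' * b) = φ s * (a * (φ r * φ s') * b) := by
            simp only [mul_assoc]
        _ = 0 := by rw [hab, mul_zero]
    rcases h.prime t t' h1 with h2 | h2
    · left
      apply hzero s hs
      rw [ht, h2, map_zero]
    · right
      apply hzero s' hs'
      rw [ht', h2, map_zero]
  · intro k hk
    apply h.pw_ne k
    apply hφ.inj
    rw [map_pow, map_zero]
    exact hk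
  · intro I hI hne
    obtain ⟨k, hk⟩ := h.pw (Ideal.comap φ I) (hI.comap φ) (by
      intro he
      apply hne
      rw [eq_bot_iff]
      intro y hy
      obtain ⟨s, hs, t, ht⟩ := hφ.frac y
      have h1 : t ∈ Ideal.comap φ I := by
        rw [Ideal.mem_comap, ← ht]
        exact I.mul_mem_left _ hy
      rw [he, Ideal.mem_bot] at h1
      rw [h1, map_zero] at ht
      obtain ⟨w, hw⟩ := hφ.unit s hs
      rw [← hw] at ht
      exact (Units.mul_right_eq_zero w).mp ht)
    refine ⟨k, ?_⟩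
    rw [Ideal.mem_comap, map_pow] at hk
    exact hk
  · intro Q' hQ' hxQ' y hy
    obtain ⟨s, hs, t, ht⟩ := hφ.frac y
    have htQ : t ∈ Q := by
      by_contra hcon
      exact hy ((hφ.unit_iff hs ht).mpr hcon)
    have h1 : CPrime (Ideal.comap φ Q') := by
      refine ⟨?_, ?_, ?_⟩
      · rw [Ideal.mem_comap, map_one]; exact hQ'.ne_top
      · intro z hz r
        rw [Ideal.mem_comap] at hz ⊢
        rw [map_mul]
        exact hQ'.right _ hz _
      · intro z z' hz
        rw [Ideal.mem_comap, map_mul] at hz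
        exact hQ'.prime _ _ hz
    have h2 := (hQmem t).mp htQ _ h1 hxQ'
    rw [Ideal.mem_comap, ← ht] at h2
    rcases hQ'.prime _ _ h2 with h3 | h3
    · exfalso
      apply hQ'.ne_top
      obtain ⟨w, hw⟩ := hφ.unit s hs
      have := Q'.mul_mem_left ((w⁻¹ : Lˣ) : L) h3
      rwa [← hw, Units.inv_mul] at this
    · exact h3

/-- nearly simple local rings -/
structure NearlySimple (R : Type u) [Ring R] : Prop where
  loc : IsLocalRing R
  prime : PrimeRing R
  ne : ∃ x : R, ¬ IsUnit x ∧ x ≠ 0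
  least : ∀ I : Ideal R, TS I → I ≠ ⊥ → ∀ x : R, ¬ IsUnit x → x ∈ I

/-- Case A: a proper non-maximal prime ideal -/
theorem nearlySimple_quot (hA : Adm R) (hl : IsLocalRing R) {Q' : Ideal R} (hT : TS Q')
    (hQ' : PrimeTS Q') (hJ : ∃ z, ¬ IsUnit z ∧ z ∉ Q')
    (hcp : ∀ Q : Ideal R, CPrime Q → Q' ≤ Q → ∀ y : R, ¬ IsUnit y → y ∈ Q) :
    ∃ (S : Type u) (_ : Ring S) (φ : R →+* S), GEpi φ ∧ NearlySimple S := by
  classical
  obtain ⟨z0, hz0, hz0Q⟩ := hJ
  have inst : Q'.IsTwoSided := ⟨fun {a} b ha => hT a ha b⟩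
  have h1 : (1 : R) ∉ Q' := by
    intro h
    apply hz0Q
    have := Q'.mul_mem_left z0 h
    rwa [mul_one] at this
  have hsurj : Function.Surjective (Ideal.Quotient.mk Q') := Ideal.Quotient.mk_surjective
  have hlS := isLocal_quot hl Q' h1
  have hAS : Adm (R ⧸ Q') := hA.of_surjective _ hsurj
  have hpS := primeRing_quot Q' hQ'
  have lc := hAS.ld.chain hlS
  have rc := hAS.rd.chain hlS
  refine ⟨R ⧸ Q', inferInstance, Ideal.Quotient.mk Q', GEpi.of_surjective hsurj, hlS, hpS,
    ⟨Ideal.Quotient.mk Q' z0, not_isUnit_quot hl Q' h1 hz0, ?_⟩, ?_⟩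
  · intro h
    exact hz0Q (Ideal.Quotient.eq_zero_iff_mem.mp h)
  -- zero divisors
  have hnt := hlS.toNontrivial
  let Z : Ideal (R ⧸ Q') :=
    { carrier := {z | ∃ b, b ≠ 0 ∧ z * b = 0}
      add_mem' := by
        rintro z z' ⟨b, hb, hzb⟩ ⟨b', hb', hzb'⟩
        obtain ⟨c, hc | hc⟩ := rc b b'
        · refine ⟨b, hb, ?_⟩
          rw [add_mul, hzb, hc, ← mul_assoc, hzb', zero_mul, add_zero]
        · refine ⟨b', hb', ?_⟩
          rw [add_mul, hzb', hc, ← mul_assoc, hzb, zero_mul, zero_add]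
      zero_mem' := ⟨1, one_ne_zero, zero_mul _⟩
      smul_mem' := by
        rintro c z ⟨b, hb, hzb⟩
        exact ⟨b, hb, by rw [smul_eq_mul, mul_assoc, hzb, mul_zero]⟩ }
  have hZ : ∀ z, z ∈ Z ↔ ∃ b, b ≠ 0 ∧ z * b = 0 := fun _ => Iff.rfl
  have hZcp : CPrime Z := by
    refine ⟨?_, ?_, ?_⟩
    · rintro ⟨b, hb, h⟩
      rw [one_mul] at h
      exact hb h
    · rintro z ⟨b, hb, h⟩ r
      rw [hZ]
      obtain ⟨c, hc | hc⟩ := rc b r
      · -- `b = r c`
        refine ⟨c, ?_, ?_⟩
        · rintro rfl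
          rw [mul_zero] at hc
          exact hb hc
        · rw [mul_assoc, ← hc, h]
      · refine ⟨1, one_ne_zero, ?_⟩
        rw [hc, mul_one, ← mul_assoc, h, zero_mul]
    · rintro z z' ⟨b, hb, h⟩
      by_cases h0 : z' * b = 0
      · exact Or.inr ⟨b, hb, h0⟩
      · exact Or.inl ⟨z' * b, h0, by rw [← mul_assoc]; exact h⟩
  have hcomap : CPrime (Ideal.comap (Ideal.Quotient.mk Q') Z) := by
    refine ⟨?_, ?_, ?_⟩
    · rw [Ideal.mem_comap, map_one]; exact hZcp.ne_top
    · intro z hz r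
      rw [Ideal.mem_comap] at hz ⊢
      rw [map_mul]
      exact hZcp.right _ hz _
    · intro z z' hz
      rw [Ideal.mem_comap, map_mul] at hz
      exact hZcp.prime _ _ hz
  have hZall : ∀ z : R ⧸ Q', ¬ IsUnit z → ∃ b, b ≠ 0 ∧ z * b = 0 := by
    intro z hz
    obtain ⟨y, rfl⟩ := hsurj z
    have := hcp _ hcomap (by
      intro t ht
      rw [Ideal.mem_comap, Ideal.Quotient.eq_zero_iff_mem.mpr ht]
      exact Z.zero_mem) y (by
      intro hu
      exact hz (hu.map _))
    exact this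
  intro I hI hne z hz
  by_contra hzI
  obtain ⟨b, hb, hzb⟩ := hZall z hz
  apply hne
  rw [eq_bot_iff]
  intro i hi
  rw [Ideal.mem_bot]
  have hIb : ∀ i ∈ I, i * b = 0 := by
    intro i hi
    obtain ⟨c, hc⟩ := below lc hzI hi
    rw [hc, mul_assoc, hzb, mul_zero]
  rcases hpS i b (fun r => hIb _ (hI _ hi r)) with h | h
  · exact h
  · exact absurd h hb

/-- the local reduction -/
theorem Adm.local_reduction (hA : Adm R) (hl : IsLocalRing R) (x : R) (hx : ¬ IsUnit x)
    (hxn : ¬ IsNilpotent x) :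
    ∃ (S : Type u) (_ : Ring S) (φ : R →+* S), GEpi φ ∧ NearlySimple S := by
  classical
  obtain ⟨R1, _, φ1, hφ1, h1⟩ := PW.exists hA hl x hx hxn
  obtain ⟨L, _, φ2, hφ2, h2, hcp⟩ := h1.localise
  set y : L := φ2 (φ1 x) with hy
  by_cases hcase : ∃ Q' : Ideal L, TS Q' ∧ PrimeTS Q' ∧ Q' ≠ ⊥ ∧ ∃ z, ¬ IsUnit z ∧ z ∉ Q'
  · obtain ⟨Q', hT, hP, hne, hz⟩ := hcase
    obtain ⟨k, hk⟩ := h2.pw Q' hT hne
    obtain ⟨S, _, φ3, hφ3, hS⟩ := nearlySimple_quot h2.adm h2.loc hT hP hz (by
      intro Q hQ hle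
      exact hcp Q hQ (hQ.pow_mem (hle hk)))
    exact ⟨S, inferInstance, φ3.comp (φ2.comp φ1), hφ3.comp (hφ2.comp hφ1), hS⟩
  · refine ⟨L, inferInstance, φ2.comp φ1, hφ2.comp hφ1, h2.loc, h2.prime, ⟨y, h2.nonunit, ?_⟩, ?_⟩
    · have := h2.pw_ne 1
      rwa [pow_one] at this
    have hL := h2.loc
    have lc := h2.adm.ld.chain hL
    -- the radical is not principal
    have hnp : ∀ p : L, ¬ IsUnit p → ∃ z, ¬ IsUnit z ∧ ∀ c, z ≠ c * p := by
      intro p hp
      by_contra hcon
      push Not at hcon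
      have hsw : ∀ t, ∃ c, p * t = c * p := fun t => hcon _ (fun hu => hp (isUnit_mul_loc hL hu).1)
      obtain ⟨m, hm⟩ := h2.adm.nil_of_right_half (x := p) (by
        intro M hM
        by_contra hpM
        obtain ⟨d, hd⟩ := exists_inv_mod hM hpM
        -- `d p - 1` is a unit
        have h3 : IsUnit (d * p - 1) := by
          by_contra hu
          have h4 : d * p ∈ nonU hL := (nonU hL).mul_mem_left _ hp
          apply (nonU_cprime hL).ne_top
          have : (1 : L) = d * p - (d * p - 1) := by abel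
          rw [this]
          exact (nonU hL).sub_mem h4 hu
        exact hM.ne_top (Ideal.eq_top_of_isUnit_mem _ hd h3)) hsw
      obtain ⟨c, hc⟩ := hcon y h2.nonunit
      apply h2.pw_ne m
      rw [hc]
      have key : ∀ k, ∃ d, (c * p) ^ k = d * p ^ k := by
        intro k
        induction k with
        | zero => exact ⟨1, by simp⟩
        | succ k ih =>
          obtain ⟨d, hd⟩ := ih
          have hsw' : ∀ j t, ∃ c, p ^ j * t = c * p ^ j := by
            intro j
            induction j with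
            | zero => intro t; exact ⟨t, by simp⟩
            | succ j ihj =>
              intro t
              obtain ⟨c1, hc1⟩ := ihj t
              obtain ⟨c2, hc2⟩ := hsw c1
              refine ⟨c2, ?_⟩
              rw [pow_succ', mul_assoc, hc1, ← mul_assoc, hc2, mul_assoc]
          obtain ⟨e, he⟩ := hsw' k c
          refine ⟨d * e, ?_⟩
          rw [pow_succ, hd, mul_assoc, ← mul_assoc (p ^ k), he, pow_succ, mul_assoc, mul_assoc]
      obtain ⟨d, hd⟩ := key m
      rw [hd, hm, mul_zero]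
    intro I hI hne z hz
    by_contra hzI
    -- `L / I` is nil
    have inst : I.IsTwoSided := ⟨fun {a} b ha => hI a ha b⟩
    have h1I : (1 : L) ∉ I := by
      intro h
      apply hzI
      have := I.mul_mem_left z h
      rwa [mul_one] at this
    have hsurj : Function.Surjective (Ideal.Quotient.mk I) := Ideal.Quotient.mk_surjective
    have hnilI : ∀ t : L, ¬ IsUnit t → ∃ k, t ^ k ∈ I := by
      intro t ht
      by_contra hcon
      push Not at hcon
      obtain ⟨P, hPT, hIP, hPt, -, hPP⟩ := exists_avoid I hI t hcon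
      apply hcase
      refine ⟨P, hPT, hPP, ?_, t, ht, ?_⟩
      · rintro rfl
        exact hne (le_bot_iff.mp hIP)
      · have := hPt 1
        rwa [pow_one] at this
    have hart : IsArtinianChainRing (L ⧸ I) := by
      apply (h2.adm.of_surjective _ hsurj).local_nil (isLocal_quot hL I h1I)
      intro t ht
      obtain ⟨s, rfl⟩ := hsurj t
      obtain ⟨k, hk⟩ := hnilI s (fun hu => ht (hu.map _))
      exact ⟨k, by rw [← map_pow]; exact Ideal.Quotient.eq_zero_iff_mem.mpr hk⟩
    obtain ⟨p, n, hp⟩ := hart.chainData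
    obtain ⟨q, rfl⟩ := hsurj p
    -- `q` is a non-unit: otherwise `1 = 0` in the quotient
    have hlI := isLocal_quot hL I h1I
    have hntI := hlI.toNontrivial
    have hqu : ¬ IsUnit q := by
      intro hu
      have h3 := hu.map (Ideal.Quotient.mk I)
      have h4 := h3.pow n
      rw [hp.pow_eq] at h4
      exact not_isUnit_zero h4
    -- `J = L q + I`
    have hJ : ∀ t : L, ¬ IsUnit t → ∃ c, t - c * q ∈ I := by
      intro t ht
      obtain ⟨k, w, hw⟩ := hp.left (Ideal.Quotient.mk I t)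
      rcases k with _ | k
      · exfalso
        apply not_isUnit_quot hL I h1I ht
        rw [hw, pow_zero, mul_one]
        exact w.isUnit
      · obtain ⟨c, hc⟩ := hsurj ((w : L ⧸ I) * (Ideal.Quotient.mk I q) ^ k)
        refine ⟨c, ?_⟩
        rw [← Ideal.Quotient.eq_zero_iff_mem, map_sub, map_mul, hc, hw, pow_succ, mul_assoc,
          sub_self]
    have hqI : q ∉ I := by
      intro hq
      apply hzI
      obtain ⟨c, hc⟩ := hJ z hz
      have : z = (z - c * q) + c * q := by abel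
      rw [this]
      exact I.add_mem hc (I.mul_mem_left _ hq)
    obtain ⟨t, ht, htq⟩ := hnp q hqu
    obtain ⟨c, hc⟩ := hJ t ht
    obtain ⟨d, hd⟩ := below lc hqI hc
    apply htq (c + d)
    rw [add_mul, ← hd]
    abel

end

end Pool.Agent.H86.EndoDist
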