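import Mathlib
import Pool.Agent.H86.EndoDist.LocalRed

set_option autoImplicit false

/-!
Reduction of the general case.
-/

namespace Pool.Agent.H86.EndoDist

universe u

section

variable {R : Type u} [Ring R]

/-- local comparability on the left -/
lemma LD.loc (hD : LD R) {Q : Ideal R} (hQ : CPrime Q) (x y : R) :
    ∃ s, s ∉ Q ∧ ((∃ c, s * x = c * y) ∨ (∃ c, s * y = c * x)) := by
  obtain ⟨r, c, d, h1, h2⟩ := hD x y
  by_cases hr : r ∈ Q
  · refine ⟨1 - r, ?_, Or.inl ⟨d - (1 - r), ?_⟩⟩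
    · intro h
      apply hQ.ne_top
      have : (1 : R) = (1 - r) + r := by abel
      rw [this]
      exact Q.add_mem h hr
    · have h3 : (d - (1 - r)) * y = (1 - r) * x := by
        rw [sub_mul, ← h2]; noncomm_ring
      exact h3.symm
  · refine ⟨r, hr, Or.inr ⟨c - r, ?_⟩⟩
    have h3 : (c - r) * x = r * y := by
      rw [sub_mul, ← h1]; noncomm_ring
    exact h3.symm

/-- local comparability on the right -/
lemma RD.loc (hD : RD R) {Q : Ideal R} (hQ : CPrime Q) (x y : R) :
    ∃ s, s ∉ Q ∧ ((∃ c, x * s = y * c) ∨ (∃ c, y * s = x * c)) := by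
  obtain ⟨r, c, d, h1, h2⟩ := hD x y
  by_cases hr : r ∈ Q
  · refine ⟨1 - r, ?_, Or.inl ⟨d - (1 - r), ?_⟩⟩
    · intro h
      apply hQ.ne_top
      have : (1 : R) = (1 - r) + r := by abel
      rw [this]
      exact Q.add_mem h hr
    · have h3 : y * (d - (1 - r)) = x * (1 - r) := by
        rw [mul_sub, ← h2]; noncomm_ring
      exact h3.symm
  · refine ⟨r, hr, Or.inr ⟨c - r, ?_⟩⟩
    have h3 : x * (c - r) = y * r := by
      rw [mul_sub, ← h1]; noncomm_ring
    exact h3.symm

/-- the right Ore condition at completely prime ideals of right distributive rings -/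
lemma RD.ore (hD : RD R) {Q : Ideal R} (hQ : CPrime Q) (a s : R)
    (hs : s ∉ Q) : ∃ a' s', s' ∉ Q ∧ a * s' = s * a' := by
  obtain ⟨t, ht, ⟨c, hc⟩ | ⟨c, hc⟩⟩ := hD.loc hQ a s
  · exact ⟨c, t, ht, hc⟩
  · refine ⟨t, c, ?_, hc.symm⟩
    intro hcQ
    have h1 : s * t ∈ Q := by rw [hc]; exact Q.mul_mem_left _ hcQ
    rcases hQ.prime _ _ h1 with h | h
    · exact hs h
    · exact ht h

lemma LD.cprime (hD : LD R) {m : Ideal R} (hm : m.IsMaximal) : CPrime m where
  ne_top := fun h => hm.ne_top ((Ideal.eq_top_iff_one _).mpr h)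
  right := fun _ hx r => hD.twoSided hm hx r
  prime := fun _ _ h => hD.prime hm h

/-- the radical contains a non-nilpotent element -/
def NonNil (R : Type u) [Ring R] : Prop :=
  ∃ x : R, (∀ m : Ideal R, m.IsMaximal → x ∈ m) ∧ ¬ IsNilpotent x

/-- the number of maximal left ideals -/
noncomputable def nmax (R : Type u) [Ring R] : ℕ := {m : Ideal R | m.IsMaximal}.ncard

/-- `R` is minimal among the epimorphic images with non-nil radical -/
structure MinCtx (R : Type u) [Ring R] (n : ℕ) : Prop where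
  adm : Adm R
  nonnil : NonNil R
  card : nmax R = n
  min : ∀ (S : Type u) [Ring S] (φ : R →+* S), GEpi φ → NonNil S → n ≤ nmax S

lemma MinCtx.of_epi {n : ℕ} (h : MinCtx R n) {S : Type u} [Ring S] (φ : R →+* S)
    (hφ : GEpi φ) (hS : NonNil S) (hle : nmax S ≤ n) : MinCtx S n where
  adm := h.adm.of_epi hφ.epi
  nonnil := hS
  card := le_antisymm hle (h.min S φ hφ hS)
  min := fun T _ ψ hψ hT => h.min T (ψ.comp φ) (hψ.comp hφ) hT

/-- quotients -/
lemma nmax_quot_le (hA : Adm R) (P : Ideal R) [P.IsTwoSided] : nmax (R ⧸ P) ≤ nmax R := by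
  have hsurj : Function.Surjective (Ideal.Quotient.mk P) := Ideal.Quotient.mk_surjective
  refine Set.ncard_le_ncard_of_injOn (fun M => Ideal.comap (Ideal.Quotient.mk P) M) ?_ ?_
    hA.finite_max
  · intro M hM
    have : M.IsMaximal := hM
    exact Ideal.comap_isMaximal_of_surjective _ hsurj
  · intro M _ M' _ h
    exact Ideal.comap_injective_of_surjective _ hsurj h

lemma nmax_quot_lt (hA : Adm R) (P : Ideal R) [P.IsTwoSided] (m : Ideal R) (hm : m.IsMaximal)
    (hPm : ¬ P ≤ m) : nmax (R ⧸ P) < nmax R := by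
  have hsurj : Function.Surjective (Ideal.Quotient.mk P) := Ideal.Quotient.mk_surjective
  have hfin := hA.finite_max
  have h1 : nmax (R ⧸ P) ≤ ({m : Ideal R | m.IsMaximal} \ {m}).ncard := by
    refine Set.ncard_le_ncard_of_injOn (fun M => Ideal.comap (Ideal.Quotient.mk P) M) ?_ ?_
      (hfin.subset Set.diff_subset)
    · intro M hM
      have : M.IsMaximal := hM
      refine ⟨Ideal.comap_isMaximal_of_surjective _ hsurj, ?_⟩
      intro h
      apply hPm
      rw [Set.mem_singleton_iff] at h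
      rw [← h]
      intro y hy
      rw [Ideal.mem_comap, Ideal.Quotient.eq_zero_iff_mem.mpr hy]
      exact M.zero_mem
    · intro M _ M' _ h
      exact Ideal.comap_injective_of_surjective _ hsurj h
  refine lt_of_le_of_lt h1 ?_
  exact Set.ncard_diff_singleton_lt_of_mem hm hfin

/-- passing to a prime quotient avoiding an element of the radical -/
theorem avoid_quot (I : Ideal R) (hI : TS I) (x : R) (hx : ∀ k, x ^ k ∉ I)
    (hxJ : ∀ m : Ideal R, m.IsMaximal → I ≤ m → x ∈ m) :
    ∃ (P : Ideal R) (_ : P.IsTwoSided), I ≤ P ∧ PrimeTS P ∧ NonNil (R ⧸ P) := by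
  obtain ⟨P, hPT, hIP, hPx, -, hPP⟩ := exists_avoid I hI x hx
  have inst : P.IsTwoSided := ⟨fun {a} b ha => hPT a ha b⟩
  have hsurj : Function.Surjective (Ideal.Quotient.mk P) := Ideal.Quotient.mk_surjective
  refine ⟨P, inst, hIP, hPP, Ideal.Quotient.mk P x, ?_, ?_⟩
  · intro m hm
    have h1 : (Ideal.comap (Ideal.Quotient.mk P) m).IsMaximal :=
      Ideal.comap_isMaximal_of_surjective _ hsurj
    have h2 := hxJ _ h1 (by
      intro y hy
      rw [Ideal.mem_comap, Ideal.Quotient.eq_zero_iff_mem.mpr (hIP hy)]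
      exact m.zero_mem)
    exact h2
  · rintro ⟨k, hk⟩
    apply hPx k
    rw [← Ideal.Quotient.eq_zero_iff_mem, map_pow]
    exact hk

lemma MinCtx.le_max {n : ℕ} (h : MinCtx R n) (P : Ideal R) [P.IsTwoSided] (hP : NonNil (R ⧸ P))
    (m : Ideal R) (hm : m.IsMaximal) : P ≤ m := by
  by_contra hcon
  have h1 := nmax_quot_lt h.adm P m hm hcon
  have h2 := h.min (R ⧸ P) (Ideal.Quotient.mk P)
    (GEpi.of_surjective Ideal.Quotient.mk_surjective) hP
  rw [h.card] at h1
  omega

/-- left torsion-free maximal ideals exist -/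
theorem exists_left_free (hA : Adm R) (hP : PrimeRing R) (hnt : Nontrivial R) :
    ∃ m : Ideal R, m.IsMaximal ∧ ∀ s, s ∉ m → ∀ a, s * a = 0 → a = 0 := by
  classical
  by_contra hcon
  push Not at hcon
  have hfin := hA.finite_max
  have key : ∀ F : Finset (Ideal R), (∀ m ∈ F, m.IsMaximal) →
      ∃ a : R, a ≠ 0 ∧ ∀ m ∈ F, ∃ s, s ∉ m ∧ s * a = 0 := by
    intro F
    induction F using Finset.induction_on with
    | empty => intro _; exact ⟨1, one_ne_zero, by simp⟩
    | insert m0 F _ ih =>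
      intro hF
      obtain ⟨a, ha, hFa⟩ := ih (fun m hm => hF m (Finset.mem_insert_of_mem hm))
      obtain ⟨s0, hs0, a0, h0, ha0⟩ := hcon m0 (hF m0 (Finset.mem_insert_self _ _))
      have h1 : ∃ r, a0 * r * a ≠ 0 := by
        by_contra hc
        push Not at hc
        rcases hP a0 a hc with h | h
        · exact ha0 h
        · exact ha h
      obtain ⟨r, hr⟩ := h1
      refine ⟨a0 * r * a, hr, ?_⟩
      intro m hm
      rcases Finset.mem_insert.mp hm with rfl | hm'
      · exact ⟨s0, hs0, by rw [← mul_assoc, ← mul_assoc, h0, zero_mul, zero_mul]⟩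
      · obtain ⟨s, hs, hsa⟩ := hFa m hm'
        obtain ⟨c, s', hs', hc⟩ := hA.ld.ore (hA.ld.cprime (hF m hm)) (a0 * r) s hs
        refine ⟨s', hs', ?_⟩
        rw [← mul_assoc, hc, mul_assoc, hsa, mul_zero]
  obtain ⟨a, ha, hall⟩ := key hfin.toFinset (by
    intro m hm
    rw [Set.Finite.mem_toFinset] at hm
    exact hm)
  let U : Ideal R :=
    { carrier := {s | s * a = 0}
      add_mem' := by
        intro s t hs ht
        simp only [Set.mem_setOf_eq] at *
        rw [add_mul, hs, ht, add_zero]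
      zero_mem' := by simp
      smul_mem' := by
        intro c s hs
        simp only [Set.mem_setOf_eq, smul_eq_mul] at *
        rw [mul_assoc, hs, mul_zero] }
  have hU : ∀ s, s ∈ U ↔ s * a = 0 := fun _ => Iff.rfl
  have hne : U ≠ ⊤ := by
    intro h
    apply ha
    have : (1 : R) ∈ U := by rw [h]; trivial
    rwa [hU, one_mul] at this
  obtain ⟨m, hm, hUm⟩ := Ideal.exists_le_maximal U hne
  obtain ⟨s, hs, hsa⟩ := hall m (by rw [Set.Finite.mem_toFinset]; exact hm)
  exact hs (hUm hsa)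

/-- separating elements -/
lemma exists_sep (hD : LD R) (F : Finset (Ideal R)) (hF : ∀ m ∈ F, m.IsMaximal) (m : Ideal R)
    (hm : m.IsMaximal) : ∃ e : R, e ∉ m ∧ ∀ m' ∈ F, m' ≠ m → e ∈ m' := by
  classical
  induction F using Finset.induction_on with
  | empty => exact ⟨1, fun h => hm.ne_top ((Ideal.eq_top_iff_one _).mpr h), by simp⟩
  | insert m0 F _ ih =>
    obtain ⟨e, he, heF⟩ := ih (fun m hm => hF m (Finset.mem_insert_of_mem hm))
    by_cases h0 : m0 = m
    · refine ⟨e, he, ?_⟩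
      intro m' hm' hne
      rcases Finset.mem_insert.mp hm' with rfl | h
      · exact absurd h0 hne
      · exact heF m' h hne
    · have h0m := hF m0 (Finset.mem_insert_self _ _)
      have hnle : ¬ m0 ≤ m := fun h => h0 (h0m.eq_of_le hm.ne_top h)
      obtain ⟨f, hf, hfm⟩ := Set.not_subset.mp hnle
      refine ⟨e * f, ?_, ?_⟩
      · intro h
        rcases hD.prime hm h with h | h
        · exact he h
        · exact hfm h
      · intro m' hm' hne
        rcases Finset.mem_insert.mp hm' with rfl | h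
        · exact m'.mul_mem_left _ hf
        · exact hD.twoSided (hF m' hm') (heF m' h hne) _

/-- right torsion-free maximal ideals exist -/
theorem exists_right_free (hA : Adm R) (hP : PrimeRing R) (hnt : Nontrivial R) :
    ∃ m : Ideal R, m.IsMaximal ∧ ∀ s, s ∉ m → ∀ a, a * s = 0 → a = 0 := by
  classical
  by_contra hcon
  push Not at hcon
  have hfin := hA.finite_max
  have key : ∀ F : Finset (Ideal R), (∀ m ∈ F, m.IsMaximal) →
      ∃ a : R, a ≠ 0 ∧ ∀ m ∈ F, ∃ s, s ∉ m ∧ a * s = 0 := by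
    intro F
    induction F using Finset.induction_on with
    | empty => intro _; exact ⟨1, one_ne_zero, by simp⟩
    | insert m0 F _ ih =>
      intro hF
      obtain ⟨a, ha, hFa⟩ := ih (fun m hm => hF m (Finset.mem_insert_of_mem hm))
      obtain ⟨s0, hs0, a0, h0, ha0⟩ := hcon m0 (hF m0 (Finset.mem_insert_self _ _))
      have h1 : ∃ r, a * r * a0 ≠ 0 := by
        by_contra hc
        push Not at hc
        rcases hP a a0 hc with h | h
        · exact ha h
        · exact ha0 h
      obtain ⟨r, hr⟩ := h1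
      refine ⟨a * r * a0, hr, ?_⟩
      intro m hm
      rcases Finset.mem_insert.mp hm with rfl | hm'
      · exact ⟨s0, hs0, by rw [mul_assoc, h0, mul_zero]⟩
      · obtain ⟨s, hs, hsa⟩ := hFa m hm'
        obtain ⟨c, s', hs', hc⟩ := hA.rd.ore (hA.ld.cprime (hF m hm)) (r * a0) s hs
        refine ⟨s', hs', ?_⟩
        rw [mul_assoc a, mul_assoc, hc, ← mul_assoc, hsa, zero_mul]
  have hall0 : ∀ m ∈ hfin.toFinset, m.IsMaximal := by
    intro m hm
    rw [Set.Finite.mem_toFinset] at hm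
    exact hm
  obtain ⟨a, ha, hall⟩ := key hfin.toFinset hall0
  -- a unit killed by `a`
  have key2 : ∀ F : Finset (Ideal R), F ⊆ hfin.toFinset →
      ∃ u : R, a * u = 0 ∧ (∀ m ∈ F, u ∉ m) ∧ ∀ m ∈ hfin.toFinset, m ∉ F → u ∈ m := by
    intro F
    induction F using Finset.induction_on with
    | empty => intro _; exact ⟨0, by simp, by simp, fun m _ _ => m.zero_mem⟩
    | insert m0 F hm0F ih =>
      intro hsub
      obtain ⟨u, hu, hu1, hu2⟩ := ih (fun m hm => hsub (Finset.mem_insert_of_mem hm))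
      have hm0 : m0 ∈ hfin.toFinset := hsub (Finset.mem_insert_self _ _)
      obtain ⟨s, hs, hsa⟩ := hall m0 hm0
      obtain ⟨e, he, heF⟩ := exists_sep hA.ld hfin.toFinset hall0 m0 (hall0 _ hm0)
      refine ⟨u + s * e, ?_, ?_, ?_⟩
      · rw [mul_add, hu, ← mul_assoc, hsa, zero_mul, add_zero]
      · intro m hm hmem
        rcases Finset.mem_insert.mp hm with rfl | hm'
        · have h1 : u ∈ m := hu2 m hm0 hm0F
          have h2 : s * e ∈ m := by
            have : s * e = (u + s * e) - u := by abel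
            rw [this]
            exact m.sub_mem hmem h1
          rcases hA.ld.prime (hall0 _ hm0) h2 with h | h
          · exact hs h
          · exact he h
        · have hne : m ≠ m0 := by
            rintro rfl
            exact hm0F hm'
          have hmm : m ∈ hfin.toFinset := hsub hm
          have h2 : s * e ∈ m := m.mul_mem_left _ (heF m hmm hne)
          apply hu1 m hm'
          have : u = (u + s * e) - s * e := by abel
          rw [this]
          exact m.sub_mem hmem h2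
      · intro m hm hmF
        rw [Finset.mem_insert, not_or] at hmF
        exact m.add_mem (hu2 m hm hmF.2) (m.mul_mem_left _ (heF m hm hmF.1))
  obtain ⟨u, hu, hu1, -⟩ := key2 hfin.toFinset (Finset.Subset.refl _)
  have hunit : IsUnit u := isUnit_of_forall hA.ld (by
    intro m hm
    exact hu1 m (by rw [Set.Finite.mem_toFinset]; exact hm))
  obtain ⟨w, rfl⟩ := hunit
  exact ha ((Units.mul_left_eq_zero w).mp hu)

lemma NonNil.nontrivial (h : NonNil R) : Nontrivial R := by
  obtain ⟨x, -, hx⟩ := h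
  refine ⟨⟨x, 0, ?_⟩⟩
  rintro rfl
  exact hx ⟨1, by simp⟩

lemma nmax_local (hl : IsLocalRing R) : nmax R = 1 := by
  have : {m : Ideal R | m.IsMaximal} = {nonU hl} := by
    ext m
    rw [Set.mem_setOf_eq, Set.mem_singleton_iff]
    have hle : ∀ m : Ideal R, m ≠ ⊤ → m ≤ nonU hl := by
      intro m hm y hy
      rw [mem_nonU]
      intro hu
      exact hm (Ideal.eq_top_of_isUnit_mem _ hy hu)
    have hne : nonU hl ≠ ⊤ := by
      intro h
      apply (nonU_cprime hl).ne_top
      rw [h]; trivial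
    constructor
    · intro hm
      exact hm.eq_of_le hne (hle m hm.ne_top)
    · rintro rfl
      refine ⟨⟨hne, ?_⟩⟩
      intro b hb
      by_contra hcon
      exact absurd (hle b hcon) (not_le_of_gt hb)
  rw [nmax, this, Set.ncard_singleton]

/-- the localisation at a maximal ideal which is torsion-free on both sides -/
theorem MinCtx.not_both {n : ℕ} (h : MinCtx R n) (hn : 2 ≤ n) (m : Ideal R) (hm : m.IsMaximal)
    (hl : ∀ s, s ∉ m → ∀ a, s * a = 0 → a = 0) (hr : ∀ s, s ∉ m → ∀ a, a * s = 0 → a = 0) :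
    False := by
  have hcp := h.adm.ld.cprime hm
  obtain ⟨L, _, φ, hφ⟩ := exists_loc h.adm.ld hcp hl hr
  have hloc := hφ.isLocal hcp
  obtain ⟨x, hx, hxn⟩ := h.nonnil
  have h1 : NonNil L := by
    refine ⟨φ x, ?_, ?_⟩
    · intro M hM
      by_contra hxM
      have h2 : ¬ IsUnit (φ x) := hφ.nonunit x (hx m hm)
      obtain ⟨d, hd⟩ := exists_inv_mod hM hxM
      have h3 : IsUnit (d * φ x - 1) := by
        by_contra hu
        have h4 : d * φ x ∈ nonU hloc := (nonU hloc).mul_mem_left _ h2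
        apply (nonU_cprime hloc).ne_top
        have : (1 : L) = d * φ x - (d * φ x - 1) := by abel
        rw [this]
        exact (nonU hloc).sub_mem h4 hu
      exact hM.ne_top (Ideal.eq_top_of_isUnit_mem _ hd h3)
    · rintro ⟨k, hk⟩
      apply hxn
      refine ⟨k, ?_⟩
      apply hφ.inj
      rw [map_pow, map_zero]
      exact hk
  have h2 := h.min L φ hφ.isRingEpi h1
  rw [nmax_local hloc] at h2
  omega

/-- the completely prime ideal of right zero divisors -/
def zr (hA : Adm R) (m : Ideal R) (hm : m.IsMaximal)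
    (hl : ∀ s, s ∉ m → ∀ a, s * a = 0 → a = 0) : Ideal R where
  carrier := {z | ∃ b, b ≠ 0 ∧ b * z = 0}
  add_mem' := by
    rintro z z' ⟨b, hb, h⟩ ⟨b', hb', h'⟩
    obtain ⟨s, hs, ⟨c, hc⟩ | ⟨c, hc⟩⟩ := hA.ld.loc (hA.ld.cprime hm) b b'
    · refine ⟨s * b, fun h0 => hb (hl s hs b h0), ?_⟩
      rw [mul_add, mul_assoc, h, mul_zero, zero_add, hc, mul_assoc, h', mul_zero]
    · refine ⟨s * b', fun h0 => hb' (hl s hs b' h0), ?_⟩
      rw [mul_add, mul_assoc s b' z', h', mul_zero, add_zero, hc, mul_assoc, h, mul_zero]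
  zero_mem' := by
    refine ⟨1, ?_, mul_zero _⟩
    intro h
    apply hm.ne_top
    rw [Ideal.eq_top_iff_one, h]
    exact m.zero_mem
  smul_mem' := by
    rintro r z ⟨b, hb, h⟩
    obtain ⟨s, hs, ⟨c, hc⟩ | ⟨c, hc⟩⟩ := hA.ld.loc (hA.ld.cprime hm) r b
    · refine ⟨s, ?_, ?_⟩
      · rintro rfl
        exact hs m.zero_mem
      · rw [smul_eq_mul, ← mul_assoc, hc, mul_assoc, h, mul_zero]
    · refine ⟨c, ?_, ?_⟩
      · rintro rfl
        rw [zero_mul] at hc
        exact hb (hl s hs b hc)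
      · rw [smul_eq_mul, ← mul_assoc, ← hc, mul_assoc, h, mul_zero]

lemma mem_zr (hA : Adm R) (m : Ideal R) (hm : m.IsMaximal)
    (hl : ∀ s, s ∉ m → ∀ a, s * a = 0 → a = 0) (z : R) :
    z ∈ zr hA m hm hl ↔ ∃ b, b ≠ 0 ∧ b * z = 0 := Iff.rfl

lemma zr_cprime (hA : Adm R) (m : Ideal R) (hm : m.IsMaximal)
    (hl : ∀ s, s ∉ m → ∀ a, s * a = 0 → a = 0) : CPrime (zr hA m hm hl) where
  ne_top := by
    rintro ⟨b, hb, h⟩
    rw [mul_one] at h
    exact hb h
  right := by
    rintro z ⟨b, hb, h⟩ r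
    exact ⟨b, hb, by rw [← mul_assoc, h, zero_mul]⟩
  prime := by
    rintro z z' ⟨b, hb, h⟩
    by_cases h0 : b * z = 0
    · exact Or.inl ⟨b, hb, h0⟩
    · exact Or.inr ⟨b * z, h0, by rw [mul_assoc]; exact h⟩

/-- the completely prime ideal of left zero divisors -/
def zl (hA : Adm R) (m : Ideal R) (hm : m.IsMaximal)
    (hr : ∀ s, s ∉ m → ∀ a, a * s = 0 → a = 0) : Ideal R where
  carrier := {z | ∃ b, b ≠ 0 ∧ z * b = 0}
  add_mem' := by
    rintro z z' ⟨b, hb, h⟩ ⟨b', hb', h'⟩
    obtain ⟨s, hs, ⟨c, hc⟩ | ⟨c, hc⟩⟩ := hA.rd.loc (hA.ld.cprime hm) b b'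
    · refine ⟨b * s, fun h0 => hb (hr s hs b h0), ?_⟩
      rw [add_mul, ← mul_assoc, h, zero_mul, zero_add, hc, ← mul_assoc, h', zero_mul]
    · refine ⟨b' * s, fun h0 => hb' (hr s hs b' h0), ?_⟩
      rw [add_mul, ← mul_assoc z' b' s, h', zero_mul, add_zero, hc, ← mul_assoc, h, zero_mul]
  zero_mem' := by
    refine ⟨1, ?_, zero_mul _⟩
    intro h
    apply hm.ne_top
    rw [Ideal.eq_top_iff_one, h]
    exact m.zero_mem
  smul_mem' := by
    rintro r z ⟨b, hb, h⟩
    exact ⟨b, hb, by rw [smul_eq_mul, mul_assoc, h, mul_zero]⟩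

lemma mem_zl (hA : Adm R) (m : Ideal R) (hm : m.IsMaximal)
    (hr : ∀ s, s ∉ m → ∀ a, a * s = 0 → a = 0) (z : R) :
    z ∈ zl hA m hm hr ↔ ∃ b, b ≠ 0 ∧ z * b = 0 := Iff.rfl

lemma zl_cprime (hA : Adm R) (m : Ideal R) (hm : m.IsMaximal)
    (hr : ∀ s, s ∉ m → ∀ a, a * s = 0 → a = 0) : CPrime (zl hA m hm hr) where
  ne_top := by
    rintro ⟨b, hb, h⟩
    rw [one_mul] at h
    exact hb h
  right := by
    rintro z ⟨b, hb, h⟩ r
    obtain ⟨s, hs, ⟨c, hc⟩ | ⟨c, hc⟩⟩ := hA.rd.loc (hA.ld.cprime hm) r b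
    · refine ⟨s, ?_, ?_⟩
      · rintro rfl
        exact hs m.zero_mem
      · rw [mul_assoc, hc, ← mul_assoc, h, zero_mul]
    · refine ⟨c, ?_, ?_⟩
      · rintro rfl
        rw [mul_zero] at hc
        exact hb (hr s hs b hc)
      · rw [mul_assoc, ← hc, ← mul_assoc, h, zero_mul]
  prime := by
    rintro z z' ⟨b, hb, h⟩
    by_cases h0 : z' * b = 0
    · exact Or.inr ⟨b, hb, h0⟩
    · exact Or.inl ⟨z' * b, h0, by rw [← mul_assoc]; exact h⟩

/-- in the minimal situation, a completely prime ideal missing a maximal ideal is maximal -/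
theorem MinCtx.isMaximal {n : ℕ} (h : MinCtx R n) (Z : Ideal R) (hZ : CPrime Z) (m : Ideal R)
    (hm : m.IsMaximal) (hZm : ¬ Z ≤ m) : Z.IsMaximal := by
  classical
  have inst : Z.IsTwoSided := ⟨fun {a} b ha => hZ.right a ha b⟩
  have hfin := h.adm.finite_max
  have hnn : ¬ NonNil (R ⧸ Z) := fun hc => hZm (h.le_max Z hc m hm)
  have hsurj : Function.Surjective (Ideal.Quotient.mk Z) := Ideal.Quotient.mk_surjective
  -- elements of all maximal ideals above `Z` lie in `Z`
  have h1 : ∀ y : R, (∀ m : Ideal R, m.IsMaximal → Z ≤ m → y ∈ m) → y ∈ Z := by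
    intro y hy
    by_contra hyZ
    apply hnn
    refine ⟨Ideal.Quotient.mk Z y, ?_, ?_⟩
    · intro M hM
      have h2 : (Ideal.comap (Ideal.Quotient.mk Z) M).IsMaximal :=
        Ideal.comap_isMaximal_of_surjective _ hsurj
      exact hy _ h2 (by
        intro t ht
        rw [Ideal.mem_comap, Ideal.Quotient.eq_zero_iff_mem.mpr ht]
        exact M.zero_mem)
    · rintro ⟨k, hk⟩
      rw [← map_pow, Ideal.Quotient.eq_zero_iff_mem] at hk
      exact hyZ (hZ.pow_mem hk)
  by_contra hcon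
  have h3 : ∀ F : Finset (Ideal R), (∀ m ∈ F, m.IsMaximal ∧ Z ≤ m) →
      ∃ y : R, y ∉ Z ∧ ∀ m ∈ F, y ∈ m := by
    intro F
    induction F using Finset.induction_on with
    | empty => intro _; exact ⟨1, hZ.ne_top, by simp⟩
    | insert m0 F _ ih =>
      intro hF
      obtain ⟨y, hy, hyF⟩ := ih (fun m hm => hF m (Finset.mem_insert_of_mem hm))
      have h0 := hF m0 (Finset.mem_insert_self _ _)
      have hne : ¬ m0 ≤ Z := by
        intro hle
        apply hcon
        have : Z = m0 := le_antisymm h0.2 hle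
        rw [this]
        exact h0.1
      obtain ⟨z, hz, hzZ⟩ := Set.not_subset.mp hne
      refine ⟨y * z, ?_, ?_⟩
      · intro hmem
        rcases hZ.prime _ _ hmem with h | h
        · exact hy h
        · exact hzZ h
      · intro m hm
        rcases Finset.mem_insert.mp hm with rfl | hm'
        · exact m.mul_mem_left _ hz
        · exact h.adm.ld.twoSided (hF m hm).1 (hyF m hm') _
  obtain ⟨y, hy, hyF⟩ := h3 (hfin.toFinset.filter (fun m => Z ≤ m)) (by
    intro m hm
    rw [Finset.mem_filter, Set.Finite.mem_toFinset] at hm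
    exact hm)
  apply hy
  apply h1
  intro m hm hZm
  apply hyF
  rw [Finset.mem_filter, Set.Finite.mem_toFinset]
  exact ⟨hm, hZm⟩

/-- the two distinguished maximal ideals of a prime ring in the minimal situation -/
structure Two (R : Type u) [Ring R] (Z Z' : Ideal R) : Prop where
  maxZ : Z.IsMaximal
  maxZ' : Z'.IsMaximal
  memZ : ∀ z, z ∈ Z ↔ ∃ b, b ≠ 0 ∧ b * z = 0
  memZ' : ∀ z, z ∈ Z' ↔ ∃ b, b ≠ 0 ∧ z * b = 0
  ne : Z ≠ Z'

theorem MinCtx.two {n : ℕ} (h : MinCtx R n) (hn : 2 ≤ n) (hP : PrimeRing R) :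
    ∃ Z Z' : Ideal R, Two R Z Z' := by
  have hnt := h.nonnil.nontrivial
  obtain ⟨ml, hml, hl⟩ := exists_left_free h.adm hP hnt
  obtain ⟨mr, hmr, hr⟩ := exists_right_free h.adm hP hnt
  have h1 : ¬ zr h.adm ml hml hl ≤ ml := by
    intro hle
    apply h.not_both hn ml hml hl
    intro s hs a ha
    by_contra ha0
    exact hs (hle ⟨a, ha0, ha⟩)
  have h2 : ¬ zl h.adm mr hmr hr ≤ mr := by
    intro hle
    apply h.not_both hn mr hmr (fun s hs a ha => ?_) hr
    by_contra ha0
    exact hs (hle ⟨a, ha0, ha⟩)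
  have h3 := h.isMaximal _ (zr_cprime h.adm ml hml hl) ml hml h1
  have h4 := h.isMaximal _ (zl_cprime h.adm mr hmr hr) mr hmr h2
  refine ⟨_, _, h3, h4, fun z => Iff.rfl, fun z => Iff.rfl, ?_⟩
  intro he
  apply h.not_both hn _ h3
  · intro s hs a ha
    by_contra ha0
    rw [he] at hs
    exact hs ⟨a, ha0, ha⟩
  · intro s hs a ha
    by_contra ha0
    exact hs ⟨a, ha0, ha⟩

end

end Pool.Agent.H86.EndoDist
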