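import Mathlib
import Pool.Agent.H86.EndoDist.SemiRed

set_option autoImplicit false

/-!
Every admissible ring with non-nil radical has an exotic epimorphic image.
-/

namespace Pool.Agent.H86.EndoDist

universe u

section

variable {R : Type u} [Ring R]

/-- the minimal number of maximal ideals is at most two -/
theorem MinCtx.le_two {n : ℕ} (h : MinCtx R n) {Z Z' : Ideal R} (hZ : Two R Z Z') : n ≤ 2 := by
  classical
  have hc := h.adm.ld.cprime hZ.maxZ
  have hc' := h.adm.ld.cprime hZ.maxZ'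
  let S : Submonoid R :=
    { carrier := {s | s ∉ Z ∧ s ∉ Z'}
      one_mem' := ⟨hc.ne_top, hc'.ne_top⟩
      mul_mem' := by
        rintro a b ⟨h1, h2⟩ ⟨h3, h4⟩
        refine ⟨fun hab => ?_, fun hab => ?_⟩
        · rcases hc.prime _ _ hab with h5 | h5
          · exact h1 h5
          · exact h3 h5
        · rcases hc'.prime _ _ hab with h5 | h5
          · exact h2 h5
          · exact h4 h5 }
  have hS : ∀ s, s ∈ S ↔ s ∉ Z ∧ s ∉ Z' := fun _ => Iff.rfl
  have hore : ∀ (a : R), ∀ s ∈ S, ∃ a' s', s' ∈ S ∧ s' * a = a' * s := by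
    intro a s hs
    obtain ⟨c1, s1, hs1, h1⟩ := h.adm.ld.ore hc a s hs.1
    obtain ⟨c2, s2, hs2, h2⟩ := h.adm.ld.ore hc' a s hs.2
    by_cases h3 : s1 ∈ Z'
    · by_cases h4 : s2 ∈ Z
      · refine ⟨c1 + c2, s1 + s2, ⟨?_, ?_⟩, ?_⟩
        · intro h5
          apply hs1
          have : s1 = (s1 + s2) - s2 := by abel
          rw [this]
          exact Z.sub_mem h5 h4
        · intro h5
          apply hs2
          have : s2 = (s1 + s2) - s1 := by abel
          rw [this]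
          exact Z'.sub_mem h5 h3
        · rw [add_mul, add_mul, h1, h2]
      · exact ⟨c2, s2, ⟨h4, hs2⟩, h2⟩
    · exact ⟨c1, s1, ⟨hs1, h3⟩, h1⟩
  obtain ⟨L, _, φ, hinj, hunit, hfrac⟩ := exists_localization S (by
    intro s hs a ha
    by_contra ha0
    exact hs.2 ((hZ.memZ' s).mpr ⟨a, ha0, ha⟩)) (by
    intro s hs a ha
    by_contra ha0
    exact hs.1 ((hZ.memZ s).mpr ⟨a, ha0, ha⟩)) hore
  have hepi : GEpi φ := by
    apply GEpi.of_fractions
    intro r
    obtain ⟨s, hs, a, ha⟩ := hfrac r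
    exact ⟨s, a, hunit s hs, ha⟩
  -- no element of `S` in a proper left ideal
  have hprop : ∀ M : Ideal L, M.IsMaximal → ∀ s ∈ S, φ s ∉ M := by
    intro M hM s hs hmem
    exact hM.ne_top (Ideal.eq_top_of_isUnit_mem _ hmem (hunit s hs))
  have hle : ∀ M : Ideal L, M.IsMaximal → Ideal.comap φ M ≤ Z ∨ Ideal.comap φ M ≤ Z' := by
    intro M hM
    by_contra hcon
    rw [not_or] at hcon
    obtain ⟨u, hu, huZ⟩ := Set.not_subset.mp hcon.1
    obtain ⟨v, hv, hvZ⟩ := Set.not_subset.mp hcon.2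
    have huZ' : u ∈ Z' := by
      by_contra h1
      exact hprop M hM u ⟨huZ, h1⟩ hu
    have hvZ' : v ∈ Z := by
      by_contra h1
      exact hprop M hM v ⟨h1, hvZ⟩ hv
    refine hprop M hM (u + v) ⟨?_, ?_⟩ (Ideal.add_mem _ hu hv)
    · intro h1
      apply huZ
      have : u = (u + v) - v := by abel
      rw [this]
      exact Z.sub_mem h1 hvZ'
    · intro h1
      apply hvZ
      have : v = (u + v) - u := by abel
      rw [this]
      exact Z'.sub_mem h1 huZ'
  have huniq : ∀ P : Ideal R, (∀ s ∈ S, s ∉ P) → ∀ M1 M2 : Ideal L, M1.IsMaximal →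
      M2.IsMaximal → Ideal.comap φ M1 ≤ P → Ideal.comap φ M2 ≤ P → M1 = M2 := by
    intro P hP M1 M2 hM1 hM2 h1 h2
    by_contra hne
    have hsup : M1 ⊔ M2 = ⊤ := by
      apply hM1.out.2
      refine lt_of_le_of_ne le_sup_left ?_
      intro he
      apply hne
      have h3 : M2 ≤ M1 := by rw [he]; exact le_sup_right
      exact (hM2.eq_of_le hM1.ne_top h3).symm
    have h1' : (1 : L) ∈ M1 ⊔ M2 := by rw [hsup]; trivial
    obtain ⟨p, hp, q, hq, hpq⟩ := Submodule.mem_sup.mp h1'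
    obtain ⟨s1, hs1, a, ha⟩ := hfrac p
    obtain ⟨s2, hs2, b, hb⟩ := hfrac q
    obtain ⟨c, s', hs', hc⟩ := hore s2 s1 hs1
    have hca : φ (c * a) ∈ M1 := by
      rw [map_mul, ← ha, ← mul_assoc]
      exact M1.mul_mem_left _ hp
    have hsb : φ (s' * b) ∈ M2 := by
      rw [map_mul, ← hb, ← mul_assoc]
      exact M2.mul_mem_left _ hq
    have h3 : c * a + s' * b = s' * s2 := by
      apply hinj
      rw [map_add, map_mul, map_mul, ← ha, ← hb, ← mul_assoc, ← mul_assoc, ← map_mul, ← map_mul,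
        ← hc, ← mul_add, hpq, mul_one]
    apply hP (s' * s2) (S.mul_mem hs' hs2)
    rw [← h3]
    exact P.add_mem (h1 hca) (h2 hsb)
  have hcard : nmax L ≤ 2 := by
    have h2 : ({Z, Z'} : Set (Ideal R)).ncard ≤ 2 := by
      rw [Set.ncard_pair hZ.ne]
    refine le_trans ?_ h2
    refine Set.ncard_le_ncard_of_injOn
      (fun M => if Ideal.comap φ M ≤ Z then Z else Z') ?_ ?_ (Set.toFinite _)
    · intro M _
      by_cases h3 : Ideal.comap φ M ≤ Z
      · simp [h3]
      · simp [h3]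
    · intro M1 hM1 M2 hM2 h3
      by_cases h4 : Ideal.comap φ M1 ≤ Z
      · by_cases h5 : Ideal.comap φ M2 ≤ Z
        · exact huniq Z (fun s hs => hs.1) M1 M2 hM1 hM2 h4 h5
        · simp only [h4, h5, if_true, if_false] at h3
          exact absurd h3 hZ.ne
      · by_cases h5 : Ideal.comap φ M2 ≤ Z
        · simp only [h4, h5, if_true, if_false] at h3
          exact absurd h3.symm hZ.ne
        · exact huniq Z' (fun s hs => hs.2) M1 M2 hM1 hM2 ((hle M1 hM1).resolve_left h4)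
            ((hle M2 hM2).resolve_left h5)
  refine (h.min L φ hepi ?_).trans hcard
  obtain ⟨x, hx, hxn⟩ := h.nonnil
  refine ⟨φ x, ?_, ?_⟩
  · intro M hM
    by_contra hxM
    obtain ⟨d, hd⟩ := exists_inv_mod hM hxM
    obtain ⟨s, hs, a, ha⟩ := hfrac d
    have h1 : φ (a * x - s) ∈ M := by
      have : φ (a * x - s) = φ s * (d * φ x - 1) := by
        rw [map_sub, map_mul, ← ha]; noncomm_ring
      rw [this]
      exact M.mul_mem_left _ hd
    refine hprop M hM (a * x - s) ⟨?_, ?_⟩ h1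
    · intro h2
      apply hs.1
      have : s = a * x - (a * x - s) := by abel
      rw [this]
      exact Z.sub_mem (Z.mul_mem_left _ (hx Z hZ.maxZ)) h2
    · intro h2
      apply hs.2
      have : s = a * x - (a * x - s) := by abel
      rw [this]
      exact Z'.sub_mem (Z'.mul_mem_left _ (hx Z' hZ.maxZ')) h2
  · rintro ⟨k, hk⟩
    apply hxn
    refine ⟨k, ?_⟩
    apply hinj
    rw [map_pow, map_zero]
    exact hk

/-- torsion modulo nonzero ideals -/
lemma Two.right_tors {Z Z' : Ideal R} (hZ : Two R Z Z') (hA : Adm R) (hP : PrimeRing R)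
    {I : Ideal R} (hI : TS I) (hne : I ≠ ⊥) (z : R) (hz : z ∈ Z) : ∃ s, s ∉ Z ∧ z * s ∈ I := by
  obtain ⟨b, hb, hbz⟩ := (hZ.memZ z).mp hz
  by_contra hcon
  push Not at hcon
  have hc := hA.ld.cprime hZ.maxZ
  have h1 : ∀ i ∈ I, b * i = 0 := by
    intro i hi
    obtain ⟨s, hs, ⟨c, hc⟩ | ⟨c, hc⟩⟩ := hA.rd.loc hc i z
    · by_contra hbi
      apply hs
      rw [hZ.memZ]
      exact ⟨b * i, hbi, by rw [mul_assoc, hc, ← mul_assoc, hbz, zero_mul]⟩
    · exfalso
      apply hcon s hs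
      rw [hc]
      exact hI _ hi _
  apply hne
  rw [eq_bot_iff]
  intro i hi
  rw [Ideal.mem_bot]
  rcases hP b i (fun r => by rw [mul_assoc]; exact h1 _ (I.mul_mem_left _ hi)) with h | h
  · exact absurd h hb
  · exact h

lemma Two.left_tors {Z Z' : Ideal R} (hZ : Two R Z Z') (hA : Adm R) (hP : PrimeRing R)
    {I : Ideal R} (hI : TS I) (hne : I ≠ ⊥) (z : R) (hz : z ∈ Z') : ∃ s, s ∉ Z' ∧ s * z ∈ I := by
  obtain ⟨b, hb, hbz⟩ := (hZ.memZ' z).mp hz
  by_contra hcon
  push Not at hcon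
  have hc := hA.ld.cprime hZ.maxZ'
  have h1 : ∀ i ∈ I, i * b = 0 := by
    intro i hi
    obtain ⟨s, hs, ⟨c, hc⟩ | ⟨c, hc⟩⟩ := hA.ld.loc hc i z
    · by_contra hbi
      apply hs
      rw [hZ.memZ']
      exact ⟨i * b, hbi, by rw [← mul_assoc, hc, mul_assoc, hbz, mul_zero]⟩
    · exfalso
      apply hcon s hs
      rw [hc]
      exact I.mul_mem_left _ hi
  apply hne
  rw [eq_bot_iff]
  intro i hi
  rw [Ideal.mem_bot]
  rcases hP i b (fun r => h1 _ (hI _ hi _)) with h | h
  · exact h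
  · exact absurd h hb

/-- the type switches in proper quotients -/
lemma Two.switch {Z Z' : Ideal R} (hZ : Two R Z Z') (hA : Adm R) (hP : PrimeRing R)
    {S : Type u} [Ring S] (ψ : R →+* S) (hψ : Function.Surjective ψ)
    (hker : ∃ x : R, x ≠ 0 ∧ ψ x = 0) {W W' : Ideal S} (hW : Two S W W') :
    Ideal.comap ψ W ≠ Z := by
  intro he
  have hK : TS (RingHom.ker ψ) := by
    intro y hy r
    rw [RingHom.mem_ker] at hy ⊢
    rw [map_mul, hy, zero_mul]
  have hKne : RingHom.ker ψ ≠ ⊥ := by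
    intro h
    obtain ⟨x, hx, hx0⟩ := hker
    apply hx
    have : x ∈ RingHom.ker ψ := hx0
    rw [h] at this
    exact this
  have hex : ∃ z ∈ Z, ψ z ≠ 0 := by
    by_contra hcon
    push Not at hcon
    have h1 : Ideal.comap ψ W ≤ Ideal.comap ψ W' := by
      rw [he]
      intro z hz
      rw [Ideal.mem_comap, hcon z hz]
      exact W'.zero_mem
    have hm' := hW.maxZ'
    have h2 : (Ideal.comap ψ W').IsMaximal := Ideal.comap_isMaximal_of_surjective _ hψ
    have hm := hW.maxZ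
    have h3 : (Ideal.comap ψ W).IsMaximal := Ideal.comap_isMaximal_of_surjective _ hψ
    have h4 := h3.eq_of_le h2.ne_top h1
    exact hW.ne (Ideal.comap_injective_of_surjective _ hψ h4)
  obtain ⟨z, hz, hz0⟩ := hex
  obtain ⟨s, hs, hzs⟩ := hZ.right_tors hA hP hK hKne z hz
  rw [RingHom.mem_ker, map_mul] at hzs
  apply hs
  rw [← he, Ideal.mem_comap, hW.memZ]
  exact ⟨ψ z, hz0, hzs⟩

lemma MinCtx.max_eq (h : MinCtx R 2) {Z Z' : Ideal R} (hZ : Two R Z Z') (m : Ideal R)
    (hm : m.IsMaximal) : m = Z ∨ m = Z' := by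
  have hfin := h.adm.finite_max
  have h1 : ({Z, Z'} : Set (Ideal R)) ⊆ {m : Ideal R | m.IsMaximal} := by
    intro m hm
    rcases hm with rfl | hm
    · exact hZ.maxZ
    · rw [Set.mem_singleton_iff] at hm
      rw [hm]
      exact hZ.maxZ'
  have h2 : ({Z, Z'} : Set (Ideal R)) = {m : Ideal R | m.IsMaximal} := by
    apply Set.eq_of_subset_of_ncard_le h1 _ hfin
    rw [Set.ncard_pair hZ.ne]
    exact le_of_eq h.card
  have h3 : m ∈ ({Z, Z'} : Set (Ideal R)) := by rw [h2]; exact hm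
  simpa using h3

/-- exotic rings -/
structure Exotic (R : Type u) [Ring R] : Prop where
  prime : PrimeRing R
  ne : ∃ x : R, x ≠ 0 ∧ ∀ m : Ideal R, m.IsMaximal → x ∈ m
  least : ∀ I : Ideal R, TS I → I ≠ ⊥ → ∀ x : R, (∀ m : Ideal R, m.IsMaximal → x ∈ m) → x ∈ I
  finite : {m : Ideal R | m.IsMaximal}.Finite
  card : {m : Ideal R | m.IsMaximal}.ncard ≤ 2

/-- the final step in the case of two maximal ideals -/
theorem MinCtx.exotic (h : MinCtx R 2) (hP : PrimeRing R) {Z Z' : Ideal R} (hZ : Two R Z Z')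
    (hgood : ∀ (I : Ideal R) (_ : I.IsTwoSided), I ≠ ⊥ → ¬ NonNil (R ⧸ I)) : Exotic R := by
  classical
  refine ⟨hP, ?_, ?_, h.adm.finite_max, le_of_eq h.card⟩
  · obtain ⟨x, hx, hxn⟩ := h.nonnil
    refine ⟨x, ?_, hx⟩
    rintro rfl
    exact hxn ⟨1, by simp⟩
  · intro I hI hne x hx
    have inst : I.IsTwoSided := ⟨fun {a} b ha => hI a ha b⟩
    have hsurj : Function.Surjective (Ideal.Quotient.mk I) := Ideal.Quotient.mk_surjective
    have hnn := hgood I inst hne
    have hnil : ∀ y : R ⧸ I, (∀ m : Ideal (R ⧸ I), m.IsMaximal → y ∈ m) → IsNilpotent y := by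
      intro y hy
      by_contra hcon
      exact hnn ⟨y, hy, hcon⟩
    obtain ⟨k, T, _, ⟨e⟩, hT⟩ := (h.adm.of_surjective _ hsurj).product hnil
    rw [← Ideal.Quotient.eq_zero_iff_mem]
    apply e.injective
    rw [map_zero]
    funext i
    let ψ : R →+* T i := ((Pi.evalRingHom T i).comp (e : (R ⧸ I) →+* ∀ i, T i)).comp
      (Ideal.Quotient.mk I)
    have hψ : ∀ r, ψ r = e (Ideal.Quotient.mk I r) i := fun _ => rfl
    have hψs : Function.Surjective ψ := by
      intro y
      obtain ⟨b, hb⟩ := e.surjective (Pi.single i y)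
      obtain ⟨r, rfl⟩ := hsurj b
      refine ⟨r, ?_⟩
      rw [hψ, hb]
      simp
    have hloc := (hT i).isLocal
    have hmaxU : (nonU hloc).IsMaximal := by
      have h1 : nmax (T i) = 1 := nmax_local hloc
      obtain ⟨m, hm⟩ := Set.ncard_eq_one.mp h1
      have h2 : m.IsMaximal := by
        have : m ∈ {m : Ideal (T i) | m.IsMaximal} := by rw [hm]; rfl
        exact this
      have h3 : m ≤ nonU hloc := by
        intro y hy
        rw [mem_nonU]
        intro hu
        exact h2.ne_top (Ideal.eq_top_of_isUnit_mem _ hy hu)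
      have h4 : nonU hloc ≠ ⊤ := by
        intro h5
        apply (nonU_cprime hloc).ne_top
        rw [h5]; trivial
      rw [← h2.eq_of_le h4 h3]
      exact h2
    have hcm : (Ideal.comap ψ (nonU hloc)).IsMaximal :=
      Ideal.comap_isMaximal_of_surjective _ hψs
    show e (Ideal.Quotient.mk I x) i = 0
    rw [← hψ]
    have hunit : ∀ s, s ∉ Ideal.comap ψ (nonU hloc) → IsUnit (ψ s) := by
      intro s hs
      rw [Ideal.mem_comap, mem_nonU, not_not] at hs
      exact hs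
    have hker : ∀ r ∈ I, ψ r = 0 := by
      intro r hr
      rw [hψ, Ideal.Quotient.eq_zero_iff_mem.mpr hr, map_zero]
      rfl
    rcases h.max_eq hZ _ hcm with h1 | h1
    · obtain ⟨s, hs, hxs⟩ := hZ.right_tors h.adm hP hI hne x (hx Z hZ.maxZ)
      rw [← h1] at hs
      obtain ⟨w, hw⟩ := hunit s hs
      have h2 := hker _ hxs
      rw [map_mul, ← hw] at h2
      exact (Units.mul_left_eq_zero w).mp h2
    · obtain ⟨s, hs, hxs⟩ := hZ.left_tors h.adm hP hI hne x (hx Z' hZ.maxZ')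
      rw [← h1] at hs
      obtain ⟨w, hw⟩ := hunit s hs
      have h2 := hker _ hxs
      rw [map_mul, ← hw] at h2
      exact (Units.mul_right_eq_zero w).mp h2

/-- a proper prime quotient, again in the minimal situation -/
lemma MinCtx.quot {n : ℕ} (h : MinCtx R n) (I : Ideal R) [I.IsTwoSided] (hI : NonNil (R ⧸ I)) :
    ∃ (S : Type u) (_ : Ring S) (ψ : R →+* S), Function.Surjective ψ ∧ (∀ x ∈ I, ψ x = 0) ∧
      MinCtx S n ∧ PrimeRing S := by
  have hsurj : Function.Surjective (Ideal.Quotient.mk I) := Ideal.Quotient.mk_surjective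
  obtain ⟨y, hy, hyn⟩ := hI
  obtain ⟨x, rfl⟩ := hsurj y
  obtain ⟨P, inst, hIP, hPP, hnn⟩ := avoid_quot I (fun a ha b => I.mul_mem_right b ha) x (by
    intro k hk
    apply hyn
    refine ⟨k, ?_⟩
    rw [← map_pow]
    exact Ideal.Quotient.eq_zero_iff_mem.mpr hk) (by
    intro m hm hIm
    -- `m / I` is maximal
    have h1 : ((Ideal.map (Ideal.Quotient.mk I) m)).IsMaximal := by
      rcases Ideal.map_eq_top_or_isMaximal_of_surjective (Ideal.Quotient.mk I) hsurj hm with
        h2 | h2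
      · exfalso
        apply hm.ne_top
        rw [Ideal.eq_top_iff_one]
        have h3 : (1 : R ⧸ I) ∈ Ideal.map (Ideal.Quotient.mk I) m := by rw [h2]; trivial
        obtain ⟨t, ht, ht1⟩ := (Ideal.mem_map_iff_of_surjective _ hsurj).mp h3
        have h4 : Ideal.Quotient.mk I t = Ideal.Quotient.mk I 1 := by rw [ht1, map_one]
        rw [Ideal.Quotient.mk_eq_mk_iff_sub_mem] at h4
        have : (1 : R) = t - (t - 1) := by abel
        rw [this]
        exact m.sub_mem ht (hIm h4)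
      · exact h2
    obtain ⟨t, ht, htx⟩ := (Ideal.mem_map_iff_of_surjective _ hsurj).mp (hy _ h1)
    rw [Ideal.Quotient.mk_eq_mk_iff_sub_mem] at htx
    have : x = t - (t - x) := by abel
    rw [this]
    exact m.sub_mem ht (hIm htx))
  refine ⟨R ⧸ P, inferInstance, Ideal.Quotient.mk P, Ideal.Quotient.mk_surjective, ?_, ?_, ?_⟩
  · intro x hx
    exact Ideal.Quotient.eq_zero_iff_mem.mpr (hIP hx)
  · exact h.of_epi _ (GEpi.of_surjective Ideal.Quotient.mk_surjective) hnn
      ((nmax_quot_le h.adm P).trans (le_of_eq h.card))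
  · exact primeRing_quot P hPP

/-- the case of at least two maximal ideals -/
theorem MinCtx.exists_exotic {n : ℕ} (h : MinCtx R n) (hn : 2 ≤ n) :
    ∃ (S : Type u) (_ : Ring S) (φ : R →+* S), GEpi φ ∧ Adm S ∧ Exotic S := by
  classical
  -- make `R` prime
  have h0 : NonNil (R ⧸ (⊥ : Ideal R)) := by
    obtain ⟨x, hx, hxn⟩ := h.nonnil
    have hsurj : Function.Surjective (Ideal.Quotient.mk (⊥ : Ideal R)) :=
      Ideal.Quotient.mk_surjective
    refine ⟨Ideal.Quotient.mk ⊥ x, ?_, ?_⟩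
    · intro m hm
      have h1 : (Ideal.comap (Ideal.Quotient.mk (⊥ : Ideal R)) m).IsMaximal :=
        Ideal.comap_isMaximal_of_surjective _ hsurj
      exact hx _ h1
    · rintro ⟨k, hk⟩
      apply hxn
      refine ⟨k, ?_⟩
      rw [← map_pow, Ideal.Quotient.eq_zero_iff_mem, Ideal.mem_bot] at hk
      exact hk
  obtain ⟨R1, _, ψ1, hψ1, -, h1, hp1⟩ := h.quot ⊥ h0
  obtain ⟨Z1, Z1', hZ1⟩ := h1.two hn hp1
  have hn2 : n = 2 := le_antisymm (h1.le_two hZ1) hn
  subst hn2
  have epi1 := GEpi.of_surjective hψ1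
  by_cases hg1 : ∀ (I : Ideal R1) (_ : I.IsTwoSided), I ≠ ⊥ → ¬ NonNil (R1 ⧸ I)
  · exact ⟨R1, inferInstance, ψ1, epi1, h1.adm, h1.exotic hp1 hZ1 hg1⟩
  push Not at hg1
  obtain ⟨I1, _, hI1, hnn1⟩ := hg1
  obtain ⟨R2, _, ψ2, hψ2, hk2, h2, hp2⟩ := h1.quot I1 hnn1
  obtain ⟨Z2, Z2', hZ2⟩ := h2.two hn hp2
  have epi2 := GEpi.of_surjective hψ2
  have hker1 : ∃ x : R1, x ≠ 0 ∧ ψ2 x = 0 := by
    obtain ⟨x, hx, hx0⟩ := Submodule.exists_mem_ne_zero_of_ne_bot hI1
    exact ⟨x, hx0, hk2 x hx⟩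
  have hsw1 := hZ1.switch h1.adm hp1 ψ2 hψ2 hker1 hZ2
  by_cases hg2 : ∀ (I : Ideal R2) (_ : I.IsTwoSided), I ≠ ⊥ → ¬ NonNil (R2 ⧸ I)
  · exact ⟨R2, inferInstance, ψ2.comp ψ1, epi2.comp epi1, h2.adm, h2.exotic hp2 hZ2 hg2⟩
  push Not at hg2
  obtain ⟨I2, _, hI2, hnn2⟩ := hg2
  obtain ⟨R3, _, ψ3, hψ3, hk3, h3, hp3⟩ := h2.quot I2 hnn2
  obtain ⟨Z3, Z3', hZ3⟩ := h3.two hn hp3
  exfalso
  have hker2 : ∃ x : R2, x ≠ 0 ∧ ψ3 x = 0 := by
    obtain ⟨x, hx, hx0⟩ := Submodule.exists_mem_ne_zero_of_ne_bot hI2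
    exact ⟨x, hx0, hk3 x hx⟩
  have hsw2 := hZ2.switch h2.adm hp2 ψ3 hψ3 hker2 hZ3
  have hsw3 := hZ1.switch h1.adm hp1 (ψ3.comp ψ2) (hψ3.comp hψ2) (by
    obtain ⟨x, hx, hx0⟩ := hker1
    exact ⟨x, hx, by rw [RingHom.comp_apply, hx0, map_zero]⟩) hZ3
  -- maximal ideals
  have mZ2 := hZ2.maxZ
  have mZ2' := hZ2.maxZ'
  have mZ3 := hZ3.maxZ
  have c2 : (Ideal.comap ψ2 Z2).IsMaximal := Ideal.comap_isMaximal_of_surjective _ hψ2
  have c2' : (Ideal.comap ψ2 Z2').IsMaximal := Ideal.comap_isMaximal_of_surjective _ hψ2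
  have c3 : (Ideal.comap ψ3 Z3).IsMaximal := Ideal.comap_isMaximal_of_surjective _ hψ3
  have e2 : Ideal.comap ψ2 Z2 = Z1' := (h1.max_eq hZ1 _ c2).resolve_left hsw1
  have e2' : Ideal.comap ψ2 Z2' = Z1 := by
    rcases h1.max_eq hZ1 _ c2' with h4 | h4
    · exact h4
    · exfalso
      apply hZ2.ne
      apply Ideal.comap_injective_of_surjective _ hψ2
      rw [e2, h4]
  have e3 : Ideal.comap ψ3 Z3 = Z2' := (h2.max_eq hZ2 _ c3).resolve_left hsw2
  apply hsw3
  rw [← Ideal.comap_comap, e3, e2']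

/-- Every admissible ring with non-nil radical has an exotic epimorphic image. -/
theorem Adm.exists_exotic (hA : Adm R) (hn : NonNil R) :
    ∃ (S : Type u) (_ : Ring S) (φ : R →+* S), GEpi φ ∧ Adm S ∧ Exotic S := by
  classical
  have hex : ∃ n, ∃ (S : Type u) (_ : Ring S) (φ : R →+* S), GEpi φ ∧ NonNil S ∧
      nmax S = n := ⟨nmax R, R, inferInstance, RingHom.id R, GEpi.id, hn, rfl⟩
  obtain ⟨S, _, φ, hφ, hS, hcard⟩ := Nat.find_spec hex
  have hmin := fun m (hm : m < Nat.find hex) => Nat.find_min hex hm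
  set n := Nat.find hex with hn'
  have hctx : MinCtx S n := by
    refine ⟨hA.of_epi hφ.epi, hS, hcard, ?_⟩
    intro T _ ψ hψ hT
    by_contra hcon
    push Not at hcon
    exact hmin _ hcon ⟨T, inferInstance, ψ.comp φ, hψ.comp hφ, hT, rfl⟩
  by_cases h2 : 2 ≤ n
  · obtain ⟨T, _, ψ, hψ, hT, hE⟩ := hctx.exists_exotic h2
    exact ⟨T, inferInstance, ψ.comp φ, hψ.comp hφ, hT, hE⟩
  · -- local
    have hnt := hS.nontrivial
    have hfin := hctx.adm.finite_max
    obtain ⟨m0, hm0⟩ := Ideal.exists_maximal S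
    have h1 : nmax S = 1 := by
      have h3 : 0 < nmax S := by
        rw [nmax, Set.ncard_pos hfin]
        exact ⟨m0, hm0⟩
      omega
    obtain ⟨m, hm⟩ := Set.ncard_eq_one.mp h1
    have hmm : ∀ m' : Ideal S, m'.IsMaximal → m' = m := by
      intro m' hm'
      have : m' ∈ {m : Ideal S | m.IsMaximal} := hm'
      rw [hm] at this
      exact this
    have hmax : m.IsMaximal := by
      have := hmm m0 hm0
      rw [← this]
      exact hm0
    have hloc : IsLocalRing S := by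
      refine { isUnit_or_isUnit_of_add_one := ?_ }
      intro a b hab
      by_cases ha : a ∈ m
      · right
        apply isUnit_of_forall hctx.adm.ld
        intro m' hm' hb
        rw [hmm m' hm'] at hb
        apply hmax.ne_top
        rw [Ideal.eq_top_iff_one, ← hab]
        exact m.add_mem ha hb
      · left
        apply isUnit_of_forall hctx.adm.ld
        intro m' hm' ha'
        rw [hmm m' hm'] at ha'
        exact ha ha'
    obtain ⟨x, hx, hxn⟩ := hS
    have hxu : ¬ IsUnit x := by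
      intro hu
      exact hmax.ne_top (Ideal.eq_top_of_isUnit_mem _ (hx m hmax) hu)
    obtain ⟨T, _, ψ, hψ, hT⟩ := hctx.adm.local_reduction hloc x hxu hxn
    have hTA : Adm T := (hA.of_epi hφ.epi).of_epi hψ.epi
    refine ⟨T, inferInstance, ψ.comp φ, hψ.comp hφ, hTA, hT.prime, ?_, ?_, hTA.finite_max, ?_⟩
    · obtain ⟨y, hy, hy0⟩ := hT.ne
      refine ⟨y, hy0, ?_⟩
      intro M hM
      by_contra hyM
      obtain ⟨d, hd⟩ := exists_inv_mod hM hyM
      have h3 : IsUnit (d * y - 1) := by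
        by_contra hu
        have h4 : d * y ∈ nonU hT.loc := (nonU hT.loc).mul_mem_left _ hy
        apply (nonU_cprime hT.loc).ne_top
        have : (1 : T) = d * y - (d * y - 1) := by abel
        rw [this]
        exact (nonU hT.loc).sub_mem h4 hu
      exact hM.ne_top (Ideal.eq_top_of_isUnit_mem _ hd h3)
    · intro I hI hne y hy
      apply hT.least I hI hne y
      intro hu
      have hntT := hT.loc.toNontrivial
      obtain ⟨M, hM⟩ := Ideal.exists_maximal T
      exact hM.ne_top (Ideal.eq_top_of_isUnit_mem _ (hy M hM) hu)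
    · have := nmax_local hT.loc
      rw [nmax] at this
      omega

end

end Pool.Agent.H86.EndoDist
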