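import Mathlib
import Pool.Agent.H86.EndoDist.Exotic

set_option autoImplicit false

/-!
The module `Hom_R(J, T)` for a two-sided ideal `J`.
-/

namespace Pool.Agent.H86.EndoDist

universe u

open scoped Cardinal

section

variable {R : Type u} [Ring R] (J : Ideal R) [J.IsTwoSided] (T : Type u) [AddCommGroup T]
  [Module R T]

/-- `Hom_R(J, T)` -/
def Star : Type u := J →ₗ[R] T

instance : AddCommGroup (Star J T) := inferInstanceAs (AddCommGroup (J →ₗ[R] T))

variable {J T}

namespace Star

/-- evaluation -/
def ev (f : Star J T) (a : J) : T := (show J →ₗ[R] T from f) a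

@[ext] lemma ext {f g : Star J T} (h : ∀ a, f.ev a = g.ev a) : f = g :=
  LinearMap.ext (f := (show J →ₗ[R] T from f)) (g := (show J →ₗ[R] T from g)) h

@[simp] lemma ev_add (f g : Star J T) (a : J) : (f + g).ev a = f.ev a + g.ev a := rfl
@[simp] lemma ev_sub (f g : Star J T) (a : J) : (f - g).ev a = f.ev a - g.ev a := rfl
@[simp] lemma ev_neg (f : Star J T) (a : J) : (-f).ev a = -(f.ev a) := rfl
@[simp] lemma ev_zero (a : J) : (0 : Star J T).ev a = 0 := rfl

lemma ev_add_right (f : Star J T) (a b : J) : f.ev (a + b) = f.ev a + f.ev b :=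
  map_add (show J →ₗ[R] T from f) a b

lemma ev_smul_right (f : Star J T) (r : R) (a : J) : f.ev (r • a) = r • f.ev a :=
  map_smul (show J →ₗ[R] T from f) r a

end Star

/-- right multiplication on `J` -/
def rm (a : J) (r : R) : J := ⟨a.1 * r, J.mul_mem_right r a.2⟩

@[simp] lemma rm_val (a : J) (r : R) : (rm a r).1 = a.1 * r := rfl

lemma rm_one (a : J) : rm a 1 = a := Subtype.ext (mul_one _)

lemma rm_rm (a : J) (r s : R) : rm (rm a r) s = rm a (r * s) := Subtype.ext (mul_assoc _ _ _)

lemma rm_add (a : J) (r s : R) : rm a (r + s) = rm a r + rm a s := Subtype.ext (mul_add _ _ _)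

lemma add_rm (a b : J) (r : R) : rm (a + b) r = rm a r + rm b r := Subtype.ext (add_mul _ _ _)

lemma smul_rm (s : R) (a : J) (r : R) : rm (s • a) r = s • rm a r :=
  Subtype.ext (mul_assoc _ _ _)

lemma rm_zero (a : J) : rm a (0 : R) = 0 := Subtype.ext (mul_zero _)

/-- constructor -/
def Star.mk (f : J → T) (h1 : ∀ a b, f (a + b) = f a + f b) (h2 : ∀ (r : R) a, f (r • a) = r • f a) :
    Star J T := ({ toFun := f, map_add' := h1, map_smul' := h2 } : J →ₗ[R] T)

@[simp] lemma Star.ev_mk (f : J → T) (h1 : ∀ a b, f (a + b) = f a + f b)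
    (h2 : ∀ (r : R) a, f (r • a) = r • f a) (a : J) : (Star.mk f h1 h2).ev a = f a := rfl

instance : Module R (Star J T) where
  smul r f := Star.mk (fun a => f.ev (rm a r))
    (by intro a b; rw [add_rm, Star.ev_add_right])
    (by intro s a; rw [smul_rm, Star.ev_smul_right])
  one_smul f := by
    apply Star.ext
    intro a
    show f.ev (rm a 1) = f.ev a
    rw [rm_one]
  mul_smul r s f := by
    apply Star.ext
    intro a
    show f.ev (rm a (r * s)) = f.ev (rm (rm a r) s)
    rw [rm_rm]
  smul_zero r := by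
    apply Star.ext
    intro a
    rfl
  smul_add r f g := by
    apply Star.ext
    intro a
    rfl
  add_smul r s f := by
    apply Star.ext
    intro a
    show f.ev (rm a (r + s)) = f.ev (rm a r) + f.ev (rm a s)
    rw [rm_add, Star.ev_add_right]
  zero_smul f := by
    apply Star.ext
    intro a
    show f.ev (rm a 0) = 0
    rw [rm_zero]
    exact map_zero (show J →ₗ[R] T from f)

@[simp] lemma Star.ev_smul (r : R) (f : Star J T) (a : J) : (r • f).ev a = f.ev (rm a r) := rfl

/-- the canonical map `T → Hom_R(J, T)` -/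
def iota : T →ₗ[R] Star J T where
  toFun t := Star.mk (fun a => a.1 • t) (by intro a b; exact add_smul _ _ _)
    (by intro r a; exact mul_smul _ _ _)
  map_add' := by
    intro s t
    apply Star.ext
    intro a
    exact smul_add _ _ _
  map_smul' := by
    intro r t
    apply Star.ext
    intro a
    exact (mul_smul a.1 r t).symm

@[simp] lemma ev_iota (t : T) (a : J) : (iota (J := J) t).ev a = a.1 • t := rfl

lemma smul_eq_iota (a : J) (f : Star J T) : a.1 • f = iota (f.ev a) := by
  apply Star.ext
  intro b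
  rw [Star.ev_smul, ev_iota, ← Star.ev_smul_right]
  rfl

/-- functoriality -/
def smap (g : T →ₗ[R] T) : Star J T →ₗ[R] Star J T where
  toFun f := Star.mk (fun a => g (f.ev a)) (by intro a b; rw [Star.ev_add_right, map_add])
    (by intro r a; rw [Star.ev_smul_right, map_smul])
  map_add' := by
    intro f f'
    apply Star.ext
    intro a
    exact map_add g _ _
  map_smul' := by
    intro r f
    apply Star.ext
    intro a
    rfl

@[simp] lemma ev_smap (g : T →ₗ[R] T) (f : Star J T) (a : J) : (smap g f).ev a = g (f.ev a) := rfl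

lemma smap_iota (g : T →ₗ[R] T) (t : T) : smap g (iota (J := J) t) = iota (g t) := by
  apply Star.ext
  intro a
  simp

variable (J T)

/-- the closure of `T` in `Hom_R(J, T)` -/
def cl : Submodule R (Star J T) where
  carrier := {f | ∀ F : Finset J, ∃ t : T, ∀ a ∈ F, f.ev a = a.1 • t}
  add_mem' := by
    intro f g hf hg F
    obtain ⟨t, ht⟩ := hf F
    obtain ⟨s, hs⟩ := hg F
    exact ⟨t + s, fun a ha => by rw [Star.ev_add, ht a ha, hs a ha, smul_add]⟩
  zero_mem' := fun F => ⟨0, fun a _ => by simp⟩
  smul_mem' := by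
    classical
    intro r f hf F
    obtain ⟨t, ht⟩ := hf (F.image (fun a => rm a r))
    refine ⟨r • t, fun a ha => ?_⟩
    rw [Star.ev_smul, ht _ (Finset.mem_image_of_mem _ ha), rm_val, mul_smul]

variable {J T}

lemma mem_cl (f : Star J T) : f ∈ cl J T ↔ ∀ F : Finset J, ∃ t : T, ∀ a ∈ F, f.ev a = a.1 • t :=
  Iff.rfl

lemma iota_mem_cl (t : T) : iota t ∈ cl J T := fun _ => ⟨t, fun _ _ => rfl⟩

lemma smap_mem_cl (g : T →ₗ[R] T) {f : Star J T} (hf : f ∈ cl J T) : smap g f ∈ cl J T := by
  intro F
  obtain ⟨t, ht⟩ := hf F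
  exact ⟨g t, fun a ha => by rw [ev_smap, ht a ha, map_smul]⟩

/-- a null sequence -/
def Null (x : ℕ → Star J T) : Prop := ∀ a : J, ∃ N, ∀ k, N ≤ k → (x k).ev a = 0

open Classical in
/-- the sum of a null sequence over a set of indices -/
noncomputable def ssum (x : ℕ → Star J T) (hx : Null x) (A : Set ℕ) : Star J T :=
  Star.mk (fun a => ∑ k ∈ Finset.range (Classical.choose (hx a)), if k ∈ A then (x k).ev a else 0)
    (by
      intro a b
      have key : ∀ (c : J) (N : ℕ), Classical.choose (hx c) ≤ N →
          ∑ k ∈ Finset.range (Classical.choose (hx c)), (if k ∈ A then (x k).ev c else 0)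
            = ∑ k ∈ Finset.range N, (if k ∈ A then (x k).ev c else 0) := by
        intro c N hN
        refine Finset.sum_subset (Finset.range_mono hN) ?_
        intro k _ hk
        rw [Finset.mem_range, not_lt] at hk
        rw [Classical.choose_spec (hx c) k hk, ite_self]
      set N := Classical.choose (hx a) + Classical.choose (hx b) + Classical.choose (hx (a + b))
      rw [key a N (by omega), key b N (by omega), key (a + b) N (by omega),
        ← Finset.sum_add_distrib]
      refine Finset.sum_congr rfl ?_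
      intro k _
      split_ifs
      · rw [Star.ev_add_right]
      · rw [add_zero])
    (by
      intro r a
      have key : ∀ (c : J) (N : ℕ), Classical.choose (hx c) ≤ N →
          ∑ k ∈ Finset.range (Classical.choose (hx c)), (if k ∈ A then (x k).ev c else 0)
            = ∑ k ∈ Finset.range N, (if k ∈ A then (x k).ev c else 0) := by
        intro c N hN
        refine Finset.sum_subset (Finset.range_mono hN) ?_
        intro k _ hk
        rw [Finset.mem_range, not_lt] at hk
        rw [Classical.choose_spec (hx c) k hk, ite_self]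
      set N := Classical.choose (hx a) + Classical.choose (hx (r • a))
      rw [key a N (by omega), key (r • a) N (by omega), Finset.smul_sum]
      refine Finset.sum_congr rfl ?_
      intro k _
      split_ifs
      · rw [Star.ev_smul_right]
      · rw [smul_zero])

open Classical in
lemma ev_ssum (x : ℕ → Star J T) (hx : Null x) (A : Set ℕ) (a : J) (N : ℕ)
    (hN : ∀ k, N ≤ k → (x k).ev a = 0) :
    (ssum x hx A).ev a = ∑ k ∈ Finset.range N, if k ∈ A then (x k).ev a else 0 := by
  have key : ∀ M M' : ℕ, (∀ k, M ≤ k → (x k).ev a = 0) → M ≤ M' →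
      ∑ k ∈ Finset.range M, (if k ∈ A then (x k).ev a else 0)
        = ∑ k ∈ Finset.range M', (if k ∈ A then (x k).ev a else 0) := by
    intro M M' hM hMM
    refine Finset.sum_subset (Finset.range_mono hMM) ?_
    intro k _ hk
    rw [Finset.mem_range, not_lt] at hk
    rw [hM k hk, ite_self]
  rw [ssum, Star.ev_mk, key _ (Classical.choose (hx a) + N) (Classical.choose_spec (hx a))
    (by omega), ← key N (Classical.choose (hx a) + N) hN (by omega)]

lemma ssum_mem_cl (x : ℕ → Star J T) (hx : Null x) (hxc : ∀ k, x k ∈ cl J T) (A : Set ℕ) :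
    ssum x hx A ∈ cl J T := by
  classical
  intro F
  obtain ⟨N, hN⟩ : ∃ N, ∀ a ∈ F, ∀ k, N ≤ k → (x k).ev a = 0 := by
    induction F using Finset.induction_on with
    | empty => exact ⟨0, by simp⟩
    | insert a F _ ih =>
      obtain ⟨N, hN⟩ := ih
      obtain ⟨M, hM⟩ := hx a
      refine ⟨N + M, ?_⟩
      intro b hb k hk
      rcases Finset.mem_insert.mp hb with rfl | hb
      · exact hM k (by omega)
      · exact hN b hb k (by omega)
  have h1 : (∑ k ∈ Finset.range N, if k ∈ A then x k else 0) ∈ cl J T := by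
    apply Submodule.sum_mem
    intro k _
    split_ifs
    · exact hxc k
    · exact Submodule.zero_mem _
  obtain ⟨t, ht⟩ := h1 F
  refine ⟨t, ?_⟩
  intro a ha
  rw [← ht a ha, ev_ssum x hx A a N (hN a ha)]
  have h2 : ∀ s : Finset ℕ, (∑ k ∈ s, if k ∈ A then x k else 0).ev a
      = ∑ k ∈ s, if k ∈ A then (x k).ev a else 0 := by
    intro s
    induction s using Finset.induction_on with
    | empty => simp
    | insert k s hk ih =>
      rw [Finset.sum_insert hk, Finset.sum_insert hk, Star.ev_add, ih]
      split_ifs <;> simp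
  rw [h2]

/-- the operator `x ↦ g (e x) - c e x` -/
def HH (g : T →ₗ[R] T) (c e : R) : Star J T →+ Star J T where
  toFun x := smap g (e • x) - c • (e • x)
  map_zero' := by simp
  map_add' := by
    intro x y
    simp only [smul_add, map_add]
    abel

lemma HH_apply (g : T →ₗ[R] T) (c e : R) (x : Star J T) :
    HH g c e x = smap g (e • x) - c • (e • x) := rfl

lemma ev_HH (g : T →ₗ[R] T) (c e : R) (x : Star J T) (a : J) :
    (HH g c e x).ev a = g (x.ev (rm a e)) - x.ev (rm a (c * e)) := by
  rw [HH_apply, Star.ev_sub, ev_smap, Star.ev_smul, Star.ev_smul, Star.ev_smul, rm_rm]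

open Classical in
lemma ev_HH_ssum (g : T →ₗ[R] T) (c e : R) (x : ℕ → Star J T) (hx : Null x) (A : Set ℕ) (a : J)
    (N : ℕ) (h1 : ∀ k, N ≤ k → (x k).ev (rm a e) = 0)
    (h2 : ∀ k, N ≤ k → (x k).ev (rm a (c * e)) = 0) :
    (HH g c e (ssum x hx A)).ev a
      = ∑ k ∈ Finset.range N, if k ∈ A then (HH g c e (x k)).ev a else 0 := by
  rw [ev_HH, ev_ssum x hx A _ N h1, ev_ssum x hx A _ N h2, map_sum, ← Finset.sum_sub_distrib]
  refine Finset.sum_congr rfl ?_
  intro k _
  split_ifs
  · rw [ev_HH]
  · rw [map_zero, sub_zero]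

/-- Either `HH` vanishes on a neighbourhood of zero, or it has at least continuum many values. -/
theorem HH_dichotomy [Countable R] (g : T →ₗ[R] T) (c e : R)
    (h : ∀ F : Finset J, ∃ x ∈ cl J T, (∀ a ∈ F, x.ev a = 0) ∧ HH g c e x ≠ 0) :
    Cardinal.continuum.{u} ≤ #((HH g c e) '' (cl J T : Set (Star J T))) := by
  classical
  choose X hXc hXF hXne using h
  have hj : ∀ F : Finset J, ∃ a : J, (HH g c e (X F)).ev a ≠ 0 := by
    intro F
    by_contra hcon
    push Not at hcon
    apply hXne F
    apply Star.ext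
    intro a
    rw [hcon a]
    rfl
  choose jj hjj using hj
  have : Nonempty J := ⟨0⟩
  obtain ⟨a, ha⟩ := exists_surjective_nat J
  let F : ℕ → Finset J := fun n => Nat.rec ∅
    (fun k F => F ∪ {a k, rm (jj F) e, rm (jj F) (c * e)}) n
  have hF0 : F 0 = ∅ := rfl
  have hFs : ∀ n, F (n + 1) = F n ∪ {a n, rm (jj (F n)) e, rm (jj (F n)) (c * e)} := fun _ => rfl
  have hmono : ∀ m n, m ≤ n → F m ⊆ F n := by
    intro m n hmn
    induction n, hmn using Nat.le_induction with
    | base => exact Finset.Subset.refl _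
    | succ n _ ih =>
      rw [hFs]
      exact ih.trans Finset.subset_union_left
  let x : ℕ → Star J T := fun n => X (F n)
  have hx0 : ∀ n b, b ∈ F n → (x n).ev b = 0 := fun n b hb => hXF (F n) b hb
  have hnull : Null x := by
    intro b
    obtain ⟨i, rfl⟩ := ha b
    refine ⟨i + 1, ?_⟩
    intro k hk
    apply hx0
    apply hmono (i + 1) k hk
    rw [hFs]
    simp
  have hl1 : ∀ k l, k < l → (x l).ev (rm (jj (F k)) e) = 0 := by
    intro k l hkl
    apply hx0
    apply hmono (k + 1) l hkl
    rw [hFs]
    simp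
  have hl2 : ∀ k l, k < l → (x l).ev (rm (jj (F k)) (c * e)) = 0 := by
    intro k l hkl
    apply hx0
    apply hmono (k + 1) l hkl
    rw [hFs]
    simp
  let Φ : Set ℕ → Star J T := fun A => HH g c e (ssum x hnull A)
  have hΦ : ∀ A B : Set ℕ, ∀ k, (∀ l < k, l ∈ A ↔ l ∈ B) → k ∈ A → k ∉ B → Φ A ≠ Φ B := by
    intro A B k hlt hA hB he
    have h1 := congrArg (fun f => Star.ev f (jj (F k))) he
    simp only [Φ] at h1
    rw [ev_HH_ssum g c e x hnull A (jj (F k)) (k + 1) (fun l hl => hl1 k l (by omega))
      (fun l hl => hl2 k l (by omega)), ev_HH_ssum g c e x hnull B (jj (F k)) (k + 1)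
      (fun l hl => hl1 k l (by omega)) (fun l hl => hl2 k l (by omega)),
      Finset.sum_range_succ, Finset.sum_range_succ, if_pos hA, if_neg hB, add_zero] at h1
    have h2 : ∑ l ∈ Finset.range k, (if l ∈ A then (HH g c e (x l)).ev (jj (F k)) else 0)
        = ∑ l ∈ Finset.range k, (if l ∈ B then (HH g c e (x l)).ev (jj (F k)) else 0) := by
      refine Finset.sum_congr rfl ?_
      intro l hl
      rw [Finset.mem_range] at hl
      simp only [hlt l hl]
    rw [h2] at h1
    exact hjj (F k) (by simpa using h1)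
  have hinj : Function.Injective Φ := by
    intro A B hAB
    by_contra hne
    have hex : ∃ k, ¬ (k ∈ A ↔ k ∈ B) := by
      by_contra hcon
      push Not at hcon
      exact hne (Set.ext hcon)
    have hk := Nat.find_spec hex
    have hlt : ∀ l < Nat.find hex, l ∈ A ↔ l ∈ B := by
      intro l hl
      have := Nat.find_min hex hl
      rwa [not_not] at this
    by_cases hkA : Nat.find hex ∈ A
    · have hkB : Nat.find hex ∉ B := fun h => hk ⟨fun _ => h, fun _ => hkA⟩
      exact hΦ A B _ hlt hkA hkB hAB
    · have hkB : Nat.find hex ∈ B := by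
        by_contra h
        exact hk ⟨fun h' => absurd h' hkA, fun h' => absurd h' h⟩
      exact hΦ B A _ (fun l hl => (hlt l hl).symm) hkB hkA hAB.symm
  have hcard : Cardinal.continuum.{u} = #(ULift.{u} (Set ℕ)) := by
    rw [Cardinal.mk_uLift, Cardinal.mk_set, Cardinal.mk_nat, Cardinal.two_power_aleph0,
      Cardinal.lift_continuum]
  rw [hcard]
  refine Cardinal.mk_le_of_injective (f := fun A : ULift.{u} (Set ℕ) =>
    (⟨Φ A.down, ⟨ssum x hnull A.down, ssum_mem_cl x hnull (fun k => hXc _) _, rfl⟩⟩ :
      (HH g c e) '' (cl J T : Set (Star J T)))) ?_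
  intro A B hAB
  simp only [Subtype.mk.injEq] at hAB
  exact ULift.ext _ _ (hinj hAB)

end

end Pool.Agent.H86.EndoDist
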