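import Mathlib
import Pool.Agent.H86.EndoDist.StarMod

set_option autoImplicit false

/-!
A diagonal construction of rigid submodules of `Hom_R(J, T)`.
-/

namespace Pool.Agent.H86.EndoDist

universe u

open scoped Cardinal

lemma mk_span_lt {R V : Type u} [Ring R] [Countable R] [AddCommGroup V] [Module R V] (s : Set V)
    (hs : #s < Cardinal.continuum.{u}) : #(Submodule.span R s) < Cardinal.continuum.{u} := by
  classical
  have h1 : #(Submodule.span R s) ≤ #(s →₀ R) := by
    have hsurj : Function.Surjective (fun f : s →₀ R => (⟨Finsupp.linearCombination R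
        ((↑) : s → V) f, by
          rw [Finsupp.mem_span_iff_linearCombination]
          exact ⟨f, rfl⟩⟩ : Submodule.span R s)) := by
      rintro ⟨x, hx⟩
      obtain ⟨f, hf⟩ := (Finsupp.mem_span_iff_linearCombination R s x).mp hx
      exact ⟨f, Subtype.ext hf⟩
    exact Cardinal.mk_le_of_surjective hsurj
  refine lt_of_le_of_lt h1 ?_
  have h2 : #(s →₀ R) ≤ #(Finset (s × R)) := Cardinal.mk_le_of_injective (Finsupp.graph_injective s R)
  refine lt_of_le_of_lt h2 ?_
  have hR : #R < Cardinal.continuum.{u} :=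
    lt_of_le_of_lt (Cardinal.mk_le_aleph0_iff.mpr inferInstance) Cardinal.aleph0_lt_continuum
  have h3 : #(s × R) < Cardinal.continuum.{u} := by
    rw [Cardinal.mk_prod, Cardinal.lift_id, Cardinal.lift_id]
    exact Cardinal.mul_lt_of_lt Cardinal.aleph0_lt_continuum.le hs hR
  by_cases hinf : Infinite (s × R)
  · rw [Cardinal.mk_finset_of_infinite]
    exact h3
  · rw [not_infinite_iff_finite] at hinf
    have : #(Finset (s × R)) < Cardinal.aleph0 := Cardinal.lt_aleph0_of_finite _
    exact this.trans Cardinal.aleph0_lt_continuum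

section

variable {R : Type u} [Ring R] [Countable R] {J : Ideal R} [J.IsTwoSided] {T : Type u}
  [AddCommGroup T] [Module R T] [Countable T]

/-- the standing hypotheses -/
structure Ctx (J : Ideal R) [J.IsTwoSided] (T : Type u) [AddCommGroup T] [Module R T]
    (m : Ideal R) (e : R) : Prop where
  T1 : ∀ t : T, t ∈ J • (⊤ : Submodule R T)
  T2 : ∀ t : T, (∀ a : J, a.1 • t = 0) → t = 0
  mmax : m.IsMaximal
  mright : ∀ x ∈ m, ∀ r, x * r ∈ m
  me : ∀ r ∈ m, r * e ∈ J
  e1 : 1 - e ∈ m
  big : ∀ F : Finset J, ∃ t : T, (∀ a ∈ F, a.1 • t = 0) ∧ e • t ≠ 0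

/-- the image of `T` -/
abbrev NN (J : Ideal R) [J.IsTwoSided] (T : Type u) [AddCommGroup T] [Module R T] :
    Submodule R (Star J T) := LinearMap.range (iota : T →ₗ[R] Star J T)

/-- the part of the closure annihilated by `m` modulo `T` -/
def XX (J : Ideal R) [J.IsTwoSided] (T : Type u) [AddCommGroup T] [Module R T] (m : Ideal R)
    (hm : ∀ x ∈ m, ∀ r, x * r ∈ m) : Submodule R (Star J T) where
  carrier := {x | x ∈ cl J T ∧ ∀ r ∈ m, r • x ∈ NN J T}
  add_mem' := by
    rintro x y ⟨hx, hx'⟩ ⟨hy, hy'⟩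
    refine ⟨Submodule.add_mem _ hx hy, fun r hr => ?_⟩
    rw [smul_add]
    exact Submodule.add_mem _ (hx' r hr) (hy' r hr)
  zero_mem' := ⟨Submodule.zero_mem _, fun r _ => by rw [smul_zero]; exact Submodule.zero_mem _⟩
  smul_mem' := by
    rintro s x ⟨hx, hx'⟩
    refine ⟨Submodule.smul_mem _ _ hx, fun r hr => ?_⟩
    rw [smul_smul]
    exact hx' _ (hm r hr s)

/-- independence modulo `W` -/
def Ind (m : Ideal R) (W : Submodule R (Star J T)) (x y : Star J T) : Prop :=
  ∀ α β : R, α • x + β • y ∈ W → α ∈ m ∧ β ∈ m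

variable {m : Ideal R} {e : R}

namespace Ctx

variable (h : Ctx J T m e)

include h

omit [Countable R] [Countable T] in
lemma iota_inj : Function.Injective (iota : T →ₗ[R] Star J T) := by
  rw [injective_iff_map_eq_zero]
  intro t ht
  apply h.T2
  intro a
  rw [← ev_iota, ht]
  rfl

omit [Countable R] [Countable T] in
lemma N_le_X : NN J T ≤ XX J T m h.mright := by
  rintro _ ⟨t, rfl⟩
  refine ⟨iota_mem_cl t, fun r _ => ?_⟩
  rw [← map_smul]
  exact ⟨_, rfl⟩

omit [Countable R] [Countable T] in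
lemma smul_mem_N (a : R) (ha : a ∈ J) (x : Star J T) : a • x ∈ NN J T := by
  have := smul_eq_iota ⟨a, ha⟩ x
  simp only at this
  rw [this]
  exact ⟨_, rfl⟩

omit [Countable R] [Countable T] in
lemma e_mem {x : Star J T} (hx : x ∈ cl J T) : e • x ∈ XX J T m h.mright := by
  refine ⟨Submodule.smul_mem _ _ hx, fun r hr => ?_⟩
  rw [smul_smul]
  exact h.smul_mem_N _ (h.me r hr) x

omit [Countable R] [Countable T] in
lemma sub_e {x : Star J T} (hx : x ∈ XX J T m h.mright) : x - e • x ∈ NN J T := by
  have : x - e • x = (1 - e) • x := by rw [sub_smul, one_smul]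
  rw [this]
  exact hx.2 _ h.e1

omit [Countable R] [Countable T] in
lemma smap_mem_N (g : T →ₗ[R] T) {x : Star J T} (hx : x ∈ NN J T) : smap g x ∈ NN J T := by
  obtain ⟨t, rfl⟩ := hx
  rw [smap_iota]
  exact ⟨_, rfl⟩

omit [Countable R] [Countable T] in
lemma smap_mem_X (g : T →ₗ[R] T) {x : Star J T} (hx : x ∈ XX J T m h.mright) :
    smap g x ∈ XX J T m h.mright := by
  refine ⟨smap_mem_cl g hx.1, fun r hr => ?_⟩
  rw [← map_smul]
  exact h.smap_mem_N g (hx.2 r hr)

omit [Countable T] in
lemma card_X : Cardinal.continuum.{u} ≤ #(XX J T m h.mright) := by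
  have h1 := HH_dichotomy (J := J) (T := T) (0 : T →ₗ[R] T) (-1) e (by
    intro F
    obtain ⟨t, ht, het⟩ := h.big F
    refine ⟨iota t, iota_mem_cl t, ?_, ?_⟩
    · intro a ha
      rw [ev_iota]
      exact ht a ha
    · rw [HH_apply]
      have h2 : smap (J := J) (0 : T →ₗ[R] T) (e • iota t) = 0 := by
        apply Star.ext
        intro a
        rfl
      rw [h2, neg_smul, one_smul, sub_neg_eq_add, zero_add, ← map_smul]
      intro h3
      apply het
      apply h.iota_inj
      rw [h3, map_zero])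
  refine h1.trans ?_
  apply Cardinal.mk_le_mk_of_subset
  rintro _ ⟨x, hx, rfl⟩
  rw [HH_apply]
  have h2 : smap (J := J) (0 : T →ₗ[R] T) (e • x) = 0 := by
    apply Star.ext
    intro a
    rfl
  rw [h2, neg_smul, one_smul, sub_neg_eq_add, zero_add]
  exact h.e_mem hx

omit [Countable R] in
lemma card_N : #(NN J T) < Cardinal.continuum.{u} := by
  have h1 : Countable (NN J T) := by
    have : Function.Surjective (LinearMap.rangeRestrict (iota : T →ₗ[R] Star J T)) :=
      LinearMap.surjective_rangeRestrict _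
    exact this.countable
  exact lt_of_le_of_lt (Cardinal.mk_le_aleph0_iff.mpr h1) Cardinal.aleph0_lt_continuum

omit [Countable T] in
/-- small submodules do not exhaust `X` -/
lemma exists_not_mem (W : Submodule R (Star J T)) (hW : #W < Cardinal.continuum.{u}) :
    ∃ x ∈ XX J T m h.mright, x ∉ W := by
  by_contra hcon
  push Not at hcon
  have h1 : #(XX J T m h.mright) ≤ #W := Cardinal.mk_le_mk_of_subset hcon
  exact absurd (h.card_X.trans h1) (not_le_of_gt hW)

omit h [Countable T] in
lemma card_sup (W : Submodule R (Star J T)) (hW : #W < Cardinal.continuum.{u}) (w : Star J T) :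
    #(W ⊔ Submodule.span R {w} : Submodule R (Star J T)) < Cardinal.continuum.{u} := by
  have h1 : W ⊔ Submodule.span R {w} = Submodule.span R ((W : Set (Star J T)) ∪ {w}) := by
    rw [Submodule.span_union, Submodule.span_eq]
  rw [h1]
  apply mk_span_lt
  refine lt_of_le_of_lt (Cardinal.mk_union_le _ _) ?_
  apply Cardinal.add_lt_of_lt Cardinal.aleph0_lt_continuum.le hW
  rw [Cardinal.mk_singleton]
  exact Cardinal.nat_lt_continuum 1

omit [Countable R] [Countable T] in
/-- unless `β ∈ m`, one can solve for `y` -/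
lemma solve {W : Submodule R (Star J T)} (hNW : NN J T ≤ W) {x y : Star J T}
    (hy : y ∈ XX J T m h.mright) {α β : R} (hxy : α • x + β • y ∈ W) (hβ : β ∉ m) :
    ∃ c : R, y - c • x ∈ W := by
  obtain ⟨d, hd⟩ := exists_inv_mod h.mmax hβ
  refine ⟨-(d * α), ?_⟩
  have h1 : y - (-(d * α)) • x = d • (α • x + β • y) - (d * β - 1) • y := by
    rw [smul_add, smul_smul, smul_smul, sub_smul, one_smul, neg_smul]
    abel
  rw [h1]
  exact W.sub_mem (W.smul_mem _ hxy) (hNW (hy.2 _ hd))

omit [Countable R] [Countable T] in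
lemma mem_of_smul {W : Submodule R (Star J T)} (hNW : NN J T ≤ W) {x : Star J T}
    (hx : x ∈ XX J T m h.mright) {α : R} (hxW : α • x ∈ W) (hα : α ∉ m) : x ∈ W := by
  obtain ⟨d, hd⟩ := exists_inv_mod h.mmax hα
  have h1 : x = d • (α • x) - (d * α - 1) • x := by
    rw [smul_smul, sub_smul, one_smul]
    abel
  rw [h1]
  exact W.sub_mem (W.smul_mem _ hxW) (hNW (hx.2 _ hd))

omit [Countable R] [Countable T] in
lemma ind_of {W : Submodule R (Star J T)} (hNW : NN J T ≤ W) {x y : Star J T}
    (hx : x ∈ XX J T m h.mright) (hy : y ∈ XX J T m h.mright) (hxW : x ∉ W)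
    (hyW : y ∉ W ⊔ Submodule.span R {x}) : Ind m W x y := by
  intro α β hxy
  have hβ : β ∈ m := by
    by_contra hβ
    obtain ⟨c, hc⟩ := h.solve hNW hy hxy hβ
    apply hyW
    have : y = (y - c • x) + c • x := by abel
    rw [this]
    exact Submodule.add_mem_sup hc (Submodule.smul_mem _ _ (Submodule.mem_span_singleton_self x))
  refine ⟨?_, hβ⟩
  by_contra hα
  apply hxW
  apply h.mem_of_smul hNW hx _ hα
  have : α • x = (α • x + β • y) - β • y := by abel
  rw [this]
  exact W.sub_mem hxy (hNW (hy.2 _ hβ))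

/-- Lemma B: if no vector is good for `g` then `g` is a scalar modulo `N`. -/
theorem scalar_of (g : T →ₗ[R] T) (W : Submodule R (Star J T)) (hNW : NN J T ≤ W)
    (hW : #W < Cardinal.continuum.{u})
    (hg : ∀ w ∈ XX J T m h.mright, ¬ Ind m W w (smap g w)) :
    ∃ c : R, ∀ x ∈ XX J T m h.mright, smap g x - c • x ∈ NN J T := by
  classical
  set X := XX J T m h.mright with hX
  have step : ∀ w ∈ X, w ∉ W → ∃ c : R, smap g w - c • w ∈ W := by
    intro w hw hwW
    by_contra hcon
    push Not at hcon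
    apply hg w hw
    apply h.ind_of hNW hw (h.smap_mem_X g hw) hwW
    intro hmem
    obtain ⟨p, hp, q, hq, hpq⟩ := Submodule.mem_sup.mp hmem
    obtain ⟨c, rfl⟩ := Submodule.mem_span_singleton.mp hq
    apply hcon c
    rw [← hpq, add_sub_cancel_right]
    exact hp
  obtain ⟨w0, hw0, hw0W⟩ := h.exists_not_mem W hW
  obtain ⟨c, hc⟩ := step w0 hw0 hw0W
  have hW0 := card_sup W hW w0
  set W0 := W ⊔ Submodule.span R {w0} with hW0def
  have claim1 : ∀ x ∈ X, x ∉ W0 → smap g x - c • x ∈ W := by
    intro x hx hxW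
    have hxW' : x ∉ W := fun h' => hxW (Submodule.mem_sup_left h')
    have hxw : x + w0 ∉ W := by
      intro h'
      apply hxW
      have : x = (x + w0) - w0 := by abel
      rw [this]
      exact W0.sub_mem (Submodule.mem_sup_left h')
        (Submodule.mem_sup_right (Submodule.mem_span_singleton_self _))
    obtain ⟨d, hd⟩ := step x hx hxW'
    obtain ⟨d', hd'⟩ := step (x + w0) (X.add_mem hx hw0) hxw
    have hind := h.ind_of hNW hw0 hx hw0W hxW
    have h1 : (c - d') • w0 + (d - d') • x ∈ W := by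
      have : (c - d') • w0 + (d - d') • x
          = (smap g (x + w0) - d' • (x + w0)) - (smap g x - d • x) - (smap g w0 - c • w0) := by
        rw [map_add, sub_smul, sub_smul, smul_add]
        abel
      rw [this]
      exact W.sub_mem (W.sub_mem hd' hd) hc
    obtain ⟨h2, h3⟩ := hind _ _ h1
    have h4 : smap g x - c • x = (smap g x - d • x) + ((d - d') - (c - d')) • x := by
      rw [sub_smul, sub_smul, sub_smul]
      abel
    rw [h4]
    exact W.add_mem hd (hNW (hx.2 _ (m.sub_mem h3 h2)))
  obtain ⟨w3, hw3, hw3W⟩ := h.exists_not_mem W0 hW0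
  have claim2 : ∀ x ∈ X, smap g x - c • x ∈ W := by
    intro x hx
    by_cases hxW : x ∈ W0
    · have h1 : x + w3 ∉ W0 := by
        intro h'
        apply hw3W
        have : w3 = (x + w3) - x := by abel
        rw [this]
        exact W0.sub_mem h' hxW
      have h2 := claim1 _ (X.add_mem hx hw3) h1
      have h3 := claim1 _ hw3 hw3W
      have : smap g x - c • x = (smap g (x + w3) - c • (x + w3)) - (smap g w3 - c • w3) := by
        rw [map_add, smul_add]
        abel
      rw [this]
      exact W.sub_mem h2 h3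
    · exact claim1 x hx hxW
  refine ⟨c, ?_⟩
  -- the dichotomy
  have hnot : ¬ ∀ F : Finset J, ∃ x ∈ cl J T, (∀ a ∈ F, x.ev a = 0) ∧ HH g c e x ≠ 0 := by
    intro hcon
    have h1 := HH_dichotomy g c e hcon
    have h2 : #((HH g c e) '' (cl J T : Set (Star J T))) ≤ #W := by
      apply Cardinal.mk_le_mk_of_subset
      rintro _ ⟨x, hx, rfl⟩
      exact claim2 _ (h.e_mem hx)
    exact absurd (h1.trans h2) (not_le_of_gt hW)
  push Not at hnot
  obtain ⟨F, hF⟩ := hnot
  have claim3 : ∀ x ∈ cl J T, HH g c e x ∈ NN J T := by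
    intro x hx
    obtain ⟨t, ht⟩ := hx F
    have h1 := hF (x - iota t) (Submodule.sub_mem _ hx (iota_mem_cl t)) (by
      intro a ha
      rw [Star.ev_sub, ht a ha, ev_iota, sub_self])
    rw [map_sub, sub_eq_zero] at h1
    rw [h1, HH_apply]
    rw [← map_smul, smap_iota, ← map_smul, ← map_sub]
    exact ⟨_, rfl⟩
  intro x hx
  have h1 := h.sub_e hx
  have h2 := claim3 x hx.1
  have h3 : smap g x - c • x = HH g c e x + (smap g (x - e • x) - c • (x - e • x)) := by
    rw [HH_apply, map_sub, smul_sub]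
    abel
  rw [h3]
  exact Submodule.add_mem _ h2 (Submodule.sub_mem _ (h.smap_mem_N g h1)
    (Submodule.smul_mem _ _ h1))

end Ctx

end

end Pool.Agent.H86.EndoDist
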