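import Mathlib
import Pool.Agent.H86.EndoDist.Diag

set_option autoImplicit false

/-!
The transfinite construction.
-/

namespace Pool.Agent.H86.EndoDist

universe u

open scoped Cardinal

section

variable {R : Type u} [Ring R] [Countable R] {J : Ideal R} [J.IsTwoSided] {T : Type u}
  [AddCommGroup T] [Module R T] [Countable T] {m : Ideal R} {e : R}

/-- `g` acts as a scalar modulo `N` -/
def Sc (hm : ∀ x ∈ m, ∀ r, x * r ∈ m) (g : T →ₗ[R] T) : Prop :=
  ∃ c : R, ∀ x ∈ XX J T m hm, smap g x - c • x ∈ NN J T

namespace Ctx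

variable (h : Ctx J T m e)

include h

/-- The rigid submodule. -/
theorem exists_rigid : ∃ U : Submodule R (Star J T), NN J T ≤ U ∧ U ≤ XX J T m h.mright ∧
    (∃ u ∈ U, ∃ v ∈ U, Ind m (NN J T) u v) ∧
    ∀ g : T →ₗ[R] T, (∀ x ∈ U, smap g x ∈ U) → Sc (J := J) h.mright g := by
  classical
  set X := XX J T m h.mright with hX
  -- two initial vectors
  obtain ⟨u, hu, huN⟩ := h.exists_not_mem (NN J T) h.card_N
  obtain ⟨v, hv, hvN⟩ := h.exists_not_mem _ (card_sup (NN J T) h.card_N u)
  have huv := h.ind_of le_rfl hu hv huN hvN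
  -- the index set
  let I : Type u := (Cardinal.continuum.{u}).ord.ToType
  have hI : #I = Cardinal.continuum.{u} := Cardinal.mk_ord_toType _
  have hG : #(T →ₗ[R] T) ≤ #I := by
    rw [hI]
    have h1 : #(T →ₗ[R] T) ≤ #(T → T) := Cardinal.mk_le_of_injective DFunLike.coe_injective
    refine h1.trans ?_
    rw [← Cardinal.power_def]
    have hT : #T ≤ ℵ₀ := Cardinal.mk_le_aleph0_iff.mpr inferInstance
    calc #T ^ #T ≤ ℵ₀ ^ #T := Cardinal.power_le_power_right hT
      _ ≤ ℵ₀ ^ ℵ₀ := Cardinal.power_le_power_left Cardinal.aleph0_ne_zero hT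
      _ = Cardinal.continuum := Cardinal.aleph0_power_aleph0
  obtain ⟨⟨ε, hε⟩⟩ := hG
  let γ : I → (T →ₗ[R] T) := Function.invFun ε
  have hγ : Function.Surjective γ := Function.invFun_surjective hε
  -- base
  let base : Set (Star J T) := (NN J T : Set (Star J T)) ∪ {u, v}
  -- recursion
  let stepW : (i : I) → ((j : I) → j < i → Star J T) → Submodule R (Star J T) := fun i f =>
    Submodule.span R (base ∪ {z | ∃ (j : I) (hj : j < i), z = f j hj ∨ z = smap (γ j) (f j hj)})
  let step : (i : I) → ((j : I) → j < i → Star J T) → Star J T := fun i f =>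
    if hex : ∃ w ∈ X, Ind m (stepW i f) w (smap (γ i) w) then Classical.choose hex else 0
  have hwf : WellFounded ((· < ·) : I → I → Prop) := wellFounded_lt
  let w : I → Star J T := hwf.fix step
  have hw : ∀ i, w i = step i (fun j _ => w j) := fun i => hwf.fix_eq step i
  let WW : I → Submodule R (Star J T) := fun i =>
    Submodule.span R (base ∪ {z | ∃ j < i, z = w j ∨ z = smap (γ j) (w j)})
  have hWW : ∀ i, stepW i (fun j _ => w j) = WW i := by
    intro i
    simp only [stepW, WW]
    congr 2
    ext z
    simp only [Set.mem_setOf_eq, exists_prop]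
  have hNW : ∀ i, NN J T ≤ WW i := by
    intro i x hx
    exact Submodule.subset_span (Or.inl (Or.inl hx))
  have hcardW : ∀ i, #(WW i) < Cardinal.continuum.{u} := by
    intro i
    apply mk_span_lt
    refine lt_of_le_of_lt (Cardinal.mk_union_le _ _) ?_
    apply Cardinal.add_lt_of_lt Cardinal.aleph0_lt_continuum.le
    · refine lt_of_le_of_lt (Cardinal.mk_union_le _ _) ?_
      apply Cardinal.add_lt_of_lt Cardinal.aleph0_lt_continuum.le h.card_N
      have : Countable ({u, v} : Set (Star J T)) := (Set.toFinite _).countable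
      exact lt_of_le_of_lt (Cardinal.mk_le_aleph0_iff.mpr this) Cardinal.aleph0_lt_continuum
    · have h1 : ({z | ∃ j < i, z = w j ∨ z = smap (γ j) (w j)} : Set (Star J T))
          ⊆ (w '' (Set.Iio i)) ∪ ((fun j => smap (γ j) (w j)) '' (Set.Iio i)) := by
        rintro z ⟨j, hj, rfl | rfl⟩
        · exact Or.inl ⟨j, hj, rfl⟩
        · exact Or.inr ⟨j, hj, rfl⟩
      refine lt_of_le_of_lt (Cardinal.mk_le_mk_of_subset h1) ?_
      refine lt_of_le_of_lt (Cardinal.mk_union_le _ _) ?_
      have hIio : #(Set.Iio i) < Cardinal.continuum.{u} := by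
        have := Cardinal.mk_Iio_lt i (by rw [hI]; exact (Ordinal.type_toType _).symm)
        rwa [hI] at this
      apply Cardinal.add_lt_of_lt Cardinal.aleph0_lt_continuum.le
      · exact lt_of_le_of_lt Cardinal.mk_image_le hIio
      · exact lt_of_le_of_lt Cardinal.mk_image_le hIio
  have hwX : ∀ i, w i ∈ X := by
    intro i
    rw [hw]
    simp only [step]
    split_ifs with hex
    · exact (Classical.choose_spec hex).1
    · exact X.zero_mem
  have hwI : ∀ i, ¬ Sc (J := J) h.mright (γ i) → Ind m (WW i) (w i) (smap (γ i) (w i)) := by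
    intro i hi
    have hex : ∃ w' ∈ X, Ind m (stepW i (fun j _ => w j)) w' (smap (γ i) w') := by
      by_contra hcon
      push Not at hcon
      rw [hWW] at hcon
      exact hi (h.scalar_of (γ i) (WW i) (hNW i) (hcardW i) hcon)
    have h1 : w i = Classical.choose hex := by
      rw [hw]
      simp only [step]
      rw [dif_pos hex]
    have h2 := (Classical.choose_spec hex).2
    rw [← h1, hWW] at h2
    exact h2
  have hmemW : ∀ i j, j < i → w j ∈ WW i := fun i j hj =>
    Submodule.subset_span (Or.inr ⟨j, hj, Or.inl rfl⟩)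
  have hmemW' : ∀ i j, j < i → smap (γ j) (w j) ∈ WW i := fun i j hj =>
    Submodule.subset_span (Or.inr ⟨j, hj, Or.inr rfl⟩)
  have hbaseW : ∀ i, base ⊆ WW i := fun i x hx => Submodule.subset_span (Or.inl hx)
  -- the finite stages
  let UU : Finset I → Submodule R (Star J T) := fun s =>
    Submodule.span R (base ∪ {z | ∃ j ∈ s, ¬ Sc (J := J) h.mright (γ j) ∧ z = w j})
  have hUUmono : ∀ s t : Finset I, s ⊆ t → UU s ≤ UU t := by
    intro s t hst
    apply Submodule.span_mono
    apply Set.union_subset_union_right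
    rintro z ⟨j, hj, hz⟩
    exact ⟨j, hst hj, hz⟩
  let U : Submodule R (Star J T) := ⨆ s, UU s
  have hdir : Directed (· ≤ ·) UU := fun s t =>
    ⟨s ∪ t, hUUmono _ _ Finset.subset_union_left, hUUmono _ _ Finset.subset_union_right⟩
  have hmemU : ∀ x, x ∈ U ↔ ∃ s, x ∈ UU s := by
    intro x
    exact Submodule.mem_iSup_of_directed UU hdir
  have hbaseX : base ⊆ X := by
    rintro x (hx | hx)
    · exact h.N_le_X hx
    · rcases hx with rfl | hx
      · exact hu
      · rw [Set.mem_singleton_iff] at hx
        rw [hx]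
        exact hv
  have hNU : NN J T ≤ U := by
    intro x hx
    rw [hmemU]
    exact ⟨∅, Submodule.subset_span (Or.inl (Or.inl hx))⟩
  have hUX : U ≤ X := by
    intro x hx
    rw [hmemU] at hx
    obtain ⟨s, hs⟩ := hx
    refine (Submodule.span_le.mpr ?_ : UU s ≤ X) hs
    rintro z (hz | ⟨j, _, _, rfl⟩)
    · exact hbaseX hz
    · exact hwX j
  -- main claim
  have claim : ∀ i, ¬ Sc (J := J) h.mright (γ i) → ∀ s : Finset I, smap (γ i) (w i) ∉ UU s := by
    intro i hi s
    have h1m : (1 : R) ∉ m := fun h1 => h.mmax.ne_top ((Ideal.eq_top_iff_one _).mpr h1)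
    have hnot : smap (γ i) (w i) ∉ WW i := by
      intro hmem
      have := (hwI i hi 0 1 (by rw [zero_smul, zero_add, one_smul]; exact hmem)).2
      exact h1m this
    have hnot' : ∀ α : R, smap (γ i) (w i) - α • w i ∉ WW i := by
      intro α hmem
      have := (hwI i hi (-α) 1 (by
        rw [one_smul, neg_smul]
        have e1 : -(α • w i) + smap (γ i) (w i) = smap (γ i) (w i) - α • w i := by abel
        rw [e1]
        exact hmem)).2
      exact h1m this
    -- small stages lie in `WW`
    have hUW : ∀ (s : Finset I) (a : I), (∀ j ∈ s, j < a) → UU s ≤ WW a := by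
      intro s a hs
      apply Submodule.span_le.mpr
      rintro z (hz | ⟨j, hj, _, rfl⟩)
      · exact hbaseW a hz
      · exact hmemW a j (hs j hj)
    induction s using Finset.induction_on_max with
    | empty =>
      intro hmem
      exact hnot (hUW ∅ i (by simp) hmem)
    | insert a s hs ih =>
      intro hmem
      -- decompose
      have hdec : ∃ p ∈ UU s, ∃ α : R, smap (γ i) (w i) = p + α • w a := by
        have hle : UU (insert a s) ≤ UU s ⊔ Submodule.span R {w a} := by
          apply Submodule.span_le.mpr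
          rintro z (hz | ⟨j, hj, hj', rfl⟩)
          · exact Submodule.mem_sup_left (Submodule.subset_span (Or.inl hz))
          · rcases Finset.mem_insert.mp hj with rfl | hj
            · exact Submodule.mem_sup_right (Submodule.mem_span_singleton_self _)
            · exact Submodule.mem_sup_left (Submodule.subset_span (Or.inr ⟨j, hj, hj', rfl⟩))
        obtain ⟨p, hp, q, hq, hpq⟩ := Submodule.mem_sup.mp (hle hmem)
        obtain ⟨α, rfl⟩ := Submodule.mem_span_singleton.mp hq
        exact ⟨p, hp, α, hpq.symm⟩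
      by_cases ha : Sc (J := J) h.mright (γ a)
      · -- the new vector is not there
        apply ih
        have hle : UU (insert a s) ≤ UU s := by
          apply Submodule.span_le.mpr
          rintro z (hz | ⟨j, hj, hj', rfl⟩)
          · exact Submodule.subset_span (Or.inl hz)
          · rcases Finset.mem_insert.mp hj with rfl | hj
            · exact absurd ha hj'
            · exact Submodule.subset_span (Or.inr ⟨j, hj, hj', rfl⟩)
        exact hle hmem
      obtain ⟨p, hp, α, hα⟩ := hdec
      rcases lt_trichotomy a i with hai | hai | hai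
      · apply hnot
        rw [hα]
        exact Submodule.add_mem _ (hUW s i (fun j hj => (hs j hj).trans hai) hp)
          (Submodule.smul_mem _ _ (hmemW i a hai))
      · subst hai
        apply hnot' α
        rw [hα, add_sub_cancel_right]
        exact hUW s a hs hp
      · have h1 : α • w a ∈ WW a := by
          have : α • w a = smap (γ i) (w i) - p := by rw [hα]; abel
          rw [this]
          exact Submodule.sub_mem _ (hmemW' a i hai) (hUW s a hs hp)
        have h2 := (hwI a ha α 0 (by rw [zero_smul, add_zero]; exact h1)).1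
        apply ih
        rw [hα]
        exact Submodule.add_mem _ hp (Submodule.subset_span (Or.inl (Or.inl ((hwX a).2 α h2))))
  refine ⟨U, hNU, hUX, ⟨u, ?_, v, ?_, huv⟩, ?_⟩
  · rw [hmemU]
    exact ⟨∅, Submodule.subset_span (Or.inl (Or.inr (Or.inl rfl)))⟩
  · rw [hmemU]
    exact ⟨∅, Submodule.subset_span (Or.inl (Or.inr (Or.inr rfl)))⟩
  · intro g hg
    by_contra hns
    obtain ⟨i, rfl⟩ := hγ g
    have h1 : w i ∈ U := by
      rw [hmemU]
      exact ⟨{i}, Submodule.subset_span (Or.inr ⟨i, Finset.mem_singleton_self i, hns, rfl⟩)⟩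
    have h2 := hg _ h1
    rw [hmemU] at h2
    obtain ⟨s, hs⟩ := h2
    exact claim i hns s hs

/-- In the standing situation the ring is not admissible. -/
theorem not_adm (hA : Adm R) : False := by
  classical
  obtain ⟨U, hNU, hUX, ⟨u, hu, v, hv, huv⟩, hU⟩ := h.exists_rigid
  have hE := hA U
  -- endomorphisms are scalars modulo `N`
  have key : ∀ f : Module.End R U, ∃ c : R, ∀ x : U, (f x).1 - c • x.1 ∈ NN J T := by
    intro f
    -- restriction to `T`
    have hfN : ∀ t : T, (f ⟨iota t, hNU ⟨t, rfl⟩⟩).1 ∈ NN J T := by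
      intro t
      have ht := h.T1 t
      induction ht using Submodule.smul_induction_on' with
      | smul a ha t _ =>
        have e1 : (⟨iota (a • t), hNU ⟨_, rfl⟩⟩ : U) = a • ⟨iota t, hNU ⟨t, rfl⟩⟩ := by
          ext1
          simp
        rw [e1, map_smul]
        exact h.smul_mem_N a ha _
      | add s _ t _ hs ht =>
        have e1 : (⟨iota (s + t), hNU ⟨_, rfl⟩⟩ : U)
            = ⟨iota s, hNU ⟨s, rfl⟩⟩ + ⟨iota t, hNU ⟨t, rfl⟩⟩ := by
          ext1
          simp
        rw [e1, map_add]
        exact Submodule.add_mem _ hs ht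
    choose g0 hg0 using hfN
    have hinj := h.iota_inj
    let g : T →ₗ[R] T :=
      { toFun := g0
        map_add' := by
          intro s t
          apply hinj
          rw [map_add, hg0, hg0, hg0]
          have e1 : (⟨iota (s + t), hNU ⟨_, rfl⟩⟩ : U)
              = ⟨iota s, hNU ⟨s, rfl⟩⟩ + ⟨iota t, hNU ⟨t, rfl⟩⟩ := by
            ext1
            simp
          rw [e1, map_add]
          rfl
        map_smul' := by
          intro r t
          apply hinj
          rw [RingHom.id_apply, map_smul, hg0, hg0]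
          have e1 : (⟨iota (r • t), hNU ⟨_, rfl⟩⟩ : U) = r • ⟨iota t, hNU ⟨t, rfl⟩⟩ := by
            ext1
            simp
          rw [e1, map_smul]
          rfl }
    have hg : ∀ t, iota (g t) = (f ⟨iota t, hNU ⟨t, rfl⟩⟩).1 := hg0
    have hfg : ∀ x : U, (f x).1 = smap g x.1 := by
      intro x
      apply Star.ext
      intro a
      rw [ev_smap]
      apply hinj
      rw [hg, ← smul_eq_iota]
      have e1 : (⟨iota (x.1.ev a), hNU ⟨_, rfl⟩⟩ : U) = a.1 • x := by
        ext1
        exact (smul_eq_iota a x.1).symm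
      rw [e1, map_smul]
      rfl
    obtain ⟨c, hc⟩ := hU g (by
      intro x hx
      rw [← hfg ⟨x, hx⟩]
      exact (f ⟨x, hx⟩).2)
    refine ⟨c, fun x => ?_⟩
    rw [hfg]
    exact hc x.1 (hUX x.2)
  -- the three lines
  let line : Star J T → Submodule (Module.End R U) U := fun z =>
    { carrier := {x | ∃ r : R, x.1 - r • z ∈ NN J T}
      add_mem' := by
        rintro x y ⟨r, hr⟩ ⟨s, hs⟩
        refine ⟨r + s, ?_⟩
        have e1 : (x + y).1 - (r + s) • z = (x.1 - r • z) + (y.1 - s • z) := by
          rw [Submodule.coe_add, add_smul]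
          abel
        rw [e1]
        exact Submodule.add_mem _ hr hs
      zero_mem' := ⟨0, by simp⟩
      smul_mem' := by
        rintro f x ⟨r, hr⟩
        obtain ⟨c, hc⟩ := key f
        refine ⟨c * r, ?_⟩
        have e1 : (f • x).1 - (c * r) • z = ((f x).1 - c • x.1) + c • (x.1 - r • z) := by
          rw [Module.End.smul_def, smul_sub, mul_smul]
          abel
        rw [e1]
        exact Submodule.add_mem _ (hc x) (Submodule.smul_mem _ _ hr) }
  have hline : ∀ z (x : U), x ∈ line z ↔ ∃ r : R, x.1 - r • z ∈ NN J T := fun _ _ => Iff.rfl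
  let uU : U := ⟨u, hu⟩
  let vU : U := ⟨v, hv⟩
  have h1 : uU + vU ∈ line (u + v) ⊓ (line u ⊔ line v) := by
    refine ⟨⟨1, ?_⟩, ?_⟩
    · have : (uU + vU).1 - (1 : R) • (u + v) = 0 := by
        rw [one_smul]
        show (u + v) - (u + v) = 0
        rw [sub_self]
      rw [this]
      exact Submodule.zero_mem _
    · apply Submodule.add_mem_sup
      · exact ⟨1, by rw [one_smul, sub_self]; exact Submodule.zero_mem _⟩
      · exact ⟨1, by rw [one_smul, sub_self]; exact Submodule.zero_mem _⟩
  rw [hE] at h1
  obtain ⟨p, ⟨hp1, hp2⟩, q, ⟨hq1, hq2⟩, hpq⟩ := Submodule.mem_sup.mp h1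
  obtain ⟨a, ha⟩ := (hline _ _).mp hp1
  obtain ⟨b, hb⟩ := (hline _ _).mp hp2
  obtain ⟨a', ha'⟩ := (hline _ _).mp hq1
  obtain ⟨b', hb'⟩ := (hline _ _).mp hq2
  -- `a, a' ∈ m`
  have ham : a ∈ m := by
    have h2 : (a - b) • u + a • v ∈ NN J T := by
      have : (a - b) • u + a • v = (p.1 - b • u) - (p.1 - a • (u + v)) := by
        rw [sub_smul, smul_add]
        abel
      rw [this]
      exact Submodule.sub_mem _ hb ha
    exact (huv _ _ h2).2
  have ham' : a' ∈ m := by
    have h2 : a' • u + (a' - b') • v ∈ NN J T := by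
      have : a' • u + (a' - b') • v = (q.1 - b' • v) - (q.1 - a' • (u + v)) := by
        rw [sub_smul, smul_add]
        abel
      rw [this]
      exact Submodule.sub_mem _ hb' ha'
    exact (huv _ _ h2).1
  have h1m : (1 : R) ∉ m := fun h1 => h.mmax.ne_top ((Ideal.eq_top_iff_one _).mpr h1)
  apply h1m
  have h3 : (1 - a - a') • u + (1 - a - a') • v ∈ NN J T := by
    have e1 : p.1 + q.1 = u + v := congrArg Subtype.val hpq
    have : (1 - a - a') • u + (1 - a - a') • v
        = (p.1 - a • (u + v)) + (q.1 - a' • (u + v)) := by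
      rw [← smul_add, sub_smul, sub_smul, one_smul, ← e1]
      abel
    rw [this]
    exact Submodule.add_mem _ ha ha'
  have h4 := (huv _ _ h3).1
  have : (1 : R) = (1 - a - a') + a + a' := by abel
  rw [this]
  exact m.add_mem (m.add_mem h4 ham) ham'

end Ctx

end

end Pool.Agent.H86.EndoDist
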