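import Mathlib
import Pool.Agent.H86.EndoDist.Rigid

set_option autoImplicit false

/-!
A countable ring with nonzero idempotent Jacobson radical is not admissible.
-/

namespace Pool.Agent.H86.EndoDist

universe u

section

variable {R : Type u} [Ring R]

lemma mem_jacobson (x : R) : x ∈ Ring.jacobson R ↔ ∀ m : Ideal R, m.IsMaximal → x ∈ m := by
  rw [Ring.jacobson_eq_sInf_isMaximal, Submodule.mem_sInf]
  rfl

/-- finitely supported sequences -/
def fsupp (Q : ℕ → Ideal R) : Submodule R (∀ k, QM (Q k)) where
  carrier := {x | ∃ K, ∀ k, K ≤ k → x k = 0}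
  add_mem' := by
    rintro x y ⟨K, hK⟩ ⟨L, hL⟩
    refine ⟨K + L, fun k hk => ?_⟩
    rw [Pi.add_apply, hK k (by omega), hL k (by omega), add_zero]
  zero_mem' := ⟨0, fun k _ => rfl⟩
  smul_mem' := by
    rintro r x ⟨K, hK⟩
    exact ⟨K, fun k hk => by rw [Pi.smul_apply, hK k hk, smul_zero]⟩

instance countable_fsupp [Countable R] (Q : ℕ → Ideal R) : Countable (fsupp Q) := by
  have hQ : ∀ k, Countable (QM (Q k)) := fun k =>
    Function.Surjective.countable (f := qmk (Q k)) (fun x => by
      obtain ⟨t, ht⟩ := qmk_surj (Q k) x
      exact ⟨t, ht.symm⟩)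
  let Φ : (Σ K : ℕ, ∀ k : Fin K, QM (Q k)) → fsupp Q := fun p =>
    ⟨fun k => if h : k < p.1 then p.2 ⟨k, h⟩ else 0, ⟨p.1, fun k hk => dif_neg (by omega)⟩⟩
  have hΦ : Function.Surjective Φ := by
    rintro ⟨x, K, hK⟩
    refine ⟨⟨K, fun k => x k⟩, ?_⟩
    ext1
    funext k
    simp only [Φ]
    split_ifs with h
    · rfl
    · rw [hK k (by omega)]
  exact hΦ.countable

/-- the torsion closure -/
def tcl (J P : Ideal R) [J.IsTwoSided] : Ideal R where
  carrier := {x | ∀ b ∈ J, b * x ∈ P}
  add_mem' := by
    intro x y hx hy b hb
    rw [mul_add]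
    exact P.add_mem (hx b hb) (hy b hb)
  zero_mem' := by
    intro b _
    rw [mul_zero]
    exact P.zero_mem
  smul_mem' := by
    intro r x hx b hb
    rw [smul_eq_mul, ← mul_assoc]
    exact hx _ (J.mul_mem_right r hb)

lemma mem_tcl (J P : Ideal R) [J.IsTwoSided] (x : R) : x ∈ tcl J P ↔ ∀ b ∈ J, b * x ∈ P := Iff.rfl

theorem Adm.no_idempotent_radical [Countable R] (hA : Adm R)
    (hid : ∀ x ∈ Ring.jacobson R, x ∈ (Ring.jacobson R • Ring.jacobson R : Ideal R))
    (hne : ∃ x ∈ Ring.jacobson R, x ≠ 0) : False := by
  classical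
  set J : Ideal R := Ring.jacobson R with hJ
  have hD := hA.ld
  have hfin := hA.finite_max
  have hJm : ∀ x, x ∈ J ↔ ∀ m : Ideal R, m.IsMaximal → x ∈ m := mem_jacobson
  -- `J y ≠ 0` for some `y ∈ J`
  obtain ⟨y, hy, b0, hb0, hby⟩ : ∃ y ∈ J, ∃ b ∈ J, b * y ≠ 0 := by
    by_contra hcon
    push Not at hcon
    obtain ⟨x, hx, hx0⟩ := hne
    apply hx0
    have h1 := hid x hx
    induction h1 using Submodule.smul_induction_on' with
    | smul a ha b hb => exact hcon b hb a ha
    | add s hs t ht hs' ht' =>
      by_cases h2 : s = 0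
      · by_cases h3 : t = 0
        · rw [h2, h3, add_zero]
        · exact absurd (ht' (by
            have : t = s + t := by rw [h2, zero_add]
            rw [this]; exact hx) h3) h3
      · have hsJ : s ∈ J := by
          have : (J • J : Ideal R) ≤ J := by
            intro z hz
            induction hz using Submodule.smul_induction_on' with
            | smul a ha b hb => exact J.mul_mem_left _ hb
            | add s _ t _ hs ht => exact J.add_mem hs ht
          exact this hs
        exact absurd (hs' hsJ h2) h2
  -- enumeration of `J`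
  have : Nonempty J := ⟨0⟩
  obtain ⟨a, ha⟩ := exists_surjective_nat J
  let P : ℕ → Ideal R := fun k => Ideal.span ((fun i => (a i).1 * y) '' (Set.Iic k))
  have hPmono : ∀ k l, k ≤ l → P k ≤ P l := by
    intro k l hkl
    apply Ideal.span_mono
    exact Set.image_mono (Set.Iic_subset_Iic.mpr hkl)
  have haP : ∀ i k, i ≤ k → (a i).1 * y ∈ P k := fun i k hik =>
    Ideal.subset_span ⟨i, hik, rfl⟩
  let Q : ℕ → Ideal R := fun k => tcl J (P k)
  have hQ : ∀ k x, x ∈ Q k ↔ ∀ b ∈ J, b * x ∈ P k := fun _ _ => Iff.rfl
  have hPQ : ∀ k, P k ≤ Q k := by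
    intro k x hx b _
    exact (P k).mul_mem_left _ hx
  -- separating elements
  have hsep : ∀ m : Ideal R, m.IsMaximal → ∃ e : R, 1 - e ∈ m ∧
      ∀ m' : Ideal R, m'.IsMaximal → m' ≠ m → e ∈ m' := by
    intro m hm
    obtain ⟨f, hf, hf'⟩ := exists_sep hD hfin.toFinset (by
      intro m' hm'
      rw [Set.Finite.mem_toFinset] at hm'
      exact hm') m hm
    obtain ⟨d, hd⟩ := exists_inv_mod hm hf
    refine ⟨d * f, ?_, ?_⟩
    · have : 1 - d * f = -(d * f - 1) := by abel
      rw [this]
      exact m.neg_mem hd
    · intro m' hm' hne'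
      exact m'.mul_mem_left _ (hf' m' (by rw [Set.Finite.mem_toFinset]; exact hm') hne')
  choose! E hE1 hE2 using hsep
  -- choice of the maximal ideal
  obtain ⟨m, hm, hmk⟩ : ∃ m : Ideal R, m.IsMaximal ∧ ∀ k, E m * y ∉ Q k := by
    by_contra hcon
    push Not at hcon
    choose! κ hκ using hcon
    let K := hfin.toFinset.sup κ
    have h1 : ∀ m : Ideal R, m.IsMaximal → ∀ b ∈ J, b * (E m * y) ∈ P K := by
      intro m hm b hb
      have hle : κ m ≤ K := Finset.le_sup (f := κ) (by rw [Set.Finite.mem_toFinset]; exact hm)
      exact hPmono _ _ hle (hκ m hm b hb)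
    let U := ∑ m ∈ hfin.toFinset, E m
    have hU : IsUnit U := by
      apply isUnit_of_forall hD
      intro m hm hmem
      have hmf : m ∈ hfin.toFinset := by rw [Set.Finite.mem_toFinset]; exact hm
      have h2 : U = E m + ∑ m' ∈ hfin.toFinset.erase m, E m' :=
        (Finset.add_sum_erase _ _ hmf).symm
      have h3 : ∑ m' ∈ hfin.toFinset.erase m, E m' ∈ m := by
        apply m.sum_mem
        intro m' hm'
        rw [Finset.mem_erase, Set.Finite.mem_toFinset] at hm'
        exact hE2 m' hm'.2 m hm (Ne.symm hm'.1)
      apply hm.ne_top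
      rw [Ideal.eq_top_iff_one]
      have : (1 : R) = (1 - E m) + (U - ∑ m' ∈ hfin.toFinset.erase m, E m') := by
        rw [h2]; abel
      rw [this]
      exact m.add_mem (hE1 m hm) (m.sub_mem hmem h3)
    have h4 : ∀ b ∈ J, b * (U * y) ∈ P K := by
      intro b hb
      rw [Finset.sum_mul, Finset.mul_sum]
      apply (P K).sum_mem
      intro m hm
      rw [Set.Finite.mem_toFinset] at hm
      exact h1 m hm b hb
    obtain ⟨w, hw⟩ := hU
    have h5 : ∀ b ∈ J, b * y ∈ P K := by
      intro b hb
      have h6 := h4 (b * ((w⁻¹ : Rˣ) : R)) (J.mul_mem_right _ hb)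
      rw [← hw, mul_assoc, Units.inv_mul_cancel_left] at h6
      exact h6
    have hfg : (P K).FG := by
      refine ⟨(Finset.range (K + 1)).image (fun i => (a i).1 * y), ?_⟩
      simp only [P]
      congr 1
      ext z
      simp only [Finset.coe_image, Finset.coe_range, Set.mem_image, Set.mem_Iio, Set.mem_Iic,
        Nat.lt_succ_iff]
    have hle : P K ≤ Ring.jacobson R • P K := by
      apply Ideal.span_le.mpr
      rintro _ ⟨i, _, rfl⟩
      have key : ∀ z ∈ (J • J : Ideal R), z * y ∈ Ring.jacobson R • P K := by
        intro z hz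
        induction hz using Submodule.smul_induction_on' with
        | smul b hb c hc =>
          have e1 : (b • c) * y = b • (c * y) := by rw [smul_eq_mul, smul_eq_mul, mul_assoc]
          rw [e1]
          exact Submodule.smul_mem_smul hb (h5 c hc)
        | add s _ t _ hs ht =>
          rw [add_mul]
          exact Submodule.add_mem _ hs ht
      exact key _ (hid (a i).1 (a i).2)
    have h8 := Submodule.FG.eq_bot_of_le_jacobson_smul hfg hle
    have h9 := h5 b0 hb0
    rw [h8, Ideal.mem_bot] at h9
    exact hby h9
  -- the module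
  let T : Submodule R (∀ k, QM (Q k)) := J • fsupp Q
  have hTle : T ≤ fsupp Q := Submodule.smul_le_right
  have hcT : Countable T := by
    have hinj : Function.Injective (Submodule.inclusion hTle) := Submodule.inclusion_injective hTle
    exact hinj.countable
  have ctx : Ctx J T m (E m) := by
    refine ⟨?_, ?_, hm, fun x hx r => hD.twoSided hm hx r, ?_, hE1 m hm, ?_⟩
    · -- T1
      have key : ∀ x (hx : x ∈ T), (⟨x, hx⟩ : T) ∈ J • (⊤ : Submodule R T) := by
        intro x hx
        have hx' : x ∈ J • fsupp Q := hx
        induction hx' using Submodule.smul_induction_on' with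
        | smul b hb f hf =>
          have hb' := hid b hb
          have key2 : ∀ b (hb : b ∈ (J • J : Ideal R)) (hbf : b • f ∈ T),
              (⟨b • f, hbf⟩ : T) ∈ J • (⊤ : Submodule R T) := by
            intro b hb hbf
            induction hb using Submodule.smul_induction_on' with
            | smul c hc d hd =>
              have e1 : (⟨(c • d) • f, hbf⟩ : T) = c • ⟨d • f, Submodule.smul_mem_smul hd hf⟩ := by
                ext1
                exact smul_assoc c d f
              rw [e1]
              exact Submodule.smul_mem_smul hc trivial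
            | add s hs t ht hs' ht' =>
              have hs1 : s • f ∈ T := by
                apply Submodule.smul_mem_smul _ hf
                have : (J • J : Ideal R) ≤ J := Submodule.smul_le_right
                exact this hs
              have ht1 : t • f ∈ T := by
                apply Submodule.smul_mem_smul _ hf
                have : (J • J : Ideal R) ≤ J := Submodule.smul_le_right
                exact this ht
              have e1 : (⟨(s + t) • f, hbf⟩ : T) = ⟨s • f, hs1⟩ + ⟨t • f, ht1⟩ := by
                ext1
                exact add_smul s t f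
              rw [e1]
              exact Submodule.add_mem _ (hs' hs1) (ht' ht1)
          exact key2 b hb' hx
        | add s hs t ht hs' ht' =>
          have e1 : (⟨s + t, hx⟩ : T) = ⟨s, hs⟩ + ⟨t, ht⟩ := rfl
          rw [e1]
          exact Submodule.add_mem _ (hs' hs) (ht' ht)
      rintro ⟨x, hx⟩
      exact key x hx
    · -- T2
      rintro ⟨x, hx⟩ hx0
      ext1
      funext k
      show x k = 0
      obtain ⟨t, ht⟩ := qmk_surj (Q k) (x k)
      have h1 : ∀ b ∈ J, b * t ∈ Q k := by
        intro b hb
        have h2 := congrArg Subtype.val (hx0 ⟨b, hb⟩)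
        have h3 := congrFun h2 k
        have h4 : b • x k = 0 := h3
        rw [ht, smul_qmk, qmk_eq_zero] at h4
        exact h4
      rw [ht, qmk_eq_zero, hQ]
      intro b hb
      have hb' := hid b hb
      induction hb' using Submodule.smul_induction_on' with
      | smul c hc d hd =>
        rw [smul_eq_mul, mul_assoc]
        exact h1 d hd c hc
      | add s hs t' ht' hs1 ht1 =>
        have hsJ : s ∈ J := by
          have : (J • J : Ideal R) ≤ J := Submodule.smul_le_right
          exact this hs
        have htJ : t' ∈ J := by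
          have : (J • J : Ideal R) ≤ J := Submodule.smul_le_right
          exact this ht'
        rw [add_mul]
        exact (P k).add_mem (hs1 hsJ) (ht1 htJ)
    · -- me
      intro r hr
      rw [hJm]
      intro m' hm'
      by_cases h1 : m' = m
      · rw [h1]
        exact hD.twoSided hm hr _
      · exact m'.mul_mem_left _ (hE2 m hm m' hm' h1)
    · -- big
      intro F
      obtain ⟨k, hk⟩ : ∃ k, ∀ b ∈ F, ∃ i ≤ k, a i = b := by
        induction F using Finset.induction_on with
        | empty => exact ⟨0, by simp⟩
        | insert b F _ ih =>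
          obtain ⟨k, hk⟩ := ih
          obtain ⟨i, hi⟩ := ha b
          refine ⟨k + i, ?_⟩
          intro c hc
          rcases Finset.mem_insert.mp hc with rfl | hc
          · exact ⟨i, by omega, hi⟩
          · obtain ⟨j, hj, hjc⟩ := hk c hc
            exact ⟨j, by omega, hjc⟩
      let s : ∀ k, QM (Q k) := Pi.single k (qmk (Q k) 1)
      have hs : s ∈ fsupp Q := by
        refine ⟨k + 1, fun l hl => ?_⟩
        simp only [s]
        rw [Pi.single_eq_of_ne (by omega)]
      refine ⟨⟨y • s, Submodule.smul_mem_smul hy hs⟩, ?_, ?_⟩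
      · intro b hb
        obtain ⟨i, hi, hib⟩ := hk b hb
        ext1
        show b.1 • (y • s) = 0
        funext l
        rw [Pi.smul_apply, Pi.smul_apply, Pi.zero_apply]
        by_cases hl : l = k
        · subst hl
          simp only [s]
          rw [Pi.single_eq_same, smul_qmk, smul_qmk, qmk_eq_zero, mul_one, ← hib]
          exact hPQ _ (haP i l hi)
        · simp only [s]
          rw [Pi.single_eq_of_ne hl, smul_zero, smul_zero]
      · intro h0
        have h1 := congrArg Subtype.val h0
        have h2 := congrFun h1 k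
        have h3 : E m • (y • s k) = 0 := h2
        simp only [s] at h3
        rw [Pi.single_eq_same, smul_qmk, smul_qmk, qmk_eq_zero, mul_one] at h3
        exact hmk k h3
  exact ctx.not_adm hA

/-- Countable exotic rings are not admissible. -/
theorem Exotic.not_adm [Countable R] (h : Exotic R) (hA : Adm R) : False := by
  obtain ⟨x, hx0, hx⟩ := h.ne
  have hxJ : x ∈ Ring.jacobson R := (mem_jacobson x).mpr hx
  apply hA.no_idempotent_radical
  · intro z hz
    apply h.least (Ring.jacobson R • Ring.jacobson R : Ideal R)
    · intro w hw r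
      induction hw using Submodule.smul_induction_on' with
      | smul a ha b hb =>
        have e1 : (a • b) * r = a • (b * r) := by
          rw [show a • b = a * b from rfl, show a • (b * r) = a * (b * r) from rfl, mul_assoc]
        rw [e1]
        exact Submodule.smul_mem_smul ha ((Ring.jacobson R).mul_mem_right r hb)
      | add s _ t _ hs ht =>
        rw [add_mul]
        exact Submodule.add_mem _ hs ht
    · intro h0
      have h1 : ∃ r, x * r * x ≠ 0 := by
        by_contra hcon
        push Not at hcon
        rcases h.prime x x hcon with h2 | h2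
        · exact hx0 h2
        · exact hx0 h2
      obtain ⟨r, hr⟩ := h1
      apply hr
      have h2 : x * r * x ∈ (Ring.jacobson R • Ring.jacobson R : Ideal R) := by
        rw [mul_assoc]
        exact Submodule.smul_mem_smul hxJ ((Ring.jacobson R).mul_mem_left r hxJ)
      rw [h0, Ideal.mem_bot] at h2
      exact h2
    · exact (mem_jacobson z).mp hz
  · exact ⟨x, hxJ, hx0⟩

/-- Countable admissible rings are finite products of Artinian chain rings. -/
theorem Adm.product_of_countable [Countable R] (hA : Adm R) :
    ∃ (n : ℕ) (S : Fin n → Type u) (_ : ∀ i, Ring (S i)),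
      Nonempty (R ≃+* ∀ i, S i) ∧ ∀ i, IsArtinianChainRing (S i) := by
  apply hA.product
  intro x hx
  by_contra hxn
  obtain ⟨S, _, φ, hφ, hS, hE⟩ := hA.exists_exotic ⟨x, hx, hxn⟩
  have := hφ.count inferInstance
  exact hE.not_adm hS

end

end Pool.Agent.H86.EndoDist
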