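import Mathlib
import Pool.Agent.H86.EndoDist.CountableCase

set_option autoImplicit false

/-!
Opposites of Artinian chain rings, and the passage from `Aᵐᵒᵖ` to `A`.
-/

namespace Pool.Agent.H86.EndoDist

universe u

section

variable {R : Type u} [Ring R]

lemma ChainData.nil_of_nonunit {p : R} {n : ℕ} (h : ChainData R p n) {x : R} (hx : ¬ IsUnit x) :
    ∃ m, x ^ m = 0 := by
  obtain ⟨k, w, hw⟩ := h.left x
  have hk : k ≠ 0 := by
    rintro rfl
    apply hx
    rw [hw, pow_zero, mul_one]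
    exact w.isUnit
  obtain ⟨j, rfl⟩ := Nat.exists_eq_succ_of_ne_zero hk
  have hx1 : x = (w * p ^ j) * p := by rw [hw, Nat.succ_eq_add_one, pow_succ, mul_assoc]
  have key : ∀ m, ∃ d, x ^ m = d * p ^ m := by
    intro m
    induction m with
    | zero => exact ⟨1, by simp⟩
    | succ m ih =>
      obtain ⟨d, hd⟩ := ih
      obtain ⟨d', hd'⟩ := h.swap d
      refine ⟨(w * p ^ j) * d', ?_⟩
      rw [pow_succ', hd]
      conv_lhs => rw [hx1]
      rw [mul_assoc (w * p ^ j : R) p, ← mul_assoc p d, hd', mul_assoc d', ← pow_succ',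
        ← mul_assoc]
  obtain ⟨d, hd⟩ := key n
  exact ⟨n, by rw [hd, h.pow_eq, mul_zero]⟩

theorem IsArtinianChainRing.op (h : IsArtinianChainRing R) : IsArtinianChainRing Rᵐᵒᵖ := by
  obtain ⟨p, n, hp⟩ := h.chainData
  have hl := h.isLocal
  have hu : ∀ x : Rᵐᵒᵖ, IsUnit x ↔ IsUnit x.unop := by
    intro x
    exact (isUnit_unop (m := x)).symm
  have hloc : IsLocalRing Rᵐᵒᵖ := by
    have hnt := hl.toNontrivial
    refine { isUnit_or_isUnit_of_add_one := ?_ }
    intro a b hab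
    rw [hu, hu]
    apply hl.isUnit_or_isUnit_of_add_one
    rw [← MulOpposite.unop_add, hab, MulOpposite.unop_one]
  have hL : LocNil Rᵐᵒᵖ := by
    refine ⟨hloc, ?_, ?_, ?_⟩
    · intro x y
      obtain ⟨c, hc | hc⟩ := h.right_chain x.unop y.unop
      · exact ⟨MulOpposite.op c, Or.inl (by rw [← MulOpposite.unop_inj]; exact hc)⟩
      · exact ⟨MulOpposite.op c, Or.inr (by rw [← MulOpposite.unop_inj]; exact hc)⟩
    · intro x y
      obtain ⟨c, hc | hc⟩ := h.left_chain x.unop y.unop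
      · exact ⟨MulOpposite.op c, Or.inl (by rw [← MulOpposite.unop_inj]; exact hc)⟩
      · exact ⟨MulOpposite.op c, Or.inr (by rw [← MulOpposite.unop_inj]; exact hc)⟩
    · intro x hx
      rw [hu] at hx
      obtain ⟨m, hm⟩ := hp.nil_of_nonunit hx
      exact ⟨m, by rw [← MulOpposite.unop_inj, MulOpposite.unop_pow, hm, MulOpposite.unop_zero]⟩
  refine ⟨hloc, ?_, hL.left_chain, hL.right_chain⟩
  apply hL.artinian_of_principal (MulOpposite.op p)
  · rw [hu, MulOpposite.unop_op]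
    rintro ⟨w, hw⟩
    have hnt := hl.toNontrivial
    have h1 := hp.pow_eq
    rw [← hw, ← Units.val_pow_eq_pow_val] at h1
    exact (w ^ n).ne_zero h1
  · intro x hx
    rw [hu] at hx
    obtain ⟨k, w, hw⟩ := hp.right x.unop
    have hk : k ≠ 0 := by
      rintro rfl
      apply hx
      rw [hw, pow_zero, one_mul]
      exact w.isUnit
    obtain ⟨j, rfl⟩ := Nat.exists_eq_succ_of_ne_zero hk
    refine ⟨MulOpposite.op (p ^ j * w), ?_⟩
    rw [← MulOpposite.unop_inj, hw, MulOpposite.unop_mul, MulOpposite.unop_op, MulOpposite.unop_op,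
      ← mul_assoc, ← pow_succ']

/-- `A` is a finite direct product of Artinian chain rings. -/
def IsProdChain (A : Type u) [Ring A] : Prop :=
  ∃ (n : ℕ) (R : Fin n → Type u) (_ : ∀ i, Ring (R i)),
    Nonempty (A ≃+* ∀ i, R i) ∧ ∀ i, IsArtinianChainRing (R i)

theorem IsProdChain.of_op {A : Type u} [Ring A] (h : IsProdChain Aᵐᵒᵖ) : IsProdChain A := by
  obtain ⟨n, R, _, ⟨e⟩, hR⟩ := h
  exact ⟨n, fun i => (R i)ᵐᵒᵖ, inferInstance,
    ⟨(RingEquiv.opOp A).trans ((RingEquiv.op e).trans (RingEquiv.piMulOpposite R))⟩,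
    fun i => (hR i).op⟩

end

end Pool.Agent.H86.EndoDist
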