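import Mathlib
import Pool.Agent.H86.EndoDist.HalfNormal
import Pool.Agent.H86.EndoDist.CountableCase

set_option autoImplicit false

/-!
Admissible rings whose Jacobson radical is finitely generated on one side have nil radical.
-/

namespace Pool.Agent.H86.EndoDist

universe u

section

variable {R : Type u} [Ring R]

lemma isUnit_one_add_of_mem_jacobson {a : R} (ha : a ∈ Ring.jacobson R) : IsUnit (1 + a) := by
  have key : ∀ a ∈ Ring.jacobson R, ∃ z, z * (1 + a) = 1 := by
    intro a ha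
    rw [← Ideal.jacobson_bot, Ideal.mem_jacobson_iff] at ha
    obtain ⟨z, hz⟩ := ha 1
    rw [Ideal.mem_bot, mul_one] at hz
    refine ⟨z, ?_⟩
    rw [mul_add, mul_one]
    have : z * a + z = 1 := sub_eq_zero.mp hz
    rw [← this]; abel
  obtain ⟨z, hz⟩ := key a ha
  have hz' : z = 1 + (- (z * a)) := by
    have : z + z * a = 1 := by rw [← hz]; noncomm_ring
    rw [← this]; abel
  obtain ⟨w, hw⟩ := key (-(z * a)) ((Ring.jacobson R).neg_mem ((Ring.jacobson R).mul_mem_left z ha))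
  rw [← hz'] at hw
  have hwa : w = 1 + a := by
    calc w = w * (z * (1 + a)) := by rw [hz, mul_one]
      _ = 1 + a := by rw [← mul_assoc, hw, one_mul]
  rw [hwa] at hw
  exact ⟨⟨1 + a, z, hw, hz⟩, rfl⟩

lemma mem_jacobson_of_forall_isUnit {a : R} (h : ∀ y, IsUnit (1 + y * a)) :
    a ∈ Ring.jacobson R := by
  rw [← Ideal.jacobson_bot, Ideal.mem_jacobson_iff]
  intro y
  obtain ⟨w, hw⟩ := h y
  refine ⟨(w⁻¹ : Rˣ), ?_⟩
  rw [Ideal.mem_bot]
  have : ((w⁻¹ : Rˣ) : R) * y * a + (w⁻¹ : Rˣ) = (w⁻¹ : Rˣ) * (1 + y * a) := by noncomm_ring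
  rw [this, ← hw, Units.inv_mul, sub_self]

lemma op_mem_jacobson {x : R} (hx : x ∈ Ring.jacobson R) :
    MulOpposite.op x ∈ Ring.jacobson Rᵐᵒᵖ := by
  apply mem_jacobson_of_forall_isUnit
  intro y
  have h1 : IsUnit (1 + x * y.unop) :=
    isUnit_one_add_of_mem_jacobson ((Ring.jacobson R).mul_mem_right _ hx)
  have h2 : MulOpposite.op (1 + x * y.unop) = 1 + y * MulOpposite.op x := by
    rw [MulOpposite.op_add, MulOpposite.op_one, MulOpposite.op_mul, MulOpposite.op_unop]
  rw [← h2]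
  exact isUnit_op.mpr h1

lemma unop_mem_jacobson {x : Rᵐᵒᵖ} (hx : x ∈ Ring.jacobson Rᵐᵒᵖ) :
    x.unop ∈ Ring.jacobson R := by
  apply mem_jacobson_of_forall_isUnit
  intro y
  have h1 : IsUnit (1 + x * MulOpposite.op y) :=
    isUnit_one_add_of_mem_jacobson ((Ring.jacobson Rᵐᵒᵖ).mul_mem_right _ hx)
  have h2 : MulOpposite.unop (1 + x * MulOpposite.op y) = 1 + y * x.unop := by
    rw [MulOpposite.unop_add, MulOpposite.unop_one, MulOpposite.unop_mul, MulOpposite.unop_op]
  rw [← h2]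
  exact isUnit_unop.mpr h1

lemma jacobson_op_iff (x : R) : MulOpposite.op x ∈ Ring.jacobson Rᵐᵒᵖ ↔ x ∈ Ring.jacobson R :=
  ⟨fun h => unop_mem_jacobson h, fun h => op_mem_jacobson h⟩

/-- Nakayama in the form used here -/
lemma nakayama (hfg : (Ring.jacobson R).FG) (p : R)
    (h : ∀ x ∈ Ring.jacobson R, ∃ c, x - c * p ∈ (Ring.jacobson R • Ring.jacobson R : Ideal R)) :
    ∀ x ∈ Ring.jacobson R, ∃ c, x = c * p := by
  let π : R →ₗ[R] QM (Ideal.span {p} : Ideal R) := qmk _
  have h0 : Submodule.map π (Ring.jacobson R) = ⊥ := by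
    apply Submodule.FG.eq_bot_of_le_jacobson_smul (Submodule.FG.map π hfg)
    rw [← Submodule.map_smul'']
    rintro _ ⟨x, hx, rfl⟩
    obtain ⟨c, hc⟩ := h x hx
    refine ⟨x - c * p, hc, ?_⟩
    rw [map_sub]
    have : π (c * p) = 0 := by
      rw [qmk_eq_zero]
      exact Ideal.mul_mem_left _ _ (Ideal.mem_span_singleton_self p)
    rw [this, sub_zero]
  intro x hx
  have h1 : π x ∈ Submodule.map π (Ring.jacobson R) := ⟨x, hx, rfl⟩
  rw [h0, Submodule.mem_bot, qmk_eq_zero, Ideal.mem_span_singleton'] at h1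
  obtain ⟨c, hc⟩ := h1
  exact ⟨c, hc.symm⟩

lemma op_mem_sq {x : R} (hx : x ∈ (Ring.jacobson R • Ring.jacobson R : Ideal R)) :
    MulOpposite.op x ∈ (Ring.jacobson Rᵐᵒᵖ • Ring.jacobson Rᵐᵒᵖ : Ideal Rᵐᵒᵖ) := by
  induction hx using Submodule.smul_induction_on' with
  | smul a ha b hb =>
    rw [show a • b = a * b from rfl, MulOpposite.op_mul]
    exact Submodule.smul_mem_smul (op_mem_jacobson hb) (op_mem_jacobson ha)
  | add s _ t _ hs ht =>
    rw [MulOpposite.op_add]
    exact Submodule.add_mem _ hs ht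

instance sq_twoSided : (Ring.jacobson R • Ring.jacobson R : Ideal R).IsTwoSided := by
  constructor
  intro a b ha
  induction ha using Submodule.smul_induction_on' with
  | smul x hx y hy =>
    rw [show x • y = x * y from rfl, mul_assoc]
    exact Submodule.smul_mem_smul hx ((Ring.jacobson R).mul_mem_right b hy)
  | add s _ t _ hs ht =>
    rw [add_mul]
    exact Submodule.add_mem _ hs ht

lemma sq_le : (Ring.jacobson R • Ring.jacobson R : Ideal R) ≤ Ring.jacobson R := by
  rw [Submodule.smul_le]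
  intro r _ n hn
  exact (Ring.jacobson R).mul_mem_left r hn

/-- modulo its square the radical of an admissible ring is principal on both sides -/
theorem Adm.radical_mod_sq (hA : Adm R) : ∃ p ∈ Ring.jacobson R,
    (∀ x ∈ Ring.jacobson R, ∃ c, x - c * p ∈ (Ring.jacobson R • Ring.jacobson R : Ideal R)) ∧
    (∀ x ∈ Ring.jacobson R, ∃ c, x - p * c ∈ (Ring.jacobson R • Ring.jacobson R : Ideal R)) := by
  classical
  set I : Ideal R := Ring.jacobson R • Ring.jacobson R with hI
  have hQ : Adm (R ⧸ I) := hA.of_surjective (Ideal.Quotient.mk I) Ideal.Quotient.mk_surjective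
  have hlift : ∀ x : R ⧸ I, x ∈ Ring.jacobson (R ⧸ I) →
      ∃ y ∈ Ring.jacobson R, Ideal.Quotient.mk I y = x := by
    intro x hx
    rw [Ring.jacobson_quotient_of_le (I := I) sq_le] at hx
    obtain ⟨y, hy, rfl⟩ := hx
    exact ⟨y, hy, rfl⟩
  have hsq : ∀ x : R ⧸ I, x ∈ Ring.jacobson (R ⧸ I) → x ^ 2 = 0 := by
    intro x hx
    obtain ⟨y, hy, rfl⟩ := hlift x hx
    rw [← map_pow, Ideal.Quotient.eq_zero_iff_mem, pow_two]
    exact Submodule.smul_mem_smul hy hy
  obtain ⟨n, S, _, ⟨e⟩, hS⟩ := hQ.product (fun x hx => ⟨2, hsq x ((mem_jacobson x).mpr hx)⟩)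
  choose p k hp using fun i => (hS i).chainData
  have hnon : ∀ i, ¬ IsUnit (p i) := by
    intro i
    have hnt := (hS i).isLocal.toNontrivial
    rintro ⟨w, hw⟩
    have h1 := (hp i).pow_eq
    rw [← hw, ← Units.val_pow_eq_pow_val] at h1
    exact (w ^ k i).ne_zero h1
  set q : R ⧸ I := e.symm p with hq
  have hqJ : q ∈ Ring.jacobson (R ⧸ I) := by
    rw [mem_jacobson]
    intro m hm
    have hcp := hQ.ld.cprime hm
    have hpow : q ^ (∑ i, k i) = 0 := by
      apply e.injective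
      rw [map_pow, map_zero, hq, RingEquiv.apply_symm_apply]
      funext i
      rw [Pi.pow_apply, Pi.zero_apply]
      have h1 : k i ≤ ∑ i, k i := Finset.single_le_sum (fun _ _ => Nat.zero_le _) (Finset.mem_univ i)
      obtain ⟨j, hj⟩ := Nat.exists_eq_add_of_le h1
      rw [hj, pow_add, (hp i).pow_eq, zero_mul]
    apply hcp.pow_mem (k := ∑ i, k i)
    rw [hpow]
    exact m.zero_mem
  -- every element of the radical is a multiple of `q`
  have hcomp : ∀ x ∈ Ring.jacobson (R ⧸ I), ∀ i, ¬ IsUnit (e x i) := by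
    intro x hx i
    have hnt := (hS i).isLocal.toNontrivial
    rintro ⟨w, hw⟩
    have h1 : (e x i) ^ 2 = 0 := by
      rw [← Pi.pow_apply, ← map_pow, hsq x hx, map_zero, Pi.zero_apply]
    rw [← hw, ← Units.val_pow_eq_pow_val] at h1
    exact (w ^ 2).ne_zero h1
  have hleft : ∀ x ∈ Ring.jacobson (R ⧸ I), ∃ c, x = c * q := by
    intro x hx
    have h1 : ∀ i, ∃ c, e x i = c * p i := by
      intro i
      obtain ⟨j, w, hw⟩ := (hp i).left (e x i)
      have hj : j ≠ 0 := by
        rintro rfl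
        apply hcomp x hx i
        rw [hw, pow_zero, mul_one]
        exact w.isUnit
      obtain ⟨j, rfl⟩ := Nat.exists_eq_succ_of_ne_zero hj
      exact ⟨w * p i ^ j, by rw [hw, Nat.succ_eq_add_one, pow_succ, mul_assoc]⟩
    choose c hc using h1
    refine ⟨e.symm c, ?_⟩
    apply e.injective
    rw [map_mul, hq, RingEquiv.apply_symm_apply, RingEquiv.apply_symm_apply]
    funext i
    exact hc i
  have hright : ∀ x ∈ Ring.jacobson (R ⧸ I), ∃ c, x = q * c := by
    intro x hx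
    have h1 : ∀ i, ∃ c, e x i = p i * c := by
      intro i
      obtain ⟨j, w, hw⟩ := (hp i).right (e x i)
      have hj : j ≠ 0 := by
        rintro rfl
        apply hcomp x hx i
        rw [hw, pow_zero, one_mul]
        exact w.isUnit
      obtain ⟨j, rfl⟩ := Nat.exists_eq_succ_of_ne_zero hj
      exact ⟨p i ^ j * w, by rw [hw, Nat.succ_eq_add_one, pow_succ', mul_assoc]⟩
    choose c hc using h1
    refine ⟨e.symm c, ?_⟩
    apply e.injective
    rw [map_mul, hq, RingEquiv.apply_symm_apply, RingEquiv.apply_symm_apply]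
    funext i
    exact hc i
  have hmap : ∀ x ∈ Ring.jacobson R, Ideal.Quotient.mk I x ∈ Ring.jacobson (R ⧸ I) := by
    intro x hx
    rw [Ring.jacobson_quotient_of_le (I := I) sq_le]
    exact ⟨x, hx, rfl⟩
  obtain ⟨y, hy, hyq⟩ := hlift q hqJ
  refine ⟨y, hy, ?_, ?_⟩
  · intro x hx
    obtain ⟨c, hc⟩ := hleft _ (hmap x hx)
    obtain ⟨c, rfl⟩ := Ideal.Quotient.mk_surjective c
    refine ⟨c, ?_⟩
    rw [← Ideal.Quotient.eq_zero_iff_mem, map_sub, map_mul, hyq, ← hc, sub_self]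
  · intro x hx
    obtain ⟨c, hc⟩ := hright _ (hmap x hx)
    obtain ⟨c, rfl⟩ := Ideal.Quotient.mk_surjective c
    refine ⟨c, ?_⟩
    rw [← Ideal.Quotient.eq_zero_iff_mem, map_sub, map_mul, hyq, ← hc, sub_self]

/-- the radical is nil if it is finitely generated as a left ideal -/
theorem Adm.nil_of_fg_left (hA : Adm R) (hfg : (Ring.jacobson R).FG) (x : R)
    (hx : x ∈ Ring.jacobson R) : IsNilpotent x := by
  obtain ⟨p, hp, h1, _⟩ := hA.radical_mod_sq
  have h2 := nakayama hfg p h1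
  have h3 : ∀ y, ∃ z, p * y = z * p := fun y => h2 _ ((Ring.jacobson R).mul_mem_right y hp)
  obtain ⟨n, hn⟩ := hA.nil_of_right_half ((mem_jacobson p).mp hp) h3
  obtain ⟨c, hc⟩ := h2 x hx
  have key : ∀ m, ∃ d, x ^ m = d * p ^ m := by
    intro m
    induction m with
    | zero => exact ⟨1, by simp⟩
    | succ m ih =>
      obtain ⟨d, hd⟩ := ih
      obtain ⟨d', hd'⟩ := h3 d
      refine ⟨c * d', ?_⟩
      rw [pow_succ', hd]
      conv_lhs => rw [hc]
      rw [mul_assoc c p, ← mul_assoc p d, hd', mul_assoc d', ← pow_succ', ← mul_assoc]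
  obtain ⟨d, hd⟩ := key n
  exact ⟨n, by rw [hd, hn, mul_zero]⟩

/-- the radical is nil if it is finitely generated as a right ideal -/
theorem Adm.nil_of_fg_right (hA : Adm R) (hfg : (Ring.jacobson Rᵐᵒᵖ).FG) (x : R)
    (hx : x ∈ Ring.jacobson R) : IsNilpotent x := by
  obtain ⟨p, hp, _, h1⟩ := hA.radical_mod_sq
  have h2' : ∀ x ∈ Ring.jacobson Rᵐᵒᵖ, ∃ c, x = c * MulOpposite.op p := by
    apply nakayama hfg
    intro x hx
    obtain ⟨c, hc⟩ := h1 _ (unop_mem_jacobson hx)
    refine ⟨MulOpposite.op c, ?_⟩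
    have := op_mem_sq hc
    rwa [MulOpposite.op_sub, MulOpposite.op_mul, MulOpposite.op_unop] at this
  have h2 : ∀ x ∈ Ring.jacobson R, ∃ c, x = p * c := by
    intro x hx
    obtain ⟨c, hc⟩ := h2' _ (op_mem_jacobson hx)
    refine ⟨c.unop, ?_⟩
    have := congrArg MulOpposite.unop hc
    simpa using this
  have h3 : ∀ y, ∃ z, y * p = p * z := fun y => h2 _ ((Ring.jacobson R).mul_mem_left y hp)
  obtain ⟨n, hn⟩ := hA.nil_of_left_half ((mem_jacobson p).mp hp) h3
  obtain ⟨c, hc⟩ := h2 x hx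
  have key : ∀ m, ∃ d, x ^ m = p ^ m * d := by
    intro m
    induction m with
    | zero => exact ⟨1, by simp⟩
    | succ m ih =>
      obtain ⟨d, hd⟩ := ih
      obtain ⟨d', hd'⟩ := h3 d
      refine ⟨d' * c, ?_⟩
      rw [pow_succ, hd]
      conv_lhs => rw [hc]
      rw [← mul_assoc, mul_assoc (p ^ m) d, hd', ← mul_assoc (p ^ m), ← pow_succ, mul_assoc]
  obtain ⟨d, hd⟩ := key n
  exact ⟨n, by rw [hd, hn, zero_mul]⟩

end

end Pool.Agent.H86.EndoDist
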