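import Mathlib
import Pool.Agent.H86.EndoDist.Op
import Pool.Agent.H86.EndoDist.FG

set_option autoImplicit false

/-!
Passage to right modules and final form of the reduction theorem.
-/

namespace Pool.Agent.H86.EndoDist

universe u v

/-- Every right `A`-module `M` (in the universe `v`) is distributive as a left module over its
endomorphism ring: its lattice of `End(M_A)`-submodules is distributive. -/
def RightAdmissible (A : Type u) [Ring A] : Prop :=
  ∀ (M : Type v) [AddCommGroup M] [Module Aᵐᵒᵖ M] (U V W : Submodule (Module.End Aᵐᵒᵖ M) M),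
    U ⊓ (V ⊔ W) = (U ⊓ V) ⊔ (U ⊓ W)

/-- An exotic ring: a prime ring with nonzero Jacobson radical `J`, in which `J` is contained in
every nonzero two-sided ideal, and with at most two maximal left ideals. -/
structure IsExotic (R : Type u) [Ring R] : Prop where
  prime : ∀ a b : R, (∀ r, a * r * b = 0) → a = 0 ∨ b = 0
  radical_ne_bot : Ring.jacobson R ≠ ⊥
  radical_le : ∀ I : Ideal R, I.IsTwoSided → I ≠ ⊥ → Ring.jacobson R ≤ I
  finite_max : {m : Ideal R | m.IsMaximal}.Finite
  card_max : {m : Ideal R | m.IsMaximal}.ncard ≤ 2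

section

variable {R : Type u} [Ring R]

lemma RD.op (h : RD R) : LD Rᵐᵒᵖ := by
  intro x y
  obtain ⟨r, c, d, h1, h2⟩ := h x.unop y.unop
  refine ⟨MulOpposite.op r, MulOpposite.op c, MulOpposite.op d, ?_, ?_⟩
  · rw [← MulOpposite.unop_inj]
    simpa using h1
  · rw [← MulOpposite.unop_inj]
    simpa using h2

lemma Adm.opOp (h : Adm R) : Adm Rᵐᵒᵖᵐᵒᵖ :=
  h.of_surjective (RingEquiv.opOp R : R →+* Rᵐᵒᵖᵐᵒᵖ) (RingEquiv.opOp R).surjective

/-- the ring homomorphism `A → Sᵐᵒᵖ` attached to `Aᵐᵒᵖ → S` -/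
def flipHom {A S : Type u} [Ring A] [Ring S] (φ : Aᵐᵒᵖ →+* S) : A →+* Sᵐᵒᵖ where
  toFun := fun a => MulOpposite.op (φ (MulOpposite.op a))
  map_one' := by simp
  map_mul' := by
    intro x y
    rw [MulOpposite.op_mul, map_mul, MulOpposite.op_mul]
  map_zero' := by simp
  map_add' := by
    intro x y
    rw [MulOpposite.op_add, map_add, MulOpposite.op_add]

lemma IsRingEpi.flip {A S : Type u} [Ring A] [Ring S] {φ : Aᵐᵒᵖ →+* S} (h : IsRingEpi φ) :
    IsRingEpi (flipHom φ) := by
  intro T _ g g' hgg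
  have key : ∀ g : Sᵐᵒᵖ →+* T, ∃ k : S →+* Tᵐᵒᵖ, ∀ s, k s = MulOpposite.op (g (MulOpposite.op s)) := by
    intro g
    refine ⟨{ toFun := fun s => MulOpposite.op (g (MulOpposite.op s))
              map_one' := by simp
              map_mul' := by
                intro x y
                rw [MulOpposite.op_mul, map_mul, MulOpposite.op_mul]
              map_zero' := by simp
              map_add' := by
                intro x y
                rw [MulOpposite.op_add, map_add, MulOpposite.op_add] }, fun s => rfl⟩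
  obtain ⟨k, hk⟩ := key g
  obtain ⟨k', hk'⟩ := key g'
  have hkk : k = k' := by
    apply h
    ext x
    rw [RingHom.comp_apply, RingHom.comp_apply, hk, hk']
    have := congrArg (fun f : A →+* T => f x.unop) hgg
    exact congrArg MulOpposite.op this
  ext x
  have h1 : k x.unop = k' x.unop := by rw [hkk]
  rw [hk, hk'] at h1
  exact MulOpposite.op_injective h1

/-- a two-sided ideal of the opposite ring as an ideal -/
def unopI (I : Ideal Rᵐᵒᵖ) (hI : ∀ y ∈ I, ∀ r, y * r ∈ I) : Ideal R where
  carrier := {s | MulOpposite.op s ∈ I}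
  add_mem' := by
    intro x y hx hy
    simp only [Set.mem_setOf_eq] at *
    rw [MulOpposite.op_add]
    exact I.add_mem hx hy
  zero_mem' := by
    simp
  smul_mem' := by
    intro c x hx
    simp only [Set.mem_setOf_eq] at *
    rw [smul_eq_mul, MulOpposite.op_mul]
    exact hI _ hx _

lemma mem_unopI (I : Ideal Rᵐᵒᵖ) (hI : ∀ y ∈ I, ∀ r, y * r ∈ I) (s : R) :
    s ∈ unopI I hI ↔ MulOpposite.op s ∈ I := Iff.rfl

lemma unopI_max (hR : LD R) (hO : LD Rᵐᵒᵖ) {m : Ideal Rᵐᵒᵖ} (hm : m.IsMaximal) :
    (unopI m (fun _ hy r => hO.twoSided hm hy r)).IsMaximal := by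
  set P := unopI m (fun _ hy r => hO.twoSided hm hy r) with hP
  have hne : P ≠ ⊤ := by
    intro h
    apply hm.ne_top
    rw [Ideal.eq_top_iff_one] at h ⊢
    exact h
  obtain ⟨M, hM, hPM⟩ := Ideal.exists_le_maximal P hne
  have hPM' : P = M := by
    apply le_antisymm hPM
    intro x hx
    by_contra hxP
    obtain ⟨d, hd, _⟩ := hO.inv_mod hm (c := MulOpposite.op x) hxP
    apply hM.ne_top
    rw [Ideal.eq_top_iff_one]
    have h1 : x * d.unop - 1 ∈ M := by
      apply hPM
      rw [hP, mem_unopI]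
      simpa using hd
    have h2 : (1 : R) = x * d.unop - (x * d.unop - 1) := by abel
    rw [h2]
    exact M.sub_mem (hR.twoSided hM hx _) h1
  rw [hPM']
  exact hM

/-- exotic rings pass to the opposite ring -/
theorem Exotic.op (h : Exotic R) (hA : Adm R) : IsExotic Rᵐᵒᵖ := by
  classical
  have hO : LD Rᵐᵒᵖ := hA.rd.op
  let f : Ideal Rᵐᵒᵖ → Ideal R := fun m =>
    if hm : m.IsMaximal then unopI m (fun _ hy r => hO.twoSided hm hy r) else ⊥
  have hf : ∀ m, m.IsMaximal → (f m).IsMaximal ∧ ∀ s, s ∈ f m ↔ MulOpposite.op s ∈ m := by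
    intro m hm
    simp only [f, dif_pos hm]
    exact ⟨unopI_max hA.ld hO hm, fun s => Iff.rfl⟩
  have hmaps : ∀ m ∈ {m : Ideal Rᵐᵒᵖ | m.IsMaximal}, f m ∈ {m : Ideal R | m.IsMaximal} :=
    fun m hm => (hf m hm).1
  have hinj : Set.InjOn f {m : Ideal Rᵐᵒᵖ | m.IsMaximal} := by
    intro m hm m' hm' hmm
    ext x
    have h1 := (hf m hm).2 x.unop
    have h2 := (hf m' hm').2 x.unop
    rw [hmm, h2] at h1
    exact h1.symm
  refine ⟨?_, ?_, ?_, ?_, ?_⟩
  · intro a b hab
    rcases h.prime b.unop a.unop (fun r => by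
      have := congrArg MulOpposite.unop (hab (MulOpposite.op r))
      simpa [mul_assoc] using this) with h1 | h1
    · right
      rw [← MulOpposite.unop_inj]; exact h1
    · left
      rw [← MulOpposite.unop_inj]; exact h1
  · obtain ⟨x, hx0, hx⟩ := h.ne
    intro hbot
    have h1 : MulOpposite.op x ∈ Ring.jacobson Rᵐᵒᵖ := op_mem_jacobson ((mem_jacobson x).mpr hx)
    rw [hbot, Submodule.mem_bot] at h1
    apply hx0
    rw [← MulOpposite.op_inj]
    exact h1
  · intro I hI hne x hx
    have hI' : ∀ y ∈ I, ∀ r, y * r ∈ I := fun y hy r => I.mul_mem_right r hy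
    have h1 : unopI I hI' ≠ ⊥ := by
      intro hbot
      apply hne
      rw [Submodule.eq_bot_iff]
      intro y hy
      have h2 : y.unop ∈ unopI I hI' := hy
      rw [hbot, Submodule.mem_bot] at h2
      rw [← MulOpposite.unop_inj]
      exact h2
    have h2 : TS (unopI I hI') := by
      intro y hy r
      rw [mem_unopI] at hy ⊢
      rw [MulOpposite.op_mul]
      exact I.mul_mem_left _ hy
    have h3 := h.least _ h2 h1 x.unop ((mem_jacobson _).mp (unop_mem_jacobson hx))
    exact h3
  · exact Set.Finite.of_injOn hmaps hinj h.finite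
  · exact (Set.ncard_le_ncard_of_injOn f hmaps hinj h.finite).trans h.card

/-- finite generation transports to the double opposite -/
lemma fg_opOp (h : (Ring.jacobson R).FG) : (Ring.jacobson Rᵐᵒᵖᵐᵒᵖ).FG := by
  have h1 : Ring.jacobson Rᵐᵒᵖᵐᵒᵖ
      = Ideal.map (RingEquiv.opOp R : R →+* Rᵐᵒᵖᵐᵒᵖ) (Ring.jacobson R) := by
    apply le_antisymm
    · intro x hx
      have h2 : x.unop.unop ∈ Ring.jacobson R := unop_mem_jacobson (unop_mem_jacobson hx)
      exact Ideal.mem_map_of_mem (RingEquiv.opOp R : R →+* Rᵐᵒᵖᵐᵒᵖ) h2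
    · rw [Ideal.map_le_iff_le_comap]
      intro x hx
      exact op_mem_jacobson (op_mem_jacobson hx)
  rw [h1]
  exact Ideal.FG.map h _

end

/-- sufficiency, in every universe -/
theorem rightAdmissible_of_prod {A : Type u} [Ring A] (h : IsProdChain A) :
    RightAdmissible.{u, v} A := by
  obtain ⟨n, R, _, ⟨e⟩, hR⟩ := h
  intro M _ _
  exact endo_of_pi R e hR M

theorem RightAdmissible.adm {A : Type u} [Ring A] (h : RightAdmissible.{u, u} A) : Adm Aᵐᵒᵖ := by
  intro M _ _
  exact h M

/-- countable rings -/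
theorem countable_iff {A : Type u} [Ring A] [Countable A] :
    RightAdmissible.{u, u} A ↔ IsProdChain A := by
  constructor
  · intro h
    have hc : Countable Aᵐᵒᵖ := MulOpposite.unop_injective.countable
    exact IsProdChain.of_op h.adm.product_of_countable
  · exact rightAdmissible_of_prod

/-- the general reduction -/
theorem reduction {A : Type u} [Ring A] (h : RightAdmissible.{u, u} A) :
    IsProdChain A ∨
      ((∃ x ∈ Ring.jacobson A, ¬ IsNilpotent x) ∧
        ¬ (Ring.jacobson A).FG ∧ ¬ (Ring.jacobson Aᵐᵒᵖ).FG ∧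
        (∀ x ∈ Ring.jacobson A, ((∀ y, ∃ z, x * y = z * x) ∨ (∀ y, ∃ z, y * x = x * z)) →
          IsNilpotent x) ∧
        ∃ (R : Type u) (_ : Ring R) (φ : A →+* R),
          IsRingEpi φ ∧ RightAdmissible.{u, u} R ∧ IsExotic R) := by
  have hA := h.adm
  have hnp : ∀ x : Aᵐᵒᵖ, IsNilpotent x.unop → IsNilpotent x := by
    rintro x ⟨n, hn⟩
    exact ⟨n, by rw [← MulOpposite.unop_inj, MulOpposite.unop_pow, hn, MulOpposite.unop_zero]⟩
  have hnp' : ∀ x : Aᵐᵒᵖ, IsNilpotent x → IsNilpotent x.unop := by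
    rintro x ⟨n, hn⟩
    exact ⟨n, by rw [← MulOpposite.unop_pow, hn, MulOpposite.unop_zero]⟩
  by_cases hnil : ∀ x ∈ Ring.jacobson A, IsNilpotent x
  · left
    apply IsProdChain.of_op
    apply hA.product
    intro x hx
    apply hnp
    apply hnil
    exact unop_mem_jacobson ((mem_jacobson x).mpr hx)
  · right
    refine ⟨?_, ?_, ?_, ?_, ?_⟩
    · push Not at hnil
      exact hnil
    · intro hfg
      apply hnil
      intro x hx
      have h1 := hA.nil_of_fg_right (fg_opOp hfg) (MulOpposite.op x) (op_mem_jacobson hx)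
      exact hnp' _ h1
    · intro hfg
      apply hnil
      intro x hx
      have h1 := hA.nil_of_fg_left hfg (MulOpposite.op x) (op_mem_jacobson hx)
      exact hnp' _ h1
    · rintro x hx (h1 | h1)
      · apply hnp' (MulOpposite.op x)
        apply hA.nil_of_left_half ((mem_jacobson _).mp (op_mem_jacobson hx))
        intro y
        obtain ⟨z, hz⟩ := h1 y.unop
        refine ⟨MulOpposite.op z, ?_⟩
        rw [← MulOpposite.unop_inj]
        simpa using hz
      · apply hnp' (MulOpposite.op x)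
        apply hA.nil_of_right_half ((mem_jacobson _).mp (op_mem_jacobson hx))
        intro y
        obtain ⟨z, hz⟩ := h1 y.unop
        refine ⟨MulOpposite.op z, ?_⟩
        rw [← MulOpposite.unop_inj]
        simpa using hz
    · have hnon : NonNil Aᵐᵒᵖ := by
        push Not at hnil
        obtain ⟨x, hx, hxn⟩ := hnil
        exact ⟨MulOpposite.op x, (mem_jacobson _).mp (op_mem_jacobson hx),
          fun h1 => hxn (hnp' _ h1)⟩
      obtain ⟨S, _, φ, hφ, hS, hE⟩ := hA.exists_exotic hnon
      refine ⟨Sᵐᵒᵖ, inferInstance, flipHom φ, hφ.epi.flip, ?_, hE.op hS⟩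
      intro M _ _
      exact hS.opOp M

end Pool.Agent.H86.EndoDist
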